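import Pool.Agent.GTW.Targets

/-!
# GTW: composition of the proof
-/

set_option autoImplicit false

open Finset

noncomputable section

namespace Pool.Agent.GTW

theorem transl_of_rho (X : Glued) (σ : D X → ℝ) (h : Scale σ) (h1 : ∀ x : D X, rho σ x = 1) :
    IsTranslation X := by
  have hc : ∀ x : D X, σ (nx x) = σ x := fun x => by rw [sc_nx h, h1, one_mul]
  have hc0 : ∀ (f : X.F) (i : Fin 3), σ (f, i) = σ (f, 0) := by
    intro f i
    have a1 : σ (f, 1) = σ (f, 0) := hc (f, 0)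
    have a2 : σ (f, 2) = σ (f, 1) := hc (f, 1)
    fin_cases i
    · rfl
    · exact a1
    · exact a2.trans a1
  refine ⟨fun f => σ (f, 0), fun f => h.1 _, fun x => ?_⟩
  have h2 := sc_glue h x
  have h3 : σ (X.glue x) = σ ((X.glue x).1, 0) := hc0 (X.glue x).1 (X.glue x).2
  have h4 : σ x = σ (x.1, 0) := hc0 x.1 x.2
  rw [hc x, h3, h4] at h2
  exact h2

theorem h11_main (hK1 : T_K1) (hK2 : T_K2) (hK4 : T_K4) (hK3 : T_K3) (hMID : T_MID)
    (hFIN : T_FIN) (hCLS : T_CLS) (X : Glued) (σ : D X → ℝ) (h : H11 X σ) :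
    IsTranslation X ∨ HasHyperbolic X := by
  obtain ⟨o, o', ho⟩ := h.two
  rcases Nat.lt_or_ge (KK σ o).card 2 with h1 | h1
  · obtain ⟨σ', hs, hr⟩ := hK1 X σ h o (by omega)
    exact Or.inl (transl_of_rho X σ' hs hr)
  · have h2 := hK2 X σ h o
    have h4 := hK4 X σ h o
    have h3 : (KK σ o).card = 3 := by omega
    have h3' : (KK σ o').card = 3 := by
      rw [((hCLS X σ h o).2.2 o' ho).2, h3]
    obtain ⟨c0, c1, c2, x1, x2, hs⟩ := hK3 X σ h o h3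
    obtain ⟨d0, d1, d2, y1, y2, hs'⟩ := hK3 X σ h o' h3'
    obtain ⟨z1, z2, hz⟩ := hMID X σ h o o' ho c0 c1 c2 d0 d1 d2 x1 x2 y1 y2 hs hs'
    exact Or.inr (hFIN X σ h o o' ho c0 c1 c2 x1 x2 z1 z2 hs hz)

theorem main (hSCL : T_SCL) (hCNT : T_CNT) (hONE : T_ONE) (hH2 : T_H2)
    (hK1 : T_K1) (hK2 : T_K2) (hK4 : T_K4) (hK3 : T_K3) (hMID : T_MID)
    (hFIN : T_FIN) (hCLS : T_CLS) (X : Glued) (hX : IsAffine X) (hg : HasGenus X 2)
    (hn : ¬ IsTranslation X) : HasHyperbolic X := by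
  obtain ⟨σ, hs⟩ := hSCL X hX
  by_contra hh
  have hflat : Flat X σ := by
    intro x hx hL
    by_contra hr
    exact hh (hONE X σ hs x hx hL hr)
  rcases hCNT X hX hg with ⟨h1, h2, h3⟩ | ⟨h1, h2, h3, h4⟩
  · exact hn (transl_of_rho X σ hs (hH2 X σ ⟨hs, h1, h2, h3, hflat⟩))
  · rcases h11_main hK1 hK2 hK4 hK3 hMID hFIN hCLS X σ ⟨hs, h1, h2, h3, h4, hflat⟩ with h | h
    · exact hn h
    · exact hh h

end Pool.Agent.GTW
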