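import Pool.Agent.GTW.Targets

set_option autoImplicit false

noncomputable section

namespace Pool.Agent.GTW

theorem P_ARI : T_ARI := by
  intro h0 h' c0 c1 ell u1 u' hh0 hh' hc0 hc1 hell
  obtain ⟨M, hM⟩ := exists_nat_ge ((h0 * u' - h' * u1) / (h' * ell))
  have hM2 : 0 ≤ h' * (u1 + M * ell) - h0 * u' := by
    rw [div_le_iff₀ (by positivity)] at hM
    nlinarith
  have hq : 0 < h0 * c1 := by positivity
  set Q := h' * (u1 + M * ell) - h0 * u' with hQ
  have hQ0 : 0 ≤ Q / (h0 * c1) := div_nonneg hM2 hq.le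
  set j := ⌊Q / (h0 * c1)⌋₊ with hj
  have j1 : (j : ℝ) ≤ Q / (h0 * c1) := Nat.floor_le hQ0
  have j2 : Q / (h0 * c1) < j + 1 := Nat.lt_floor_add_one _
  rw [le_div_iff₀ hq] at j1
  rw [div_lt_iff₀ hq] at j2
  set α := h' * (c1 / c0) + h0 * c1 with hα
  have hα0 : 0 < α := by positivity
  set β := h' + h0 * c1 with hβ
  have hβ0 : 0 < β := by positivity
  set t := min (1 / 2) (h' / (2 * α)) with ht
  have ht0 : 0 < t := lt_min (by norm_num) (by positivity)
  have ht1 : t < 1 := lt_of_le_of_lt (min_le_left _ _) (by norm_num)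
  have ht2 : t * α < h' := by
    have : t ≤ h' / (2 * α) := min_le_right _ _
    rw [le_div_iff₀ (by positivity)] at this
    nlinarith
  have htα : 0 < t * α := by positivity
  refine ⟨M, j, (Q - j * (h0 * c1) + t * α) / β, t, ?_, ?_, ht0, ht1, ?_⟩
  · apply div_pos _ hβ0
    linarith
  · rw [div_lt_one hβ0]
    linarith
  · have hs : (Q - j * (h0 * c1) + t * α) / β * β = Q - j * (h0 * c1) + t * α :=
      div_mul_cancel₀ _ hβ0.ne'
    set s := (Q - j * (h0 * c1) + t * α) / β with hsdef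
    rw [hβ, hQ, hα] at hs
    linarith

end Pool.Agent.GTW
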