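import Pool.Agent.GTW.Targets

/-!
# GTW: the classes at the two vertices
-/

set_option autoImplicit false

open Finset

noncomputable section

namespace Pool.Agent.GTW

namespace CLS_

theorem inv_mem {X : Glued} {σ : D X → ℝ} (H : H11 X σ) {o o' : D X}
    (ho : ¬ (rot X).SameCycle o o') {c : ℝ} (hc : c ∈ KK σ o) : c⁻¹ ∈ KK σ o' := by
  classical
  rw [KK, Finset.mem_image] at hc ⊢
  obtain ⟨y, hy, rfl⟩ := hc
  rw [Finset.mem_filter] at hy
  obtain ⟨-, hoy, hl⟩ := hy
  refine ⟨X.glue y, ?_, rho_glue H.sc y⟩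
  rw [Finset.mem_filter]
  refine ⟨Finset.mem_univ _, ?_, fun h => hl ((loop_glue y).1 h)⟩
  rcases H.three o o' (X.glue y) with h | h | h
  · exact absurd h ho
  · exact absurd (hoy.symm.trans h) hl
  · exact h

end CLS_

theorem P_CLS (h_NL : T_NL) : T_CLS := by
  classical
  intro X σ H o
  refine ⟨?_, ?_, ?_⟩
  · intro x hx
    rw [MM, Finset.mem_filter] at hx
    obtain ⟨-, hox, hl, hp⟩ := hx
    rw [KK, Finset.mem_image]
    refine ⟨nx x, ?_, rfl⟩
    rw [Finset.mem_filter]
    exact ⟨Finset.mem_univ _, hox.trans ((loop_iff x).1 hl), (h_NL X σ H x).2.2.2.1 hl hp⟩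
  · intro c hc
    rw [KK, Finset.mem_image] at hc
    obtain ⟨y, -, rfl⟩ := hc
    exact rho_pos H.sc y
  · intro o' ho
    have ho' : ¬ (rot X).SameCycle o' o := fun h => ho h.symm
    have key : ∀ c : ℝ, c ∈ KK σ o ↔ c⁻¹ ∈ KK σ o' := by
      intro c
      refine ⟨CLS_.inv_mem H ho, fun h => ?_⟩
      have := CLS_.inv_mem H ho' h
      rwa [inv_inv] at this
    refine ⟨key, ?_⟩
    have him : KK σ o' = (KK σ o).image (fun c => c⁻¹) := by
      ext c
      rw [Finset.mem_image]
      constructor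
      · intro h
        exact ⟨c⁻¹, (key _).2 (by rwa [inv_inv]), inv_inv c⟩
      · rintro ⟨d, hd, rfl⟩
        exact (key d).1 hd
    rw [him, Finset.card_image_of_injective _ inv_injective]

end Pool.Agent.GTW
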