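import Pool.Agent.GTW.Targets

/-!
# GTW: the two strata of genus 2 (T_CNT)
-/

set_option autoImplicit false

open Finset

noncomputable section

namespace Pool.Agent.GTW

namespace CNT_

variable {X : Glued}

theorem tot_congr {x y : D X} (h : (rot X).SameCycle x y) : tot x = tot y := by
  classical
  unfold tot
  apply Finset.sum_congr _ (fun _ _ => rfl)
  ext z
  simp only [mem_filter, mem_univ, true_and]
  exact ⟨fun hz => h.symm.trans hz, fun hz => h.trans hz⟩

theorem sum_th (hT : T_TRI) (X : Glued) :
    ∑ x : D X, th x = Real.pi * (Fintype.card X.F : ℝ) := by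
  have h1 : ∑ x : D X, th x = ∑ f : X.F, ∑ i : Fin 3, th ((f, i) : D X) :=
    Fintype.sum_prod_type _
  rw [h1]
  have h2 : ∀ f : X.F, ∑ i : Fin 3, th ((f, i) : D X) = Real.pi := by
    intro f
    rw [Fin.sum_univ_three]
    exact hT X (f, 0)
  rw [Finset.sum_congr rfl fun f _ => h2 f]
  simp [mul_comm]

theorem card_even (X : Glued) : 2 ∣ Fintype.card (D X) := by
  have h : ∑ x : D X, (1 : ZMod 2) = 0 := by
    refine Finset.sum_involution (fun x _ => X.glue x) ?_ ?_ ?_ ?_
    · intro x _
      decide
    · intro x _ _
      exact X.glue_ne x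
    · intro x _
      exact mem_univ _
    · intro x _
      exact X.glue_glue x
  simp only [sum_const, card_univ, nsmul_eq_mul, mul_one] at h
  exact (ZMod.natCast_eq_zero_iff _ _).1 h

end CNT_

open CNT_ in
theorem P_CNT (hT : T_TRI) : T_CNT := by
  classical
  intro X hA hG
  let s := Equiv.Perm.SameCycle.setoid (rot X)
  let Q := Quotient s
  have hmk : ∀ x y : D X, (Quotient.mk s x = Quotient.mk s y) ↔ (rot X).SameCycle x y := by
    intro x y
    exact ⟨fun h => Quotient.exact h, fun h => Quotient.sound h⟩
  letI : Fintype Q := Fintype.ofFinite _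
  have hV : numV X = Fintype.card Q := Nat.card_eq_fintype_card
  have hout : ∀ q : Q, Quotient.mk s q.out = q := fun q => Quotient.out_eq q
  have hfib : ∑ q : Q, tot q.out = ∑ x : D X, th x := by
    rw [← Finset.sum_fiberwise (s := (univ : Finset (D X))) (g := fun x => Quotient.mk s x)
      (f := fun x => th x)]
    apply Finset.sum_congr rfl
    intro q _
    unfold tot
    apply Finset.sum_congr _ (fun _ _ => rfl)
    ext z
    simp only [mem_filter, mem_univ, true_and]
    rw [← hmk, hout, eq_comm]
  have hlow : ∀ x : D X, 4 * Real.pi ≤ tot x := by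
    intro x
    obtain ⟨k, hk, hk2⟩ := hA.cone x
    rw [hk2]
    have : (2 : ℝ) ≤ k := by exact_mod_cast hk
    nlinarith [Real.pi_pos]
  have hF : ∑ q : Q, tot q.out = Real.pi * (Fintype.card X.F : ℝ) := by
    rw [hfib, sum_th hT]
  have hge : (Fintype.card Q : ℝ) * (4 * Real.pi) ≤ Real.pi * (Fintype.card X.F : ℝ) := by
    rw [← hF]
    calc (Fintype.card Q : ℝ) * (4 * Real.pi) = ∑ q : Q, 4 * Real.pi := by simp
      _ ≤ _ := Finset.sum_le_sum fun q _ => hlow _
  have hge' : 4 * Fintype.card Q ≤ Fintype.card X.F := by
    have : (4 * Fintype.card Q : ℝ) ≤ Fintype.card X.F := by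
      have hp := Real.pi_pos
      by_contra hc
      push Not at hc
      nlinarith
    exact_mod_cast this
  have hD : Fintype.card (D X) = 3 * Fintype.card X.F := by
    rw [Fintype.card_prod, Fintype.card_fin, mul_comm]
  have hev := card_even X
  have heq : Fintype.card X.F = 2 * Fintype.card Q + 4 := by
    unfold HasGenus at hG
    rw [hV, hD] at hG
    rw [hD] at hev
    push_cast at hG
    omega
  have hne : Nonempty Q := by
    obtain ⟨f⟩ := hA.nonempty
    exact ⟨Quotient.mk s ((f, 0) : D X)⟩
  have hpos : 0 < Fintype.card Q := Fintype.card_pos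
  have hcases : Fintype.card Q = 1 ∨ Fintype.card Q = 2 := by omega
  rcases hcases with h1 | h2
  · left
    have hsub : Subsingleton Q := Fintype.card_le_one_iff_subsingleton.1 h1.le
    have hall : ∀ x y : D X, (rot X).SameCycle x y := fun x y => (hmk x y).1 (Subsingleton.elim _ _)
    refine ⟨by omega, ?_, hall⟩
    intro x
    have hx : tot x = ∑ y : D X, th y := by
      unfold tot
      apply Finset.sum_congr _ (fun _ _ => rfl)
      ext z
      simp [hall]
    rw [hx, sum_th hT]
    have : Fintype.card X.F = 6 := by omega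
    rw [this]
    push_cast
    ring
  · right
    have hF8 : Fintype.card X.F = 8 := by omega
    refine ⟨hF8, ?_, ?_, ?_⟩
    · intro x
      have hz : ∑ q : Q, (tot q.out - 4 * Real.pi) = 0 := by
        rw [Finset.sum_sub_distrib, hF, hF8]
        simp only [sum_const, card_univ, h2, nsmul_eq_mul]
        push_cast
        ring
      have h0 := (Finset.sum_eq_zero_iff_of_nonneg (fun q _ => sub_nonneg.2 (hlow q.out))).1 hz
        (Quotient.mk s x) (mem_univ _)
      have h3 : (rot X).SameCycle (Quotient.mk s x).out x := (hmk _ _).1 (hout _)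
      rw [tot_congr h3] at h0
      linarith
    · intro x y z
      by_contra hc
      push Not at hc
      obtain ⟨a, b, c⟩ := hc
      rw [← hmk] at a b c
      have : 2 < Fintype.card Q := by
        rw [Fintype.two_lt_card_iff]
        exact ⟨_, _, _, a, b, c⟩
      omega
    · have h5 : 1 < Fintype.card Q := by omega
      obtain ⟨a, b, hab⟩ := Fintype.one_lt_card_iff.1 h5
      refine ⟨a.out, b.out, ?_⟩
      rw [← hmk, hout, hout]
      exact hab

end Pool.Agent.GTW
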