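import Pool.Agent.GTW.Targets

set_option autoImplicit false

open Finset

noncomputable section

namespace Pool.Agent.GTW

variable {X : Glued}

namespace COUNT_

theorem three_or {L a : ℝ} (h : L = Real.pi ∨ L = 3 * Real.pi) (e : L = a) :
    a = Real.pi ∨ a = 3 * Real.pi := e ▸ h

open Classical in
/-- the number of angles `3π` in the triangle `f` -/
def gg (f : X.F) : ℕ := ∑ i : Fin 3, if L ((f, i) : D X) = 3 * Real.pi then 1 else 0

theorem L_eq {x : D X} (h : L x = Real.pi ∨ L x = 3 * Real.pi) :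
    L x = Real.pi + 2 * Real.pi * ((open Classical in if L x = 3 * Real.pi then 1 else 0 : ℕ) : ℝ) := by
  classical
  have hp := Real.pi_pos
  rcases h with h | h
  · have : ¬ L x = 3 * Real.pi := by rw [h]; intro h2; linarith
    rw [if_neg this, h]; simp
  · rw [if_pos h, h]; push_cast; ring

theorem memMM {o x : D X} : x ∈ MM o ↔ (rot X).SameCycle o x ∧ loop x ∧ ¬ loop (pv x) := by
  classical
  unfold MM
  simp

theorem memPU {o x : D X} : x ∈ PU o ↔ (rot X).SameCycle o x ∧ loop x ∧ loop (pv x) := by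
  classical
  unfold PU
  simp

theorem PU_nx {σ : D X → ℝ} (hNL : T_NL) (H : H11 X σ) {o x : D X} (hx : x ∈ PU o) :
    nx x ∈ PU o := by
  rw [memPU] at hx ⊢
  obtain ⟨h1, h2, h3⟩ := hx
  have h4 := (hNL X σ H x).2.2.2.2.1 h2 h3
  refine ⟨h1.trans ((loop_iff x).1 h2), h4, ?_⟩
  rw [pv_nx]
  exact h2

theorem PU_all {σ : D X → ℝ} (hNL : T_NL) (H : H11 X σ) {o x : D X} (hx : x ∈ PU o)
    (i : Fin 3) : ((x.1, i) : D X) ∈ PU o := by
  rcases eq_or x (x.1, i) rfl with h | h | h
  · rw [h]; exact hx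
  · rw [h]; exact PU_nx hNL H hx
  · rw [h, ← nx_nx]; exact PU_nx hNL H (PU_nx hNL H hx)

theorem PU_prod {σ : D X → ℝ} (hNL : T_NL) (H : H11 X σ) (o : D X) :
    PU o = ((PU o).image Prod.fst) ×ˢ (univ : Finset (Fin 3)) := by
  ext ⟨f, i⟩
  rw [Finset.mem_product]
  simp only [Finset.mem_image, Finset.mem_univ, and_true]
  constructor
  · intro h
    exact ⟨(f, i), h, rfl⟩
  · rintro ⟨x, hx, rfl⟩
    exact PU_all hNL H hx i

theorem PU_sum {σ : D X → ℝ} (hNL : T_NL) (H : H11 X σ) (o : D X) {M : Type}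
    [AddCommMonoid M] (g : D X → M) :
    ∑ x ∈ PU o, g x = ∑ f ∈ (PU o).image Prod.fst, ∑ i : Fin 3, g (f, i) := by
  conv_lhs => rw [PU_prod hNL H o]
  rw [Finset.sum_product]

theorem gg_odd {σ : D X → ℝ} (hLRI : T_LRI) (hLP : T_LP) (hNL : T_NL) (H : H11 X σ)
    {o : D X} {f : X.F} (hf : f ∈ (PU o).image Prod.fst) : gg f = 1 ∨ gg f = 3 := by
  classical
  have hp := Real.pi_pos
  obtain ⟨x, hx, rfl⟩ := Finset.mem_image.1 hf
  have hl : ∀ i : Fin 3, loop ((x.1, i) : D X) := fun i => (memPU.1 (PU_all hNL H hx i)).2.1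
  have h0 := hLRI X (x.1, 0) (hl 0) (hl 1) (hl 2)
  obtain ⟨j, hj⟩ := h0
  have e1 : nx ((x.1, 0) : D X) = (x.1, 1) := rfl
  have e2 : pv ((x.1, 0) : D X) = (x.1, 2) := rfl
  rw [e1, e2, H.tot_eq, L_eq (hLP X σ H _ (hl 0)).2.1, L_eq (hLP X σ H _ (hl 1)).2.1,
    L_eq (hLP X σ H _ (hl 2)).2.1] at hj
  have h3 : gg x.1 = (if L ((x.1, 0) : D X) = 3 * Real.pi then 1 else 0) +
      (if L ((x.1, 1) : D X) = 3 * Real.pi then 1 else 0) +
      (if L ((x.1, 2) : D X) = 3 * Real.pi then 1 else 0) := by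
    unfold gg
    rw [Fin.sum_univ_three]
  set a : ℕ := if L ((x.1, 0) : D X) = 3 * Real.pi then 1 else 0 with ha
  set b : ℕ := if L ((x.1, 1) : D X) = 3 * Real.pi then 1 else 0 with hb
  set c : ℕ := if L ((x.1, 2) : D X) = 3 * Real.pi then 1 else 0 with hc
  have ha1 : a ≤ 1 := by rw [ha]; split_ifs <;> omega
  have hb1 : b ≤ 1 := by rw [hb]; split_ifs <;> omega
  have hc1 : c ≤ 1 := by rw [hc]; split_ifs <;> omega
  have h4 : Real.pi * (2 * (a + b + c) + 2) = Real.pi * (4 * (j : ℝ)) := by linarith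
  have h5 := mul_left_cancel₀ hp.ne' h4
  have h6 : (2 * ((a : ℤ) + b + c) + 2) = 4 * j := by exact_mod_cast h5
  rw [h3]
  omega

end COUNT_

open COUNT_ in
theorem P_COUNT (hKAC : T_KAC) (hLRI : T_LRI) (hLP : T_LP) (hNL : T_NL) (hTRI : T_TRI)
    (hSUMA : T_SUMA) (hPHI : T_PHI) : T_COUNT := by
  classical
  intro X σ H o hne
  have hp := Real.pi_pos
  set T : Finset X.F := (PU o).image Prod.fst with hT
  set t := T.card with ht
  set b := (T.filter fun f => gg f = 3).card with hb
  obtain ⟨n, hn, -⟩ := hSUMA X σ H o (MM o) (Finset.Subset.refl _)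
    (fun x hx => ((hPHI X σ H o).1 x hx).1)
  -- pure triangles
  have c1 : (PU o).card = 3 * t := by
    rw [PU_prod hNL H o, Finset.card_product, ← hT, ← ht]
    simp [mul_comm]
  have c2 : ((PU o).filter fun x => L x = 3 * Real.pi).card = t + 2 * b := by
    rw [Finset.card_filter, PU_sum hNL H o]
    have h1 : ∀ f ∈ T, (∑ i : Fin 3, if L ((f, i) : D X) = 3 * Real.pi then 1 else 0) =
        1 + 2 * (if gg f = 3 then 1 else 0) := by
      intro f hf
      have h2 := gg_odd hLRI hLP hNL H hf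
      have h3 : (∑ i : Fin 3, if L ((f, i) : D X) = 3 * Real.pi then 1 else 0) = gg f := rfl
      rw [h3]
      rcases h2 with h2 | h2 <;> rw [h2] <;> simp
    rw [Finset.sum_congr rfl h1, Finset.sum_add_distrib, ← Finset.mul_sum,
      ← Finset.card_filter, ← hb]
    simp [ht]
  -- all loops at `o`
  set LO : Finset (D X) := univ.filter fun x => (rot X).SameCycle o x ∧ loop x with hLO
  have hdisj : Disjoint (MM o) (PU o) := by
    rw [Finset.disjoint_left]
    intro x h1 h2
    exact (memMM.1 h1).2.2 (memPU.1 h2).2.2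
  have hunion : LO = MM o ∪ PU o := by
    ext x
    rw [Finset.mem_union, memMM, memPU, hLO, Finset.mem_filter]
    constructor
    · rintro ⟨-, h1, h2⟩
      by_cases h3 : loop (pv x)
      · exact Or.inr ⟨h1, h2, h3⟩
      · exact Or.inl ⟨h1, h2, h3⟩
    · rintro (⟨h1, h2, h3⟩ | ⟨h1, h2, h3⟩)
      · exact ⟨Finset.mem_univ _, h1, h2⟩
      · exact ⟨Finset.mem_univ _, h1, h2⟩
  have hglue : ∀ x ∈ LO, X.glue x ∈ LO := by
    intro x hx
    rw [hLO, Finset.mem_filter] at hx ⊢
    obtain ⟨-, h1, h2⟩ := hx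
    exact ⟨Finset.mem_univ _, h1.trans h2, (loop_glue x).2 h2⟩
  have hLval : ∀ x ∈ LO, L x = Real.pi ∨ L x = 3 * Real.pi := by
    intro x hx
    rw [hLO, Finset.mem_filter] at hx
    exact (hLP X σ H x hx.2.2).2.1
  have hLsum : ∀ x ∈ LO, L x + L (X.glue x) = 4 * Real.pi := by
    intro x hx
    rw [hLO, Finset.mem_filter] at hx
    exact (hLP X σ H x hx.2.2).2.2
  have c3 : (LO.filter fun x => L x = 3 * Real.pi).card =
      (LO.filter fun x => ¬ L x = 3 * Real.pi).card := by
    refine Finset.card_bij (fun x _ => X.glue x) ?_ ?_ ?_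
    · intro x hx
      rw [Finset.mem_filter] at hx ⊢
      refine ⟨hglue x hx.1, fun h => ?_⟩
      have := hLsum x hx.1
      rw [hx.2, h] at this
      linarith
    · intro x _ y _ h
      exact glue_inj h
    · intro y hy
      rw [Finset.mem_filter] at hy
      refine ⟨X.glue y, ?_, X.glue_glue y⟩
      rw [Finset.mem_filter]
      refine ⟨hglue y hy.1, ?_⟩
      have h1 := hLsum y hy.1
      rcases hLval y hy.1 with h2 | h2
      · rw [h2] at h1
        linarith
      · exact absurd h2 hy.2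
  have c4 : (LO.filter fun x => L x = 3 * Real.pi).card +
      (LO.filter fun x => ¬ L x = 3 * Real.pi).card = LO.card :=
    Finset.card_filter_add_card_filter_not _
  have c5 : LO.card = (MM o).card + (PU o).card := by
    rw [hunion, Finset.card_union_of_disjoint hdisj]
  have c6 : (LO.filter fun x => L x = 3 * Real.pi).card =
      ((MM o).filter fun x => L x = 3 * Real.pi).card +
        ((PU o).filter fun x => L x = 3 * Real.pi).card := by
    rw [hunion, Finset.filter_union, Finset.card_union_of_disjoint]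
    exact Finset.disjoint_filter_filter hdisj
  -- the arcs
  have k1 : ∑ x ∈ LO, arc (SL X) x = 4 * Real.pi := by
    have h1 := hKAC (D X) (rot X) (SL X) (univ.filter fun x => (rot X).SameCycle o x) th
      (by
        intro x
        simp only [Finset.mem_filter, Finset.mem_univ, true_and]
        exact Equiv.Perm.sameCycle_apply_right.symm)
      (by
        intro x hx
        simp only [Finset.mem_filter, Finset.mem_univ, true_and] at hx
        obtain ⟨z, hz⟩ := hne
        have h2 := memMM.1 hz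
        obtain ⟨i, -, hi⟩ := (hx.symm.trans h2.1).exists_pow_eq'
        exact ⟨i, by rw [hi]; exact h2.2.1⟩)
    have h2 : (∑ x ∈ univ.filter fun x => (rot X).SameCycle o x, th x) = tot o := by
      unfold tot
      rfl
    rw [h2, H.tot_eq] at h1
    rw [← h1]
    refine Finset.sum_congr ?_ fun x _ => rfl
    ext x
    simp only [hLO, Finset.mem_filter, Finset.mem_univ, true_and]
    rfl
  have k2 : ∑ x ∈ LO, arc (SL X) x = ∑ x ∈ MM o, arc (SL X) x + ∑ x ∈ PU o, arc (SL X) x := by
    rw [hunion, Finset.sum_union hdisj]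
  have k3 : ∀ x ∈ PU o, arc (SL X) x = th x := by
    intro x hx
    have h1 := memPU.1 hx
    have h2 : fr (SL X) x = 1 := by
      unfold fr
      refine le_antisymm (Nat.sInf_le ⟨le_refl 1, ?_⟩) ?_
      · rw [pow_one, rot_apply]
        exact (loop_glue (pv x)).2 h1.2.2
      · have h3 : (1 : ℕ) ∈ {m : ℕ | 1 ≤ m ∧ ((rot X) ^ m) x ∈ SL X} := by
          refine ⟨le_refl 1, ?_⟩
          rw [pow_one, rot_apply]
          exact (loop_glue (pv x)).2 h1.2.2
        exact (Nat.sInf_mem ⟨1, h3⟩).1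
    unfold arc A
    rw [h2]
    simp
  have k4 : ∑ x ∈ PU o, arc (SL X) x = Real.pi * t := by
    rw [Finset.sum_congr rfl k3, PU_sum hNL H o]
    have h1 : ∀ f ∈ T, (∑ i : Fin 3, th ((f, i) : D X)) = Real.pi := by
      intro f _
      rw [Fin.sum_univ_three]
      exact hTRI X (f, 0)
    rw [Finset.sum_congr rfl h1, Finset.sum_const, nsmul_eq_mul, mul_comm]
  -- the sum of `L`
  have k5 : ∑ x ∈ MM o, L x = Real.pi * (MM o).card +
      2 * Real.pi * ((MM o).filter fun x => L x = 3 * Real.pi).card := by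
    have h1 : ∀ x ∈ MM o, L x = Real.pi + 2 * Real.pi *
        ((if L x = 3 * Real.pi then 1 else 0 : ℕ) : ℝ) := by
      intro x hx
      exact L_eq (hLP X σ H x (memMM.1 hx).2.1).2.1
    rw [Finset.sum_congr rfl h1, Finset.sum_add_distrib, ← Finset.mul_sum, Finset.sum_const,
      nsmul_eq_mul, Finset.card_filter]
    push_cast
    ring
  have k6 : ((MM o).card : ℝ) + 2 * (((MM o).filter fun x => L x = 3 * Real.pi).card : ℝ) + t =
      4 * n + 4 := by
    rw [Finset.sum_sub_distrib, k5] at hn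
    have h1 : ∑ x ∈ MM o, arc (SL X) x = 4 * Real.pi - Real.pi * t := by linarith
    rw [h1] at hn
    have h2 : Real.pi * (((MM o).card : ℝ) +
        2 * (((MM o).filter fun x => L x = 3 * Real.pi).card : ℝ) + t) =
        Real.pi * (4 * n + 4) := by linarith
    exact mul_left_cancel₀ hp.ne' h2
  have k7 : (MM o).card + 2 * ((MM o).filter fun x => L x = 3 * Real.pi).card + t =
      4 * n + 4 := by exact_mod_cast k6
  have hbt : b ≤ t := Finset.card_filter_le _ _
  refine ⟨n, t, b, hbt, c1, ?_, hn, ?_, c2⟩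
  · omega
  · have h1 : ((MM o).filter fun x => L x = 3 * Real.pi).card + b = n + 1 := by omega
    exact h1

end Pool.Agent.GTW
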