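import Pool.Agent.GTW.Targets

/-!
# GTW: target DIR (directions after the rotation by `m` corners)
-/

set_option autoImplicit false

open Finset

noncomputable section

namespace Pool.Agent.GTW

variable {X : Glued}

/-- one corner -/
theorem DIR_one {σ : D X → ℝ} (h : Scale σ) (x : D X) :
    ∃ r : ℝ, 0 < r ∧ w σ (rot X x) = (r : ℂ) * Complex.exp ((th x : ℝ) * Complex.I) * w σ x := by
  have hz : -(X.v (pv x)) / X.v x ≠ 0 := div_ne_zero (neg_ne_zero.2 (v_ne _)) (v_ne _)
  refine ⟨‖-(X.v (pv x)) / X.v x‖, norm_pos_iff.2 hz, ?_⟩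
  have h1 : (‖-(X.v (pv x)) / X.v x‖ : ℂ) * Complex.exp ((th x : ℝ) * Complex.I) =
      -(X.v (pv x)) / X.v x := Complex.norm_mul_exp_arg_mul_I _
  rw [h1, w_rot h, w, div_mul_eq_mul_div, eq_div_iff (v_ne x)]
  ring

theorem P_DIR : T_DIR := by
  intro X σ h x m
  induction m with
  | zero => exact ⟨1, one_pos, by simp [A]⟩
  | succ m ih =>
    obtain ⟨r, hr, h1⟩ := ih
    obtain ⟨s, hs, h2⟩ := DIR_one h (((rot X) ^ m) x)
    refine ⟨s * r, mul_pos hs hr, ?_⟩
    have h3 : ((rot X) ^ (m + 1)) x = rot X (((rot X) ^ m) x) := by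
      rw [pow_succ']
      rfl
    have h4 : A x (m + 1) = A x m + th (((rot X) ^ m) x) := Finset.sum_range_succ _ _
    rw [h3, h2, h1, h4]
    push_cast
    rw [add_mul, Complex.exp_add]
    ring

end Pool.Agent.GTW
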