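import Pool.Agent.GTW.Targets

/-!
# GTW: the outer cylinders
-/

set_option autoImplicit false

open Finset

noncomputable section

namespace Pool.Agent.GTW

namespace FAN_

variable {X : Glued} {σ : D X → ℝ}

theorem ne_rot (h : Scale σ) (x : D X) : rot X x ≠ nx x := by
  intro he
  have h1 := w_rot h x
  rw [he, w] at h1
  have hp := crs_pos (nx x)
  rw [nx_nx, crs_eq] at hp
  have hr := congrArg Complex.re h1
  have hi := congrArg Complex.im h1
  simp only [Complex.neg_re, Complex.neg_im, Complex.re_ofReal_mul, Complex.im_ofReal_mul]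
    at hr hi
  have hs := h.1 x
  have h2 : σ x * ((X.v (nx x)).re * (X.v (pv x)).im - (X.v (nx x)).im * (X.v (pv x)).re) = 0 := by
    have e1 : σ x * (X.v (pv x)).im = -(σ (nx x) * (X.v (nx x)).im) := by linarith
    have e2 : σ x * (X.v (pv x)).re = -(σ (nx x) * (X.v (nx x)).re) := by linarith
    linear_combination (X.v (nx x)).re * e1 - (X.v (nx x)).im * e2
  exact absurd h2 (mul_pos hs hp).ne'

theorem mem_MM {o x : D X} : x ∈ MM o ↔ (rot X).SameCycle o x ∧ loop x ∧ ¬ loop (pv x) := by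
  classical
  unfold MM
  simp

theorem mem_MC {o x : D X} {c : ℝ} : x ∈ MC σ o c ↔ x ∈ MM o ∧ rho σ (nx x) = c := by
  classical
  unfold MC
  simp

theorem pow_cyc (o x : D X) (k : ℕ) (h : (rot X).SameCycle o x) :
    (rot X).SameCycle o (((rot X) ^ k) x) :=
  Equiv.Perm.sameCycle_pow_right.2 h

/-- an intermediate dart of the fan -/
theorem mid (h_NL : T_NL) (h_LP : T_LP) (H : H11 X σ) {o o' : D X}
    (ho : ¬ (rot X).SameCycle o o') {c : ℝ} {y z : D X} (hy : (rot X).SameCycle o y)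
    (hl : ¬ loop y) (hl' : ¬ loop (rot X y)) (hc : rho σ y = c)
    (hz : ∀ x : D X, x ∈ MC σ o' c⁻¹ ↔ x = z) : y = pv z := by
  have h1 : ¬ loop (pv y) := by
    rw [rot_apply, loop_glue] at hl'
    exact hl'
  have h2 : loop (nx y) := (h_NL X σ H y).2.2.1 hl h1
  have h3 : (rot X).SameCycle o' (nx y) := by
    rcases H.three o o' (nx y) with h | h | h
    · exact absurd h ho
    · exact absurd ((loop_iff y).2 (hy.symm.trans h)) hl
    · exact h
  have h4 : rho σ (nx y) = 1 := (h_LP X σ H (nx y) h2).1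
  have h5 := rho_prod H.sc y
  rw [h4, hc, mul_one] at h5
  have h6 : nx y ∈ MC σ o' c⁻¹ := by
    rw [mem_MC, mem_MM, pv_nx, nx_nx]
    exact ⟨⟨h3, h2, hl⟩, eq_inv_of_mul_eq_one_right h5⟩
  rw [← (hz _).1 h6, pv_nx]

theorem res (h_RES2 : T_RES2) (H : H11 X σ) {o o' : D X}
    (ho : ¬ (rot X).SameCycle o o') {c : ℝ} (hc : 0 < c) {x y : D X}
    (hx : ∀ z : D X, z ∈ MC σ o c ↔ z = x) (hy : ∀ z : D X, z ∈ MC σ o' c⁻¹ ↔ z = y) :
    w σ y = -((c : ℂ) * w σ x) := by
  have h1 := h_RES2 X σ H o o' ho c hc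
  have e1 : MC σ o c = {x} := by
    ext z
    rw [hx, Finset.mem_singleton]
  have e2 : MC σ o' c⁻¹ = {y} := by
    ext z
    rw [hy, Finset.mem_singleton]
  rw [e1, e2, Finset.sum_singleton, Finset.sum_singleton] at h1
  have hc' : (c : ℂ) ≠ 0 := by exact_mod_cast hc.ne'
  have h2 : (c : ℂ) * (w σ x + ((c⁻¹ : ℝ) : ℂ) * w σ y) = 0 := by rw [h1, mul_zero]
  rw [mul_add, ← mul_assoc, Complex.ofReal_inv, mul_inv_cancel₀ hc', one_mul] at h2
  linear_combination h2

end FAN_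

open FAN_ in
theorem P_FAN (h_PHI : T_PHI) (h_NL : T_NL) (h_LP : T_LP) (h_RES2 : T_RES2) (h_CLS : T_CLS) :
    T_FAN := by
  intro X σ H o o' ho c0 c1 c2 x1 x2 y1 y2 hA hB
  have hc1 : 0 < c1 := (h_CLS X σ H o).2.1 c1 ((hA.kk c1).2 (Or.inr (Or.inl rfl)))
  have hc2 : 0 < c2 := (h_CLS X σ H o).2.1 c2 ((hA.kk c2).2 (Or.inr (Or.inr rfl)))
  have hx1 : x1 ∈ MM o := (hA.mm x1).2 (Or.inl rfl)
  have hm := mem_MM.1 hx1
  have hcl : rho σ (nx x1) = c1 := (mem_MC.1 ((hA.mc1 x1).2 rfl)).2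
  obtain ⟨-, -, hn2, hrn, hk⟩ := (h_PHI X σ H o).1 x1 hx1
  have hphi : Phi (SL X) x1 = x1 := by
    rw [Phi, hA.zz1, X.glue_glue]
  rw [hphi] at hrn
  have hn3 : 3 ≤ fr (SL X) x1 := by
    by_contra hcon
    have : fr (SL X) x1 = 2 := by omega
    rw [this] at hrn
    exact ne_rot H.sc x1 (by simpa using hrn)
  have key : ∀ k : ℕ, 1 ≤ k → k + 1 < fr (SL X) x1 → ((rot X) ^ k) x1 = pv y1 := by
    intro k h1 h2
    refine mid h_NL h_LP H ho (pow_cyc o x1 k hm.1) (hk k h1 (by omega)).1 ?_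
      ((hk k h1 (by omega)).2.trans hcl) hB.mc1
    have := (hk (k + 1) (by omega) h2).1
    rw [pow_succ', Equiv.Perm.mul_apply] at this
    exact this
  have k1 : rot X x1 = pv y1 := by
    have := key 1 le_rfl (by omega)
    simpa using this
  have hn4 : fr (SL X) x1 = 3 := by
    by_contra hcon
    have h2 := key 2 (by omega) (by omega)
    have h3 : rot X (rot X x1) = rot X x1 := by
      rw [← k1] at h2
      simpa [pow_succ] using h2
    have h4 : rot X x1 = x1 := (rot X).injective h3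
    have h5 := (hk 1 le_rfl (by omega)).1
    rw [pow_one, h4] at h5
    exact h5 hm.2.1
  rw [hn4] at hrn
  refine ⟨k1, ?_, res h_RES2 H ho hc1 hA.mc1 hB.mc1, res h_RES2 H ho hc2 hA.mc2 hB.mc2⟩
  have h6 : rot X (rot X x1) = nx x1 := by simpa [pow_succ] using hrn
  rw [k1, rot_apply, pv_pv] at h6
  exact h6

end Pool.Agent.GTW
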