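import Pool.Agent.GTW.Targets

/-!
# GTW: target FIN (helper75), the hyperbolic geodesic through two cylinders
-/

set_option autoImplicit false

open Finset

noncomputable section

namespace Pool.Agent.GTW

theorem P_FIN (h_S0 : T_S0) (h_S1 : T_S1) (h_ARI : T_ARI) (h_STRIP : T_STRIP) (h_PSC : T_PSC)
    (h_PTH : T_PTH) (h_FAN : T_FAN) (h_CLS : T_CLS) : T_FIN := by
  intro X σ hH o o' hoo c0 c1 c2 x1 x2 y1 y2 hS hS'
  have hsc := hH.sc
  have hc0 : 0 < c0 := (h_CLS X σ hH o).2.1 c0 ((hS.kk c0).2 (Or.inl rfl))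
  have hc1 : 0 < c1 := (h_CLS X σ hH o).2.1 c1 ((hS.kk c1).2 (Or.inr (Or.inl rfl)))
  obtain ⟨hf1, hf2, -, -⟩ := h_FAN X σ hH o o' hoo c0 c1 c2 x1 x2 y1 y2 hS hS'
  obtain ⟨h0, y, B, U, l0, N, ell, hst, hB0, hB1, hy1, hnx, hl0, hell, hM⟩ :=
    h_S0 X σ hH o o' hoo c0 c1 c2 x1 x2 y1 y2 hS hS'
  obtain ⟨h', u', hst'⟩ := h_S1 X σ hH o o' hoo c0 c1 c2 x1 x2 y1 y2 hS hS'
  have hh0 := hst.hpos
  have hh' := hst'.hpos
  obtain ⟨M, j, s, t, hs0, hs1, ht0, ht1, heq⟩ :=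
    h_ARI h0 h' c0 c1 ell (U l0) u' hh0 hh' hc0 hc1 hell
  have he : w σ (X.glue x1) ≠ 0 := w_ne hsc _
  obtain ⟨hm1, hm2, hm3, hm4⟩ := hM M
  have hcc : 0 < c1 / c0 := div_pos hc1 hc0
  have hl : 1 ≤ l0 + N * M := hl0.trans (Nat.le_add_right _ _)
  -- the first strip
  have hP := h_STRIP X σ hsc (w σ (X.glue x1)) h0 c0 y B U he hst hy1 (l0 + N * M) hl hm1
    s (U (l0 + N * M) + t * (c1 / c0)) (by rw [hB0]; exact hs0) (by rw [hB1]; exact hs1)
    (by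
      have := mul_pos ht0 hcc
      linarith)
    (by
      rw [hm4]
      have : t * (c1 / c0) < 1 * (c1 / c0) := mul_lt_mul_of_pos_right ht1 hcc
      linarith)
  rw [hnx, hm2, X.glue_glue, hB0, hB1, hm4, sub_zero, sub_zero, div_one, add_sub_cancel_left,
    add_sub_cancel_left, mul_div_assoc, div_self hcc.ne', mul_one] at hP
  -- the second strip
  have e2 : pv (nx x1) = x1 := pv_nx x1
  have hmod1 : (2 * j + 1) % 2 = 1 := by omega
  have hmod2 : (2 * j + 1 + 1) % 2 = 0 := by omega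
  have hdiv1 : (2 * j + 1) / 2 = j := by omega
  have hdiv2 : (2 * j + 1 + 1) / 2 = j + 1 := by omega
  have key : ∃ (Y : ℕ → D X) (B' U' : ℕ → ℝ), Strip X σ (w σ (X.glue x1)) h' c1⁻¹ Y B' U' ∧
      Y 0 = pv x1 ∧ Y 1 = nx y1 ∧ Y (2 * j + 1) = nx y1 ∧ Y (2 * j + 1 + 1) = pv x1 ∧
      B' 0 = 0 ∧ B' 1 = c1 ∧ U' (2 * j + 1) = u' + j * c1 ∧
      U' (2 * j + 1 + 1) = u' + j * c1 + c1 := by
    refine ⟨_, _, _, hst', rfl, rfl, ?_, ?_, ?_, ?_, ?_, ?_⟩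
    · show (if (2 * j + 1) % 2 = 0 then pv x1 else nx y1) = nx y1
      rw [hmod1]
      rfl
    · show (if (2 * j + 1 + 1) % 2 = 0 then pv x1 else nx y1) = pv x1
      rw [hmod2]
      rfl
    · show (((0 + 1) / 2 : ℕ) : ℝ) * c1 = 0
      norm_num
    · show (((1 + 1) / 2 : ℕ) : ℝ) * c1 = c1
      norm_num
    · show u' + (((2 * j + 1) / 2 : ℕ) : ℝ) * c1 = u' + j * c1
      rw [hdiv1]
    · show u' + (((2 * j + 1 + 1) / 2 : ℕ) : ℝ) * c1 = u' + j * c1 + c1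
      rw [hdiv2]
      push_cast
      ring
  obtain ⟨Y, B', U', hstY, hY0, hY1, hyl, hyl', hB0', hB1', hU1, hU2⟩ := key
  have hP' := h_STRIP X σ hsc (w σ (X.glue x1)) h' c1⁻¹ Y B' U' he hstY
    (by rw [hY1, hY0, hf1, pv_pv]) (2 * j + 1)
    (by omega) (by rw [hyl, hyl', hf2, nx_nx])
    (t * c1) (u' + j * c1 + s * c1) (by rw [hB0']; exact mul_pos ht0 hc1)
    (by
      rw [hB1']
      have : t * c1 < 1 * c1 := mul_lt_mul_of_pos_right ht1 hc1
      linarith)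
    (by
      rw [hU1]
      have := mul_pos hs0 hc1
      linarith)
    (by
      rw [hU2]
      have : s * c1 < 1 * c1 := mul_lt_mul_of_pos_right hs1 hc1
      linarith)
  rw [hyl, hY0, hf1, hf2, e2, nx_pv, hB0', hB1', hU1, hU2, sub_zero, sub_zero,
    mul_div_assoc, div_self hc1.ne', mul_one, add_sub_cancel_left, add_sub_cancel_left,
    mul_div_assoc, div_self hc1.ne', mul_one] at hP'
  -- the directions agree
  have hr : 0 < h0 / h' := div_pos hh0 hh'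
  have hP2 := h_PSC X _ (h0 / h') hr _ _ _ hP'
  have hdir : (((h0 / h' : ℝ) : ℂ)) * ((((u' + j * c1 + s * c1 - t * c1 : ℝ) : ℂ) +
      (h' : ℂ) * Complex.I) * w σ (X.glue x1)) =
      (((U (l0 + N * M) + t * (c1 / c0) - s : ℝ) : ℂ) + (h0 : ℂ) * Complex.I) *
        w σ (X.glue x1) := by
    have hne : h' ≠ 0 := hh'.ne'
    have e3 : h0 / h' * (u' + j * c1 + s * c1 - t * c1) =
        U (l0 + N * M) + t * (c1 / c0) - s := by
      rw [hm3, div_mul_eq_mul_div, ← heq, mul_div_cancel_left₀ _ hne]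
    have e4 : h0 / h' * h' = h0 := div_mul_cancel₀ _ hne
    rw [← mul_assoc, mul_add, ← mul_assoc, ← Complex.ofReal_mul, ← Complex.ofReal_mul, e3, e4]
  rw [hdir] at hP2
  have hT := Pth.trans hP hP2
  have hd : (((U (l0 + N * M) + t * (c1 / c0) - s : ℝ) : ℂ) + (h0 : ℂ) * Complex.I) *
        w σ (X.glue x1) ≠ 0 := by
    refine mul_ne_zero ?_ he
    intro h
    have h1 := congrArg Complex.im h
    simp at h1
    exact hh0.ne' h1
  refine h_PTH X _ hd _ _ ?_ hT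
  have hσ1 := (hsc.1 (X.glue x1)).ne'
  have hσ2 := (hsc.1 y1).ne'
  have hmul : c0 * σ (X.glue x1) / σ y1 * (c1⁻¹ * σ y1 / σ (X.glue x1)) = c0 / c1 := by
    field_simp
  rw [hmul]
  intro h
  rw [div_eq_one_iff_eq hc1.ne'] at h
  exact hS.ne01 h

end Pool.Agent.GTW
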