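import Pool.Agent.GTW.Targets

/-!
# GTW: a class with one element is fixed
-/

set_option autoImplicit false

open Finset

noncomputable section

namespace Pool.Agent.GTW

theorem P_FIX (h_PHI : T_PHI) (h_ARC : T_ARC) : T_FIX := by
  classical
  intro X σ H o c hcard x hx
  obtain ⟨a, ha⟩ := Finset.card_eq_one.1 hcard
  have hx' := hx
  rw [MC, Finset.mem_filter] at hx'
  obtain ⟨hxM, hxc⟩ := hx'
  obtain ⟨h1, h2, -⟩ := (h_PHI X σ H o).1 x hxM
  have hPm : Phi (SL X) x ∈ MC σ o c := by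
    rw [MC, Finset.mem_filter]
    exact ⟨h1, h2.trans hxc⟩
  have hfix : Phi (SL X) x = x := by
    rw [ha, Finset.mem_singleton] at hPm hx
    rw [hPm, hx]
  have hz : zz (SL X) x = X.glue x := by
    have h3 : X.glue (Phi (SL X) x) = zz (SL X) x := X.glue_glue _
    rw [hfix] at h3
    exact h3.symm
  have hl : loop x := by
    rw [MM, Finset.mem_filter] at hxM
    exact hxM.2.2.1
  have hg : X.glue x ∈ SL X := (loop_glue x).2 hl
  exact ⟨hfix, hz, ((h_ARC X (SL X) x hl hg).2.2.2.2.2.2.1 hz).1⟩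

end Pool.Agent.GTW
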