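import Pool.Agent.GTW.Targets

/-! GTW target H2: the final count in H(2). -/

set_option autoImplicit false

open Finset

noncomputable section

namespace Pool.Agent.GTW

variable {X : Glued}

namespace H2_

theorem mem_M2 {σ : D X → ℝ} {x : D X} :
    x ∈ M2 σ ↔ rho σ x = 1 ∧ rho σ (pv x) ≠ 1 := by
  unfold M2
  simp

theorem crs_mul (a b : ℝ) (u v : ℂ) : crs ((a : ℂ) * u) ((b : ℂ) * v) = a * b * crs u v := by
  rw [crs_eq, crs_eq]
  simp only [Complex.mul_re, Complex.mul_im, Complex.ofReal_re, Complex.ofReal_im, zero_mul,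
    sub_zero, add_zero]
  ring

theorem crs_self (u : ℂ) : crs u u = 0 := by rw [crs_eq]; ring

theorem crs_neg (u v : ℂ) : crs u v = -crs v u := by rw [crs_eq, crs_eq]; ring

theorem crs_ne {σ : D X → ℝ} (h : Scale σ) {a b : D X} (hab : a ≠ b) (h1 : a.1 = b.1) :
    crs (w σ a) (w σ b) ≠ 0 := by
  unfold w
  rw [crs_mul]
  refine mul_ne_zero (mul_pos (h.1 a) (h.1 b)).ne' ?_
  rcases eq_or a b h1.symm with h2 | h2 | h2
  · exact absurd h2.symm hab
  · rw [h2]; exact (crs_pos a).ne'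
  · have h3 := crs_pos b
    have h4 : nx b = a := by rw [h2, nx_pv]
    rw [h4] at h3
    rw [crs_neg]
    exact neg_ne_zero.2 h3.ne'

section

variable {σ : D X → ℝ}

theorem fst_inj (hA : T_H2A) (h : H2 X σ) : Set.InjOn Prod.fst ((M2 σ : Finset (D X)) : Set (D X)) := by
  obtain ⟨-, A2, -⟩ := hA X σ h
  intro x hx y hy hxy
  have hx' := mem_M2.1 (mem_coe.1 hx)
  have hy' := mem_M2.1 (mem_coe.1 hy)
  rcases eq_or x y hxy.symm with h2 | h2 | h2
  · exact h2.symm
  · exact absurd (h2 ▸ hy'.1) (A2 x hx'.1 hx'.2).1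
  · exact absurd (h2 ▸ hy'.1) hx'.2

theorem glue_out (hA : T_H2A) (hL : T_LOOP) (h : H2 X σ) {x : D X} (hx : x ∈ M2 σ) {y : D X}
    (hy : y ∈ M2 σ) : (X.glue x).1 ≠ y.1 := by
  obtain ⟨-, A2, -⟩ := hA X σ h
  have hx' := mem_M2.1 hx
  have hy' := mem_M2.1 hy
  have hg : rho σ (X.glue x) = 1 := by rw [rho_glue h.sc, hx'.1, inv_one]
  intro h1
  rcases eq_or y (X.glue x) h1 with h2 | h2 | h2
  · have h3 := (hL X σ h.sc x (h.one _ _)).2.2.2.2.2.1
    rw [h2, (A2 x hx'.1 hx'.2).2, (A2 y hy'.1 hy'.2).2, h.tot_eq] at h3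
    have h4 := Real.pi_pos
    linarith
  · exact absurd (h2 ▸ hg) (A2 y hy'.1 hy'.2).1
  · exact absurd (h2 ▸ hg) hy'.2

open Classical in
theorem card_pure (hA : T_H2A) (h : H2 X σ) :
    (univ \ (M2 σ).image Prod.fst).card = 6 - (M2 σ).card := by
  rw [card_sdiff_of_subset (subset_univ _), card_image_of_injOn (fst_inj hA h), card_univ, h.card]

open Classical in
theorem card_M (hA : T_H2A) (hL : T_LOOP) (h : H2 X σ) : (M2 σ).card ≤ 4 := by
  have h1 : (M2 σ).image X.glue ⊆ (univ \ (M2 σ).image Prod.fst) ×ˢ (univ : Finset (Fin 3)) := by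
    intro z hz
    obtain ⟨x, hx, rfl⟩ := mem_image.1 hz
    refine mem_product.2 ⟨mem_sdiff.2 ⟨mem_univ _, fun h2 => ?_⟩, mem_univ _⟩
    obtain ⟨y, hy, h3⟩ := mem_image.1 h2
    exact glue_out hA hL h hx hy h3.symm
  have h2 := card_le_card h1
  rw [card_image_of_injective _ (fun a b => glue_inj), card_product, card_pure hA h, card_univ,
    Fintype.card_fin] at h2
  omega

/-- If all vectors of `M` are parallel and `M` has four elements: contradiction. -/
theorem four (hA : T_H2A) (hL : T_LOOP) (h : H2 X σ) (hc : 4 ≤ (M2 σ).card) (u : ℂ)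
    (hu : ∀ x ∈ M2 σ, ∃ t : ℝ, w σ x = (t : ℂ) * u) : False := by
  classical
  have hm : Set.MapsTo (fun x : D X => (X.glue x).1) ((M2 σ : Finset (D X)) : Set (D X))
      ((univ \ (M2 σ).image Prod.fst : Finset X.F) : Set X.F) := by
    intro x hx
    refine mem_coe.2 (mem_sdiff.2 ⟨mem_univ _, fun h2 => ?_⟩)
    obtain ⟨y, hy, h3⟩ := mem_image.1 h2
    exact glue_out hA hL h (mem_coe.1 hx) hy h3.symm
  have hlt : (univ \ (M2 σ).image Prod.fst).card < (M2 σ).card := by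
    rw [card_pure hA h]
    omega
  obtain ⟨x, hx, y, hy, hxy, hf⟩ := exists_ne_map_eq_of_card_lt_of_maps_to hlt hm
  have h1 : crs (w σ (X.glue x)) (w σ (X.glue y)) ≠ 0 :=
    crs_ne h.sc (fun h2 => hxy (glue_inj h2)) hf
  obtain ⟨t, ht⟩ := hu x hx
  obtain ⟨s, hs⟩ := hu y hy
  rw [w_glue h.sc, w_glue h.sc, (mem_M2.1 hx).1, (mem_M2.1 hy).1, ht, hs] at h1
  have h2 : -(((1 : ℝ) : ℂ) * ((t : ℂ) * u)) = ((-t : ℝ) : ℂ) * u := by push_cast; ring
  have h3 : -(((1 : ℝ) : ℂ) * ((s : ℂ) * u)) = ((-s : ℝ) : ℂ) * u := by push_cast; ring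
  rw [h2, h3, crs_mul, crs_self, mul_zero] at h1
  exact h1 rfl

end

end H2_

open H2_ in
theorem P_H2 (hA : T_H2A) (hC : T_H2C) (hD : T_H2D) (hL : T_LOOP) : T_H2 := by
  classical
  intro X σ h
  by_contra hcon
  push Not at hcon
  obtain ⟨x0, hx0⟩ := hcon
  obtain ⟨-, -, A3⟩ := hA X σ h
  obtain ⟨x1, hx1⟩ : ∃ x, x ∈ M2 σ := by
    by_cases h1 : rho σ (nx x0) = 1
    · exact ⟨nx x0, mem_M2.2 ⟨h1, by rw [pv_nx]; exact hx0⟩⟩
    · exact ⟨pv x0, mem_M2.2 ⟨A3 x0 hx0 h1, by rw [pv_pv]; exact h1⟩⟩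
  -- the involution
  have hw : ∀ x ∈ M2 σ, w σ (nx (rot X x)) = -((rho σ (rot X x) : ℂ) * w σ x) := fun x hx =>
    (hC X σ h x hx).2.2.2.2.2.1
  have hne1 : ∀ x ∈ M2 σ, rho σ (rot X x) ≠ 1 := fun x hx => (hC X σ h x hx).2.2.2.2.1
  have hmem : ∀ x ∈ M2 σ, nx (rot X x) ∈ M2 σ := fun x hx => (hC X σ h x hx).2.2.2.1
  have hinv : ∀ x ∈ M2 σ, nx (rot X (nx (rot X x))) = x := fun x hx =>
    (hC X σ h x hx).2.2.2.2.2.2
  have hnf : ∀ x ∈ M2 σ, nx (rot X x) ≠ x := by
    intro x hx h1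
    have h2 := hw x hx
    rw [h1] at h2
    have h3 : ((1 + rho σ (rot X x) : ℝ) : ℂ) * w σ x = 0 := by
      push_cast
      linear_combination h2
    rcases mul_eq_zero.1 h3 with h4 | h4
    · have h5 : 1 + rho σ (rot X x) = 0 := by exact_mod_cast h4
      have h6 := rho_pos h.sc (rot X x)
      linarith
    · exact w_ne h.sc x h4
  have hsum := hD X σ h
  by_cases hM : M2 σ = {x1, nx (rot X x1)}
  · rw [hM, sum_pair (hnf x1 hx1).symm, hw x1 hx1] at hsum
    have h3 : ((1 - rho σ (rot X x1) : ℝ) : ℂ) * w σ x1 = 0 := by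
      push_cast
      linear_combination hsum
    rcases mul_eq_zero.1 h3 with h4 | h4
    · have h5 : 1 - rho σ (rot X x1) = 0 := by exact_mod_cast h4
      exact hne1 x1 hx1 (by linarith)
    · exact w_ne h.sc x1 h4
  · have hsub : ({x1, nx (rot X x1)} : Finset (D X)) ⊆ M2 σ := by
      intro z hz
      rcases mem_insert.1 hz with rfl | hz
      · exact hx1
      · rw [mem_singleton.1 hz]
        exact hmem x1 hx1
    obtain ⟨x2, hx2, hx2n⟩ : ∃ x2 ∈ M2 σ, x2 ∉ ({x1, nx (rot X x1)} : Finset (D X)) := by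
      by_contra hcon
      push Not at hcon
      exact hM (Subset.antisymm hcon hsub)
    have e1 : x2 ≠ x1 := fun h1 => hx2n (by rw [h1]; simp)
    have e2 : x2 ≠ nx (rot X x1) := fun h1 => hx2n (by rw [h1]; simp)
    have e3 : nx (rot X x2) ≠ x1 := fun h1 => e2 (by rw [← h1, hinv x2 hx2])
    have e4 : nx (rot X x2) ≠ nx (rot X x1) := fun h1 => e1 (by
      rw [← hinv x2 hx2, h1, hinv x1 hx1])
    have hsub4 : ({x1, nx (rot X x1), x2, nx (rot X x2)} : Finset (D X)) ⊆ M2 σ := by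
      intro z hz
      simp only [mem_insert, mem_singleton] at hz
      rcases hz with rfl | rfl | rfl | rfl
      · exact hx1
      · exact hmem x1 hx1
      · exact hx2
      · exact hmem x2 hx2
    have hn1 : x1 ∉ ({nx (rot X x1), x2, nx (rot X x2)} : Finset (D X)) := by
      simp only [mem_insert, mem_singleton, not_or]
      exact ⟨(hnf x1 hx1).symm, e1.symm, e3.symm⟩
    have hn2 : nx (rot X x1) ∉ ({x2, nx (rot X x2)} : Finset (D X)) := by
      simp only [mem_insert, mem_singleton, not_or]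
      exact ⟨e2.symm, e4.symm⟩
    have hcard4 : ({x1, nx (rot X x1), x2, nx (rot X x2)} : Finset (D X)).card = 4 := by
      rw [card_insert_of_notMem hn1, card_insert_of_notMem hn2, card_pair (hnf x2 hx2).symm]
    have hM4 : ({x1, nx (rot X x1), x2, nx (rot X x2)} : Finset (D X)) = M2 σ :=
      eq_of_subset_of_card_le hsub4 (by rw [hcard4]; exact card_M hA hL h)
    rw [← hM4, sum_insert hn1, sum_insert hn2, sum_pair (hnf x2 hx2).symm, hw x1 hx1,
      hw x2 hx2] at hsum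
    have hc2 : 1 - rho σ (rot X x2) ≠ 0 := fun h1 => hne1 x2 hx2 (by linarith)
    have hc2' : ((1 - rho σ (rot X x2) : ℝ) : ℂ) ≠ 0 := by exact_mod_cast hc2
    have h2 : w σ x2 =
        ((-((1 - rho σ (rot X x1)) / (1 - rho σ (rot X x2))) : ℝ) : ℂ) * w σ x1 := by
      refine mul_left_cancel₀ hc2' ?_
      have h5 : ((1 - rho σ (rot X x2) : ℝ) : ℂ) *
          (((-((1 - rho σ (rot X x1)) / (1 - rho σ (rot X x2))) : ℝ) : ℂ) * w σ x1) =
          ((-(1 - rho σ (rot X x1)) : ℝ) : ℂ) * w σ x1 := by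
        rw [← mul_assoc, ← Complex.ofReal_mul]
        congr 2
        rw [mul_neg, mul_div_cancel₀ _ hc2]
      rw [h5]
      push_cast
      linear_combination hsum
    refine four hA hL h (by rw [← hM4, hcard4]) (w σ x1) ?_
    intro x hx
    rw [← hM4] at hx
    simp only [mem_insert, mem_singleton] at hx
    rcases hx with rfl | rfl | rfl | rfl
    · exact ⟨1, by simp⟩
    · refine ⟨-rho σ (rot X x1), ?_⟩
      rw [hw x1 hx1]
      push_cast
      ring
    · exact ⟨_, h2⟩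
    · refine ⟨-rho σ (rot X x2) * -((1 - rho σ (rot X x1)) / (1 - rho σ (rot X x2))), ?_⟩
      rw [hw x2 hx2, h2, Complex.ofReal_mul]
      push_cast
      ring

end Pool.Agent.GTW
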