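import Pool.Agent.GTW.Targets

/-!
# GTW-H2A: H(2), angles in mixed triangles
-/

set_option autoImplicit false

open Finset

noncomputable section

namespace Pool.Agent.GTW

theorem P_H2A (hLOOP : T_LOOP) (hLRI : T_LRI) : T_H2A := by
  intro X σ h
  have hsc := h.sc
  have hpi := Real.pi_pos
  have hloop : ∀ x : D X, loop x := fun x => h.one x _
  have hL0 : ∀ x : D X, 0 < L x := fun x => (hLOOP X σ hsc x (hloop x)).2.2.2.2.1
  have hsum : ∀ x : D X, L x + L (X.glue x) = 6 * Real.pi := fun x => by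
    rw [(hLOOP X σ hsc x (hloop x)).2.2.2.2.2.1, h.tot_eq]
  have hodd : ∀ x : D X, ∃ j : ℕ, L x = (2 * j + 1) * Real.pi := fun x =>
    (hLOOP X σ hsc x (hloop x)).2.2.2.2.2.2
  have hge : ∀ x : D X, rho σ x ≠ 1 → ∃ j : ℕ, 1 ≤ j ∧ L x = (2 * j + 1) * Real.pi := by
    intro x hx
    obtain ⟨j, hj⟩ := hodd x
    refine ⟨j, ?_, hj⟩
    rcases Nat.eq_zero_or_pos j with h0 | h0
    · exfalso
      apply hx
      apply h.flat x (hloop x)
      rw [hj, h0]
      simp
    · exact h0
  have h1 : ∀ x : D X, rho σ x ≠ 1 → L x = 3 * Real.pi := by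
    intro x hx
    have hx' : rho σ (X.glue x) ≠ 1 := by
      rw [rho_glue hsc]
      intro e
      exact hx (inv_eq_one.1 e)
    obtain ⟨j, hj1, hj⟩ := hge x hx
    obtain ⟨k, hk1, hk⟩ := hge (X.glue x) hx'
    have hs := hsum x
    rw [hj, hk] at hs
    have h2 : ((2 * j + 1 : ℝ) + (2 * k + 1)) * Real.pi = 6 * Real.pi := by
      rw [← hs]; ring
    have h3 := mul_right_cancel₀ hpi.ne' h2
    have h4 : (2 * j + 1 + (2 * k + 1) : ℕ) = 6 := by exact_mod_cast h3
    have h5 : j = 1 := by omega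
    rw [hj, h5]
    norm_num
  refine ⟨h1, ?_, ?_⟩
  · intro x hx hpx
    have hp := rho_prod hsc x
    have hnx : rho σ (nx x) ≠ 1 := by
      intro e
      rw [hx, e] at hp
      apply hpx
      linarith
    refine ⟨hnx, ?_⟩
    obtain ⟨j, hj⟩ := hLRI X x (hloop _) (hloop _) (hloop _)
    rw [h1 _ hnx, h1 _ hpx, h.tot_eq] at hj
    have hlt : L x < 6 * Real.pi := by
      have := hL0 (X.glue x)
      have := hsum x
      linarith
    have hpos := hL0 x
    have he : L x = (6 * j - 5 : ℝ) * Real.pi := by linarith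
    have hj1 : (0 : ℝ) < 6 * j - 5 := by
      rw [he] at hpos
      exact (mul_pos_iff_of_pos_right hpi).1 hpos
    have hj2 : (6 * j - 5 : ℝ) < 6 := by
      rw [he] at hlt
      exact lt_of_mul_lt_mul_right hlt hpi.le
    have hj3 : (0 : ℤ) < 6 * j - 5 := by exact_mod_cast hj1
    have hj4 : (6 * j - 5 : ℤ) < 6 := by exact_mod_cast hj2
    have hj5 : j = 1 := by omega
    rw [he, hj5]
    push_cast
    ring
  · intro x hx hnx
    by_contra hpx
    obtain ⟨j, hj⟩ := hLRI X x (hloop _) (hloop _) (hloop _)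
    rw [h1 _ hx, h1 _ hnx, h1 _ hpx, h.tot_eq] at hj
    have h2 : (8 : ℝ) * Real.pi = (6 * j) * Real.pi := by linarith
    have h3 := mul_right_cancel₀ hpi.ne' h2
    have h4 : (8 : ℤ) = 6 * j := by exact_mod_cast h3
    omega

end Pool.Agent.GTW
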