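import Pool.Agent.GTW.Targets

/-!
# GTW: H2B, sums of arcs and first returns
-/

set_option autoImplicit false

open Finset

noncomputable section

namespace Pool.Agent.GTW

variable {X : Glued}

namespace H2B_

/-- `nx` as a permutation -/
def nxE (X : Glued) : Equiv.Perm (D X) where
  toFun := nx
  invFun := pv
  left_inv := pv_nx
  right_inv := nx_pv

theorem sum_nx (f : D X → ℝ) : ∑ x, f (nx x) = ∑ x, f x := Equiv.sum_comp (nxE X) f

theorem sum_pv (f : D X → ℝ) : ∑ x, f (pv x) = ∑ x, f x := Equiv.sum_comp (nxE X).symm f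

/-- the sides of the pure triangles -/
def Pu (σ : D X → ℝ) (x : D X) : Prop := rho σ x = 1 ∧ rho σ (pv x) = 1

theorem Pu_iff {σ : D X → ℝ} (h : Scale σ) (x : D X) :
    Pu σ x ↔ rho σ x = 1 ∧ rho σ (nx x) = 1 ∧ rho σ (pv x) = 1 := by
  constructor
  · rintro ⟨h1, h2⟩
    have h3 := rho_prod h x
    rw [h1, h2, one_mul, mul_one] at h3
    exact ⟨h1, h3, h2⟩
  · rintro ⟨h1, h2, h3⟩
    exact ⟨h1, h3⟩

theorem Pu_nx {σ : D X → ℝ} (h : Scale σ) (x : D X) : Pu σ (nx x) ↔ Pu σ x := by
  rw [Pu_iff h, Pu_iff h, nx_nx, pv_nx]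
  tauto

theorem Pu_pv {σ : D X → ℝ} (h : Scale σ) (x : D X) : Pu σ (pv x) ↔ Pu σ x := by
  rw [Pu_iff h, Pu_iff h, nx_pv, pv_pv]
  tauto

open Classical in
theorem sum_th (h_TRI : T_TRI) {σ : D X → ℝ} (h : Scale σ) :
    3 * ∑ x, (if Pu σ x then th x else 0) =
      Real.pi * (univ.filter fun x => Pu σ x).card := by
  have h1 : ∀ x : D X, (if Pu σ x then th x else 0) + (if Pu σ (nx x) then th (nx x) else 0) +
      (if Pu σ (pv x) then th (pv x) else 0) = if Pu σ x then Real.pi else 0 := by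
    intro x
    simp only [Pu_nx h, Pu_pv h]
    split_ifs
    · exact h_TRI X x
    · simp
  have h2 := Finset.sum_congr rfl fun x (_ : x ∈ (univ : Finset (D X))) => h1 x
  rw [Finset.sum_add_distrib, Finset.sum_add_distrib,
    sum_nx fun x => if Pu σ x then th x else 0,
    sum_pv fun x => if Pu σ x then th x else 0, ← Finset.sum_filter, ← Finset.sum_filter,
    Finset.sum_const, nsmul_eq_mul] at h2
  rw [← Finset.sum_filter]
  linarith

open Classical in
theorem sum_th_all (h_TRI : T_TRI) {σ : D X → ℝ} (h : H2 X σ) :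
    ∑ x : D X, th x = 6 * Real.pi := by
  have h2 := Finset.sum_congr rfl fun x (_ : x ∈ (univ : Finset (D X))) => h_TRI X x
  rw [Finset.sum_add_distrib, Finset.sum_add_distrib, sum_nx, sum_pv, Finset.sum_const,
    nsmul_eq_mul, Finset.card_univ, Fintype.card_prod, h.card, Fintype.card_fin] at h2
  push_cast at h2
  linarith

open Classical in
theorem count (h_H2A : T_H2A) {σ : D X → ℝ} (h : H2 X σ) :
    3 * ((M2 σ).card : ℝ) + (univ.filter fun x => Pu σ x).card = 18 := by
  obtain ⟨-, -, hA⟩ := h_H2A X σ h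
  have hm : ∀ x, x ∈ M2 σ ↔ rho σ x = 1 ∧ rho σ (pv x) ≠ 1 := by
    intro x
    unfold M2
    simp
  have h1 : ∀ x : D X, (if x ∈ M2 σ then (1 : ℝ) else 0) + (if nx x ∈ M2 σ then (1 : ℝ) else 0) +
      (if pv x ∈ M2 σ then (1 : ℝ) else 0) + (if Pu σ x then (1 : ℝ) else 0) = 1 := by
    intro x
    have hA1 := hA x
    have h3 := rho_prod h.sc x
    simp only [hm, pv_nx, pv_pv, Pu]
    by_cases ha : rho σ x = 1 <;> by_cases hb : rho σ (nx x) = 1 <;>
      by_cases hc : rho σ (pv x) = 1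
    · simp [ha, hb, hc]
    · exfalso
      rw [ha, hb, one_mul, one_mul] at h3
      exact hc h3
    · exfalso
      rw [ha, hc, one_mul, mul_one] at h3
      exact hb h3
    · simp [ha, hb, hc]
    · exfalso
      rw [hb, hc, mul_one, mul_one] at h3
      exact ha h3
    · simp [ha, hb, hc]
    · simp [ha, hb, hc]
    · exact absurd (hA1 ha hb) hc
  have h2 := Finset.sum_congr rfl fun x (_ : x ∈ (univ : Finset (D X))) => h1 x
  rw [Finset.sum_add_distrib, Finset.sum_add_distrib, Finset.sum_add_distrib,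
    sum_nx fun x => if x ∈ M2 σ then (1 : ℝ) else 0,
    sum_pv fun x => if x ∈ M2 σ then (1 : ℝ) else 0, Finset.sum_const, Finset.sum_boole,
    Finset.sum_boole, nsmul_eq_mul, Finset.card_univ, Fintype.card_prod, h.card,
    Fintype.card_fin] at h2
  have h4 : (univ.filter fun x => x ∈ M2 σ) = M2 σ := by simp
  rw [h4] at h2
  push_cast at h2
  linarith

theorem fr_pure {σ : D X → ℝ} (h : Scale σ) {x : D X} (hx : Pu σ x) :
    fr (S1 σ) x = 1 := by
  unfold fr
  apply le_antisymm
  · apply Nat.sInf_le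
    refine ⟨le_rfl, ?_⟩
    show rho σ _ = 1
    rw [pow_one, rot_apply, rho_glue h, hx.2, inv_one]
  · have hne : {m : ℕ | 1 ≤ m ∧ ((rot X) ^ m) x ∈ S1 σ}.Nonempty := by
      refine ⟨1, le_rfl, ?_⟩
      show rho σ _ = 1
      rw [pow_one, rot_apply, rho_glue h, hx.2, inv_one]
    exact (Nat.sInf_mem hne).1

theorem arc_pure {σ : D X → ℝ} (h : Scale σ) {x : D X} (hx : Pu σ x) :
    arc (S1 σ) x = th x := by
  unfold arc
  rw [fr_pure h hx]
  unfold A
  simp

open Classical in
theorem split {σ : D X → ℝ} (f : D X → ℝ) :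
    ∑ x ∈ univ.filter (fun x => x ∈ S1 σ), f x =
      ∑ x ∈ M2 σ, f x + ∑ x ∈ univ.filter (fun x => Pu σ x), f x := by
  have h1 : (univ.filter (fun x => x ∈ S1 σ)) =
      (M2 σ) ∪ univ.filter (fun x => Pu σ x) := by
    ext x
    unfold M2 S1 Pu
    simp only [Finset.mem_filter, Finset.mem_univ, true_and, Finset.mem_union,
      Set.mem_ofPred_eq]
    tauto
  rw [h1, Finset.sum_union]
  rw [Finset.disjoint_left]
  intro x hx hx'
  unfold M2 at hx
  simp only [Finset.mem_filter, Finset.mem_univ, true_and] at hx hx'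
  exact hx.2 hx'.2

end H2B_

open H2B_ in
open Classical in
theorem P_H2B (h_KAC : T_KAC) (h_H2A : T_H2A) (h_TRI : T_TRI) : T_H2B := by
  intro X σ h
  rcases Set.eq_empty_or_nonempty (S1 σ) with he | ⟨s, hs⟩
  · have h1 : M2 σ = ∅ := by
      rw [Finset.eq_empty_iff_forall_notMem]
      intro x hx
      unfold M2 at hx
      simp only [Finset.mem_filter, Finset.mem_univ, true_and] at hx
      have : x ∈ S1 σ := hx.1
      rw [he] at this
      exact this
    rw [h1]
    simp
  · have hm : ∀ x ∈ (univ : Finset (D X)), ∃ m : ℕ, ((rot X) ^ m) x ∈ S1 σ := by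
      intro x _
      obtain ⟨m, hm⟩ := (h.one x s).exists_nat_pow_eq
      exact ⟨m, by rw [hm]; exact hs⟩
    have hc := count h_H2A h
    have k1 := h_KAC (D X) (rot X) (S1 σ) univ th (fun x => by simp) hm
    have k2 := h_KAC (D X) (rot X) (S1 σ) univ (fun _ => 1) (fun x => by simp) hm
    have k3 : ∑ x ∈ univ.filter (fun x => x ∈ S1 σ), arc (S1 σ) x = ∑ x : D X, th x := k1
    rw [sum_th_all h_TRI h, split] at k3
    have k4 : ∑ x ∈ univ.filter (fun x => x ∈ S1 σ), (fr (S1 σ) x : ℝ) = 18 := by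
      have e : ∀ x : D X, ∑ k ∈ range (sInf {m : ℕ | 1 ≤ m ∧ ((rot X) ^ m) x ∈ S1 σ}),
          (1 : ℝ) = fr (S1 σ) x := by
        intro x
        rw [Finset.sum_const, Finset.card_range, nsmul_eq_mul, mul_one]
        rfl
      simp only [e] at k2
      rw [k2, Finset.sum_const, nsmul_eq_mul, Finset.card_univ, Fintype.card_prod, h.card,
        Fintype.card_fin]
      norm_num
    rw [split] at k4
    have k5 : ∑ x ∈ univ.filter (fun x => Pu σ x), arc (S1 σ) x =
        ∑ x ∈ univ.filter (fun x => Pu σ x), th x :=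
      Finset.sum_congr rfl fun x hx => arc_pure h.sc (Finset.mem_filter.1 hx).2
    have k6 : ∑ x ∈ univ.filter (fun x => Pu σ x), (fr (S1 σ) x : ℝ) =
        ∑ x ∈ univ.filter (fun x => Pu σ x), (1 : ℝ) :=
      Finset.sum_congr rfl fun x hx => by rw [fr_pure h.sc (Finset.mem_filter.1 hx).2]; simp
    have k7 := sum_th h_TRI h.sc
    rw [← Finset.sum_filter] at k7
    rw [k5] at k3
    rw [k6, Finset.sum_const, nsmul_eq_mul, mul_one] at k4
    constructor
    · linear_combination k3 - (1 / 3 : ℝ) * k7 - (Real.pi / 3) * hc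
    · have e2 : ∑ x ∈ M2 σ, (fr (S1 σ) x : ℝ) = 3 * (M2 σ).card := by linarith
      exact_mod_cast e2

end Pool.Agent.GTW
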