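import Pool.Agent.GTW.Targets

/-!
# GTW-H2C: H(2), mixed triangles come in pairs
-/

set_option autoImplicit false

open Finset

noncomputable section

namespace Pool.Agent.GTW

namespace H2C_

variable {X : Glued}

theorem mem_M2 {σ : D X → ℝ} {x : D X} : x ∈ M2 σ ↔ rho σ x = 1 ∧ rho σ (pv x) ≠ 1 := by
  unfold M2
  simp only [mem_filter, mem_univ, true_and]

theorem rho_glue_ne {σ : D X → ℝ} (h : Scale σ) {x : D X} (hx : rho σ x ≠ 1) :
    rho σ (X.glue x) ≠ 1 := by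
  rw [rho_glue h]
  intro h1
  exact hx (inv_eq_one.1 h1)

theorem rot_ne_nx {σ : D X → ℝ} (h : Scale σ) (x : D X) : rot X x ≠ nx x := by
  intro h1
  have h2 := w_rot h x
  rw [h1, w] at h2
  have h3 := crs_pos (nx x)
  rw [nx_nx, crs_eq] at h3
  have h4 := congrArg Complex.re h2
  have h5 := congrArg Complex.im h2
  simp only [Complex.mul_re, Complex.mul_im, Complex.neg_re, Complex.neg_im, Complex.ofReal_re,
    Complex.ofReal_im, zero_mul, sub_zero, add_zero] at h4 h5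
  have h6 : 0 < σ (nx x) := h.1 _
  have h7 : 0 < σ x := h.1 _
  have h8 : σ x * ((X.v (nx x)).re * (X.v (pv x)).im - (X.v (nx x)).im * (X.v (pv x)).re) = 0 := by
    have e1 : σ x * (X.v (pv x)).im = -(σ (nx x) * (X.v (nx x)).im) := by linarith
    have e2 : σ x * (X.v (pv x)).re = -(σ (nx x) * (X.v (nx x)).re) := by linarith
    calc σ x * ((X.v (nx x)).re * (X.v (pv x)).im - (X.v (nx x)).im * (X.v (pv x)).re)
        = (X.v (nx x)).re * (σ x * (X.v (pv x)).im) -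
          (X.v (nx x)).im * (σ x * (X.v (pv x)).re) := by ring
      _ = 0 := by rw [e1, e2]; ring
  exact absurd h8 (mul_pos h7 h3).ne'

end H2C_

open H2C_ in
theorem P_H2C (hA : T_H2A) (hB : T_H2B) (hARC : T_ARC) : T_H2C := by
  intro X σ h
  have hsc := h.sc
  obtain ⟨hA1, hA2, hA3⟩ := hA X σ h
  obtain ⟨hB1, hB2⟩ := hB X σ h
  have hL : ∀ x ∈ M2 σ, L x = Real.pi := fun x hx => (hA2 x (mem_M2.1 hx).1 (mem_M2.1 hx).2).2
  have harc : ∀ x ∈ M2 σ, _ := fun x hx => hARC X (S1 σ) x (h.one _ _)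
    (show rho σ (X.glue x) = 1 by rw [rho_glue hsc, (mem_M2.1 hx).1, inv_one])
  have hle : ∀ x ∈ M2 σ, arc (S1 σ) x ≤ Real.pi := fun x hx => by
    rw [← hL x hx]
    exact (harc x hx).2.2.2.2.1
  have heq : ∀ x ∈ M2 σ, arc (S1 σ) x = Real.pi := by
    refine (sum_eq_sum_iff_of_le hle).1 ?_
    rw [hB1, sum_const, nsmul_eq_mul, mul_comm]
  have hzz : ∀ x ∈ M2 σ, zz (S1 σ) x = X.glue x := fun x hx =>
    (harc x hx).2.2.2.2.2.1 (by rw [heq x hx, hL x hx])
  have hfr : ∀ x ∈ M2 σ, 3 ≤ fr (S1 σ) x := by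
    intro x hx
    obtain ⟨h1, _, h3, _⟩ := harc x hx
    have h4 := hzz x hx
    by_contra h5
    have h6 : fr (S1 σ) x = 1 ∨ fr (S1 σ) x = 2 := by omega
    rcases h6 with h6 | h6
    · rw [zz, h6, pow_one] at h3
      exact rho_glue_ne hsc (mem_M2.1 hx).2 h3
    · rw [zz, h6, pow_two, Equiv.Perm.mul_apply, ← rot_nx x] at h4
      exact rot_ne_nx hsc x ((rot X).injective h4)
  have hfr3 : ∀ x ∈ M2 σ, 3 = fr (S1 σ) x := by
    refine (sum_eq_sum_iff_of_le hfr).1 ?_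
    rw [hB2, sum_const, smul_eq_mul, mul_comm]
  intro x hx
  obtain ⟨hx1, hx2⟩ := mem_M2.1 hx
  have hrr : rot X (rot X x) = nx x := by
    have h4 := hzz x hx
    rw [zz, ← hfr3 x hx, ← rot_nx x] at h4
    have h5 : rot X (rot X (rot X x)) = rot X (nx x) := h4
    exact (rot X).injective h5
  have hpy : pv (rot X x) = X.glue (nx x) := by
    have h1 : X.glue (pv (rot X x)) = nx x := hrr
    rw [← h1, X.glue_glue]
  have hy : rho σ (rot X x) ≠ 1 := rho_glue_ne hsc hx2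
  have hpy1 : rho σ (pv (rot X x)) ≠ 1 := by
    rw [hpy]
    exact rho_glue_ne hsc (hA2 x hx1 hx2).1
  have hx' : rho σ (nx (rot X x)) = 1 := by
    have h1 := hA3 (pv (rot X x)) hpy1 (by rw [nx_pv]; exact hy)
    rw [pv_pv] at h1
    exact h1
  refine ⟨hL x hx, hzz x hx, hrr, mem_M2.2 ⟨hx', by rw [pv_nx]; exact hy⟩, hy, ?_, ?_⟩
  · have h1 := w_rot' hsc (rot X x)
    have h2 := w_rot' hsc x
    rw [hrr, h2, hx1] at h1
    have h3 : (rho σ (rot X x) : ℂ) ≠ 0 := by exact_mod_cast (rho_pos hsc _).ne'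
    have h4 : (rho σ (rot X x) : ℂ) * ((rho σ (rot X x) : ℂ)⁻¹ * w σ (nx (rot X x))) =
        w σ (nx (rot X x)) := by rw [← mul_assoc, mul_inv_cancel₀ h3, one_mul]
    have h5 : ((rho σ (rot X x) : ℂ))⁻¹ * w σ (nx (rot X x)) = -(w σ x) := by
      simp only [Complex.ofReal_one, inv_one, one_mul] at h1
      linear_combination -h1
    rw [← h4, h5, mul_neg]
  · have h1 : rot X (nx (rot X x)) = pv x := by
      rw [rot_nx, rot_apply, X.glue_glue]
    rw [h1, nx_pv]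

end Pool.Agent.GTW
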