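import Pool.Agent.GTW.Targets

set_option autoImplicit false

open Finset

noncomputable section

namespace Pool.Agent.GTW

theorem P_H2D : T_H2D := by
  classical
  intro X σ h
  have hs := h.sc
  set A : Finset (D X) := univ.filter fun x => rho σ x = 1 with hA
  set B : Finset (D X) := univ.filter fun x => rho σ x = 1 ∧ rho σ (pv x) = 1 with hB
  have mA : ∀ x, x ∈ A ↔ rho σ x = 1 := fun x => by simp [hA]
  have mB : ∀ x, x ∈ B ↔ rho σ x = 1 ∧ rho σ (pv x) = 1 := fun x => by simp [hB]
  have hnx : ∀ x ∈ B, rho σ (nx x) = 1 := by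
    intro x hx
    have := rho_prod hs x
    rw [((mB x).1 hx).1, ((mB x).1 hx).2] at this
    linarith
  have sA : ∑ x ∈ A, w σ x = 0 := by
    have e1 : ∑ x ∈ A, w σ x = ∑ x ∈ A, w σ (X.glue x) := by
      refine Finset.sum_nbij' (fun x => X.glue x) (fun x => X.glue x) ?_ ?_ ?_ ?_ ?_
      · intro x hx
        rw [mA] at hx ⊢
        rw [rho_glue hs, hx, inv_one]
      · intro x hx
        rw [mA] at hx ⊢
        rw [rho_glue hs, hx, inv_one]
      · intro x _
        exact X.glue_glue x
      · intro x _
        exact X.glue_glue x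
      · intro x _
        simp only [X.glue_glue]
    have e2 : ∑ x ∈ A, w σ (X.glue x) = -∑ x ∈ A, w σ x := by
      rw [← Finset.sum_neg_distrib]
      apply Finset.sum_congr rfl
      intro x hx
      rw [w_glue hs, (mA x).1 hx]
      simp
    have e3 : (2 : ℂ) * ∑ x ∈ A, w σ x = 0 := by
      linear_combination e1 + e2
    exact (mul_eq_zero.1 e3).resolve_left (by norm_num)
  have sB : ∑ x ∈ B, w σ x = 0 := by
    have e1 : ∑ x ∈ B, w σ (nx x) = ∑ x ∈ B, w σ x := by
      refine Finset.sum_nbij' (fun x => nx x) (fun x => pv x) ?_ ?_ ?_ ?_ ?_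
      · intro x hx
        rw [mB, pv_nx]
        exact ⟨hnx x hx, ((mB x).1 hx).1⟩
      · intro x hx
        rw [mB, pv_pv]
        exact ⟨((mB x).1 hx).2, hnx x hx⟩
      · intro x _
        exact pv_nx x
      · intro x _
        exact nx_pv x
      · intro x _
        rfl
    have e2 : ∑ x ∈ B, w σ (pv x) = ∑ x ∈ B, w σ x := by
      refine Finset.sum_nbij' (fun x => pv x) (fun x => nx x) ?_ ?_ ?_ ?_ ?_
      · intro x hx
        rw [mB, pv_pv]
        exact ⟨((mB x).1 hx).2, hnx x hx⟩
      · intro x hx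
        rw [mB, pv_nx]
        exact ⟨hnx x hx, ((mB x).1 hx).1⟩
      · intro x _
        exact nx_pv x
      · intro x _
        exact pv_nx x
      · intro x _
        rfl
    have e3 : ∑ x ∈ B, (w σ x + w σ (nx x) + w σ (pv x)) = 0 := by
      apply Finset.sum_eq_zero
      intro x hx
      have := tri_w hs x
      rw [((mB x).1 hx).1, ((mB x).1 hx).2] at this
      simpa using this
    rw [Finset.sum_add_distrib, Finset.sum_add_distrib, e1, e2] at e3
    have e4 : (3 : ℂ) * ∑ x ∈ B, w σ x = 0 := by linear_combination e3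
    exact (mul_eq_zero.1 e4).resolve_left (by norm_num)
  have hdis : Disjoint (M2 σ) B := by
    rw [Finset.disjoint_left]
    intro x hx hx'
    simp only [M2, mem_filter, mem_univ, true_and] at hx
    exact hx.2 ((mB x).1 hx').2
  have hun : A = M2 σ ∪ B := by
    ext x
    rw [mem_union, mA, mB]
    simp only [M2, mem_filter, mem_univ, true_and]
    by_cases hp : rho σ (pv x) = 1 <;> simp [hp]
  rw [hun, Finset.sum_union hdis, sB, add_zero] at sA
  exact sA

end Pool.Agent.GTW
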