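import Pool.Agent.GTW.Targets

/-!
# GTW: one class, rescale
-/

set_option autoImplicit false

open Finset

noncomputable section

namespace Pool.Agent.GTW

namespace K1_

variable {X : Glued}

open Classical in
/-- the new scale -/
def sc' (σ : D X → ℝ) (o : D X) (c : ℝ) (x : D X) : ℝ :=
  if (rot X).SameCycle o x then σ x else σ x / c

theorem sc'_pos {σ : D X → ℝ} (h : Scale σ) (o : D X) {c : ℝ} (hc : 0 < c) (x : D X) :
    0 < sc' σ o c x := by
  unfold sc'
  split_ifs
  · exact h.1 x
  · exact div_pos (h.1 x) hc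

theorem sc'_scale {σ : D X → ℝ} (h : Scale σ) (o : D X) {c : ℝ} (hc : 0 < c) :
    Scale (sc' σ o c) := by
  refine ⟨sc'_pos h o hc, fun x => ?_⟩
  have h1 : (rot X).SameCycle o (rot X x) ↔ (rot X).SameCycle o x :=
    Equiv.Perm.sameCycle_apply_right
  unfold sc'
  by_cases hx : (rot X).SameCycle o x
  · rw [if_pos hx, if_pos (h1.2 hx)]
    exact h.2 x
  · rw [if_neg hx, if_neg (fun h2 => hx (h1.1 h2)), ← h.2 x]
    ring

end K1_

open K1_ in
/-- K1 -/
theorem P_K1 (h_LP : T_LP) : T_K1 := by
  intro X σ hH o hcard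
  by_cases hex : ∃ y : D X, (rot X).SameCycle o y ∧ ¬ loop y
  · obtain ⟨y0, hy0, hl0⟩ := hex
    obtain ⟨c, hc⟩ : ∃ c, c = rho σ y0 := ⟨_, rfl⟩
    have hc0 : 0 < c := by rw [hc]; exact rho_pos hH.sc y0
    have hmem : ∀ y : D X, (rot X).SameCycle o y → ¬ loop y → rho σ y ∈ KK σ o := by
      classical
      intro y h1 h2
      unfold KK
      rw [Finset.mem_image]
      exact ⟨y, Finset.mem_filter.2 ⟨Finset.mem_univ _, h1, h2⟩, rfl⟩
    have hall : ∀ y : D X, (rot X).SameCycle o y → ¬ loop y → rho σ y = c := by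
      intro y h1 h2
      rw [hc]
      exact Finset.card_le_one.1 hcard _ (hmem y h1 h2) _ (hmem y0 hy0 hl0)
    refine ⟨sc' σ o c, sc'_scale hH.sc o hc0, fun x => ?_⟩
    have hσ := (hH.sc.1 x).ne'
    have hrho : rho σ x = σ (nx x) / σ x := rfl
    show sc' σ o c (nx x) / sc' σ o c x = 1
    by_cases hlx : loop x
    · have h1 := (h_LP X σ hH x hlx).1
      have h2 := (loop_iff x).1 hlx
      rw [hrho] at h1
      unfold sc'
      by_cases hx : (rot X).SameCycle o x
      · rw [if_pos hx, if_pos (hx.trans h2), h1]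
      · rw [if_neg hx, if_neg (fun h3 => hx (h3.trans h2.symm))]
        rw [div_eq_one_iff_eq hσ] at h1
        rw [h1, div_self (div_pos (hH.sc.1 x) hc0).ne']
    · have h2 : ¬ (rot X).SameCycle x (nx x) := fun h => hlx ((loop_iff x).2 h)
      unfold sc'
      by_cases hx : (rot X).SameCycle o x
      · rw [if_pos hx, if_neg (fun h3 => h2 (hx.symm.trans h3))]
        have h3 := hall x hx hlx
        rw [hrho] at h3
        rw [div_right_comm, h3, div_self hc0.ne']
      · have h3 : (rot X).SameCycle o (nx x) := by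
          rcases hH.three o x (nx x) with h | h | h
          · exact absurd h hx
          · exact h
          · exact absurd h h2
        have h4 : (rot X).SameCycle o (X.glue x) := h3.trans (glue_cyc x)
        have h5 := hall (X.glue x) h4 (fun h => hlx ((loop_glue x).1 h))
        rw [rho_glue hH.sc, hrho] at h5
        rw [if_neg hx, if_pos h3, ← h5]
        have h6 := (hH.sc.1 (nx x)).ne'
        field_simp
  · push Not at hex
    have hall : ∀ x : D X, loop x := by
      intro x
      by_contra hlx
      have hx : ¬ (rot X).SameCycle o x := fun h => hlx (hex x h)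
      rcases hH.three o x (X.glue x) with h | h | h
      · exact hx h
      · exact hlx ((loop_glue x).1 (hex _ h))
      · exact hlx h
    exact ⟨σ, hH.sc, fun x => (h_LP X σ hH x (hall x)).1⟩

end Pool.Agent.GTW

end
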