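import Pool.Agent.GTW.Targets

set_option autoImplicit false

open Finset

noncomputable section

namespace Pool.Agent.GTW

namespace K2_

variable {X : Glued} {σ : D X → ℝ}

theorem other (h : H11 X σ) (o : D X) : ∃ o' : D X, ¬ (rot X).SameCycle o o' := by
  obtain ⟨x, y, hxy⟩ := h.two
  by_contra hc
  push Not at hc
  exact hxy ((hc x).symm.trans (hc y))

theorem no_turn (θ r : ℝ) (h0 : 0 < θ) (h1 : θ < 2 * Real.pi) (hr : 0 < r)
    (h : (r : ℂ) * Complex.exp ((θ : ℝ) * Complex.I) = 1) : False := by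
  have h2 : ‖(r : ℂ) * Complex.exp ((θ : ℝ) * Complex.I)‖ = 1 := by rw [h]; simp
  rw [norm_mul, Complex.norm_exp_ofReal_mul_I, mul_one, Complex.norm_real, Real.norm_eq_abs,
    abs_of_pos hr] at h2
  rw [h2, Complex.ofReal_one, one_mul, Complex.exp_eq_one_iff] at h
  obtain ⟨n, hn⟩ := h
  have h3 : (θ : ℂ) = ((n * (2 * Real.pi) : ℝ) : ℂ) := by
    have hI : Complex.I ≠ 0 := Complex.I_ne_zero
    have : (θ : ℂ) * Complex.I = ((n * (2 * Real.pi) : ℝ) : ℂ) * Complex.I := by
      rw [hn]; push_cast; ring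
    exact mul_right_cancel₀ hI this
  have h4 : θ = n * (2 * Real.pi) := by exact_mod_cast h3
  have hp := Real.pi_pos
  rcases le_or_gt n 0 with hn0 | hn0
  · have : (n : ℝ) ≤ 0 := by exact_mod_cast hn0
    nlinarith
  · have : (1 : ℝ) ≤ n := by exact_mod_cast hn0
    nlinarith

/-- at a vertex with two classes -/
theorem two_classes (hLIN : T_LIN) (hNE : T_NE) (hCLS : T_CLS) (h : H11 X σ) (p : D X)
    (hc : (KK σ p).card = 2) : ∃ c c' : ℝ, c ≠ c' ∧ 2 ≤ (MC σ p c).card ∧
      2 ≤ (MC σ p c').card ∧ ∑ x ∈ MC σ p c, w σ x = 0 ∧ ∑ x ∈ MC σ p c', w σ x = 0 ∧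
      Disjoint (MC σ p c) (MC σ p c') ∧
      (∀ x, x ∈ MM p ↔ x ∈ MC σ p c ∨ x ∈ MC σ p c') := by
  classical
  obtain ⟨c, c', hcc, hK⟩ := Finset.card_eq_two.1 hc
  obtain ⟨l1, l2⟩ := hLIN X σ h p
  rw [hK, Finset.sum_pair hcc] at l1 l2
  have hcc' : (c : ℂ) - (c' : ℂ) ≠ 0 := by
    rw [sub_ne_zero]
    exact_mod_cast hcc
  have v1 : ∑ x ∈ MC σ p c, w σ x = 0 := by
    have : ((c : ℂ) - c') * ∑ x ∈ MC σ p c, w σ x = 0 := by
      linear_combination l2 - (c' : ℂ) * l1
    exact (mul_eq_zero.1 this).resolve_left hcc'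
  have v2 : ∑ x ∈ MC σ p c', w σ x = 0 := by
    rw [v1, zero_add] at l1
    exact l1
  have key : ∀ d ∈ KK σ p, ∑ x ∈ MC σ p d, w σ x = 0 → 2 ≤ (MC σ p d).card := by
    intro d hd hs
    have h1 : (MC σ p d).Nonempty := hNE X σ h p (by omega) d hd
    by_contra hlt
    have h2 : (MC σ p d).card = 1 := by
      have := h1.card_pos
      omega
    obtain ⟨x, hx⟩ := Finset.card_eq_one.1 h2
    rw [hx, Finset.sum_singleton] at hs
    exact w_ne h.sc x hs
  refine ⟨c, c', hcc, key c (by rw [hK]; simp) v1, key c' (by rw [hK]; simp) v2, v1, v2, ?_, ?_⟩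
  · rw [Finset.disjoint_left]
    intro x hx hx'
    simp only [MC, mem_filter] at hx hx'
    exact hcc (hx.2.symm.trans hx'.2)
  · intro x
    constructor
    · intro hx
      have := (hCLS X σ h p).1 x hx
      rw [hK] at this
      simp only [mem_insert, mem_singleton] at this
      rcases this with h1 | h1
      · exact Or.inl (by simp only [MC, mem_filter]; exact ⟨hx, h1⟩)
      · exact Or.inr (by simp only [MC, mem_filter]; exact ⟨hx, h1⟩)
    · rintro (hx | hx)
      · exact (Finset.mem_filter.1 hx).1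
      · exact (Finset.mem_filter.1 hx).1

theorem mm_loop {o x : D X} (hx : x ∈ MM o) : (rot X).SameCycle o x ∧ loop x := by
  simp only [MM, mem_filter] at hx
  exact ⟨hx.2.1, hx.2.2.1⟩

/-- the core: one of the two classes is fixed -/
theorem core (hPHI : T_PHI) (hARC : T_ARC) (hLP : T_LP) (hDIR : T_DIR)
    (h : H11 X σ) (o : D X) (A B : Finset (D X))
    (_hAB : Disjoint A B) (hM : ∀ x, x ∈ MM o ↔ x ∈ A ∨ x ∈ B) (hA : A.card = 2)
    (hB : B.card = 2) (hB' : ∀ x ∈ B, Phi (SL X) x ∈ B) (hw : ∑ x ∈ A, w σ x = 0)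
    (hfix : ∀ x ∈ A, arc (SL X) x = L x ∧ zz (SL X) x = X.glue x)
    (hall : ∀ x, (rot X).SameCycle o x → loop x → x ∈ MM o)
    (harc : ∑ x ∈ A, arc (SL X) x + ∑ x ∈ B, arc (SL X) x = 4 * Real.pi)
    (hn : ∑ x ∈ B, (L x - arc (SL X) x) ≠ 0) : False := by
  classical
  have hpi := Real.pi_pos
  have hloopM : ∀ x ∈ MM o, (rot X).SameCycle o x ∧ loop x := fun x hx => mm_loop hx
  have hglueM : ∀ x ∈ MM o, X.glue x ∈ MM o := by
    intro x hx
    obtain ⟨h1, h2⟩ := hloopM x hx
    exact hall _ (h1.trans h2) ((loop_glue x).2 h2)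
  have hA2 : ∀ x ∈ A, x ∈ MM o := fun x hx => (hM x).2 (Or.inl hx)
  have hB2 : ∀ x ∈ B, x ∈ MM o := fun x hx => (hM x).2 (Or.inr hx)
  have hSL : ∀ x ∈ MM o, X.glue x ∈ SL X := fun x hx => (loop_glue x).2 (hloopM x hx).2
  have hpos : ∀ x ∈ MM o, 0 < arc (SL X) x := fun x hx =>
    (hARC X (SL X) x (hloopM x hx).2 (hSL x hx)).2.2.2.1
  obtain ⟨x1, x2, h12, hA3⟩ := Finset.card_eq_two.1 hA
  have m1 : x1 ∈ A := by rw [hA3]; simp
  have m2 : x2 ∈ A := by rw [hA3]; simp
  have hBpos : 0 < ∑ x ∈ B, arc (SL X) x := by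
    apply Finset.sum_pos (fun x hx => hpos x (hB2 x hx))
    rw [← Finset.card_pos]
    omega
  have hsA : ∑ x ∈ A, arc (SL X) x = L x1 + L x2 := by
    rw [hA3, Finset.sum_pair h12, (hfix x1 m1).1, (hfix x2 m2).1]
  have hlt : L x1 + L x2 < 4 * Real.pi := by linarith
  have l1 := hLP X σ h x1 (hloopM _ (hA2 _ m1)).2
  have l2 := hLP X σ h x2 (hloopM _ (hA2 _ m2)).2
  have hL1 : L x1 = Real.pi := by
    rcases l1.2.1 with e | e
    · exact e
    · rcases l2.2.1 with e' | e' <;> · rw [e, e'] at hlt; linarith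
  have hL2 : L x2 = Real.pi := by
    rcases l2.2.1 with e | e
    · exact e
    · rw [hL1, e] at hlt; linarith
  have g1 : X.glue x1 ∈ B := by
    rcases (hM _).1 (hglueM x1 (hA2 _ m1)) with hh | hh
    · exfalso
      have : X.glue x1 = x2 := by
        rw [hA3] at hh
        simp only [mem_insert, mem_singleton] at hh
        exact hh.resolve_left (X.glue_ne x1)
      have e := l1.2.2
      rw [this, hL1, hL2] at e
      linarith
    · exact hh
  have g2 : X.glue x2 ∈ B := by
    rcases (hM _).1 (hglueM x2 (hA2 _ m2)) with hh | hh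
    · exfalso
      have : X.glue x2 = x1 := by
        rw [hA3] at hh
        simp only [mem_insert, mem_singleton] at hh
        exact hh.resolve_right (X.glue_ne x2)
      have e := l2.2.2
      rw [this, hL1, hL2] at e
      linarith
    · exact hh
  have g12 : X.glue x1 ≠ X.glue x2 := fun e => h12 (glue_inj e)
  have hB3 : B = {X.glue x1, X.glue x2} := by
    symm
    apply Finset.eq_of_subset_of_card_le
    · intro y hy
      simp only [mem_insert, mem_singleton] at hy
      rcases hy with rfl | rfl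
      · exact g1
      · exact g2
    · rw [hB, Finset.card_pair g12]
  have hsB : arc (SL X) (X.glue x1) + arc (SL X) (X.glue x2) = 2 * Real.pi := by
    have := harc
    rw [hsA, hL1, hL2, hB3, Finset.sum_pair g12] at this
    linarith
  have p1 := hpos _ (hB2 _ g1)
  have p2 := hpos _ (hB2 _ g2)
  have q1 := hB' _ g1
  have q2 := hB' _ g2
  rw [hB3] at q1 q2
  simp only [mem_insert, mem_singleton] at q1 q2
  rcases q1 with q1 | q1
  · have q2' : Phi (SL X) (X.glue x2) = X.glue x2 := by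
      rcases q2 with q2 | q2
      · exact absurd ((hPHI X σ h o).2 _ (hB2 _ g2) _ (hB2 _ g1) (q2.trans q1.symm)) g12.symm
      · exact q2
    have z1 : zz (SL X) (X.glue x1) = X.glue (X.glue x1) := by
      have := congrArg X.glue q1
      rwa [Phi, X.glue_glue] at this
    have z2 : zz (SL X) (X.glue x2) = X.glue (X.glue x2) := by
      have := congrArg X.glue q2'
      rwa [Phi, X.glue_glue] at this
    have a1 := ((hARC X (SL X) _ (hloopM _ (hB2 _ g1)).2 (hSL _ (hB2 _ g1))).2.2.2.2.2.2.1 z1).1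
    have a2 := ((hARC X (SL X) _ (hloopM _ (hB2 _ g2)).2 (hSL _ (hB2 _ g2))).2.2.2.2.2.2.1 z2).1
    apply hn
    rw [hB3, Finset.sum_pair g12, a1, a2]
    ring
  · have z1 : zz (SL X) (X.glue x1) = x2 := by
      have := congrArg X.glue q1
      rwa [Phi, X.glue_glue, X.glue_glue] at this
    obtain ⟨r, hr, hr2⟩ := hDIR X σ h.sc (X.glue x1) (fr (SL X) (X.glue x1))
    have e1 : w σ x2 = (r : ℂ) * Complex.exp ((arc (SL X) (X.glue x1) : ℝ) * Complex.I) *
        w σ (X.glue x1) := by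
      rw [← z1]
      exact hr2
    rw [w_glue h.sc, l1.1] at e1
    have e2 : w σ x1 + w σ x2 = 0 := by
      rw [hA3, Finset.sum_pair h12] at hw
      exact hw
    have e3 : (r : ℂ) * Complex.exp ((arc (SL X) (X.glue x1) : ℝ) * Complex.I) = 1 := by
      have hw1 := w_ne h.sc x1
      apply mul_right_cancel₀ hw1
      push_cast at e1
      linear_combination -e2 + e1
    exact no_turn _ r p1 (by linarith) hr e3

end K2_

theorem P_K2 (hLIN : T_LIN) (hNE : T_NE) (hNUM : T_NUM) (hSUMA : T_SUMA) (hPHI : T_PHI)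
    (hARC : T_ARC) (hLP : T_LP) (hDIR : T_DIR) (hCLS : T_CLS) : T_K2 := by
  classical
  intro X σ h o hcard
  have hpi := Real.pi_pos
  obtain ⟨o', ho⟩ := K2_.other h o
  have hcard' : (KK σ o').card = 2 := by rw [((hCLS X σ h o).2.2 o' ho).2, hcard]
  obtain ⟨c, c', hcc, hc2, hc2', hv, hv', hdis, hM⟩ :=
    K2_.two_classes hLIN hNE hCLS h o hcard
  obtain ⟨d, d', hdd, hd2, hd2', -, -, hdis', hM'⟩ :=
    K2_.two_classes hLIN hNE hCLS h o' hcard'
  have hMM : MM o = MC σ o c ∪ MC σ o c' := by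
    ext x; rw [hM x, mem_union]
  have hMM' : MM o' = MC σ o' d ∪ MC σ o' d' := by
    ext x; rw [hM' x, mem_union]
  have k1 : (MM o).card = (MC σ o c).card + (MC σ o c').card := by
    rw [hMM, Finset.card_union_of_disjoint hdis]
  have k2 : (MM o').card = (MC σ o' d).card + (MC σ o' d').card := by
    rw [hMM', Finset.card_union_of_disjoint hdis']
  obtain ⟨n, t, b, n', t', b', C1, C2, hsum, -, -⟩ := hNUM X σ h o o' ho (by omega)
  obtain ⟨hbt, hPU, hMc, hSig, hD, -⟩ := C1
  obtain ⟨hbt', -, hMc', -, -, -⟩ := C2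
  have hb : b = 0 := by omega
  have hn : n = 1 := by omega
  have ht : t = 0 := by omega
  subst hb hn ht
  have hM4 : (MM o).card = 4 := by omega
  have hca : (MC σ o c).card = 2 := by omega
  have hca' : (MC σ o c').card = 2 := by omega
  have hPU0 : PU o = ∅ := by
    rw [← Finset.card_eq_zero]; omega
  have hall : ∀ x, (rot X).SameCycle o x → loop x → x ∈ MM o := by
    intro x h1 h2
    simp only [MM, mem_filter, mem_univ, true_and]
    refine ⟨h1, h2, fun h3 => ?_⟩
    have : x ∈ PU o := by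
      simp only [PU, mem_filter, mem_univ, true_and]
      exact ⟨h1, h2, h3⟩
    rw [hPU0] at this
    simp at this
  -- the sum of L over MM o
  have hLsum : ∑ x ∈ MM o, L x = 8 * Real.pi := by
    have e1 : ∀ x ∈ MM o, L x = Real.pi + if L x = 3 * Real.pi then 2 * Real.pi else 0 := by
      intro x hx
      rcases (hLP X σ h x (K2_.mm_loop hx).2).2.1 with e | e
      · rw [if_neg (by rw [e]; intro hh; linarith)]
        linarith
      · rw [if_pos e]; linarith
    rw [Finset.sum_congr rfl e1, Finset.sum_add_distrib, ← Finset.sum_filter, Finset.sum_const,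
      Finset.sum_const]
    have hD2 : ((MM o).filter fun x => L x = 3 * Real.pi).card = 2 := by omega
    rw [hM4, hD2]
    simp only [nsmul_eq_mul]
    push_cast
    ring
  have hArc : ∑ x ∈ MM o, arc (SL X) x = 4 * Real.pi := by
    rw [Finset.sum_sub_distrib, hLsum] at hSig
    push_cast at hSig
    linarith
  have hArc2 : ∑ x ∈ MC σ o c, arc (SL X) x + ∑ x ∈ MC σ o c', arc (SL X) x = 4 * Real.pi := by
    rw [← hArc, hMM, Finset.sum_union hdis]
  have hinv : ∀ e : ℝ, ∀ x ∈ MC σ o e, Phi (SL X) x ∈ MC σ o e := by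
    intro e x hx
    simp only [MC, mem_filter] at hx ⊢
    obtain ⟨a1, a2, -⟩ := (hPHI X σ h o).1 x hx.1
    exact ⟨a1, a2.trans hx.2⟩
  have hsub : ∀ e : ℝ, MC σ o e ⊆ MM o := fun e => Finset.filter_subset _ _
  obtain ⟨n1, s1, f1⟩ := hSUMA X σ h o (MC σ o c) (hsub c) (hinv c)
  obtain ⟨n2, s2, f2⟩ := hSUMA X σ h o (MC σ o c') (hsub c') (hinv c')
  have s3 : ∑ x ∈ MC σ o c, (L x - arc (SL X) x) + ∑ x ∈ MC σ o c', (L x - arc (SL X) x) =
      4 * Real.pi := by
    rw [← Finset.sum_union hdis, ← hMM, hSig]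
    push_cast
    ring
  have s4 : n1 + n2 = 1 := by
    rw [s1, s2] at s3
    have : (4 * Real.pi) * ((n1 : ℝ) + n2) = (4 * Real.pi) * 1 := by linarith
    have h5 := mul_left_cancel₀ (by positivity) this
    exact_mod_cast h5
  rcases Nat.eq_zero_or_pos n1 with hz | hz
  · refine K2_.core hPHI hARC hLP hDIR h o (MC σ o c) (MC σ o c') hdis hM hca hca'
      (hinv c') hv (f1 hz) hall hArc2 ?_
    rw [s2]
    have : n2 = 1 := by omega
    rw [this]
    push_cast
    intro hh
    linarith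
  · have hz2 : n2 = 0 := by omega
    refine K2_.core hPHI hARC hLP hDIR h o (MC σ o c') (MC σ o c) hdis.symm
      (fun x => (hM x).trans or_comm) hca' hca
      (hinv c) hv' (f2 hz2) hall (by rw [add_comm]; exact hArc2) ?_
    rw [s1]
    have : n1 = 1 := by omega
    rw [this]
    push_cast
    intro hh
    linarith

end Pool.Agent.GTW
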