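import Pool.Agent.GTW.Targets

/-!
# GTW: four classes are impossible
-/

set_option autoImplicit false

open Finset

noncomputable section

namespace Pool.Agent.GTW

theorem P_K4 (h_NUM : T_NUM) (h_NE : T_NE) (h_FIX : T_FIX) : T_K4 := by
  classical
  intro X σ H o h4
  obtain ⟨o', ho'⟩ : ∃ o' : D X, ¬ (rot X).SameCycle o o' := by
    obtain ⟨x, y, hxy⟩ := H.two
    by_contra hcon
    push Not at hcon
    exact hxy ((hcon x).symm.trans (hcon y))
  obtain ⟨n, t, b, n', t', b', hc, hc', hs, hk, hk'⟩ := h_NUM X σ H o o' ho' (by omega)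
  obtain ⟨h1, -, h2, h3, -, -⟩ := hc
  obtain ⟨h1', -, h2', -, -, -⟩ := hc'
  have hn : n = 1 := by omega
  have hM : (MM o).card = 4 := by omega
  subst hn
  have hinj : Set.InjOn (fun x : D X => rho σ (nx x)) (MM o : Set (D X)) := by
    rw [← Finset.card_image_iff]
    apply le_antisymm Finset.card_image_le
    have hsub : KK σ o ⊆ (MM o).image (fun x => rho σ (nx x)) := by
      intro c hcK
      obtain ⟨x, hx⟩ := h_NE X σ H o (by omega) c hcK
      rw [MC, Finset.mem_filter] at hx
      exact Finset.mem_image.2 ⟨x, hx.1, hx.2⟩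
    calc (MM o).card = 4 := hM
      _ ≤ (KK σ o).card := h4
      _ ≤ _ := Finset.card_le_card hsub
  have hzero : ∑ x ∈ MM o, (L x - arc (SL X) x) = 0 := by
    apply Finset.sum_eq_zero
    intro x hx
    have hcard : (MC σ o (rho σ (nx x))).card = 1 := by
      rw [Finset.card_eq_one]
      refine ⟨x, ?_⟩
      ext y
      rw [MC, Finset.mem_filter, Finset.mem_singleton]
      constructor
      · rintro ⟨hy, he⟩
        exact hinj hy hx he
      · rintro rfl
        exact ⟨hx, rfl⟩
    have hxm : x ∈ MC σ o (rho σ (nx x)) := by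
      rw [MC, Finset.mem_filter]
      exact ⟨hx, rfl⟩
    have := (h_FIX X σ H o _ hcard x hxm).2.2
    rw [this, sub_self]
  rw [hzero] at h3
  have := Real.pi_pos
  push_cast at h3
  linarith

end Pool.Agent.GTW
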