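import Pool.Agent.GTW.Targets

/-!
# GTW: target KAC (helper75), the tower lemma for first return times
-/

set_option autoImplicit false

open Finset

noncomputable section

namespace Pool.Agent.GTW

namespace KAC_

variable {α : Type} [Fintype α] (π : Equiv.Perm α) (S : Set α)

/-- the first return time -/
def rt (x : α) : ℕ := sInf {m : ℕ | 1 ≤ m ∧ (π ^ m) x ∈ S}

theorem rt_spec [DecidableEq α] {x : α} (hx : x ∈ S) :
    1 ≤ rt π S x ∧ (π ^ rt π S x) x ∈ S := by
  have h : {m : ℕ | 1 ≤ m ∧ (π ^ m) x ∈ S}.Nonempty :=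
    ⟨orderOf π, orderOf_pos π, by rw [pow_orderOf_eq_one]; exact hx⟩
  exact Nat.sInf_mem h

omit [Fintype α] in
theorem rt_min {x : α} {m : ℕ} (h1 : 1 ≤ m) (h2 : (π ^ m) x ∈ S) : rt π S x ≤ m :=
  Nat.sInf_le ⟨h1, h2⟩

end KAC_

open KAC_ in
theorem P_KAC : T_KAC := by
  intro α _ _ π S U f hU hS
  classical
  have hUp : ∀ (k : ℕ) (x : α), x ∈ U ↔ (π ^ k) x ∈ U := by
    intro k
    induction k with
    | zero => intro x; simp
    | succ k ih =>
      intro x
      rw [pow_succ', Equiv.Perm.mul_apply, ← hU, ← ih]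
  change ∑ x ∈ U.filter (fun x => x ∈ S), ∑ k ∈ range (rt π S x), f ((π ^ k) x) = _
  rw [Finset.sum_sigma']
  refine Finset.sum_bij (fun p _ => (π ^ p.2) p.1) ?_ ?_ ?_ ?_
  · rintro ⟨x, k⟩ hp
    rw [Finset.mem_sigma, Finset.mem_filter] at hp
    exact (hUp k x).1 hp.1.1
  · have key : ∀ (x x' : α) (k k' : ℕ), x ∈ S → x' ∈ S → k' < rt π S x' → k ≤ k' →
        (π ^ k) x = (π ^ k') x' → (⟨x, k⟩ : (_ : α) × ℕ) = ⟨x', k'⟩ := by
      intro x x' k k' hx hx' hk' hkk h
      obtain ⟨j, rfl⟩ := Nat.exists_eq_add_of_le hkk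
      rw [pow_add, Equiv.Perm.mul_apply] at h
      have h1 : x = (π ^ j) x' := (π ^ k).injective h
      rcases Nat.eq_zero_or_pos j with hj | hj
      · subst hj
        rw [pow_zero, Equiv.Perm.one_apply] at h1
        rw [h1, add_zero]
      · have h2 := rt_min π S hj (h1 ▸ hx)
        omega
    rintro ⟨x, k⟩ hp ⟨x', k'⟩ hp' h
    rw [Finset.mem_sigma, Finset.mem_filter, Finset.mem_range] at hp hp'
    rcases le_total k k' with hkk | hkk
    · exact key x x' k k' hp.1.2 hp'.1.2 hp'.2 hkk h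
    · exact (key x' x k' k hp'.1.2 hp.1.2 hp.2 hkk h.symm).symm
  · intro u hu
    have hex : ∃ k : ℕ, ((π⁻¹) ^ k) u ∈ S := by
      obtain ⟨m, hm⟩ := hS u hu
      refine ⟨m * (orderOf π - 1), ?_⟩
      have h1 : (π⁻¹) ^ (m * (orderOf π - 1)) = π ^ m := by
        have h2 : orderOf π - 1 + 1 = orderOf π := Nat.sub_add_cancel (orderOf_pos π)
        have h3 : π ^ (m * (orderOf π - 1)) * π ^ m = 1 := by
          rw [← pow_add]
          have h4 : m * (orderOf π - 1) + m = orderOf π * m := by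
            rw [← Nat.mul_succ, Nat.succ_eq_add_one, h2, mul_comm]
          rw [h4, pow_mul, pow_orderOf_eq_one, one_pow]
        rw [inv_pow]
        exact inv_eq_of_mul_eq_one_right h3
      rw [h1]
      exact hm
    have hk := Nat.find_spec hex
    have hmin : ∀ j < Nat.find hex, ((π⁻¹) ^ j) u ∉ S := fun j hj => Nat.find_min hex hj
    set k := Nat.find hex with hkdef
    have hback : ∀ m ≤ k, (π ^ m) (((π⁻¹) ^ k) u) = ((π⁻¹) ^ (k - m)) u := by
      intro m hm
      rw [← Equiv.Perm.mul_apply]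
      congr 1
      obtain ⟨j, hj⟩ := Nat.exists_eq_add_of_le hm
      rw [hj, Nat.add_sub_cancel_left, pow_add, ← mul_assoc, inv_pow, mul_inv_cancel, one_mul]
    refine ⟨⟨((π⁻¹) ^ k) u, k⟩, ?_, ?_⟩
    · rw [Finset.mem_sigma, Finset.mem_filter, Finset.mem_range]
      refine ⟨⟨?_, hk⟩, ?_⟩
      · rw [hUp k, hback k le_rfl]
        simpa using hu
      · show k < rt π S (((π⁻¹) ^ k) u)
        by_contra hcon
        push Not at hcon
        obtain ⟨h1, h2⟩ := rt_spec π S hk
        rw [hback _ hcon] at h2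
        exact hmin _ (by omega) h2
    · show (π ^ k) (((π⁻¹) ^ k) u) = u
      rw [hback k le_rfl]
      simp
  · rintro ⟨x, k⟩ _
    rfl

end Pool.Agent.GTW
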