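import Pool.Agent.GTW.Targets

/-!
# GTW: P_LIN, linear relations between the class sums
-/

set_option autoImplicit false

open Finset

noncomputable section

namespace Pool.Agent.GTW

namespace LIN_

theorem fib (h1 : T_RES1) (h3 : T_CLS) {X : Glued} {σ : D X → ℝ} (hX : H11 X σ) (o : D X) :
    ∑ c ∈ KK σ o, ∑ x ∈ MC σ o c, w σ x = 0 := by
  classical
  rw [← h1 X σ hX o]
  have h := Finset.sum_fiberwise_of_maps_to (s := MM o) (t := KK σ o)
    (g := fun x => rho σ (nx x)) (h3 X σ hX o).1 (fun x => w σ x)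
  rw [← h]
  refine Finset.sum_congr rfl fun c _ => Finset.sum_congr ?_ fun _ _ => rfl
  ext x
  simp only [MC, Finset.mem_filter]

end LIN_

theorem P_LIN (h1 : T_RES1) (h2 : T_RES2) (h3 : T_CLS) : T_LIN := by
  intro X σ hX o
  refine ⟨LIN_.fib h1 h3 hX o, ?_⟩
  obtain ⟨o', ho'⟩ : ∃ o' : D X, ¬ (rot X).SameCycle o o' := by
    obtain ⟨x, y, hxy⟩ := hX.two
    by_cases hx : (rot X).SameCycle o x
    · exact ⟨y, fun hy => hxy (hx.symm.trans hy)⟩
    · exact ⟨x, hx⟩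
  obtain ⟨-, hpos, hc⟩ := h3 X σ hX o
  have hbij := (hc o' ho').1
  have e1 : ∀ c ∈ KK σ o, (c : ℂ) * ∑ x ∈ MC σ o c, w σ x = -∑ x ∈ MC σ o' c⁻¹, w σ x := by
    intro c hcK
    have hc0 : (c : ℂ) ≠ 0 := by exact_mod_cast (hpos c hcK).ne'
    have h := h2 X σ hX o o' ho' c (hpos c hcK)
    have h' : ∑ x ∈ MC σ o c, w σ x = -(((c⁻¹ : ℝ) : ℂ) * ∑ x ∈ MC σ o' c⁻¹, w σ x) :=
      eq_neg_of_add_eq_zero_left h
    rw [h', mul_neg, ← mul_assoc, Complex.ofReal_inv, mul_inv_cancel₀ hc0, one_mul]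
  rw [Finset.sum_congr rfl e1, Finset.sum_neg_distrib, neg_eq_zero,
    ← LIN_.fib h1 h3 hX o']
  refine Finset.sum_nbij' (fun c => c⁻¹) (fun c => c⁻¹) ?_ ?_ ?_ ?_ ?_
  · intro c hc
    exact (hbij c).1 hc
  · intro c hc
    refine (hbij c⁻¹).2 ?_
    rw [inv_inv]
    exact hc
  · intro c _
    exact inv_inv c
  · intro c _
    exact inv_inv c
  · intro c _
    rfl

end Pool.Agent.GTW
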