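import Pool.Agent.GTW.Targets

/-!
# GTW: the angle of a loop
-/

set_option autoImplicit false

open Finset

noncomputable section

namespace Pool.Agent.GTW.LOOP_

open Pool.Agent.GTW

variable {X : Glued}

theorem exists_pow {x y : D X} (h : (rot X).SameCycle x y) :
    ∃ m : ℕ, 1 ≤ m ∧ ((rot X) ^ m) x = y := by
  obtain ⟨i, h1, -, h2⟩ := h.exists_pow_eq (rot X)
  exact ⟨i, h1, h2⟩

theorem mL_mem {x : D X} (h : loop x) : 1 ≤ mL x ∧ ((rot X) ^ (mL x)) x = X.glue x :=
  Nat.sInf_mem (s := {m : ℕ | 1 ≤ m ∧ ((rot X) ^ m) x = X.glue x}) (exists_pow h)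

theorem mL_min {x : D X} {m : ℕ} (h1 : 1 ≤ m) (h2 : ((rot X) ^ m) x = X.glue x) : mL x ≤ m :=
  Nat.sInf_le (s := {m : ℕ | 1 ≤ m ∧ ((rot X) ^ m) x = X.glue x}) ⟨h1, h2⟩

theorem pow_it (m : ℕ) (x : D X) : ((rot X) ^ m) x = (rot X)^[m] x := by
  rw [Equiv.Perm.iterate_eq_pow]

theorem mper_pos (x : D X) : 0 < Function.minimalPeriod (rot X) x := by
  refine Function.minimalPeriod_pos_of_mem_periodicPts ⟨orderOf (rot X), orderOf_pos _, ?_⟩
  show (rot X)^[orderOf (rot X)] x = x
  rw [← pow_it, pow_orderOf_eq_one]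
  rfl

theorem mper_pow (x : D X) : ((rot X) ^ (Function.minimalPeriod (rot X) x)) x = x := by
  rw [pow_it]
  exact Function.iterate_minimalPeriod

theorem tot_eq (x : D X) : tot x = A x (Function.minimalPeriod (rot X) x) := by
  classical
  unfold tot A
  symm
  refine Finset.sum_bij (fun k _ => ((rot X) ^ k) x) ?_ ?_ ?_ ?_
  · intro k _
    rw [Finset.mem_filter]
    exact ⟨Finset.mem_univ _, (Equiv.Perm.sameCycle_pow_right).2 (Equiv.Perm.SameCycle.refl _ _)⟩
  · intro k hk l hl hkl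
    rw [Finset.mem_range] at hk hl
    rw [pow_it, pow_it] at hkl
    exact Function.iterate_injOn_Iio_minimalPeriod hk hl hkl
  · intro y hy
    rw [Finset.mem_filter] at hy
    obtain ⟨m, -, hm⟩ := exists_pow hy.2
    refine ⟨m % Function.minimalPeriod (rot X) x,
      Finset.mem_range.2 (Nat.mod_lt _ (mper_pos x)), ?_⟩
    rw [pow_it, Function.iterate_mod_minimalPeriod_eq, ← pow_it, hm]
  · intro k _
    rfl

theorem A_add (x : D X) (m k : ℕ) : A x (m + k) = A x m + A (((rot X) ^ m) x) k := by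
  unfold A
  rw [Finset.sum_range_add]
  congr 1
  refine Finset.sum_congr rfl fun i _ => ?_
  rw [add_comm m i, pow_add]
  rfl

theorem mL_lt {x : D X} (h : loop x) : mL x < Function.minimalPeriod (rot X) x := by
  obtain ⟨h1, h2⟩ := mL_mem h
  by_contra hcon
  push Not at hcon
  have h3 := Nat.mod_lt (mL x) (mper_pos x)
  have h4 : ((rot X) ^ (mL x % Function.minimalPeriod (rot X) x)) x = X.glue x := by
    rw [pow_it, Function.iterate_mod_minimalPeriod_eq, ← pow_it, h2]
  rcases Nat.eq_zero_or_pos (mL x % Function.minimalPeriod (rot X) x) with h5 | h5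
  · rw [h5, pow_zero] at h4
    exact X.glue_ne x h4.symm
  · have h6 := mL_min h5 h4
    omega

theorem mL_glue {x : D X} (h : loop x) :
    mL (X.glue x) = Function.minimalPeriod (rot X) x - mL x := by
  obtain ⟨h1, h2⟩ := mL_mem h
  have h3 := mL_lt h
  have hg : loop (X.glue x) := (loop_glue x).2 h
  obtain ⟨g1, g2⟩ := mL_mem hg
  rw [X.glue_glue] at g2
  refine le_antisymm (mL_min (by omega) ?_) ?_
  · rw [X.glue_glue, ← h2, ← Equiv.Perm.mul_apply, ← pow_add, Nat.sub_add_cancel h3.le]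
    exact mper_pow x
  · by_contra hcon
    push Not at hcon
    have h4 : (rot X)^[mL (X.glue x) + mL x] x = x := by
      rw [← pow_it, pow_add, Equiv.Perm.mul_apply, h2]
      exact g2
    exact Function.not_isPeriodicPt_of_pos_of_lt_minimalPeriod (by omega) (by omega) h4

theorem odd_pi {r c t : ℝ} (hr : 0 < r) (hc : 0 < c) (ht : 0 < t)
    (h : (r : ℂ) * Complex.exp ((t : ℝ) * Complex.I) = -(c : ℂ)) :
    ∃ j : ℕ, t = (2 * j + 1) * Real.pi := by
  have hre := congrArg Complex.re h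
  have him := congrArg Complex.im h
  rw [Complex.re_ofReal_mul, Complex.exp_ofReal_mul_I_re, Complex.neg_re,
    Complex.ofReal_re] at hre
  rw [Complex.im_ofReal_mul, Complex.exp_ofReal_mul_I_im, Complex.neg_im,
    Complex.ofReal_im, neg_zero] at him
  have hs : Real.sin t = 0 := by
    rcases mul_eq_zero.1 him with h1 | h1
    · exact absurd h1 hr.ne'
    · exact h1
  have hcos : Real.cos t < 0 := by
    by_contra h1
    push Not at h1
    have := mul_nonneg hr.le h1
    linarith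
  have hcos1 : Real.cos t = -1 := by
    have h1 := Real.sin_sq_add_cos_sq t
    rw [hs] at h1
    nlinarith
  obtain ⟨k, hk⟩ := Real.cos_eq_neg_one_iff.1 hcos1
  have hk0 : 0 ≤ k := by
    by_contra h1
    push Not at h1
    have h2 : (k : ℝ) ≤ -1 := by exact_mod_cast Int.le_sub_one_of_lt h1
    have := Real.pi_pos
    nlinarith
  refine ⟨k.toNat, ?_⟩
  have h3 : ((k.toNat : ℕ) : ℝ) = (k : ℝ) := by
    exact_mod_cast Int.toNat_of_nonneg hk0
  rw [h3, ← hk]
  ring

end Pool.Agent.GTW.LOOP_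

namespace Pool.Agent.GTW

open LOOP_

theorem P_LOOP (h_TH : T_TH) (h_DIR : T_DIR) : T_LOOP := by
  intro X σ hσ x hx
  obtain ⟨h1, h2⟩ := mL_mem hx
  have hL : 0 < L x := by
    unfold L A
    exact Finset.sum_pos (fun k _ => (h_TH X _).1) ⟨0, Finset.mem_range.2 h1⟩
  refine ⟨h1, h2, ?_, ?_, hL, ?_, ?_⟩
  · apply (rot X).injective
    rw [rot_nx, ← h2, ← Equiv.Perm.mul_apply, ← pow_succ', Nat.sub_add_cancel h1]
  · intro m hm1 hm2 hm3
    exact absurd (mL_min hm1 hm3) (not_le.2 hm2)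
  · have h3 := mL_lt hx
    have h4 : L (X.glue x) = A (((rot X) ^ (mL x)) x)
        (Function.minimalPeriod (rot X) x - mL x) := by
      rw [L, mL_glue hx, h2]
    rw [h4, L, ← A_add, Nat.add_sub_cancel' h3.le, tot_eq]
  · obtain ⟨r, hr, h3⟩ := h_DIR X σ hσ x (mL x)
    rw [h2, w_glue hσ] at h3
    have h4 : (r : ℂ) * Complex.exp ((A x (mL x) : ℝ) * Complex.I) = -(rho σ x : ℂ) := by
      apply mul_right_cancel₀ (w_ne hσ x)
      rw [← h3]
      ring
    exact odd_pi hr (rho_pos hσ x) hL h4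

end Pool.Agent.GTW
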