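import Pool.Agent.GTW.Targets

/-!
# GTW: loops have `rho = 1` and an angle `π` or `3π` (target LP)
-/

set_option autoImplicit false

noncomputable section

namespace Pool.Agent.GTW

theorem P_LP (h_LOOP : T_LOOP) : T_LP := by
  intro X σ hH x hx
  have hx' : loop (X.glue x) := (loop_glue x).2 hx
  obtain ⟨-, -, -, -, -, hsum, j, hj⟩ := h_LOOP X σ hH.sc x hx
  obtain ⟨-, -, -, -, -, -, j', hj'⟩ := h_LOOP X σ hH.sc (X.glue x) hx'
  have hpi := Real.pi_pos
  have hs : L x + L (X.glue x) = 4 * Real.pi := hsum.trans (hH.tot_eq x)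
  have h1 : ((2 * j + 1 : ℝ) + (2 * j' + 1)) * Real.pi = 4 * Real.pi := by
    rw [← hs, hj, hj']
    ring
  have h2 : ((2 * j + 1 : ℝ) + (2 * j' + 1)) = 4 := mul_right_cancel₀ hpi.ne' h1
  have h3 : j + j' = 1 := by
    have : (j : ℝ) + j' = 1 := by linarith
    exact_mod_cast this
  rcases Nat.eq_zero_or_pos j with h0 | h0
  · subst h0
    have h4 : L x = Real.pi := by
      rw [hj]
      simp
    exact ⟨hH.flat x hx h4, Or.inl h4, hs⟩
  · have h5 : j = 1 := by omega
    have h6 : j' = 0 := by omega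
    subst h5 h6
    have h4 : L (X.glue x) = Real.pi := by
      rw [hj']
      simp
    have h7 := hH.flat _ hx' h4
    rw [rho_glue hH.sc, inv_eq_one] at h7
    refine ⟨h7, Or.inr ?_, hs⟩
    rw [hj]
    push_cast
    ring

end Pool.Agent.GTW
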