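import Pool.Agent.GTW.Targets

/-!
# GTW: three loop sides of a triangle
-/

set_option autoImplicit false

open Finset

noncomputable section

namespace Pool.Agent.GTW

variable {X : Glued}

namespace LRI_

/-- `tot` is constant on the cycles -/
theorem tot_congr {x y : D X} (h : (rot X).SameCycle x y) : tot y = tot x := by
  classical
  unfold tot
  refine Finset.sum_congr ?_ fun _ _ => rfl
  ext z
  simp only [mem_filter, mem_univ, true_and]
  exact ⟨fun hz => h.trans hz, fun hz => h.symm.trans hz⟩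

/-- a loop: `rot ^ (mL x) x = glue x` -/
theorem mL_spec {x : D X} (h : loop x) : ((rot X) ^ (mL x)) x = X.glue x := by
  have hne : {m : ℕ | 1 ≤ m ∧ ((rot X) ^ m) x = X.glue x}.Nonempty := by
    obtain ⟨i, -, hi⟩ := Equiv.Perm.SameCycle.exists_pow_eq' h
    refine ⟨i, ?_, hi⟩
    rcases Nat.eq_zero_or_pos i with h0 | h0
    · subst h0
      exact absurd hi.symm (X.glue_ne x)
    · exact h0
  exact (Nat.sInf_mem hne).2

/-- the starting point of the next side is the same vertex -/
theorem same_nx {x : D X} (h : loop x) : (rot X).SameCycle x (nx x) := by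
  have h1 : (rot X).SameCycle (nx x) (X.glue x) := ⟨1, by rw [zpow_one, rot_nx]⟩
  exact h.trans h1.symm

/-- the angle of a loop in terms of the angular positions -/
theorem L_eq (P : D X → ℝ)
    (hP : ∀ (x : D X) (m : ℕ), ∃ j : ℤ, P (((rot X) ^ m) x) = P x + A x m - j * tot x)
    {x : D X} (h : loop x) : ∃ j : ℤ, L x = P (nx x) - P x + th (nx x) + j * tot x := by
  obtain ⟨j, hj⟩ := hP x (mL x)
  rw [mL_spec h] at hj
  obtain ⟨k, hk⟩ := hP (nx x) 1
  have hA : A (nx x) 1 = th (nx x) := by simp [A]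
  rw [pow_one, rot_nx, hA, tot_congr (same_nx h)] at hk
  refine ⟨j - k, ?_⟩
  push_cast
  unfold L
  linarith

end LRI_

theorem P_LRI (h_POS : T_POS) (h_TRI : T_TRI) : T_LRI := by
  intro X x h1 h2 h3
  obtain ⟨P, hP⟩ := h_POS X
  obtain ⟨a, ha⟩ := LRI_.L_eq P hP h1
  obtain ⟨b, hb⟩ := LRI_.L_eq P hP h2
  obtain ⟨c, hc⟩ := LRI_.L_eq P hP h3
  have t1 : tot (nx x) = tot x := LRI_.tot_congr (LRI_.same_nx h1)
  have s3 := LRI_.same_nx h3
  rw [nx_pv] at s3
  have t3 : tot (pv x) = tot x := (LRI_.tot_congr s3).symm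
  have hT := h_TRI X x
  rw [nx_nx, t1] at hb
  rw [nx_pv, t3] at hc
  refine ⟨a + b + c, ?_⟩
  push_cast
  linarith

end Pool.Agent.GTW
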