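import Pool.Agent.GTW.Targets

/-!
# GTW-MID: the double class is the same at both vertices
-/

set_option autoImplicit false

open Finset

noncomputable section

namespace Pool.Agent.GTW

namespace MID_

variable {X : Glued}

theorem swap {σ : D X → ℝ} {o : D X} {c0 c1 c2 : ℝ} {x1 x2 : D X}
    (h : Side X σ o c0 c1 c2 x1 x2) : Side X σ o c0 c2 c1 x2 x1 where
  ne01 := h.ne02
  ne02 := h.ne01
  ne12 := h.ne12.symm
  kk c := by rw [h.kk c]; tauto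
  mm x := by rw [h.mm x]; tauto
  mc0 x := by rw [h.mc0 x]; tauto
  mc1 := h.mc2
  mc2 := h.mc1
  ne := h.ne.symm
  pure := h.pure
  zz1 := h.zz2
  zz2 := h.zz1
  zz3 := h.zz4
  zz4 := h.zz3
  ratio := by
    obtain ⟨k, hk, h1, h2⟩ := h.ratio
    have hk' : (k : ℂ) ≠ 0 := by exact_mod_cast hk.ne'
    refine ⟨k⁻¹, inv_pos.2 hk, ?_, ?_⟩
    · rw [h1, Complex.ofReal_inv, ← mul_assoc, inv_mul_cancel₀ hk', one_mul]
    · field_simp
      linarith

theorem btw {a b c k : ℝ} (hk : 0 < k) (h : (b - a) + k * (c - a) = 0) (hne : a ≠ c) :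
    (b - a) * (c - a) < 0 := by
  have h1 : b - a = -(k * (c - a)) := by linarith
  have h2 : 0 < (c - a) ^ 2 := by
    have h3 : c - a ≠ 0 := sub_ne_zero.2 hne.symm
    positivity
  rw [h1]
  nlinarith

theorem btw_inv {a b c : ℝ} (ha : 0 < a) (hb : 0 < b) (hc : 0 < c)
    (h : (b - a) * (c - a) < 0) : (b⁻¹ - a⁻¹) * (c⁻¹ - a⁻¹) < 0 := by
  have h1 : (b⁻¹ - a⁻¹) * (c⁻¹ - a⁻¹) = (b - a) * (c - a) / (a ^ 2 * b * c) := by
    field_simp
    ring
  rw [h1]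
  exact div_neg_of_neg_of_pos h (by positivity)

theorem core {e0 e1 e2 d0 d1 d2 : ℝ} (h01 : e0 ≠ e1) (h02 : e0 ≠ e2) (h12 : e1 ≠ e2)
    (he : (e1 - e0) * (e2 - e0) < 0) (hd : (d1 - d0) * (d2 - d0) < 0)
    (h0 : e0 = d0 ∨ e0 = d1 ∨ e0 = d2) (h1 : e1 = d0 ∨ e1 = d1 ∨ e1 = d2)
    (h2 : e2 = d0 ∨ e2 = d1 ∨ e2 = d2) :
    d0 = e0 ∧ ((d1 = e1 ∧ d2 = e2) ∨ (d1 = e2 ∧ d2 = e1)) := by
  rcases h0 with rfl | rfl | rfl
  · rcases h1 with h1 | rfl | rfl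
    · exact absurd h1.symm h01
    · rcases h2 with h2 | h2 | rfl
      · exact absurd h2.symm h02
      · exact absurd h2.symm h12
      · exact ⟨rfl, Or.inl ⟨rfl, rfl⟩⟩
    · rcases h2 with h2 | rfl | h2
      · exact absurd h2.symm h02
      · exact ⟨rfl, Or.inr ⟨rfl, rfl⟩⟩
      · exact absurd h2.symm h12
  · exfalso
    rcases h1 with rfl | h1 | rfl
    · rcases h2 with h2 | h2 | rfl
      · exact h12 h2.symm
      · exact h02 h2.symm
      · nlinarith [sq_nonneg (e1 - e0)]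
    · exact h01 h1.symm
    · rcases h2 with rfl | h2 | h2
      · nlinarith [sq_nonneg (e2 - e0)]
      · exact h02 h2.symm
      · exact h12 h2.symm
  · exfalso
    rcases h1 with rfl | rfl | h1
    · rcases h2 with h2 | rfl | h2
      · exact h12 h2.symm
      · nlinarith [sq_nonneg (e1 - e0)]
      · exact h02 h2.symm
    · rcases h2 with rfl | h2 | h2
      · nlinarith [sq_nonneg (e2 - e0)]
      · exact h12 h2.symm
      · exact h02 h2.symm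
    · exact h01 h1.symm

end MID_

open MID_ in
theorem P_MID (hCLS : T_CLS) : T_MID := by
  intro X σ h o o' hoo c0 c1 c2 d0 d1 d2 x1 x2 y1 y2 hS hS'
  obtain ⟨_, hpos, h3⟩ := hCLS X σ h o
  obtain ⟨hinv, _⟩ := h3 o' hoo
  have hc0 : c0 ∈ KK σ o := (hS.kk c0).2 (Or.inl rfl)
  have hc1 : c1 ∈ KK σ o := (hS.kk c1).2 (Or.inr (Or.inl rfl))
  have hc2 : c2 ∈ KK σ o := (hS.kk c2).2 (Or.inr (Or.inr rfl))
  have he0 := (hS'.kk _).1 ((hinv c0).1 hc0)
  have he1 := (hS'.kk _).1 ((hinv c1).1 hc1)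
  have he2 := (hS'.kk _).1 ((hinv c2).1 hc2)
  have hb : (c1 - c0) * (c2 - c0) < 0 := by
    obtain ⟨k, hk, _, h2⟩ := hS.ratio
    exact btw hk h2 hS.ne02
  have hb' : (d1 - d0) * (d2 - d0) < 0 := by
    obtain ⟨k, hk, _, h2⟩ := hS'.ratio
    exact btw hk h2 hS'.ne02
  have hbi := btw_inv (hpos c0 hc0) (hpos c1 hc1) (hpos c2 hc2) hb
  obtain ⟨hd0, ⟨hd1, hd2⟩ | ⟨hd1, hd2⟩⟩ := core (fun h => hS.ne01 (inv_injective h))
    (fun h => hS.ne02 (inv_injective h)) (fun h => hS.ne12 (inv_injective h)) hbi hb' he0 he1 he2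
  · rw [hd0, hd1, hd2] at hS'
    exact ⟨y1, y2, hS'⟩
  · rw [hd0, hd1, hd2] at hS'
    exact ⟨y2, y1, swap hS'⟩

end Pool.Agent.GTW
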