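import Pool.Agent.GTW.Targets

/-!
# GTW: with two classes every class has loops at the vertex
-/

set_option autoImplicit false

open Finset

noncomputable section

namespace Pool.Agent.GTW

variable {X : Glued}

theorem NE_.mem_MC {σ : D X → ℝ} {o x : D X} {c : ℝ} : x ∈ MC σ o c ↔
    ((rot X).SameCycle o x ∧ loop x ∧ ¬ loop (pv x)) ∧ rho σ (nx x) = c := by
  simp only [MC, MM, mem_filter, mem_univ, true_and]

theorem NE_.mem_KK {σ : D X → ℝ} {o : D X} {c : ℝ} : c ∈ KK σ o ↔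
    ∃ y : D X, ((rot X).SameCycle o y ∧ ¬ loop y) ∧ rho σ y = c := by
  simp only [KK, mem_image, mem_filter, mem_univ, true_and]

/-- the non-loops at `o` of the class `c` are invariant under `rot` -/
theorem NE_.rot_step (hNL : T_NL) (hLP : T_LP) {σ : D X → ℝ} (H : H11 X σ) {o : D X} {c : ℝ}
    (hc : ¬ (MC σ o c).Nonempty) (y : D X)
    (hy : (rot X).SameCycle o y ∧ ¬ loop y ∧ rho σ y = c) :
    (rot X).SameCycle o (rot X y) ∧ ¬ loop (rot X y) ∧ rho σ (rot X y) = c := by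
  obtain ⟨h1, h2, h3⟩ := hy
  have hpv : ¬ loop (pv y) := by
    intro hl
    apply hc
    refine ⟨pv y, ?_⟩
    have h4 := (loop_iff (pv y)).1 hl
    rw [nx_pv] at h4
    have h5 : ¬ loop (pv (pv y)) := by
      rw [pv_pv]
      exact (hNL X σ H y).2.2.2.2.2.2 h2 hl
    rw [NE_.mem_MC, nx_pv]
    exact ⟨⟨h1.trans h4.symm, hl, h5⟩, h3⟩
  have hnx : loop (nx y) := (hNL X σ H y).2.2.1 h2 hpv
  have hr1 : rho σ (nx y) = 1 := (hLP X σ H (nx y) hnx).1
  refine ⟨h1.trans (sc_rot_self y), ?_, ?_⟩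
  · rw [rot_apply, loop_glue]
    exact hpv
  · rw [rot_apply, rho_glue H.sc]
    have h6 := rho_prod H.sc y
    rw [hr1, mul_one] at h6
    rw [← h3]
    exact (eq_inv_of_mul_eq_one_left h6).symm

theorem P_NE (hNL : T_NL) (hLP : T_LP) : T_NE := by
  intro X σ H o h2 c hcK
  by_contra hc
  have hsub : KK σ o ⊆ {c} := by
    obtain ⟨y0, ⟨h01, h02⟩, hyc⟩ := NE_.mem_KK.1 hcK
    have hpow : ∀ m : ℕ, (rot X).SameCycle o (((rot X) ^ m) y0) ∧
        ¬ loop (((rot X) ^ m) y0) ∧ rho σ (((rot X) ^ m) y0) = c := by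
      intro m
      induction m with
      | zero => exact ⟨h01, h02, hyc⟩
      | succ m ih =>
        rw [pow_succ', Equiv.Perm.mul_apply]
        exact NE_.rot_step hNL hLP H hc _ ih
    intro d hd
    obtain ⟨z, ⟨hz1, -⟩, hzd⟩ := NE_.mem_KK.1 hd
    obtain ⟨m, hm⟩ := (h01.symm.trans hz1).exists_nat_pow_eq
    rw [mem_singleton, ← hzd, ← hm]
    exact (hpow m).2.2
  have := card_le_card hsub
  rw [card_singleton] at this
  omega

end Pool.Agent.GTW
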