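import Pool.Agent.GTW.Targets

/-!
# GTW: loops in a triangle, two vertices (T_NL)
-/

set_option autoImplicit false

open Finset

noncomputable section

namespace Pool.Agent.GTW

theorem NL_logic (a b c : Prop) (t : a ∨ c ∨ b) (ab : a → b → c) (bc : b → c → a)
    (ca : c → a → b) :
    (a → b → c) ∧ (¬ a → ¬ b → c) ∧ (¬ a → ¬ c → b) ∧ (a → ¬ c → ¬ b) ∧
    (a → c → b) ∧ (¬ a → b → ¬ c) ∧ (¬ a → c → ¬ b) := by
  by_cases ha : a <;> by_cases hb : b <;> by_cases hc : c <;> simp_all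

theorem P_NL : T_NL := by
  intro X σ H x
  have h1 : loop x ↔ (rot X).SameCycle x (nx x) := loop_iff x
  have h2 : loop (nx x) ↔ (rot X).SameCycle (nx x) (pv x) := by
    rw [loop_iff, nx_nx]
  have h3 : loop (pv x) ↔ (rot X).SameCycle (pv x) x := by
    rw [loop_iff, nx_pv]
  have t := H.three x (nx x) (pv x)
  have s : (rot X).SameCycle x (pv x) ↔ (rot X).SameCycle (pv x) x :=
    ⟨fun p => p.symm, fun p => p.symm⟩
  rw [s, ← h1, ← h2, ← h3] at t
  refine NL_logic _ _ _ t ?_ ?_ ?_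
  · rw [h1, h2, h3]
    exact fun p q => (p.trans q).symm
  · rw [h1, h2, h3]
    exact fun p q => (p.trans q).symm
  · rw [h1, h2, h3]
    exact fun p q => (p.trans q).symm

end Pool.Agent.GTW
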