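import Pool.Agent.GTW.Targets

/-!
# GTW: the numbers
-/

set_option autoImplicit false

open Finset

noncomputable section

namespace Pool.Agent.GTW

namespace NUM_

lemma kk_le {X : Glued} {σ : D X → ℝ} (o : D X)
    (h : ∀ c ∈ KK σ o, (MC σ o c).Nonempty) : (KK σ o).card ≤ (MM o).card := by
  classical
  have hsub : KK σ o ⊆ (MM o).image fun x => rho σ (nx x) := by
    intro c hc
    obtain ⟨x, hx⟩ := h c hc
    simp only [MC, mem_filter] at hx
    rw [mem_image]
    exact ⟨x, hx.1, hx.2⟩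
  exact (card_le_card hsub).trans card_image_le

lemma mm_ne {X : Glued} {σ : D X → ℝ} (o : D X) (h2 : 2 ≤ (KK σ o).card)
    (h : ∀ c ∈ KK σ o, (MC σ o c).Nonempty) : (MM o).Nonempty := by
  have := kk_le o h
  rw [← card_pos]
  omega

end NUM_

theorem P_NUM (h_NE : T_NE) (h_COUNT : T_COUNT) (h_TOT : T_TOT) (h_CLS : T_CLS) : T_NUM := by
  intro X σ hH o o' hoo h2
  have hc := ((h_CLS X σ hH o).2.2 o' hoo).2
  have h2' : 2 ≤ (KK σ o').card := by omega
  have hne := h_NE X σ hH o h2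
  have hne' := h_NE X σ hH o' h2'
  obtain ⟨n, t, b, hC⟩ := h_COUNT X σ hH o (NUM_.mm_ne o h2 hne)
  obtain ⟨n', t', b', hC'⟩ := h_COUNT X σ hH o' (NUM_.mm_ne o' h2' hne')
  have hT := h_TOT X σ hH o o' hoo
  refine ⟨n, t, b, n', t', b', hC, hC', ?_, NUM_.kk_le o hne, ?_⟩
  · have a1 := hC.2.1
    have a2 := hC.2.2.1
    have b1 := hC'.2.1
    have b2 := hC'.2.2.1
    omega
  · rw [← hc]
    exact NUM_.kk_le o' hne'

end Pool.Agent.GTW
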