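import Pool.Agent.GTW.Targets

/-!
# GTW: a loop with the angle `π` on the left and a scale change gives a hyperbolic geodesic
-/

set_option autoImplicit false

open Finset

noncomputable section

namespace Pool.Agent.GTW

variable {X : Glued}

namespace ONE_

/-- the linear form whose kernel is the direction `dr δ` -/
def phi (δ : ℝ) (z : ℂ) : ℝ := z.im + δ * z.re

/-- the direction -/
def dr (δ : ℝ) : ℂ := ⟨-1, δ⟩

theorem dr_ne (δ : ℝ) : dr δ ≠ 0 := by
  intro h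
  have := congrArg Complex.re h
  simp [dr] at this

theorem phi_smul (δ s : ℝ) (z : ℂ) : phi δ ((s : ℂ) * z) = s * phi δ z := by
  simp only [phi, Complex.mul_im, Complex.mul_re, Complex.ofReal_re, Complex.ofReal_im]
  ring

theorem crs_smul (s t : ℝ) (a b : ℂ) : crs ((s : ℂ) * a) ((t : ℂ) * b) = s * t * crs a b := by
  simp only [crs_eq, Complex.mul_im, Complex.mul_re, Complex.ofReal_re, Complex.ofReal_im]
  ring

theorem crs_mul (a b e : ℂ) : crs (a * e) (b * e) = (e.re ^ 2 + e.im ^ 2) * crs a b := by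
  simp only [crs_eq, Complex.mul_im, Complex.mul_re]
  ring

theorem line (δ c : ℝ) (P Q : ℂ) (hc : 0 < c) (hP : phi δ P = c) (hQ : phi δ Q = c)
    (h : 0 < crs P Q) : ∃ r : ℝ, 0 < r ∧ Q - P = (r : ℂ) * dr δ := by
  unfold phi at hP hQ
  have h1 : P.im = c - δ * P.re := by linarith
  have h2 : Q.im = c - δ * Q.re := by linarith
  have h3 : crs P Q = c * (P.re - Q.re) := by
    rw [crs_eq, h1, h2]
    ring
  rw [h3] at h
  refine ⟨P.re - Q.re, pos_of_mul_pos_right h hc.le, ?_⟩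
  apply Complex.ext
  · simp only [Complex.sub_re, Complex.mul_re, dr, Complex.ofReal_re, Complex.ofReal_im]
    ring
  · simp only [Complex.sub_im, Complex.mul_im, dr, Complex.ofReal_re, Complex.ofReal_im, h1, h2]
    ring

theorem eps (A B : ℝ) (hA : 0 < A) : ∃ ε : ℝ, 0 < ε ∧ ∀ t : ℝ, 0 < t → t ≤ ε → 0 < A + t * B := by
  have hB : 0 < |B| + 1 := by positivity
  refine ⟨A / (|B| + 1), div_pos hA hB, fun t ht hte => ?_⟩
  have h1 : t * (|B| + 1) ≤ A := (le_div_iff₀ hB).1 hte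
  have h2 : -(t * |B|) ≤ t * B := by
    rw [← mul_neg]
    exact mul_le_mul_of_nonneg_left (neg_abs_le B) ht.le
  linarith

theorem eps_all (m : ℕ) (A B : ℕ → ℝ) (hA : ∀ k < m, 0 < A k) :
    ∃ ε : ℝ, 0 < ε ∧ ∀ t : ℝ, 0 < t → t ≤ ε → ∀ k < m, 0 < A k + t * B k := by
  induction m with
  | zero => exact ⟨1, one_pos, fun t _ _ k hk => absurd hk (Nat.not_lt_zero k)⟩
  | succ n ih =>
    obtain ⟨ε, h1, h2⟩ := ih fun k hk => hA k (hk.trans (Nat.lt_succ_self n))
    obtain ⟨ε', h3, h4⟩ := eps (A n) (B n) (hA n (Nat.lt_succ_self n))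
    refine ⟨min ε ε', lt_min h1 h3, fun t ht hte k hk => ?_⟩
    rcases Nat.lt_succ_iff_lt_or_eq.1 hk with hk | hk
    · exact h2 t ht (hte.trans (min_le_left _ _)) k hk
    · rw [hk]
      exact h4 t ht (hte.trans (min_le_right _ _))

theorem step_in {σ : D X → ℝ} (h : Scale σ) (e d : ℂ) (y : D X) (z z' : ℂ) (s s' : ℝ)
    (hz : w σ y = z * e) (hz' : w σ (rot X y) = z' * e) (r : ℝ) (hr : 0 < r)
    (hd : (s' : ℂ) * z' - (s : ℂ) * z = (r : ℂ) * d) :
    Step (d * e) (y, s) (rot X y, s') := by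
  have hσ := h.1 y
  have hσ' : (σ y : ℂ) ≠ 0 := by exact_mod_cast hσ.ne'
  refine ⟨pv y, rfl, pv_ne y, rfl, r / σ y, div_pos hr hσ, ?_⟩
  have h1 := w_rot h y
  have h3 := cor_nx (pv y)
  rw [nx_pv] at h3
  rw [w] at hz
  refine mul_left_cancel₀ hσ' ?_
  have h4 : (σ y : ℂ) * (((r / σ y : ℝ) : ℂ) * (d * e)) = (r : ℂ) * d * e := by
    push_cast
    field_simp
  rw [h4, pt, pt, h3, ← hd]
  push_cast
  rw [h1] at hz'
  linear_combination (-(s : ℂ)) * hz + (s' : ℂ) * hz'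

theorem step_last {σ : D X → ℝ} (h : Scale σ) (e d : ℂ) (x : D X) (z z1 : ℂ) (s s1 : ℝ)
    (h0 : w σ x = e) (hz : w σ (nx x) = z * e) (hz1 : w σ (rot X x) = z1 * e) (r : ℝ)
    (hr : 0 < r)
    (hd : (rho σ x : ℂ) * ((s1 : ℂ) * z1 - 1) - (s : ℂ) * z = (r : ℂ) * d) :
    Step (d * e) (nx x, s) (rot X x, s1) := by
  have hσ := h.1 (nx x)
  have hσ' : (σ (nx x) : ℂ) ≠ 0 := by exact_mod_cast hσ.ne'
  refine ⟨pv x, rfl, fun hh => nx_ne_pv x hh.symm, rfl, r / σ (nx x), div_pos hr hσ, ?_⟩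
  have h1 := w_rot h x
  have h3 := cor_nx (nx x)
  rw [nx_nx] at h3
  have h5 := v_sum x
  have h6 : (σ (nx x) : ℂ) = (rho σ x : ℂ) * (σ x : ℂ) := by
    rw [sc_nx h x]
    push_cast
    rfl
  rw [w] at hz h0
  rw [h1] at hz1
  refine mul_left_cancel₀ hσ' ?_
  have h4 : (σ (nx x) : ℂ) * (((r / σ (nx x) : ℝ) : ℂ) * (d * e)) = (r : ℂ) * d * e := by
    push_cast
    field_simp
  rw [h4, ← hd]
  simp only [pt, h3]
  push_cast
  linear_combination (σ (nx x) : ℂ) * h5 - (s : ℂ) * hz + (rho σ x : ℂ) * (s1 : ℂ) * hz1 -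
    (rho σ x : ℂ) * h0 - (X.v x + (s1 : ℂ) * X.v (pv x)) * h6

theorem crs_step {σ : D X → ℝ} (h : Scale σ) (e : ℂ) (y : D X) (z z' : ℂ)
    (hz : w σ y = z * e) (hz' : w σ (rot X y) = z' * e) : 0 < crs z z' := by
  have hσ := h.1 y
  have h1 := w_rot h y
  have h2 : crs (w σ y) (w σ (rot X y)) = σ y * σ y * crs (X.v y) (X.v (nx y)) := by
    have h3 : -((σ y : ℂ) * X.v (pv y)) = (σ y : ℂ) * (X.v y + X.v (nx y)) := by
      linear_combination (-(σ y : ℂ)) * v_sum y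
    rw [h1, h3, w, crs_smul]
    congr 1
    simp only [crs_eq, Complex.add_re, Complex.add_im]
    ring
  rw [hz, hz', crs_mul] at h2
  have h4 : 0 < σ y * σ y * crs (X.v y) (X.v (nx y)) := mul_pos (mul_pos hσ hσ) (crs_pos y)
  rw [← h2] at h4
  exact pos_of_mul_pos_right h4 (by positivity)

/-- the geometric heart: the sequence of the rotated darts, with the complex coordinates `z` -/
theorem main (hPTH : T_PTH) {σ : D X → ℝ} (h : Scale σ) (x : D X) (n : ℕ)
    (hn : ((rot X) ^ (n + 1)) x = nx x) (hρ : rho σ x ≠ 1) (z : ℕ → ℂ)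
    (hz : ∀ k, w σ (((rot X) ^ k) x) = z k * w σ x)
    (him : ∀ k, 1 ≤ k → k ≤ n + 1 → 0 < (z k).im) : HasHyperbolic X := by
  have hρ0 := rho_pos h x
  have he := w_ne h x
  have hsucc : ∀ k, ((rot X) ^ (k + 1)) x = rot X (((rot X) ^ k) x) := fun k => by
    rw [pow_succ', Equiv.Perm.mul_apply]
  obtain ⟨κ, hκ⟩ : ∃ κ : ℝ, κ = rho σ x / (rho σ x - 1) := ⟨_, rfl⟩
  have hρ1 : rho σ x - 1 ≠ 0 := sub_ne_zero.2 hρ
  have hκ0 : κ ≠ 0 := by
    rw [hκ]
    exact div_ne_zero hρ0.ne' hρ1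
  have hκ1 : rho σ x * (κ - 1) = κ := by
    rw [hκ]
    field_simp
    ring
  -- the choice of `ε`
  obtain ⟨A, hA⟩ : ∃ A : ℕ → ℝ, A = fun k => if k = 0 then (z (n + 1)).im * (z 1).im
    else (z k).im := ⟨_, rfl⟩
  obtain ⟨B, hB⟩ : ∃ B : ℕ → ℝ, B = fun k => if k = 0 then
    (z (n + 1)).im * κ * (z 1).re + κ ^ 2 * crs (z (n + 1)) (z 1)
    else κ * (z k).re - κ ^ 2 := ⟨_, rfl⟩
  have him1 := him 1 le_rfl (by omega)
  have himn := him (n + 1) (by omega) le_rfl
  obtain ⟨ε, hε, hε2⟩ := eps_all (n + 2) A B (fun k hk => by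
    rw [hA]
    by_cases hk0 : k = 0
    · simp only [hk0, if_true]
      exact mul_pos himn him1
    · simp only [hk0, if_false]
      exact him k (by omega) (by omega))
  have hε3 := hε2 ε hε le_rfl
  obtain ⟨c, hc⟩ : ∃ c : ℝ, c = ε * κ ^ 2 := ⟨_, rfl⟩
  obtain ⟨δ, hδ⟩ : ∃ δ : ℝ, δ = ε * κ := ⟨_, rfl⟩
  have hc0 : 0 < c := by
    rw [hc]
    positivity
  have hphi : ∀ k, 1 ≤ k → k ≤ n + 1 → c < phi δ (z k) := fun k hk1 hk2 => by
    have := hε3 k (by omega)
    rw [hA, hB] at this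
    simp only [show k ≠ 0 by omega, if_false] at this
    rw [phi, hδ, hc]
    linarith
  have hlast : 0 < c * crs (z (n + 1)) (z 1) + (z (n + 1)).im * phi δ (z 1) := by
    have := hε3 0 (by omega)
    rw [hA, hB] at this
    simp only [if_true] at this
    rw [phi, hδ, hc]
    linarith
  obtain ⟨s, hs⟩ : ∃ s : ℕ → ℝ, s = fun k => c / phi δ (z k) := ⟨_, rfl⟩
  have hs0 : ∀ k, 1 ≤ k → k ≤ n + 1 → 0 < s k := fun k h1 h2 => by
    rw [hs]
    exact div_pos hc0 (hc0.trans (hphi k h1 h2))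
  have hs1 : ∀ k, 1 ≤ k → k ≤ n + 1 → s k < 1 := fun k h1 h2 => by
    rw [hs]
    exact (div_lt_one (hc0.trans (hphi k h1 h2))).2 (hphi k h1 h2)
  have hsz : ∀ k, 1 ≤ k → k ≤ n + 1 → phi δ ((s k : ℂ) * z k) = c := fun k h1 h2 => by
    rw [phi_smul, hs]
    exact div_mul_cancel₀ _ (hc0.trans (hphi k h1 h2)).ne'
  -- the inner steps
  have hstep : ∀ k, 1 ≤ k → k + 1 ≤ n + 1 → Step (dr δ * w σ x)
      (((rot X) ^ k) x, s k) (((rot X) ^ (k + 1)) x, s (k + 1)) := fun k h1 h2 => by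
    have e1 := crs_step h (w σ x) (((rot X) ^ k) x) (z k) (z (k + 1)) (hz k)
      (by rw [← hsucc]; exact hz (k + 1))
    obtain ⟨r, hr, hr2⟩ := line δ c ((s k : ℂ) * z k) ((s (k + 1) : ℂ) * z (k + 1)) hc0
      (hsz k h1 (by omega)) (hsz (k + 1) (by omega) h2) (by
        rw [crs_smul]
        exact mul_pos (mul_pos (hs0 k h1 (by omega)) (hs0 (k + 1) (by omega) h2)) e1)
    rw [hsucc]
    exact step_in h (w σ x) (dr δ) _ (z k) (z (k + 1)) _ _ (hz k)
      (by rw [← hsucc]; exact hz (k + 1)) r hr hr2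
  -- the last step
  have hstepl : Step (dr δ * w σ x) (((rot X) ^ (n + 1)) x, s (n + 1))
      (((rot X) ^ 1) x, s 1) := by
    have e2 : phi δ ((rho σ x : ℂ) * ((s 1 : ℂ) * z 1 - 1)) = c := by
      rw [phi_smul]
      have e3 : phi δ ((s 1 : ℂ) * z 1 - 1) = phi δ ((s 1 : ℂ) * z 1) - δ := by
        simp only [phi, Complex.sub_im, Complex.sub_re, Complex.one_im, Complex.one_re]
        ring
      rw [e3, hsz 1 le_rfl (by omega), hc, hδ]
      linear_combination ε * κ * hκ1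
    have e4 : 0 < crs ((s (n + 1) : ℂ) * z (n + 1)) ((rho σ x : ℂ) * ((s 1 : ℂ) * z 1 - 1)) := by
      rw [crs_smul]
      refine mul_pos (mul_pos (hs0 (n + 1) (by omega) le_rfl) hρ0) ?_
      have e5 : crs (z (n + 1)) ((s 1 : ℂ) * z 1 - 1) =
          s 1 * crs (z (n + 1)) (z 1) + (z (n + 1)).im := by
        simp only [crs_eq, Complex.sub_im, Complex.sub_re, Complex.one_im, Complex.one_re,
          Complex.mul_im, Complex.mul_re, Complex.ofReal_re, Complex.ofReal_im]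
        ring
      have e6 : 0 < phi δ (z 1) := hc0.trans (hphi 1 le_rfl (by omega))
      have e7 : s 1 * crs (z (n + 1)) (z 1) + (z (n + 1)).im =
          (c * crs (z (n + 1)) (z 1) + (z (n + 1)).im * phi δ (z 1)) / phi δ (z 1) := by
        rw [hs]
        field_simp
      rw [e5, e7]
      exact div_pos hlast e6
    obtain ⟨r, hr, hr2⟩ := line δ c _ _ hc0 (hsz (n + 1) (by omega) le_rfl) e2 e4
    have e8 := hz (n + 1)
    rw [hn] at e8
    have e9 := hz 1
    rw [pow_one] at e9 ⊢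
    rw [hn]
    exact step_last h (w σ x) (dr δ) x (z (n + 1)) (z 1) _ _ rfl e8 e9 r hr hr2
  -- the path
  have hpath : ∀ j k, 1 ≤ k → k + j = n + 1 → Pth (dr δ * w σ x)
      (((rot X) ^ k) x, s k) (((rot X) ^ 1) x, s 1)
      (σ (((rot X) ^ k) x) * (rho σ x * σ (rot X x))⁻¹) := by
    intro j
    induction j with
    | zero =>
      intro k h1 h2
      have h3 : k = n + 1 := by omega
      subst h3
      have h4 := Pth.one (X := X) (hs0 (n + 1) (by omega) le_rfl) (hs1 (n + 1) (by omega) le_rfl)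
        (hs0 1 le_rfl (by omega)) (hs1 1 le_rfl (by omega)) hstepl
      have h5 : X.mu (X.glue (((rot X) ^ 1) x)) =
          σ (((rot X) ^ (n + 1)) x) * (rho σ x * σ (rot X x))⁻¹ := by
        rw [pow_one, hn, rot_apply, X.glue_glue, sc_nx h x, ← rot_apply]
        have h6 := sc_rot h x
        have h7 := (h.1 (rot X x)).ne'
        have h8 := hρ0.ne'
        field_simp
        linarith
      rw [← h5]
      exact h4
    | succ j ih =>
      intro k h1 h2
      have h3 := ih (k + 1) (by omega) (by omega)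
      have h4 := Pth.one (X := X) (hs0 k h1 (by omega)) (hs1 k h1 (by omega))
        (hs0 (k + 1) (by omega) (by omega)) (hs1 (k + 1) (by omega) (by omega))
        (hstep k h1 (by omega))
      have h5 := Pth.trans h4 h3
      have h6 : X.mu (X.glue (((rot X) ^ (k + 1)) x)) *
          (σ (((rot X) ^ (k + 1)) x) * (rho σ x * σ (rot X x))⁻¹) =
          σ (((rot X) ^ k) x) * (rho σ x * σ (rot X x))⁻¹ := by
        rw [hsucc, ← mul_assoc]
        congr 1
        rw [rot_apply, X.glue_glue, ← rot_apply, mul_comm]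
        exact sc_rot h _
      rw [← h6]
      exact h5
  have h1 := hpath n 1 le_rfl (by omega)
  refine hPTH X _ (mul_ne_zero (dr_ne δ) he) _ _ ?_ h1
  intro h2
  apply hρ
  rw [pow_one] at h2
  have h7 := (h.1 (rot X x)).ne'
  have h8 := hρ0.ne'
  field_simp at h2
  linarith

end ONE_

theorem P_ONE (hDIR : T_DIR) (hLOOP : T_LOOP) (hTH : T_TH) (hPTH : T_PTH) : T_ONE := by
  intro X σ h x hl hL hρ
  obtain ⟨hm1, hm2, hm3, -, -, -, -⟩ := hLOOP X σ h x hl
  have hpos : ∀ y : D X, 0 < th y := fun y => (hTH X y).1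
  -- `mL x ≥ 2`
  have hm : 2 ≤ mL x := by
    rcases Nat.lt_or_ge (mL x) 2 with h1 | h1
    · have h2 : mL x = 1 := by omega
      rw [h2, Nat.sub_self, pow_zero, Equiv.Perm.one_apply] at hm3
      exact absurd hm3.symm (nx_ne x)
    · exact h1
  obtain ⟨n, hn⟩ : ∃ n, mL x = n + 2 := ⟨mL x - 2, by omega⟩
  have hn1 : ((rot X) ^ (n + 1)) x = nx x := by
    have h1 : mL x - 1 = n + 1 := by omega
    rw [h1] at hm3
    exact hm3
  choose r hr hrw using fun k => hDIR X σ h x k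
  refine ONE_.main hPTH h x n hn1 hρ
    (fun k => (r k : ℂ) * Complex.exp ((A x k : ℝ) * Complex.I)) hrw fun k h1 h2 => ?_
  have h3 : 0 < A x k := by
    unfold A
    exact Finset.sum_pos (fun i _ => hpos _) ⟨0, Finset.mem_range.2 h1⟩
  have h4 : A x k < Real.pi := by
    rw [← hL, L, hn]
    unfold A
    refine Finset.sum_lt_sum_of_subset (i := k) (Finset.range_mono (by omega))
      (Finset.mem_range.2 (by omega)) (by simp) (hpos _) fun i _ _ => (hpos _).le
  have h5 : ((r k : ℂ) * Complex.exp ((A x k : ℝ) * Complex.I)).im =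
      r k * Real.sin (A x k) := by
    rw [Complex.im_ofReal_mul, Complex.exp_ofReal_mul_I_im]
  rw [h5]
  exact mul_pos (hr k) (Real.sin_pos_of_pos_of_lt_pi h3 h4)

end Pool.Agent.GTW
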