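import Pool.Agent.GTW.Targets

/-!
# GTW: proof of `T_PHI`
-/

set_option autoImplicit false

open Finset

noncomputable section

namespace Pool.Agent.GTW

namespace PHI_

variable {X : Glued} {σ : D X → ℝ}

theorem mem_MM {o x : D X} : x ∈ MM o ↔ (rot X).SameCycle o x ∧ loop x ∧ ¬ loop (pv x) := by
  classical
  simp [MM]

theorem mem_SL {x : D X} : x ∈ SL X ↔ loop x := Iff.rfl

theorem pow_succ_apply (x : D X) (k : ℕ) :
    ((rot X) ^ (k + 1)) x = rot X (((rot X) ^ k) x) := by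
  rw [pow_succ', Equiv.Perm.mul_apply]

theorem pow_add_apply (x : D X) (a b : ℕ) :
    ((rot X) ^ (a + b)) x = ((rot X) ^ a) (((rot X) ^ b) x) := by
  rw [pow_add, Equiv.Perm.mul_apply]

/-- the next dart is a loop iff the previous side is -/
theorem loop_rot (x : D X) : loop (rot X x) ↔ loop (pv x) := by
  rw [rot_apply, loop_glue]

theorem sameCycle_pow (x : D X) (k : ℕ) : (rot X).SameCycle x (((rot X) ^ k) x) :=
  ⟨(k : ℤ), by rw [zpow_natCast]⟩

/-- the basic facts about `fr` for a loop -/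
theorem fr_facts (h3 : T_ARC) {x : D X} (hx : loop x) :
    1 ≤ fr (SL X) x ∧ loop (((rot X) ^ (fr (SL X) x)) x) ∧
      ∀ m : ℕ, 1 ≤ m → m < fr (SL X) x → ¬ loop (((rot X) ^ m) x) := by
  have hg : X.glue x ∈ SL X := by
    rw [mem_SL, loop_glue]
    exact hx
  obtain ⟨a1, -, a3, -, -, -, -, a8⟩ := h3 X (SL X) x hx hg
  refine ⟨a1, a3, fun m h1 h2 => a8 m h1 h2⟩

/-- `rho` of the next dart, if the opposite side has `rho = 1` -/
theorem rho_step (hs : Scale σ) {x : D X} (h1 : rho σ (nx x) = 1) :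
    rho σ (rot X x) = rho σ x := by
  have h2 := rho_prod hs x
  rw [h1, mul_one] at h2
  rw [rot_apply, rho_glue hs]
  exact inv_eq_of_mul_eq_one_left h2

theorem rho_first (hs : Scale σ) {x : D X} (h1 : rho σ x = 1) :
    rho σ (rot X x) = rho σ (nx x) := by
  have h2 := rho_prod hs x
  rw [h1, one_mul] at h2
  rw [rot_apply, rho_glue hs]
  exact inv_eq_of_mul_eq_one_left h2

/-- the fan -/
theorem fan (h : T_NL) (h2 : T_LP) (h3 : T_ARC) (hH : H11 X σ) {x : D X} (hx : loop x) (k : ℕ)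
    (hk : k + 1 < fr (SL X) x) :
    ¬ loop (((rot X) ^ (k + 1)) x) ∧ rho σ (((rot X) ^ (k + 1)) x) = rho σ (nx x) := by
  obtain ⟨f1, f2, f3⟩ := fr_facts h3 hx
  refine ⟨f3 (k + 1) (by omega) hk, ?_⟩
  induction k with
  | zero =>
    rw [zero_add, pow_one]
    exact rho_first hH.sc (h2 X σ hH x hx).1
  | succ k ih =>
    have ih' := ih (by omega)
    have hn1 := f3 (k + 1) (by omega) (by omega)
    have hn2 := f3 (k + 1 + 1) (by omega) hk
    rw [pow_succ_apply, loop_rot] at hn2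
    have hn3 := (h X σ hH (((rot X) ^ (k + 1)) x)).2.2.1 hn1 hn2
    have hr := (h2 X σ hH _ hn3).1
    rw [pow_succ_apply, rho_step hH.sc hr]
    exact ih'

theorem two_le (h3 : T_ARC) {x : D X} (hx : loop x) (hp : ¬ loop (pv x)) :
    2 ≤ fr (SL X) x := by
  obtain ⟨f1, f2, f3⟩ := fr_facts h3 hx
  by_contra hc
  have he : fr (SL X) x = 1 := by omega
  rw [he, pow_one, loop_rot] at f2
  exact hp f2

theorem phi_eq (h3 : T_ARC) {x : D X} (hx : loop x) :
    Phi (SL X) x = pv (((rot X) ^ (fr (SL X) x - 1)) x) := by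
  obtain ⟨f1, f2, f3⟩ := fr_facts h3 hx
  have he : fr (SL X) x = (fr (SL X) x - 1) + 1 := by omega
  unfold Phi zz
  rw [he, pow_succ_apply, rot_apply, X.glue_glue, Nat.add_sub_cancel]

theorem inj_aux (h3 : T_ARC) {x y : D X} (hx : loop x) (hy : loop y)
    (hle : fr (SL X) x ≤ fr (SL X) y) (he : Phi (SL X) x = Phi (SL X) y) : x = y := by
  obtain ⟨f1, f2, f3⟩ := fr_facts h3 hx
  obtain ⟨g1, g2, g3⟩ := fr_facts h3 hy
  have hz : zz (SL X) x = zz (SL X) y := glue_inj he
  unfold zz at hz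
  have h1 : fr (SL X) y = fr (SL X) x + (fr (SL X) y - fr (SL X) x) := by omega
  rw [h1, pow_add_apply] at hz
  have h4 := ((rot X) ^ (fr (SL X) x)).injective hz
  by_cases h5 : fr (SL X) y - fr (SL X) x = 0
  · rw [h5, pow_zero] at h4
    exact h4
  · exfalso
    apply g3 (fr (SL X) y - fr (SL X) x) (by omega) (by omega)
    rw [← h4]
    exact hx

end PHI_

open PHI_ in
theorem P_PHI (h : T_NL) (h2 : T_LP) (h3 : T_ARC) : T_PHI := by
  intro X σ hH o
  refine ⟨?_, ?_⟩
  · intro x hx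
    rw [mem_MM] at hx
    obtain ⟨hox, hlx, hpx⟩ := hx
    have hn2 := two_le h3 hlx hpx
    obtain ⟨f1, f2, f3⟩ := fr_facts h3 hlx
    have hfan : ∀ k : ℕ, 1 ≤ k → k < fr (SL X) x →
        ¬ loop (((rot X) ^ k) x) ∧ rho σ (((rot X) ^ k) x) = rho σ (nx x) := by
      intro k h1 hk
      obtain ⟨j, rfl⟩ : ∃ j, k = j + 1 := ⟨k - 1, by omega⟩
      exact fan h h2 h3 hH hlx j hk
    have hphi := phi_eq h3 hlx
    have hnx : nx (Phi (SL X) x) = ((rot X) ^ (fr (SL X) x - 1)) x := by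
      rw [hphi, nx_pv]
    have hlast := hfan (fr (SL X) x - 1) (by omega) (by omega)
    have hloop : loop (Phi (SL X) x) := by
      unfold Phi zz
      rw [loop_glue]
      exact f2
    have hnl : ¬ loop (nx (Phi (SL X) x)) := by
      rw [hnx]
      exact hlast.1
    refine ⟨?_, ?_, hn2, hnx.symm, hfan⟩
    · rw [mem_MM]
      refine ⟨?_, hloop, ?_⟩
      · have e1 := (loop_iff _).1 hloop
        rw [hnx] at e1
        exact (hox.trans (sameCycle_pow x _)).trans e1.symm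
      · intro hc
        exact hnl ((h X σ hH (Phi (SL X) x)).2.2.2.2.1 hloop hc)
    · rw [hnx]
      exact hlast.2
  · intro x hx y hy he
    rw [mem_MM] at hx hy
    rcases le_total (fr (SL X) x) (fr (SL X) y) with hle | hle
    · exact inj_aux h3 hx.2.1 hy.2.1 hle he
    · exact (inj_aux h3 hy.2.1 hx.2.1 hle he.symm).symm

end Pool.Agent.GTW
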