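import Pool.Agent.GTW.Targets

/-!
# GTW-POS: angular positions modulo the total angle
-/

set_option autoImplicit false

open Finset

noncomputable section

namespace Pool.Agent.GTW

namespace POS_

variable {X : Glued}

theorem pow_split (x : D X) (m k : ℕ) :
    ((rot X) ^ (m + k)) x = ((rot X) ^ k) (((rot X) ^ m) x) := by
  rw [add_comm m k, pow_add, Equiv.Perm.mul_apply]

theorem A_add (x : D X) (m n : ℕ) : A x (m + n) = A x m + A (((rot X) ^ m) x) n := by
  unfold A
  rw [Finset.sum_range_add]
  congr 1
  apply Finset.sum_congr rfl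
  intro k _
  rw [pow_split]

theorem sc_pow (x : D X) (m : ℕ) : (rot X).SameCycle x (((rot X) ^ m) x) :=
  ⟨m, by simp⟩

theorem tot_congr {x y : D X} (h : (rot X).SameCycle x y) : tot x = tot y := by
  unfold tot
  congr 1
  ext z
  simp only [mem_filter, mem_univ, true_and]
  exact ⟨fun h1 => h.symm.trans h1, fun h1 => h.trans h1⟩

/-- the sum over one period is the total angle -/
theorem A_period (y : D X) : A y (Function.minimalPeriod (rot X) y) = tot y := by
  classical
  set N := Function.minimalPeriod (rot X) y with hN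
  have hper : y ∈ Function.periodicPts (rot X) := by
    obtain ⟨n, hn, h⟩ := isOfFinOrder_iff_pow_eq_one.1 (isOfFinOrder_of_finite (rot X))
    refine ⟨n, hn, ?_⟩
    rw [Function.IsPeriodicPt, Function.IsFixedPt, Equiv.Perm.iterate_eq_pow, h]
    rfl
  have hNpos : 0 < N := Function.minimalPeriod_pos_of_mem_periodicPts hper
  have hinj : Set.InjOn (fun k : ℕ => ((rot X) ^ k) y) (range N : Set ℕ) := by
    intro a ha b hb hab
    have h1 := Function.iterate_injOn_Iio_minimalPeriod (f := rot X) (x := y)
    simp only [coe_range, Set.mem_Iio] at ha hb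
    apply h1 (Set.mem_Iio.2 ha) (Set.mem_Iio.2 hb)
    simp only [Equiv.Perm.iterate_eq_pow]
    exact hab
  have himg : tot y = ∑ z ∈ (range N).image (fun k : ℕ => ((rot X) ^ k) y), th z := by
    unfold tot
    apply Finset.sum_congr _ (fun _ _ => rfl)
    ext z
    simp only [mem_filter, mem_univ, true_and, mem_image, mem_range]
    constructor
    · intro h
      obtain ⟨i, _, hi⟩ := h.exists_pow_eq'
      refine ⟨i % N, Nat.mod_lt _ hNpos, ?_⟩
      have := Function.iterate_mod_minimalPeriod_eq (f := rot X) (x := y) (n := i)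
      rw [Equiv.Perm.iterate_eq_pow, Equiv.Perm.iterate_eq_pow] at this
      rw [hN, this, hi]
    · rintro ⟨k, _, rfl⟩
      exact sc_pow y k
  rw [himg, Finset.sum_image hinj]
  rfl

theorem A_mul (y : D X) (q : ℕ) :
    A y (Function.minimalPeriod (rot X) y * q) = q * tot y := by
  induction q with
  | zero => simp [A]
  | succ q ih =>
    rw [Nat.mul_succ, A_add, ih]
    have h : ((rot X) ^ (Function.minimalPeriod (rot X) y * q)) y = y := by
      rw [← Equiv.Perm.iterate_eq_pow]
      exact (Function.isPeriodicPt_minimalPeriod (rot X) y).mul_const q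
    rw [h, A_period]
    push_cast
    ring

theorem A_per (y : D X) (d : ℕ) (h : ((rot X) ^ d) y = y) : ∃ j : ℤ, A y d = j * tot y := by
  have h1 : Function.IsPeriodicPt (rot X) d y := by
    rw [Function.IsPeriodicPt, Function.IsFixedPt, Equiv.Perm.iterate_eq_pow, h]
  obtain ⟨q, hq⟩ := h1.minimalPeriod_dvd
  refine ⟨q, ?_⟩
  rw [hq, A_mul]
  simp

theorem A_congr (r : D X) (a b : ℕ) (hab : a ≤ b) (h : ((rot X) ^ a) r = ((rot X) ^ b) r) :
    ∃ j : ℤ, A r b = A r a + j * tot r := by
  obtain ⟨d, rfl⟩ := Nat.exists_eq_add_of_le hab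
  rw [pow_split] at h
  obtain ⟨j, hj⟩ := A_per _ d h.symm
  refine ⟨j, ?_⟩
  rw [A_add, hj, tot_congr (sc_pow r a)]

theorem A_congr' (r : D X) (a b : ℕ) (h : ((rot X) ^ a) r = ((rot X) ^ b) r) :
    ∃ j : ℤ, A r b = A r a + j * tot r := by
  rcases le_total a b with hab | hab
  · exact A_congr r a b hab h
  · obtain ⟨j, hj⟩ := A_congr r b a hab h.symm
    refine ⟨-j, ?_⟩
    rw [hj]
    push_cast
    ring

end POS_

open POS_ in
theorem P_POS : T_POS := by
  classical
  intro X
  -- the representatives
  let s := Equiv.Perm.SameCycle.setoid (rot X)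
  let r : D X → D X := fun x => (Quotient.mk s x).out
  have hr : ∀ x, (rot X).SameCycle (r x) x := fun x => Quotient.mk_out (s := s) x
  have hrr : ∀ x, r (rot X x) = r x := by
    intro x
    have : Quotient.mk s (rot X x) = Quotient.mk s x :=
      Quotient.sound (s := s) (sc_rot_self x).symm
    simp only [r, this]
  have hex : ∀ x, ∃ m : ℕ, ((rot X) ^ m) (r x) = x := by
    intro x
    obtain ⟨i, _, hi⟩ := (hr x).exists_pow_eq'
    exact ⟨i, hi⟩
  choose mm hmm using hex
  refine ⟨fun x => A (r x) (mm x), ?_⟩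
  intro x m
  induction m with
  | zero => exact ⟨0, by simp [A]⟩
  | succ m ih =>
    obtain ⟨j, hj⟩ := ih
    set y := ((rot X) ^ m) x with hy
    have hy1 : ((rot X) ^ (m + 1)) x = rot X y := by
      rw [pow_succ', Equiv.Perm.mul_apply]
    have h1 : ((rot X) ^ (mm y + 1)) (r y) = ((rot X) ^ (mm (rot X y))) (r y) := by
      rw [pow_succ', Equiv.Perm.mul_apply, hmm y]
      have := hmm (rot X y)
      rw [hrr y] at this
      exact this.symm
    obtain ⟨j', hj'⟩ := A_congr' (r y) _ _ h1
    have h2 : A (r y) (mm y + 1) = A (r y) (mm y) + th y := by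
      rw [A_add, hmm y]
      simp [A]
    have h3 : tot (r y) = tot x := tot_congr ((hr y).trans (sc_pow x m).symm)
    have h4 : A x (m + 1) = A x m + th y := by
      rw [A_add]
      simp [A, hy]
    refine ⟨j - j', ?_⟩
    rw [hy1]
    simp only at hj ⊢
    rw [hrr y, hj', h2, hj, h3, h4]
    push_cast
    ring

end Pool.Agent.GTW
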