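import Pool.Agent.GTW.Targets

/-!
# GTW, target PSC: scaling the direction of a path
-/

set_option autoImplicit false

noncomputable section

namespace Pool.Agent.GTW

namespace PSC_

theorem step {X : Glued} {d : ℂ} {t : ℝ} (ht : 0 < t) {p q : D X × ℝ} (h : Step d p q) :
    Step ((t : ℂ) * d) p q := by
  obtain ⟨y, h1, h2, h3, r, hr, h4⟩ := h
  refine ⟨y, h1, h2, h3, r / t, div_pos hr ht, ?_⟩
  rw [h4]
  have ht' : (t : ℂ) ≠ 0 := by exact_mod_cast ht.ne'
  push_cast
  field_simp

end PSC_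

theorem P_PSC : T_PSC := by
  intro X d t ht p q a h
  induction h with
  | one h1 h2 h3 h4 h5 => exact Pth.one h1 h2 h3 h4 (PSC_.step ht h5)
  | trans _ _ ih1 ih2 => exact Pth.trans ih1 ih2

end Pool.Agent.GTW
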