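import Pool.Agent.GTW.Targets

/-!
# GTW: a closed path with multiplier different from one gives a simple one
-/

set_option autoImplicit false

open Finset

noncomputable section

namespace Pool.Agent.GTW

/-- a sequence of `n` steps -/
def PTH_CS {X : Glued} (d : ℂ) (n : ℕ) (P : ℕ → D X × ℝ) : Prop :=
  (∀ k ≤ n, 0 < (P k).2 ∧ (P k).2 < 1) ∧ ∀ k < n, Step d (P k) (P (k + 1))

/-- the product of the dilation factors -/
def PTH_pr {X : Glued} (n : ℕ) (P : ℕ → D X × ℝ) : ℝ :=
  ∏ k ∈ range n, X.mu (X.glue (P (k + 1)).1)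

theorem PTH_unfold {X : Glued} {d : ℂ} {p q : D X × ℝ} {a : ℝ} (h : Pth d p q a) :
    ∃ (n : ℕ) (P : ℕ → D X × ℝ), 1 ≤ n ∧ P 0 = p ∧ P n = q ∧ PTH_CS d n P ∧ PTH_pr n P = a := by
  induction h with
  | @one p q hp0 hp1 hq0 hq1 hs =>
    refine ⟨1, fun k => if k = 0 then p else q, le_rfl, by simp, by simp, ⟨?_, ?_⟩, ?_⟩
    · intro k hk
      by_cases h0 : k = 0
      · simp [h0, hp0, hp1]
      · simp [h0, hq0, hq1]
    · intro k hk
      have : k = 0 := by omega
      subst this
      simpa using hs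
    · simp [PTH_pr]
  | @trans p q r a b _ _ ih1 ih2 =>
    obtain ⟨n, P, hn, hP0, hPn, hcs, hpr⟩ := ih1
    obtain ⟨m, Q, hm, hQ0, hQm, hcs', hpr'⟩ := ih2
    refine ⟨n + m, fun k => if k ≤ n then P k else Q (k - n), by omega, by simp [hP0], ?_, ⟨?_, ?_⟩,
      ?_⟩
    · have : ¬ (n + m ≤ n) := by omega
      simp only [this, if_false]
      rw [Nat.add_sub_cancel_left, hQm]
    · intro k hk
      by_cases h0 : k ≤ n
      · simp only [h0, if_true]; exact hcs.1 k h0
      · simp only [h0, if_false]; exact hcs'.1 _ (by omega)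
    · intro k hk
      by_cases h0 : k < n
      · have h1 : k ≤ n := h0.le
        have h2 : k + 1 ≤ n := h0
        simp only [h1, h2, if_true]
        exact hcs.2 k h0
      · have h2 : ¬ (k + 1 ≤ n) := by omega
        have h3 : k + 1 - n = (k - n) + 1 := by omega
        have h4 : (if k ≤ n then P k else Q (k - n)) = Q (k - n) := by
          by_cases h5 : k ≤ n
          · have h6 : k = n := by omega
            subst h6
            simp [hPn, hQ0]
          · simp [h5]
        simp only [h2, if_false]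
        rw [h4, h3]
        exact hcs'.2 _ (by omega)
    · rw [PTH_pr, Finset.prod_range_add, ← hpr, ← hpr', PTH_pr, PTH_pr]
      refine congrArg₂ _ ?_ ?_
      · refine Finset.prod_congr rfl fun k hk => ?_
        have : k + 1 ≤ n := Finset.mem_range.1 hk
        simp only [this, if_true]
      · refine Finset.prod_congr rfl fun k hk => ?_
        have h2 : ¬ (n + k + 1 ≤ n) := by omega
        have h3 : n + k + 1 - n = k + 1 := by omega
        simp only [h2, if_false, h3]

theorem PTH_split {X : Glued} {d : ℂ} {n : ℕ} {P : ℕ → D X × ℝ} (hcs : PTH_CS d n P)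
    (hc : P n = P 0) {i j : ℕ} (hij : i < j) (hj : j < n) (h : P i = P j) :
    ∃ Q R : ℕ → D X × ℝ, PTH_CS d (j - i) Q ∧ Q (j - i) = Q 0 ∧ PTH_CS d (n - (j - i)) R ∧
      R (n - (j - i)) = R 0 ∧ PTH_pr n P = PTH_pr (j - i) Q * PTH_pr (n - (j - i)) R := by
  refine ⟨fun k => P (i + k), fun k => if k ≤ i then P k else P (k + (j - i)), ⟨?_, ?_⟩, ?_,
    ⟨?_, ?_⟩, ?_, ?_⟩
  · intro k hk
    exact hcs.1 _ (by omega)
  · intro k hk
    exact hcs.2 _ (by omega)
  · have : i + (j - i) = j := by omega
    simp only [this, add_zero, h]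
  · intro k hk
    by_cases h0 : k ≤ i
    · simp only [h0, if_true]; exact hcs.1 _ (by omega)
    · simp only [h0, if_false]; exact hcs.1 _ (by omega)
  · intro k hk
    by_cases h0 : k < i
    · have h1 : k ≤ i := h0.le
      have h2 : k + 1 ≤ i := h0
      simp only [h1, h2, if_true]
      exact hcs.2 k (by omega)
    · have h2 : ¬ (k + 1 ≤ i) := by omega
      have h4 : (if k ≤ i then P k else P (k + (j - i))) = P (k + (j - i)) := by
        by_cases h5 : k ≤ i
        · have h6 : k = i := by omega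
          subst h6
          have h7 : k + (j - k) = j := by omega
          simp [h7, h]
        · simp [h5]
      have h8 : k + 1 + (j - i) = k + (j - i) + 1 := by omega
      simp only [h2, if_false]
      rw [h4, h8]
      exact hcs.2 _ (by omega)
  · have h1 : ¬ (n - (j - i) ≤ i) := by omega
    have h2 : n - (j - i) + (j - i) = n := by omega
    simp only [h1, if_false, h2, Nat.zero_le, if_true, hc]
  · have e1 : n = i + ((j - i) + (n - j)) := by omega
    have e2 : n - (j - i) = i + (n - j) := by omega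
    rw [e2]
    rw [PTH_pr, PTH_pr, PTH_pr]
    conv_lhs => rw [e1]
    rw [Finset.prod_range_add, Finset.prod_range_add, Finset.prod_range_add]
    have a1 : ∏ x ∈ range i, X.mu (X.glue (if x + 1 ≤ i then P (x + 1) else
        P (x + 1 + (j - i))).1) = ∏ x ∈ range i, X.mu (X.glue (P (x + 1)).1) := by
      refine Finset.prod_congr rfl fun k hk => ?_
      have : k + 1 ≤ i := Finset.mem_range.1 hk
      simp only [this, if_true]
    have a2 : ∏ x ∈ range (n - j), X.mu (X.glue (if i + x + 1 ≤ i then P (i + x + 1) else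
        P (i + x + 1 + (j - i))).1) =
        ∏ x ∈ range (n - j), X.mu (X.glue (P (i + (j - i + x) + 1)).1) := by
      refine Finset.prod_congr rfl fun k hk => ?_
      have h2 : ¬ (i + k + 1 ≤ i) := by omega
      have h3 : i + k + 1 + (j - i) = i + (j - i + k) + 1 := by omega
      simp only [h2, if_false, h3]
    have a3 : ∏ x ∈ range (j - i), X.mu (X.glue (P (i + (x + 1))).1) =
        ∏ x ∈ range (j - i), X.mu (X.glue (P (i + x + 1)).1) :=
      Finset.prod_congr rfl fun k _ => by rw [add_assoc]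
    rw [a1, a2, a3]
    ring

theorem P_PTH : T_PTH := by
  intro X d hd p a ha hp
  obtain ⟨n₀, P₀, hn₀, h0, hn, hcs₀, hpr₀⟩ := PTH_unfold hp
  have hex : ∃ n : ℕ, 1 ≤ n ∧ ∃ P : ℕ → D X × ℝ, PTH_CS d n P ∧ P n = P 0 ∧ PTH_pr n P ≠ 1 :=
    ⟨n₀, hn₀, P₀, hcs₀, by rw [h0, hn], by rw [hpr₀]; exact ha⟩
  classical
  obtain ⟨hn1, P, hcs, hc, hpr⟩ := Nat.find_spec hex
  set n := Nat.find hex with hndef
  have hmin : ∀ m, m < n → 1 ≤ m → ∀ Q : ℕ → D X × ℝ, PTH_CS d m Q → Q m = Q 0 →
      PTH_pr m Q = 1 := by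
    intro m hm h1 Q hQ hQc
    by_contra hne
    exact Nat.find_min hex hm ⟨h1, Q, hQ, hQc, hne⟩
  have hlt : ∀ i j : ℕ, i < j → j < n → P i = P j → False := by
    intro i j hij hj he
    obtain ⟨Q, R, h1, h2, h3, h4, h5⟩ := PTH_split hcs hc hij hj he
    apply hpr
    rw [h5, hmin (j - i) (by omega) (by omega) Q h1 h2,
      hmin (n - (j - i)) (by omega) (by omega) R h3 h4, mul_one]
  refine ⟨n, d, fun k => if k ≤ n then P k else P 0, by omega, hd, ?_, ?_, ?_, ?_, ?_⟩
  · intro k
    by_cases h : k ≤ n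
    · simp only [h, if_true]; exact hcs.1 k h
    · simp only [h, if_false]; exact hcs.1 0 (Nat.zero_le _)
  · intro k hk
    have h1 : k ≤ n := hk.le
    have h2 : k + 1 ≤ n := hk
    simp only [h1, h2, if_true]
    exact hcs.2 k hk
  · simp [hc]
  · intro i hi j hj he
    have h1 : i ≤ n := hi.le
    have h2 : j ≤ n := hj.le
    simp only [h1, h2, if_true] at he
    rcases lt_trichotomy i j with h | h | h
    · exact (hlt i j h hj he).elim
    · exact h
    · exact (hlt j i h hi he.symm).elim
  · have : ∏ k ∈ range n, X.mu (X.glue (if k + 1 ≤ n then P (k + 1) else P 0).1) = PTH_pr n P := by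
      rw [PTH_pr]
      refine Finset.prod_congr rfl fun k hk => ?_
      have : k + 1 ≤ n := Finset.mem_range.1 hk
      simp only [this, if_true]
    rw [this]
    exact hpr

end Pool.Agent.GTW
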