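import Pool.Agent.GTW.Targets

/-!
# GTW: P_RES1, residue of all loops
-/

set_option autoImplicit false

open Finset

noncomputable section

namespace Pool.Agent.GTW

namespace RES1_

theorem nx_mem (h2 : T_NL) {X : Glued} {σ : D X → ℝ} (hX : H11 X σ) (o : D X) {x : D X}
    (hx : x ∈ PU o) : nx x ∈ PU o := by
  classical
  simp only [PU, Finset.mem_filter, Finset.mem_univ, true_and] at hx ⊢
  obtain ⟨a, b, c⟩ := hx
  refine ⟨a.trans ((loop_iff x).1 b), (h2 X σ hX x).2.2.2.2.1 b c, ?_⟩
  rw [pv_nx]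
  exact b

end RES1_

open RES1_ in
theorem P_RES1 (h1 : T_LP) (h2 : T_NL) : T_RES1 := by
  classical
  intro X σ hX o
  -- all loops
  have e1 : ∑ x ∈ univ.filter (fun x : D X => (rot X).SameCycle o x ∧ loop x), w σ x = 0 := by
    refine Finset.sum_involution (fun x _ => X.glue x) ?_ ?_ ?_ ?_
    · intro x hx
      simp only [Finset.mem_filter, Finset.mem_univ, true_and] at hx
      rw [w_glue hX.sc, (h1 X σ hX x hx.2).1]
      push_cast
      ring
    · intro x _ _
      exact X.glue_ne x
    · intro x hx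
      simp only [Finset.mem_filter, Finset.mem_univ, true_and] at hx ⊢
      exact ⟨hx.1.trans hx.2, (loop_glue x).2 hx.2⟩
    · intro x _
      exact X.glue_glue x
  -- the pure triangles
  have hpv : ∀ x ∈ PU o, pv x ∈ PU o := by
    intro x hx
    rw [← nx_nx]
    exact nx_mem h2 hX o (nx_mem h2 hX o hx)
  have s1 : ∑ x ∈ PU o, w σ (nx x) = ∑ x ∈ PU o, w σ x :=
    Finset.sum_nbij' nx pv (fun x hx => nx_mem h2 hX o hx) hpv (fun x _ => pv_nx x)
      (fun x _ => nx_pv x) (fun x _ => rfl)
  have s2 : ∑ x ∈ PU o, w σ (pv x) = ∑ x ∈ PU o, w σ x :=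
    Finset.sum_nbij' pv nx hpv (fun x hx => nx_mem h2 hX o hx) (fun x _ => nx_pv x)
      (fun x _ => pv_nx x) (fun x _ => rfl)
  have s3 : ∑ x ∈ PU o, (w σ x + w σ (nx x) + w σ (pv x)) = 0 := by
    refine Finset.sum_eq_zero fun x hx => ?_
    have hx' := hx
    simp only [PU, Finset.mem_filter, Finset.mem_univ, true_and] at hx'
    have h := tri_w hX.sc x
    rw [(h1 X σ hX x hx'.2.1).1, (h1 X σ hX (pv x) hx'.2.2).1] at h
    simpa using h
  have e2 : ∑ x ∈ PU o, w σ x = 0 := by
    rw [Finset.sum_add_distrib, Finset.sum_add_distrib, s1, s2] at s3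
    have h3 : (3 : ℂ) * ∑ x ∈ PU o, w σ x = 0 := by linear_combination s3
    exact (mul_eq_zero.1 h3).resolve_left (by norm_num)
  -- the decomposition
  have e3 : ∑ x ∈ MM o, w σ x + ∑ x ∈ PU o, w σ x =
      ∑ x ∈ univ.filter (fun x : D X => (rot X).SameCycle o x ∧ loop x), w σ x := by
    rw [← Finset.sum_filter_add_sum_filter_not
      (univ.filter (fun x : D X => (rot X).SameCycle o x ∧ loop x)) (fun x => ¬ loop (pv x))]
    congr 1
    · refine Finset.sum_congr ?_ fun _ _ => rfl
      ext x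
      simp only [MM, Finset.mem_filter, Finset.mem_univ, true_and, and_assoc]
    · refine Finset.sum_congr ?_ fun _ _ => rfl
      ext x
      simp only [PU, Finset.mem_filter, Finset.mem_univ, true_and, and_assoc, not_not]
  rw [e1, e2, add_zero] at e3
  exact e3

end Pool.Agent.GTW
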