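import Pool.Agent.GTW.Targets

/-!
# GTW: S0, the middle strip
-/

set_option autoImplicit false

open Finset

noncomputable section

namespace Pool.Agent.GTW

namespace S0_

variable {X : Glued}

open Classical in
/-- the increment of the bottom coordinate -/
def gB (σ : D X → ℝ) (e : ℂ) (y : D X) : ℝ :=
  if loop (nx (X.glue y)) then (w σ y / e).re - (w σ (stp y) / e).re else 0

open Classical in
/-- the increment of the top coordinate -/
def gU (σ : D X → ℝ) (e : ℂ) (y : D X) : ℝ :=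
  if loop (nx (X.glue y)) then 0 else (w σ (stp y) / e).re - (w σ y / e).re

/-- the bottom coordinate -/
def BB (σ : D X → ℝ) (e : ℂ) (y0 : D X) (k : ℕ) : ℝ := ∑ j ∈ range k, gB σ e (stp^[j] y0)

/-- the top coordinate -/
def UU (σ : D X → ℝ) (e : ℂ) (y0 : D X) (k : ℕ) : ℝ :=
  (w σ y0 / e).re + ∑ j ∈ range k, gU σ e (stp^[j] y0)

theorem BB_succ (σ : D X → ℝ) (e : ℂ) (y0 : D X) (k : ℕ) :
    BB σ e y0 (k + 1) = BB σ e y0 k + gB σ e (stp^[k] y0) := by
  rw [BB, BB, sum_range_succ]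

theorem UU_succ (σ : D X → ℝ) (e : ℂ) (y0 : D X) (k : ℕ) :
    UU σ e y0 (k + 1) = UU σ e y0 k + gU σ e (stp^[k] y0) := by
  rw [UU, UU, sum_range_succ, add_assoc]

theorem gUB (σ : D X → ℝ) (e : ℂ) (y : D X) :
    gU σ e y - gB σ e y = (w σ (stp y) / e).re - (w σ y / e).re := by
  unfold gU gB
  split_ifs <;> ring

theorem UB (σ : D X → ℝ) (e : ℂ) (y0 : D X) (k : ℕ) :
    UU σ e y0 k - BB σ e y0 k = (w σ (stp^[k] y0) / e).re := by
  induction k with
  | zero => simp [UU, BB]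
  | succ k ih =>
    rw [UU_succ, BB_succ, Function.iterate_succ_apply']
    have := gUB σ e (stp^[k] y0)
    linarith

theorem per {g : ℕ → ℝ} {N : ℕ} (h : ∀ k, g (k + N) = g k) (m : ℕ) :
    ∑ j ∈ range N, g (m + j) = ∑ j ∈ range N, g j := by
  induction m with
  | zero => simp
  | succ m ih =>
    rw [← ih]
    have h1 : ∑ j ∈ range (N + 1), g (m + j) = ∑ j ∈ range N, g (m + 1 + j) + g m := by
      rw [sum_range_succ']
      simp only [add_zero]
      congr 1
      refine sum_congr rfl fun j _ => ?_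
      congr 1
      ring
    rw [sum_range_succ, h] at h1
    linarith

theorem iter_per {α : Type} (f : α → α) {x : α} {N : ℕ} (h : f^[N] x = x) (k M : ℕ) :
    f^[k + N * M] x = f^[k] x := by
  induction M with
  | zero => simp
  | succ M ih =>
    have : k + N * (M + 1) = (k + N * M) + N := by ring
    rw [this, Function.iterate_add_apply, h, ih]

theorem UU_per (σ : D X → ℝ) (e : ℂ) (y0 : D X) {N : ℕ} (h : stp^[N] y0 = y0) (k M : ℕ) :
    UU σ e y0 (k + N * M) = UU σ e y0 k + M * ∑ j ∈ range N, gU σ e (stp^[j] y0) := by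
  have hp : ∀ k, gU σ e (stp^[k + N] y0) = gU σ e (stp^[k] y0) := by
    intro k
    rw [Function.iterate_add_apply, h]
  induction M with
  | zero => simp
  | succ M ih =>
    have h1 : k + N * (M + 1) = (k + N * M) + N := by ring
    have h2 : UU σ e y0 ((k + N * M) + N) = UU σ e y0 (k + N * M) +
        ∑ j ∈ range N, gU σ e (stp^[(k + N * M) + j] y0) := by
      rw [UU, UU, sum_range_add, add_assoc]
    rw [h1, h2, ih, per (g := fun j => gU σ e (stp^[j] y0)) hp (k + N * M)]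
    push_cast
    ring

theorem im_pos {σ : D X → ℝ} (hs : Scale σ) (b : D X) :
    0 < (w σ (rot X b) / w σ b).im := by
  have h1 : w σ (rot X b) / w σ b = -X.v (pv b) / X.v b := by
    rw [w_rot hs, w]
    have h2 : (σ b : ℂ) ≠ 0 := by exact_mod_cast (hs.1 b).ne'
    rw [← mul_neg, mul_div_mul_left _ _ h2]
  have h3 : -X.v (pv b) = X.v b + X.v (nx b) := by
    linear_combination -v_sum b
  have h4 := crs_pos b
  rw [crs_eq] at h4
  have h5 : 0 < Complex.normSq (X.v b) := Complex.normSq_pos.2 (v_ne b)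
  rw [h1, h3, Complex.div_im, Complex.add_re, Complex.add_im, ← sub_div]
  refine div_pos ?_ h5
  linarith

end S0_

open S0_ in
theorem P_S0 (h_STEP : T_STEP) (h_TRANS : T_TRANS) (h_FAN : T_FAN) (h_PHI : T_PHI)
    (h_LP : T_LP) (h_CLS : T_CLS) (h_NL : T_NL) : T_S0 := by
  intro X σ H o o' hoo c0 c1 c2 x1 x2 y1 y2 Sd Sd'
  have hs := H.sc
  -- positivity of the classes
  have hc := (h_CLS X σ H o).2.1
  have hc0 : 0 < c0 := hc c0 ((Sd.kk c0).2 (Or.inl rfl))
  have hc1 : 0 < c1 := hc c1 ((Sd.kk c1).2 (Or.inr (Or.inl rfl)))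
  have hc2 : 0 < c2 := hc c2 ((Sd.kk c2).2 (Or.inr (Or.inr rfl)))
  have hc0' : (c0 : ℂ) ≠ 0 := by exact_mod_cast hc0.ne'
  -- the loops
  have mmc : ∀ {q : D X} {c : ℝ} {x : D X}, x ∈ MC σ q c →
      (rot X).SameCycle q x ∧ loop x ∧ ¬ loop (pv x) ∧ rho σ (nx x) = c := by
    intro q c x hx
    simp only [MC, MM, mem_filter, mem_univ, true_and] at hx
    exact ⟨hx.1.1, hx.1.2.1, hx.1.2.2, hx.2⟩
  have hb1 := mmc ((Sd.mc0 (X.glue x1)).2 (Or.inl rfl))
  have hx1 := mmc ((Sd.mc1 x1).2 rfl)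
  have hx2 := mmc ((Sd.mc2 x2).2 rfl)
  have hy1 := mmc ((Sd'.mc1 y1).2 rfl)
  have hy2 := mmc ((Sd'.mc2 y2).2 rfl)
  have wl : ∀ x : D X, loop x → w σ (X.glue x) = -w σ x := by
    intro x hx
    rw [w_glue hs, (h_LP X σ H x hx).1]
    push_cast
    ring
  obtain ⟨-, -, wy1, wy2⟩ := h_FAN X σ H o o' hoo c0 c1 c2 x1 x2 y1 y2 Sd Sd'
  obtain ⟨k, hk, wx2, -⟩ := Sd.ratio
  set e := w σ (X.glue x1) with he
  have he0 : e ≠ 0 := w_ne hs _
  have ex1 : w σ x1 = -e := by rw [he, wl x1 hx1.2.1, neg_neg]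
  have eb2 : w σ (X.glue x2) = (k : ℂ) * e := by
    rw [wl x2 hx2.2.1, wx2, ex1]
    ring
  have ey1 : w σ (X.glue y1) = -((c1 : ℂ) * e) := by
    rw [wl y1 hy1.2.1, wy1, ex1]
    ring
  have ey2 : w σ (X.glue y2) = -((c2 * k : ℝ) : ℂ) * e := by
    rw [wl y2 hy2.2.1, wy2, wx2, ex1]
    push_cast
    ring
  -- the transversals
  set y0 := rot X (X.glue x1) with hy0
  have hbMM : X.glue x1 ∈ MM o := by
    have := (Sd.mc0 (X.glue x1)).2 (Or.inl rfl)
    simp only [MC, mem_filter] at this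
    exact this.1
  have base : (rot X).SameCycle o y0 ∧ ¬ loop y0 ∧ rho σ y0 = c0 := by
    obtain ⟨-, -, hfr, -, hall⟩ := (h_PHI X σ H o).1 (X.glue x1) hbMM
    have h1 := hall 1 le_rfl (by omega)
    rw [pow_one] at h1
    exact ⟨hb1.1.trans (sc_rot_self _), h1.1, h1.2.trans hb1.2.2.2⟩
  have hst := (h_STEP X σ H o o' hoo c0).1
  have all : ∀ j : ℕ, (rot X).SameCycle o (stp^[j] y0) ∧ ¬ loop (stp^[j] y0) ∧
      rho σ (stp^[j] y0) = c0 := by
    intro j
    induction j with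
    | zero => exact base
    | succ j ih =>
      rw [Function.iterate_succ_apply']
      exact (hst _ ih.1 ih.2.1 ih.2.2).1
  -- the increments
  have incB : ∀ y : D X, (rot X).SameCycle o y → ¬ loop y → rho σ y = c0 →
      loop (nx (X.glue y)) → stp y = pv (X.glue y) ∧
        ∃ δ : ℝ, 0 < δ ∧ w σ y - w σ (stp y) = (δ : ℂ) * e := by
    intro y h1 h2 h3 h4
    obtain ⟨h5, h6, h7⟩ := (hst y h1 h2 h3).2.1 h4
    refine ⟨h5, ?_⟩
    rcases (Sd.mc0 _).1 h6 with h8 | h8
    · refine ⟨1, one_pos, ?_⟩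
      rw [← h7, h8, Complex.ofReal_one, one_mul]
    · refine ⟨k, hk, ?_⟩
      rw [← h7, h8, eb2]
  have incU : ∀ y : D X, (rot X).SameCycle o y → ¬ loop y → rho σ y = c0 →
      ¬ loop (nx (X.glue y)) → stp y = nx (X.glue y) ∧
        (∃ δ : ℝ, 0 < δ ∧ w σ (stp y) - w σ y = (δ : ℂ) * e) ∧
        (pv (X.glue y) = X.glue y1 → w σ (stp y) - w σ y = ((c1 / c0 : ℝ) : ℂ) * e) := by
    intro y h1 h2 h3 h4
    obtain ⟨h5, h6, h7⟩ := (hst y h1 h2 h3).2.2 h4
    have h9 : pv (X.glue y) = X.glue y1 →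
        w σ (stp y) - w σ y = ((c1 / c0 : ℝ) : ℂ) * e := by
      intro h8
      rw [h8, ey1] at h7
      push_cast
      rw [← neg_sub, ← h7]
      field_simp
    refine ⟨h5, ?_, h9⟩
    rcases (Sd'.mc0 _).1 h6 with h8 | h8
    · exact ⟨c1 / c0, div_pos hc1 hc0, h9 h8⟩
    · refine ⟨c2 * k / c0, div_pos (mul_pos hc2 hk) hc0, ?_⟩
      rw [h8, ey2] at h7
      push_cast at h7 ⊢
      rw [← neg_sub, ← h7]
      field_simp
  have reB : ∀ {a b : ℂ} {δ : ℝ}, a - b = (δ : ℂ) * e → (a / e).re - (b / e).re = δ ∧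
      (a / e).im = (b / e).im := by
    intro a b δ hab
    have h1 : a / e - b / e = (δ : ℂ) := by
      rw [← sub_div, hab, mul_div_assoc, div_self he0, mul_one]
    constructor
    · rw [← Complex.sub_re, h1, Complex.ofReal_re]
    · have h2 := congrArg Complex.im h1
      rw [Complex.sub_im, Complex.ofReal_im] at h2
      linarith
  -- the constant height
  set h := (w σ y0 / e).im with hh
  have hpos : 0 < h := im_pos hs (X.glue x1)
  have him : ∀ j : ℕ, (w σ (stp^[j] y0) / e).im = h := by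
    intro j
    induction j with
    | zero => rfl
    | succ j ih =>
      rw [Function.iterate_succ_apply', ← ih]
      obtain ⟨h1, h2, h3⟩ := all j
      by_cases h4 : loop (nx (X.glue (stp^[j] y0)))
      · obtain ⟨-, δ, -, h5⟩ := incB _ h1 h2 h3 h4
        exact (reB h5).2.symm
      · obtain ⟨-, ⟨δ, -, h5⟩, -⟩ := incU _ h1 h2 h3 h4
        exact (reB h5).2
  -- the first step
  have hg0 : X.glue y0 = pv (X.glue x1) := by
    rw [hy0, rot_apply, X.glue_glue]
  have hn0 : nx (X.glue y0) = X.glue x1 := by rw [hg0, nx_pv]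
  have hl0 : loop (nx (X.glue y0)) := by rw [hn0]; exact hb1.2.1
  have hst0 : stp y0 = pv (X.glue y0) := (incB y0 base.1 base.2.1 base.2.2 hl0).1
  have hB1 : BB σ e y0 1 = 1 := by
    rw [show (1 : ℕ) = 0 + 1 from rfl, BB_succ]
    have h1 : BB σ e y0 0 = 0 := by simp [BB]
    rw [h1, zero_add, Function.iterate_zero, id, gB, if_pos hl0]
    have h7 := ((hst y0 base.1 base.2.1 base.2.2).2.1 hl0).2.2
    rw [hn0] at h7
    have h8 : w σ y0 - w σ (stp y0) = ((1 : ℝ) : ℂ) * e := by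
      rw [← h7, Complex.ofReal_one, one_mul]
    exact (reB h8).1
  -- the strip
  have strip : Strip X σ e h c0 (fun k => stp^[k] y0) (BB σ e y0) (UU σ e y0) := by
    refine ⟨hpos, hc0, fun j => ?_, fun j => (all j).2.2, fun j => ?_⟩
    · have h1 : w σ (stp^[j] y0) / e = ((UU σ e y0 j - BB σ e y0 j : ℝ) : ℂ) +
          (h : ℂ) * Complex.I := by
        rw [UB, ← him j, Complex.re_add_im]
      show w σ (stp^[j] y0) = _
      rw [← h1, div_mul_cancel₀ _ he0]
    · obtain ⟨h1, h2, h3⟩ := all j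
      by_cases h4 : loop (nx (X.glue (stp^[j] y0)))
      · left
        obtain ⟨h5, δ, h6, h7⟩ := incB _ h1 h2 h3 h4
        refine ⟨?_, ?_, ?_⟩
        · show stp^[j + 1] y0 = _
          rw [Function.iterate_succ_apply']
          exact h5
        · rw [UU_succ, gU, if_pos h4, add_zero]
        · rw [BB_succ, gB, if_pos h4, (reB h7).1]
          linarith
      · right
        obtain ⟨h5, ⟨δ, h6, h7⟩, -⟩ := incU _ h1 h2 h3 h4
        refine ⟨?_, ?_, ?_⟩
        · show stp^[j + 1] y0 = _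
          rw [Function.iterate_succ_apply']
          exact h5
        · rw [BB_succ, gB, if_neg h4, add_zero]
        · rw [UU_succ, gU, if_neg h4, (reB h7).1]
          linarith
  -- the period
  obtain ⟨htr, N, hN, hper⟩ := h_TRANS X σ H o c0 c1 c2 x1 x2 Sd
  -- the special transversal
  have hz := mmc ((Sd'.mc0 (X.glue y1)).2 (Or.inl rfl))
  have hnl : ¬ loop (nx (X.glue y1)) := (h_NL X σ H (X.glue y1)).2.2.2.1 hz.2.1 hz.2.2.1
  have hzo : (rot X).SameCycle o' (nx (X.glue y1)) :=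
    hz.1.trans ((loop_iff _).1 hz.2.1)
  have hgl : ¬ loop (X.glue (nx (X.glue y1))) := fun h => hnl ((loop_glue _).1 h)
  have hoz : (rot X).SameCycle o (X.glue (nx (X.glue y1))) := by
    rcases H.three o o' (X.glue (nx (X.glue y1))) with h1 | h1 | h1
    · exact absurd h1 hoo
    · exact h1
    · exact absurd (hzo.symm.trans h1) hnl
  have hrz : rho σ (X.glue (nx (X.glue y1))) = c0 := by
    rw [rho_glue hs, hz.2.2.2, inv_inv]
  obtain ⟨k0, hk0⟩ := htr _ hoz hgl hrz
  rw [← hy0] at hk0 hper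
  refine ⟨h, fun k => stp^[k] y0, BB σ e y0, UU σ e y0, k0 + N, N,
    ∑ j ∈ range N, gU σ e (stp^[j] y0), strip, by simp [BB], hB1, hst0, hn0, by omega, ?_, ?_⟩
  · -- positivity of the period
    have h1 := UB σ e y0 N
    rw [hper] at h1
    have h2 : UU σ e y0 N = (w σ y0 / e).re + ∑ j ∈ range N, gU σ e (stp^[j] y0) := rfl
    have h3 : ∑ j ∈ range N, gU σ e (stp^[j] y0) = BB σ e y0 N := by linarith
    rw [h3]
    have h4 : BB σ e y0 1 ≤ BB σ e y0 N := by
      have hm : Monotone (BB σ e y0) := monotone_nat_of_le_succ fun j => by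
        rcases strip.step j with h5 | h5
        · exact h5.2.2.le
        · exact h5.2.1.ge
      exact hm hN
    rw [hB1] at h4
    linarith
  · intro M
    have hyl : stp^[k0 + N + N * M] y0 = X.glue (nx (X.glue y1)) := by
      rw [iter_per stp hper, Function.iterate_add_apply, hper, hk0]
    have hgy : X.glue (stp^[k0 + N + N * M] y0) = nx (X.glue y1) := by
      rw [hyl, X.glue_glue]
    have hpy : pv (X.glue (stp^[k0 + N + N * M] y0)) = X.glue y1 := by rw [hgy, pv_nx]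
    have hny : ¬ loop (nx (X.glue (stp^[k0 + N + N * M] y0))) := by
      rw [hgy, nx_nx]
      exact hz.2.2.1
    obtain ⟨h1, h2, h3⟩ := all (k0 + N + N * M)
    obtain ⟨h5, -, h6⟩ := incU _ h1 h2 h3 hny
    refine ⟨?_, hpy, UU_per σ e y0 hper _ _, ?_⟩
    · show stp^[k0 + N + N * M + 1] y0 = _
      rw [Function.iterate_succ_apply']
      exact h5
    · rw [UU_succ, gU, if_neg hny, (reB (h6 hpy)).1]

end Pool.Agent.GTW
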