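import Pool.Agent.GTW.Targets

/-!
# GTW: the outer strip, explicit (T_S1)
-/

set_option autoImplicit false

open Finset

noncomputable section

namespace Pool.Agent.GTW

namespace S1_

variable {X : Glued}

theorem mem_MC {σ : D X → ℝ} {o x : D X} {c : ℝ} (h : x ∈ MC σ o c) :
    loop x ∧ rho σ (nx x) = c := by
  classical
  unfold MC at h
  rw [Finset.mem_filter] at h
  obtain ⟨h1, h2⟩ := h
  unfold MM at h1
  rw [Finset.mem_filter] at h1
  exact ⟨h1.2.2.1, h2⟩

/-- the direction of the previous side, seen from `-v x` -/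
theorem im_pos {σ : D X → ℝ} (h : Scale σ) (x : D X) (e : ℂ) (he : e = -w σ x) :
    0 < (w σ (pv x) / e).im := by
  have h1 := h.1 x
  have h2 := h.1 (pv x)
  have h3 := crs_pos x
  have h4 := v_ne x
  have h5 : X.v (nx x) = -(X.v x) - X.v (pv x) := by
    have := v_sum x
    linear_combination this
  have hN : 0 < Complex.normSq (X.v x) := Complex.normSq_pos.2 h4
  have key : w σ (pv x) / e = ((σ (pv x) / σ x : ℝ) : ℂ) * (-(X.v (pv x)) / X.v x) := by
    have h1' : (σ x : ℂ) ≠ 0 := by exact_mod_cast h1.ne'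
    rw [he, w, w]
    push_cast
    field_simp
  rw [key, Complex.im_ofReal_mul]
  apply mul_pos (div_pos h2 h1)
  rw [Complex.div_im]
  rw [h5, crs_eq] at h3
  simp only [Complex.sub_re, Complex.sub_im, Complex.neg_re, Complex.neg_im] at h3 ⊢
  have h6 : -(X.v (pv x)).im * (X.v x).re / Complex.normSq (X.v x) -
      -(X.v (pv x)).re * (X.v x).im / Complex.normSq (X.v x) =
      (-(X.v (pv x)).im * (X.v x).re + (X.v (pv x)).re * (X.v x).im) /
        Complex.normSq (X.v x) := by
    field_simp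
    ring
  rw [h6]
  apply div_pos _ hN
  linarith

end S1_

theorem P_S1 (hFAN : T_FAN) (hLP : T_LP) : T_S1 := by
  intro X σ hH o o' hoo c0 c1 c2 x1 x2 y1 y2 hS hS'
  obtain ⟨f1, f2, f3, -⟩ := hFAN X σ hH o o' hoo c0 c1 c2 x1 x2 y1 y2 hS hS'
  have hsc := hH.sc
  obtain ⟨lx, rx⟩ := S1_.mem_MC ((hS.mc1 x1).2 rfl)
  obtain ⟨ly, ry⟩ := S1_.mem_MC ((hS'.mc1 y1).2 rfl)
  have r1 : rho σ x1 = 1 := (hLP X σ hH x1 lx).1
  have r2 : rho σ y1 = 1 := (hLP X σ hH y1 ly).1
  have hc1 : 0 < c1 := rx ▸ rho_pos hsc (nx x1)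
  have he : w σ (X.glue x1) = -w σ x1 := by
    rw [w_glue hsc, r1]
    push_cast
    ring
  have hpx : rho σ (pv x1) = c1⁻¹ := by
    have := rho_prod hsc x1
    rw [r1, rx, one_mul] at this
    exact eq_inv_of_mul_eq_one_right this
  set e : ℂ := w σ (X.glue x1) with hedef
  have he0 : e ≠ 0 := w_ne hsc _
  have him : 0 < (w σ (pv x1) / e).im := S1_.im_pos hsc x1 e he
  have hwp : w σ (pv x1) = (((w σ (pv x1) / e).re : ℂ) + ((w σ (pv x1) / e).im : ℂ) * Complex.I) * e := by
    rw [Complex.re_add_im, div_mul_cancel₀ _ he0]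
  have hwy : w σ y1 = (c1 : ℂ) * e := by
    rw [f3, he]
    ring
  have hrot : rot X y1 = pv x1 := by
    rw [rot_apply, ← f1, X.glue_glue]
  have hwn : w σ (nx y1) = w σ (pv x1) - (c1 : ℂ) * e := by
    have := w_rot' hsc y1
    rw [hrot, r2, hwy] at this
    push_cast at this
    rw [inv_one, one_mul] at this
    linear_combination -this
  refine ⟨(w σ (pv x1) / e).im, (w σ (pv x1) / e).re, ?_⟩
  generalize hu : (w σ (pv x1) / e).re = u at *
  generalize hh : (w σ (pv x1) / e).im = h at *
  refine ⟨him, inv_pos.2 hc1, ?_, ?_, ?_⟩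
  · intro k
    rcases Nat.even_or_odd' k with ⟨j, rfl | rfl⟩
    · have a1 : (2 * j) % 2 = 0 := by omega
      have a2 : (2 * j + 1) / 2 = j := by omega
      have a3 : (2 * j) / 2 = j := by omega
      simp only [a1, a2, a3, if_true]
      rw [hwp]
      push_cast
      ring
    · have a1 : ¬ ((2 * j + 1) % 2 = 0) := by omega
      have a2 : (2 * j + 1 + 1) / 2 = j + 1 := by omega
      have a3 : (2 * j + 1) / 2 = j := by omega
      simp only [a1, a2, a3, if_false]
      rw [hwn, hwp]
      push_cast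
      ring
  · intro k
    rcases Nat.even_or_odd' k with ⟨j, rfl | rfl⟩
    · have a1 : (2 * j) % 2 = 0 := by omega
      simp only [a1, if_true]
      exact hpx
    · have a1 : ¬ ((2 * j + 1) % 2 = 0) := by omega
      simp only [a1, if_false]
      exact ry
  · intro k
    rcases Nat.even_or_odd' k with ⟨j, rfl | rfl⟩
    · left
      have a1 : (2 * j) % 2 = 0 := by omega
      have a1' : ¬ ((2 * j + 1) % 2 = 0) := by omega
      have a2 : (2 * j + 1) / 2 = j := by omega
      have a3 : (2 * j) / 2 = j := by omega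
      have a4 : (2 * j + 1 + 1) / 2 = j + 1 := by omega
      simp only [a1, a1', a2, a3, a4, if_true, if_false]
      refine ⟨?_, trivial, ?_⟩
      · rw [f1, pv_pv]
      · push_cast
        nlinarith
    · right
      have a1 : ¬ ((2 * j + 1) % 2 = 0) := by omega
      have a1' : (2 * j + 1 + 1) % 2 = 0 := by omega
      have a2 : (2 * j + 1 + 1) / 2 = j + 1 := by omega
      have a3 : (2 * j + 1) / 2 = j := by omega
      have a4 : (2 * j + 1 + 1 + 1) / 2 = j + 1 := by omega
      simp only [a1, a1', a2, a3, a4, if_true, if_false]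
      refine ⟨?_, trivial, ?_⟩
      · rw [f2, nx_nx]
      · push_cast
        nlinarith

end Pool.Agent.GTW
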