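import Pool.Agent.GTW.Targets

/-!
# GTW: target SCL (existence of a scale)
-/

set_option autoImplicit false

open Finset

noncomputable section

namespace Pool.Agent.GTW

namespace SCL_

variable {X : Glued}

/-- the product along a cycle -/
def Pr (r : D X) (m : ℕ) : ℝ := ∏ k ∈ range m, (X.mu (pv (((rot X) ^ k) r)))⁻¹

theorem Pr_pos (r : D X) (m : ℕ) : 0 < Pr r m :=
  Finset.prod_pos fun _ _ => inv_pos.2 (X.mu_pos _)

theorem Pr_succ (r : D X) (m : ℕ) :
    Pr r (m + 1) = Pr r m * (X.mu (pv (((rot X) ^ m) r)))⁻¹ := by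
  unfold Pr
  rw [Finset.prod_range_succ]

theorem Pr_add (r : D X) (m n : ℕ) : Pr r (m + n) = Pr r m * Pr (((rot X) ^ m) r) n := by
  unfold Pr
  rw [Finset.prod_range_add]
  congr 1
  refine Finset.prod_congr rfl fun k _ => ?_
  rw [add_comm m k, pow_add, Equiv.Perm.mul_apply]

theorem Pr_le (hX : IsAffine X) (r : D X) {m m' : ℕ} (hm : m ≤ m')
    (h : ((rot X) ^ m) r = ((rot X) ^ m') r) : Pr r m = Pr r m' := by
  obtain ⟨n, rfl⟩ := Nat.exists_eq_add_of_le hm
  have h1 : ((rot X) ^ n) (((rot X) ^ m) r) = ((rot X) ^ m) r := by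
    rw [← Equiv.Perm.mul_apply, ← pow_add, add_comm n m]
    exact h.symm
  have h2 : Pr (((rot X) ^ m) r) n = 1 := by
    unfold Pr
    rw [Finset.prod_inv_distrib, hX.hol _ n h1, inv_one]
  rw [Pr_add, h2, mul_one]

theorem Pr_eq (hX : IsAffine X) (r : D X) {m m' : ℕ}
    (h : ((rot X) ^ m) r = ((rot X) ^ m') r) : Pr r m = Pr r m' := by
  rcases le_total m m' with hm | hm
  · exact Pr_le hX r hm h
  · exact (Pr_le hX r hm h.symm).symm

/-- the representative of the cycle -/
def rep (x : D X) : D X :=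
  Quotient.out (Quotient.mk (Equiv.Perm.SameCycle.setoid (rot X)) x)

theorem rep_same (x : D X) : (rot X).SameCycle (rep x) x :=
  Quotient.mk_out (s := Equiv.Perm.SameCycle.setoid (rot X)) x

theorem rep_rot (x : D X) : rep (rot X x) = rep x := by
  unfold rep
  have h : Quotient.mk (Equiv.Perm.SameCycle.setoid (rot X)) (rot X x) =
      Quotient.mk (Equiv.Perm.SameCycle.setoid (rot X)) x :=
    Quotient.sound (s := Equiv.Perm.SameCycle.setoid (rot X)) (sc_rot_self x).symm
  rw [h]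

end SCL_

open SCL_ in
theorem P_SCL : T_SCL := by
  intro X hX
  have hm : ∀ x : D X, ∃ m : ℕ, ((rot X) ^ m) (rep x) = x := fun x =>
    (rep_same x).exists_nat_pow_eq
  choose m hm using hm
  refine ⟨fun x => Pr (rep x) (m x), fun x => Pr_pos _ _, fun x => ?_⟩
  have h1 := hm (rot X x)
  rw [rep_rot] at h1
  have h2 : ((rot X) ^ (m x + 1)) (rep x) = rot X x := by
    rw [pow_succ', Equiv.Perm.mul_apply, hm]
  show Pr (rep (rot X x)) (m (rot X x)) * X.mu (pv x) = Pr (rep x) (m x)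
  rw [rep_rot, Pr_eq hX (rep x) (h1.trans h2.symm), Pr_succ, hm, mul_assoc,
    inv_mul_cancel₀ (X.mu_pos _).ne', mul_one]

end Pool.Agent.GTW
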