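import Pool.Agent.GTW.Targets

set_option autoImplicit false

open Finset

noncomputable section

namespace Pool.Agent.GTW

variable {X : Glued}

private theorem STEP_case1 {y : D X} (h : loop (nx (X.glue y))) : stp y = pv (X.glue y) := by
  unfold stp
  rw [if_pos h]

private theorem STEP_case2 {y : D X} (h : ¬ loop (nx (X.glue y))) : stp y = nx (X.glue y) := by
  unfold stp
  rw [if_neg h]

private theorem STEP_mem {σ : D X → ℝ} {o x : D X} {c : ℝ} (h1 : (rot X).SameCycle o x)
    (h2 : loop x) (h3 : ¬ loop (pv x)) (h4 : rho σ (nx x) = c) : x ∈ MC σ o c := by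
  classical
  unfold MC MM
  refine Finset.mem_filter.2 ⟨Finset.mem_filter.2 ⟨Finset.mem_univ _, h1, h2, h3⟩, h4⟩

/-- One step to the right in a strip. -/
theorem P_STEP (h_NL : T_NL) (h_LP : T_LP) : T_STEP := by
  intro X σ H o o' hoo c0
  refine ⟨?_, ?_⟩
  · intro y hoy hly hry
    have hsc := H.sc
    have hc0 : 0 < c0 := hry ▸ rho_pos hsc y
    have hc0C : (c0 : ℂ) ≠ 0 := by exact_mod_cast hc0.ne'
    have hgr : rho σ (X.glue y) = c0⁻¹ := by rw [rho_glue hsc, hry]
    have hgl : ¬ loop (X.glue y) := by rw [loop_glue]; exact hly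
    have hrot : rot X (nx (X.glue y)) = y := by rw [rot_nx, X.glue_glue]
    have hyg : (rot X).SameCycle (nx (X.glue y)) y := by
      have h1 := sc_rot_self (nx (X.glue y))
      rw [hrot] at h1
      exact h1
    have hog : (rot X).SameCycle o (nx (X.glue y)) := hoy.trans hyg.symm
    have hwg : w σ (X.glue y) = -((c0 : ℂ) * w σ y) := by rw [w_glue hsc, hry]
    by_cases hl : loop (nx (X.glue y))
    · have hs := STEP_case1 hl
      have hnl : ¬ loop (pv (X.glue y)) := by
        have h4 := (h_NL X σ H (nx (X.glue y))).2.2.2.1 hl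
        rw [pv_nx, nx_nx] at h4
        exact h4 hgl
      have hr1 : rho σ (nx (X.glue y)) = 1 := (h_LP X σ H _ hl).1
      have hr : rho σ (pv (X.glue y)) = c0 := by
        have h5 := rho_prod hsc (X.glue y)
        rw [hgr, hr1] at h5
        field_simp at h5
        exact h5
      have hsame : (rot X).SameCycle o (pv (X.glue y)) := by
        have h6 := (loop_iff _).1 hl
        rw [nx_nx] at h6
        exact hog.trans h6
      refine ⟨?_, ?_, ?_⟩
      · rw [hs]
        exact ⟨hsame, hnl, hr⟩
      · intro _
        refine ⟨hs, ?_, ?_⟩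
        · refine STEP_mem hog hl ?_ ?_
          · rw [pv_nx]; exact hgl
          · rw [nx_nx]; exact hr
        · have h7 := w_rot' hsc (nx (X.glue y))
          rw [hrot, hr1, nx_nx] at h7
          rw [hs, h7]
          push_cast
          ring
      · intro hn
        exact absurd hl hn
    · have hs := STEP_case2 hl
      have hpl : loop (pv (X.glue y)) := (h_NL X σ H (X.glue y)).2.1 hgl hl
      have hr1 : rho σ (pv (X.glue y)) = 1 := (h_LP X σ H _ hpl).1
      have hr : rho σ (nx (X.glue y)) = c0 := by
        have h5 := rho_prod hsc (X.glue y)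
        rw [hgr, hr1] at h5
        field_simp at h5
        exact h5
      have ho'g : (rot X).SameCycle o' (X.glue y) := by
        rcases H.three o o' (X.glue y) with h8 | h8 | h8
        · exact absurd h8 hoo
        · exfalso
          apply hly
          exact hoy.symm.trans h8
        · exact h8
      refine ⟨?_, ?_, ?_⟩
      · rw [hs]
        exact ⟨hog, hl, hr⟩
      · intro hn
        exact absurd hn hl
      · intro _
        refine ⟨hs, ?_, ?_⟩
        · refine STEP_mem ?_ hpl ?_ ?_
          · have h9 := (loop_iff _).1 hpl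
            rw [nx_pv] at h9
            exact ho'g.trans h9.symm
          · rw [pv_pv]; exact hl
          · rw [nx_pv]; exact hgr
        · have h10 := tri_w hsc (nx (X.glue y))
          rw [pv_nx, nx_nx, hwg, hr, hgr] at h10
          rw [hs]
          have h11 : ((c0⁻¹ : ℝ) : ℂ) * -((c0 : ℂ) * w σ y) = - w σ y := by
            push_cast
            field_simp
          rw [h11] at h10
          linear_combination h10
  · intro y z hy hz hyz
    have hgy : ¬ loop (X.glue y) := by rw [loop_glue]; exact hy
    have hgz : ¬ loop (X.glue z) := by rw [loop_glue]; exact hz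
    by_cases hl1 : loop (nx (X.glue y)) <;> by_cases hl2 : loop (nx (X.glue z))
    · rw [STEP_case1 hl1, STEP_case1 hl2] at hyz
      apply glue_inj
      rw [← nx_pv (X.glue y), hyz, nx_pv]
    · rw [STEP_case1 hl1, STEP_case2 hl2] at hyz
      exfalso
      apply hgz
      rw [← pv_nx (X.glue z), ← hyz, pv_pv]
      exact hl1
    · rw [STEP_case2 hl1, STEP_case1 hl2] at hyz
      exfalso
      apply hgy
      rw [← pv_nx (X.glue y), hyz, pv_pv]
      exact hl2
    · rw [STEP_case2 hl1, STEP_case2 hl2] at hyz
      apply glue_inj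
      rw [← pv_nx (X.glue y), hyz, pv_nx]

end Pool.Agent.GTW
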