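import Pool.Agent.GTW.Targets

/-!
# GTW: crossing a strip
-/

set_option autoImplicit false

open Finset

noncomputable section

namespace Pool.Agent.GTW

namespace STRIP_

variable {X : Glued} {σ : D X → ℝ} {e : ℂ} {h c : ℝ} {y : ℕ → D X} {B U : ℕ → ℝ}

theorem F1 (hS : Scale σ) (x : D X) :
    (σ (nx (X.glue x)) : ℂ) * X.v (X.glue x) = -w σ x := by
  have h1 := mu_eq' hS x
  have h3 := (hS.1 (nx (X.glue x))).ne'
  have h2 : (σ (nx (X.glue x)) : ℂ) * (X.mu x : ℂ) = σ x := by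
    rw [h1, ← Complex.ofReal_mul, mul_div_cancel₀ _ h3]
  rw [X.v_glue, w, mul_neg, ← mul_assoc, h2]

theorem F2 (hS : Scale σ) (hs : Strip X σ e h c y B U) (k : ℕ) :
    σ (y (k + 1)) = σ (nx (X.glue (y k))) := by
  rcases hs.step k with h1 | h1
  · have h2 := rho_prod hS (X.glue (y k))
    rw [rho_glue hS, hs.rho_eq, ← h1.1, hs.rho_eq] at h2
    have hc := hs.cpos.ne'
    have h3 : rho σ (nx (X.glue (y k))) = 1 := by
      field_simp at h2
      exact h2
    have h4 := sc_nx hS (nx (X.glue (y k)))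
    rw [nx_nx, h3, one_mul, ← h1.1] at h4
    exact h4
  · rw [h1.1]

/-- the fraction of the transversal -/
def p (B U : ℕ → ℝ) (X0 X1 : ℝ) (k : ℕ) : ℝ := (B k - X0) / ((B k - X0) + (X1 - U k))

theorem KR (hs : Strip X σ e h c y B U) (X0 X1 : ℝ) (k : ℕ) (ha : 0 < B k - X0)
    (hb : 0 < X1 - U k) :
    (p B U X0 X1 k : ℂ) * w σ (y k) = ((X0 - B k : ℝ) : ℂ) * e +
      (p B U X0 X1 k : ℂ) * ((((X1 - X0 : ℝ) : ℂ) + (h : ℂ) * Complex.I) * e) := by
  have h1 : p B U X0 X1 k * (U k - B k) = (X0 - B k) + p B U X0 X1 k * (X1 - X0) := by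
    have h2 : p B U X0 X1 k * ((B k - X0) + (X1 - U k)) = B k - X0 :=
      div_mul_cancel₀ _ (by positivity)
    linear_combination -h2
  have h3 : (p B U X0 X1 k : ℂ) * ((U k - B k : ℝ) : ℂ) = ((X0 - B k : ℝ) : ℂ) +
      (p B U X0 X1 k : ℂ) * ((X1 - X0 : ℝ) : ℂ) := by exact_mod_cast h1
  rw [hs.w_eq]
  linear_combination e * h3

theorem p_pos (X0 X1 : ℝ) (k : ℕ) (ha : 0 < B k - X0) (hb : 0 < X1 - U k) :
    0 < p B U X0 X1 k := div_pos ha (by linarith)

theorem p_lt (X0 X1 : ℝ) (k : ℕ) (ha : 0 < B k - X0) (hb : 0 < X1 - U k) :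
    p B U X0 X1 k < 1 := (div_lt_one (by linarith)).2 (by linarith)

theorem p_mono (hs : Strip X σ e h c y B U) (X0 X1 : ℝ) (k : ℕ) (ha : 0 < B k - X0)
    (hb : 0 < X1 - U k) (hb' : 0 < X1 - U (k + 1)) :
    p B U X0 X1 k < p B U X0 X1 (k + 1) := by
  have h1 : (B k - X0) * (X1 - U (k + 1)) < (B (k + 1) - X0) * (X1 - U k) := by
    rcases hs.step k with h2 | h2
    · rw [h2.2.1]
      exact mul_lt_mul_of_pos_right (by linarith [h2.2.2]) hb
    · rw [h2.2.1]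
      exact mul_lt_mul_of_pos_left (by linarith [h2.2.2]) ha
  have ha' : 0 < B (k + 1) - X0 := by
    rcases hs.step k with h2 | h2
    · linarith [h2.2.2]
    · rw [h2.2.1]; exact ha
  unfold p
  rw [div_lt_div_iff₀ (by linarith) (by linarith)]
  nlinarith

theorem B_mono (hs : Strip X σ e h c y B U) : Monotone B := by
  refine monotone_nat_of_le_succ fun k => ?_
  rcases hs.step k with h2 | h2
  · exact h2.2.2.le
  · exact h2.2.1.ge

theorem U_mono (hs : Strip X σ e h c y B U) : Monotone U := by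
  refine monotone_nat_of_le_succ fun k => ?_
  rcases hs.step k with h2 | h2
  · exact h2.2.1.ge
  · exact h2.2.2.le

theorem div_eq {s z d : ℂ} {t r : ℝ} (ht : 0 < t) (hs : s = t) (h : s * z = r * d) :
    z = ((r / t : ℝ) : ℂ) * d := by
  have ht' : (t : ℂ) ≠ 0 := by exact_mod_cast ht.ne'
  rw [hs] at h
  push_cast
  field_simp
  linear_combination h

/-- an inner step -/
theorem mid_step (hS : Scale σ) (hs : Strip X σ e h c y B U) (X0 X1 : ℝ) (k : ℕ)
    (ha : 0 < B k - X0) (hb : 0 < X1 - U k) (ha' : 0 < B (k + 1) - X0)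
    (hb' : 0 < X1 - U (k + 1)) :
    Step ((((X1 - X0 : ℝ) : ℂ) + (h : ℂ) * Complex.I) * e)
      (X.glue (y k), 1 - p B U X0 X1 k) (X.glue (y (k + 1)), 1 - p B U X0 X1 (k + 1)) := by
  have hk := KR hs X0 X1 k ha hb
  have hk' := KR hs X0 X1 (k + 1) ha' hb'
  have hsc := hS.1 (nx (X.glue (y k)))
  have f1 := F1 hS (y k)
  have f2 : (σ (nx (X.glue (y k))) : ℂ) * X.v (y (k + 1)) = w σ (y (k + 1)) := by
    rw [w, F2 hS hs k]
  have hr : 0 < (p B U X0 X1 (k + 1) - p B U X0 X1 k) / σ (nx (X.glue (y k))) :=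
    div_pos (sub_pos.2 (p_mono hs X0 X1 k ha hb hb')) hsc
  rcases hs.step k with h1 | h1
  · refine ⟨y (k + 1), ?_, ?_, rfl, _, hr, ?_⟩
    · rw [h1.1]; rfl
    · rw [h1.1]; exact pv_ne _
    · refine div_eq hsc rfl ?_
      have hcor : cor (X.glue (y k)) = cor (y (k + 1)) + X.v (y (k + 1)) := by
        rw [← cor_nx, h1.1, nx_pv]
      have hw : w σ (y k) - w σ (y (k + 1)) = ((B (k + 1) - B k : ℝ) : ℂ) * e := by
        rw [hs.w_eq, hs.w_eq, h1.2.1]
        push_cast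
        ring
      simp only [pt]
      rw [hcor]
      push_cast at hk hk' hw ⊢
      linear_combination hk' - hk + hw + ((p B U X0 X1 (k + 1) : ℂ) - 1) * f2 -
        (1 - (p B U X0 X1 k : ℂ)) * f1
  · refine ⟨y (k + 1), ?_, ?_, rfl, _, hr, ?_⟩
    · rw [h1.1]; rfl
    · rw [h1.1]; exact nx_ne _
    · refine div_eq hsc rfl ?_
      have hcor : cor (y (k + 1)) = cor (X.glue (y k)) + X.v (X.glue (y k)) := by
        rw [← cor_nx, h1.1]
      simp only [pt]
      rw [hcor]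
      rw [h1.2.1] at hk'
      push_cast at hk hk' ⊢
      linear_combination hk' - hk + (p B U X0 X1 (k + 1) : ℂ) * f2 +
        (p B U X0 X1 k : ℂ) * f1

/-- the first step -/
theorem first_step (hS : Scale σ) (hs : Strip X σ e h c y B U) (X0 X1 : ℝ)
    (hy : y 1 = pv (X.glue (y 0))) (hB : B 0 < B 1) (hU : U 1 = U 0)
    (ha : 0 < B 1 - X0) (hb : 0 < X1 - U 1) :
    Step ((((X1 - X0 : ℝ) : ℂ) + (h : ℂ) * Complex.I) * e)
      (nx (X.glue (y 0)), (X0 - B 0) / (B 1 - B 0)) (X.glue (y 1), 1 - p B U X0 X1 1) := by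
  have hk := KR hs X0 X1 1 ha hb
  have hsc := hS.1 (nx (X.glue (y 0)))
  have f1 := F1 hS (y 0)
  have f2 : (σ (nx (X.glue (y 0))) : ℂ) * X.v (y 1) = w σ (y 1) := by
    rw [w, F2 hS hs 0]
  have hsum := v_sum (X.glue (y 0))
  rw [← hy] at hsum
  have hyn : y 1 = nx (nx (X.glue (y 0))) := by rw [nx_nx, hy]
  have hcor : cor (y 1) = cor (nx (X.glue (y 0))) + X.v (nx (X.glue (y 0))) := by
    rw [← cor_nx, hyn]
  have hw : w σ (y 0) - w σ (y 1) = ((B 1 - B 0 : ℝ) : ℂ) * e := by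
    rw [hs.w_eq, hs.w_eq, hU]
    push_cast
    ring
  have hr : 0 < p B U X0 X1 1 / σ (nx (X.glue (y 0))) :=
    div_pos (p_pos X0 X1 1 ha hb) hsc
  refine ⟨y 1, ?_, ?_, rfl, _, hr, ?_⟩
  · rw [hy]; rfl
  · rw [hyn]; exact nx_ne _
  · refine div_eq hsc rfl ?_
    have hq : (((X0 - B 0) / (B 1 - B 0) : ℝ) : ℂ) * ((B 1 - B 0 : ℝ) : ℂ) =
        ((X0 - B 0 : ℝ) : ℂ) := by
      rw [← Complex.ofReal_mul, div_mul_cancel₀ _ (sub_pos.2 hB).ne']
    simp only [pt]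
    rw [hcor]
    generalize (((X0 - B 0) / (B 1 - B 0) : ℝ) : ℂ) = s at hq ⊢
    push_cast at hk hw hq ⊢
    linear_combination hk + (p B U X0 X1 1 : ℂ) * f2 + (1 - s) * hw -
      e * hq + (1 - s) * (σ (nx (X.glue (y 0))) : ℂ) * hsum - (1 - s) * f1 - (1 - s) * f2

/-- the last step -/
theorem last_step (hS : Scale σ) (hs : Strip X σ e h c y B U) (X0 X1 : ℝ) (l : ℕ)
    (hy : y (l + 1) = nx (X.glue (y l))) (hB : B (l + 1) = B l) (hU : U l < U (l + 1))
    (ha : 0 < B l - X0) (hb : 0 < X1 - U l) :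
    Step ((((X1 - X0 : ℝ) : ℂ) + (h : ℂ) * Complex.I) * e)
      (X.glue (y l), 1 - p B U X0 X1 l)
      (X.glue (pv (X.glue (y l))), (X1 - U l) / (U (l + 1) - U l)) := by
  have hk := KR hs X0 X1 l ha hb
  have hsc := hS.1 (nx (X.glue (y l)))
  have f1 := F1 hS (y l)
  have f2 : (σ (nx (X.glue (y l))) : ℂ) * X.v (y (l + 1)) = w σ (y (l + 1)) := by
    rw [w, F2 hS hs l]
  have hsum := v_sum (X.glue (y l))
  rw [← hy] at hsum
  have hcor : cor (X.glue (y l)) = cor (pv (X.glue (y l))) + X.v (pv (X.glue (y l))) := by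
    rw [← cor_nx, nx_pv]
  have hw : w σ (y l) - w σ (y (l + 1)) = -((U (l + 1) - U l : ℝ) : ℂ) * e := by
    rw [hs.w_eq, hs.w_eq, hB]
    push_cast
    ring
  have hr : 0 < (1 - p B U X0 X1 l) / σ (nx (X.glue (y l))) :=
    div_pos (sub_pos.2 (p_lt X0 X1 l ha hb)) hsc
  refine ⟨pv (X.glue (y l)), rfl, pv_ne _, rfl, _, hr, ?_⟩
  refine div_eq hsc rfl ?_
  have hq : (((X1 - U l) / (U (l + 1) - U l) : ℝ) : ℂ) * ((U (l + 1) - U l : ℝ) : ℂ) =
      ((X1 - U l : ℝ) : ℂ) := by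
    rw [← Complex.ofReal_mul, div_mul_cancel₀ _ (sub_pos.2 hU).ne']
  have hwl := hs.w_eq l
  simp only [pt]
  rw [hcor]
  generalize ((X1 - U l) / (U (l + 1) - U l) : ℝ) = s at hq ⊢
  push_cast at hk hw hq hwl ⊢
  linear_combination -hk + (-(s : ℂ)) * (σ (nx (X.glue (y l))) : ℂ) * hsum +
    (s : ℂ) * f1 + (s : ℂ) * f2 - (s : ℂ) * hw + e * hq - (1 - (p B U X0 X1 l : ℂ)) * f1 + hwl

end STRIP_

open STRIP_

theorem P_STRIP : T_STRIP := by
  intro X σ hS e h c y B U _ hs hy1 l hl hyl X0 X1 h0 h01 h1 h11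
  have hB01 : U 1 = U 0 ∧ B 0 < B 1 := by
    rcases hs.step 0 with h2 | h2
    · exact ⟨h2.2.1, h2.2.2⟩
    · exact absurd (h2.1.symm.trans hy1) (nx_ne_pv _)
  have hUl : B (l + 1) = B l ∧ U l < U (l + 1) := by
    rcases hs.step l with h2 | h2
    · exact absurd (hyl.symm.trans h2.1) (nx_ne_pv _)
    · exact ⟨h2.2.1, h2.2.2⟩
  have ha : ∀ k, 1 ≤ k → 0 < B k - X0 := fun k hk => by
    have := B_mono hs hk
    linarith
  have hb : ∀ k, k ≤ l → 0 < X1 - U k := fun k hk => by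
    have := U_mono hs hk
    linarith
  have hp : ∀ k, 1 ≤ k → k ≤ l → 0 < 1 - p B U X0 X1 k ∧ 1 - p B U X0 X1 k < 1 :=
    fun k hk hk' => by
      have h2 := p_pos (B := B) (U := U) X0 X1 k (ha k hk) (hb k hk')
      have h3 := p_lt (B := B) (U := U) X0 X1 k (ha k hk) (hb k hk')
      constructor <;> linarith
  have hs0 : 0 < (X0 - B 0) / (B 1 - B 0) ∧ (X0 - B 0) / (B 1 - B 0) < 1 :=
    ⟨div_pos (by linarith) (by linarith), (div_lt_one (by linarith)).2 (by linarith)⟩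
  have hs1 : 0 < (X1 - U l) / (U (l + 1) - U l) ∧ (X1 - U l) / (U (l + 1) - U l) < 1 :=
    ⟨div_pos (by linarith) (by linarith), (div_lt_one (by linarith)).2 (by linarith)⟩
  have hmu : ∀ k, X.mu (X.glue (X.glue (y (k + 1)))) =
      σ (nx (X.glue (y k))) / σ (nx (X.glue (y (k + 1)))) := fun k => by
    rw [X.glue_glue, mu_eq' hS, F2 hS hs k]
  have hpos : ∀ x : D X, σ x ≠ 0 := fun x => (hS.1 x).ne'
  have main : ∀ k, 1 ≤ k → k ≤ l →
      Pth ((((X1 - X0 : ℝ) : ℂ) + (h : ℂ) * Complex.I) * e)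
        (nx (X.glue (y 0)), (X0 - B 0) / (B 1 - B 0))
        (X.glue (y k), 1 - p B U X0 X1 k)
        (σ (nx (X.glue (y 0))) / σ (nx (X.glue (y k)))) := by
    intro k hk
    induction k, hk using Nat.le_induction with
    | base =>
      intro h2
      have := Pth.one hs0.1 hs0.2 (hp 1 le_rfl h2).1 (hp 1 le_rfl h2).2
        (first_step hS hs X0 X1 hy1 hB01.2 hB01.1 (ha 1 le_rfl) (hb 1 h2))
      rwa [hmu 0] at this
    | succ k hk ih =>
      intro h2
      have h3 := ih (by omega)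
      have h4 := Pth.one (hp k hk (by omega)).1 (hp k hk (by omega)).2
        (hp (k + 1) (by omega) h2).1 (hp (k + 1) (by omega) h2).2
        (mid_step hS hs X0 X1 k (ha k hk) (hb k (by omega)) (ha (k + 1) (by omega))
          (hb (k + 1) h2))
      rw [hmu k] at h4
      have h5 := Pth.trans h3 h4
      rwa [div_mul_div_cancel₀ (hpos _)] at h5
  have h5 := main l hl le_rfl
  have h6 := Pth.one (hp l hl le_rfl).1 (hp l hl le_rfl).2 hs1.1 hs1.2
    (last_step hS hs X0 X1 l hyl hUl.1 hUl.2 (ha l hl) (hb l le_rfl))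
  have h7 := Pth.trans h5 h6
  have h8 : σ (nx (X.glue (y 0))) / σ (nx (X.glue (y l))) *
      X.mu (X.glue (X.glue (pv (X.glue (y l))))) =
      c * σ (nx (X.glue (y 0))) / σ (X.glue (pv (X.glue (y l)))) := by
    have e1 := sc_nx hS (X.glue (y l))
    rw [rho_glue hS, hs.rho_eq] at e1
    rw [X.glue_glue, mu_eq hS, nx_pv, e1]
    have hc := hs.cpos.ne'
    have h9 := hpos (X.glue (y l))
    have h10 := hpos (X.glue (pv (X.glue (y l))))
    field_simp
  rw [h8] at h7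
  exact h7

end Pool.Agent.GTW
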