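import Pool.Agent.GTW.Targets

/-!
# GTW: SUMA (the sum of `L - arc` over an invariant set)
-/

set_option autoImplicit false

open Finset

noncomputable section

namespace Pool.Agent.GTW

namespace SUMA_

variable {X : Glued}

theorem mem_loop {o x : D X} (h : x ∈ MM o) : loop x := by
  classical
  unfold MM at h
  exact (Finset.mem_filter.1 h).2.2.1

end SUMA_

theorem P_SUMA (h_POS : T_POS) (h_ARC : T_ARC) (h_PHI : T_PHI) (h_LOOP : T_LOOP) : T_SUMA := by
  classical
  intro X σ hX o A hA hinv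
  obtain ⟨P, hP⟩ := h_POS X
  have harc : ∀ x ∈ A, 1 ≤ fr (SL X) x ∧ fr (SL X) x ≤ mL x ∧ zz (SL X) x ∈ SL X ∧
      0 < arc (SL X) x ∧ arc (SL X) x ≤ L x ∧
      (arc (SL X) x = L x → zz (SL X) x = X.glue x) ∧
      (zz (SL X) x = X.glue x → arc (SL X) x = L x ∧ fr (SL X) x = mL x) ∧
      (∀ m : ℕ, 1 ≤ m → m < fr (SL X) x → ((rot X) ^ m) x ∉ SL X) := by
    intro x hx
    have hl := SUMA_.mem_loop (hA hx)
    exact h_ARC X (SL X) x hl ((loop_glue x).2 hl)
  have hk : ∀ x, ∃ k : ℤ, x ∈ A → L x - arc (SL X) x =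
      P (X.glue x) - P (X.glue (Phi (SL X) x)) + 4 * Real.pi * k := by
    intro x
    by_cases hx : x ∈ A
    · have hl := SUMA_.mem_loop (hA hx)
      obtain ⟨-, h1, -⟩ := h_LOOP X σ hX.sc x hl
      obtain ⟨j, hj⟩ := hP x (mL x)
      obtain ⟨j', hj'⟩ := hP x (fr (SL X) x)
      rw [h1, hX.tot_eq] at hj
      rw [hX.tot_eq] at hj'
      refine ⟨j - j', fun _ => ?_⟩
      have e1 : X.glue (Phi (SL X) x) = ((rot X) ^ (fr (SL X) x)) x := by
        unfold Phi
        rw [X.glue_glue]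
        rfl
      have e2 : GTW.A x (mL x) = L x := rfl
      have e3 : GTW.A x (fr (SL X) x) = arc (SL X) x := rfl
      rw [e1, hj, hj', e2, e3]
      push_cast
      ring
    · exact ⟨0, fun h => absurd h hx⟩
  choose k hk using hk
  have himg : A.image (Phi (SL X)) = A := by
    apply Finset.eq_of_subset_of_card_le
    · intro y hy
      obtain ⟨x, hx, rfl⟩ := Finset.mem_image.1 hy
      exact hinv x hx
    · rw [Finset.card_image_of_injOn]
      intro x hx y hy hxy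
      exact (h_PHI X σ hX o).2 x (hA hx) y (hA hy) hxy
  have hsum : ∑ x ∈ A, P (X.glue (Phi (SL X) x)) = ∑ x ∈ A, P (X.glue x) := by
    conv_rhs => rw [← himg]
    rw [Finset.sum_image]
    intro x hx y hy hxy
    exact (h_PHI X σ hX o).2 x (hA hx) y (hA hy) hxy
  have htot : ∑ x ∈ A, (L x - arc (SL X) x) = 4 * Real.pi * ((∑ x ∈ A, k x : ℤ) : ℝ) := by
    rw [Finset.sum_congr rfl fun x hx => hk x hx, Finset.sum_add_distrib,
      Finset.sum_sub_distrib, hsum, sub_self, zero_add, ← Finset.mul_sum]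
    push_cast
    rfl
  have hnn : ∀ x ∈ A, 0 ≤ L x - arc (SL X) x := fun x hx => by
    have := (harc x hx).2.2.2.2.1
    linarith
  have hpos : 0 ≤ ∑ x ∈ A, (L x - arc (SL X) x) := Finset.sum_nonneg hnn
  have hK : (0 : ℤ) ≤ ∑ x ∈ A, k x := by
    rw [htot] at hpos
    have h1 : 0 < 4 * Real.pi := by positivity
    have h2 : (0 : ℝ) ≤ ((∑ x ∈ A, k x : ℤ) : ℝ) := nonneg_of_mul_nonneg_right hpos h1
    exact_mod_cast h2
  obtain ⟨n, hn⟩ := Int.eq_ofNat_of_zero_le hK
  refine ⟨n, ?_, ?_⟩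
  · rw [htot, hn]
    push_cast
    rfl
  · rintro rfl x hx
    have h0 : ∑ x ∈ A, (L x - arc (SL X) x) = 0 := by
      rw [htot, hn]
      simp
    have h1 := (Finset.sum_eq_zero_iff_of_nonneg hnn).1 h0 x hx
    have h2 : arc (SL X) x = L x := by linarith
    exact ⟨h2, (harc x hx).2.2.2.2.2.1 h2⟩

end Pool.Agent.GTW
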