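import Pool.Agent.GTW.Targets

/-! # GTW, target TH: the corners lie strictly between zero and `π` -/

set_option autoImplicit false

noncomputable section

namespace Pool.Agent.GTW

/-- the corner quotient has positive imaginary part -/
theorem TH_.im_pos {X : Glued} (x : D X) : 0 < (-(X.v (pv x)) / X.v x).im := by
  have h0 := v_sum x
  have hb : -(X.v (pv x)) = X.v x + X.v (nx x) := by linear_combination -h0
  have h1 := crs_pos x
  have hn : 0 < Complex.normSq (X.v x) := Complex.normSq_pos.mpr (v_ne x)
  rw [crs_eq] at h1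
  rw [hb, add_div, div_self (v_ne x), Complex.add_im, Complex.one_im, zero_add, Complex.div_im,
    ← sub_div]
  exact div_pos (by linarith) hn

/-- Target TH. -/
theorem P_TH : T_TH := by
  intro X x
  have h := TH_.im_pos x
  have h0 : 0 ≤ th x := Complex.arg_nonneg_iff.mpr h.le
  have h1 : th x < Real.pi := by
    rw [th, Complex.arg_lt_pi_iff]
    exact Or.inr h.ne'
  refine ⟨lt_of_le_of_ne h0 ?_, h1⟩
  intro h2
  have h3 : Complex.arg (-(X.v (pv x)) / X.v x) = 0 := h2.symm
  rw [Complex.arg_eq_zero_iff] at h3
  exact h.ne' h3.2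

end Pool.Agent.GTW
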