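import Pool.Agent.GTW.Targets

/-!
# GTW: counting the darts (T_TOT)
-/

set_option autoImplicit false

open Finset

noncomputable section

namespace Pool.Agent.GTW

/-- splitting a filtered set of darts by the two vertices -/
private theorem TOT_split {X : Glued} (o o' : D X)
    (h3 : ∀ x : D X, (rot X).SameCycle o x ∨ (rot X).SameCycle o' x)
    (hne : ¬ (rot X).SameCycle o o') (P : D X → Prop) [DecidablePred P]
    [DecidablePred fun x => (rot X).SameCycle o x ∧ P x]
    [DecidablePred fun x => (rot X).SameCycle o' x ∧ P x] :
    (univ.filter fun x => (rot X).SameCycle o x ∧ P x).card +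
      (univ.filter fun x => (rot X).SameCycle o' x ∧ P x).card = (univ.filter P).card := by
  classical
  rw [← card_union_of_disjoint]
  · congr 1
    ext x
    simp only [mem_union, mem_filter, mem_univ, true_and]
    constructor
    · rintro (h | h)
      · exact h.2
      · exact h.2
    · intro h
      rcases h3 x with h' | h'
      · exact Or.inl ⟨h', h⟩
      · exact Or.inr ⟨h', h⟩
  · rw [disjoint_left]
    intro x hx hx'
    simp only [mem_filter, mem_univ, true_and] at hx hx'
    exact hne (hx.1.trans hx'.1.symm)

theorem P_TOT (h_NL : T_NL) : T_TOT := by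
  classical
  intro X σ H o o' hne
  have h3 : ∀ x : D X, (rot X).SameCycle o x ∨ (rot X).SameCycle o' x := by
    intro x
    rcases H.three o o' x with h | h | h
    · exact absurd h hne
    · exact Or.inl h
    · exact Or.inr h
  have hNL := h_NL X σ H
  have cM := TOT_split o o' h3 hne (fun x => loop x ∧ ¬ loop (pv x))
  have cP := TOT_split o o' h3 hne (fun x => loop x ∧ loop (pv x))
  have eM : ∀ p : D X, (MM p).card =
      (univ.filter fun x => (rot X).SameCycle p x ∧ (loop x ∧ ¬ loop (pv x))).card := by
    intro p
    unfold MM
    congr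
  have eP : ∀ p : D X, (PU p).card =
      (univ.filter fun x => (rot X).SameCycle p x ∧ (loop x ∧ loop (pv x))).card := by
    intro p
    unfold PU
    congr
  have hcard : Fintype.card (D X) = 24 := by
    rw [Fintype.card_prod, H.card, Fintype.card_fin]
  -- the four classes
  have s1 := card_filter_add_card_filter_not (s := (univ : Finset (D X)))
    (fun x : D X => loop x)
  have s2 := card_filter_add_card_filter_not
    (s := (univ : Finset (D X)).filter fun x => loop x) (fun x : D X => loop (pv x))
  have s3 := card_filter_add_card_filter_not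
    (s := (univ : Finset (D X)).filter fun x => ¬ loop x) (fun x : D X => loop (pv x))
  rw [filter_filter, filter_filter] at s2 s3
  have e1 : (univ.filter fun x : D X => ¬ loop x ∧ loop (pv x)).card =
      (univ.filter fun x : D X => loop x ∧ ¬ loop (pv x)).card := by
    symm
    apply card_bij (fun x _ => nx x)
    · intro x hx
      simp only [mem_filter, mem_univ, true_and] at hx ⊢
      rw [pv_nx]
      exact ⟨(hNL x).2.2.2.1 hx.1 hx.2, hx.1⟩
    · intro x _ y _ hxy
      rw [← pv_nx x, hxy, pv_nx]
    · intro y hy
      simp only [mem_filter, mem_univ, true_and] at hy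
      refine ⟨pv y, ?_, nx_pv y⟩
      simp only [mem_filter, mem_univ, true_and]
      rw [pv_pv]
      exact ⟨hy.2, (hNL y).2.2.2.2.2.2 hy.1 hy.2⟩
  have e2 : (univ.filter fun x : D X => ¬ loop x ∧ ¬ loop (pv x)).card =
      (univ.filter fun x : D X => loop x ∧ ¬ loop (pv x)).card := by
    symm
    apply card_bij (fun x _ => pv x)
    · intro x hx
      simp only [mem_filter, mem_univ, true_and] at hx ⊢
      rw [pv_pv]
      exact ⟨hx.2, (hNL x).2.2.2.1 hx.1 hx.2⟩
    · intro x _ y _ hxy
      rw [← nx_pv x, hxy, nx_pv]
    · intro y hy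
      simp only [mem_filter, mem_univ, true_and] at hy
      refine ⟨nx y, ?_, pv_nx y⟩
      simp only [mem_filter, mem_univ, true_and]
      rw [pv_nx]
      exact ⟨(hNL y).2.2.1 hy.1 hy.2, hy.1⟩
  rw [eM o, eM o', eP o, eP o']
  rw [card_univ, hcard] at s1
  omega

end Pool.Agent.GTW
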