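import Pool.Agent.GTW.Targets

/-!
# GTW: proof of T_TRANS (helper89)
-/

set_option autoImplicit false

open Finset

noncomputable section

namespace Pool.Agent.GTW

variable {X : Glued}

namespace TRANS_

lemma glue_rot (z : D X) : X.glue (rot X z) = pv z := by
  rw [rot_apply, X.glue_glue]

lemma stp_non {z : D X} (h : ¬ loop z) : stp (rot X z) = z := by
  unfold stp
  rw [glue_rot, nx_pv, if_neg h]

lemma stp_loop {b : D X} (h : loop b) : stp (rot X b) = nx b := by
  unfold stp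
  rw [glue_rot, nx_pv, if_pos h, pv_pv]

lemma pow_succ_rot (n : ℕ) (b : D X) : ((rot X) ^ (n + 1)) b = rot X (((rot X) ^ n) b) := by
  rw [pow_succ', Equiv.Perm.mul_apply]

lemma down {b : D X} {n : ℕ} (h : ∀ k : ℕ, 1 ≤ k → k < n → ¬ loop (((rot X) ^ k) b)) (j : ℕ)
    (hj : 1 ≤ j) : ∀ m : ℕ, j + m < n → stp^[m] (((rot X) ^ (j + m)) b) = ((rot X) ^ j) b := by
  intro m
  induction m with
  | zero =>
    intro _
    rfl
  | succ m ih =>
    intro hm
    rw [Function.iterate_succ_apply, ← add_assoc, pow_succ_rot, stp_non (h _ (by omega) (by omega))]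
    exact ih (by omega)

/-- reachable from `s` in at least one step -/
def Rp (s y : D X) : Prop := ∃ k : ℕ, 1 ≤ k ∧ stp^[k] s = y

lemma Rp.it {s y : D X} (h : Rp s y) (m : ℕ) : Rp s (stp^[m] y) := by
  obtain ⟨k, hk, rfl⟩ := h
  refine ⟨m + k, by omega, ?_⟩
  rw [Function.iterate_add_apply]

end TRANS_

open TRANS_ in
theorem P_TRANS (h_PHI : T_PHI) : T_TRANS := by
  intro X σ H o c0 c1 c2 x1 x2 hs
  set b1 := X.glue x1 with hb1
  set b2 := X.glue x2 with hb2
  have m1 : b1 ∈ MC σ o c0 := (hs.mc0 b1).2 (Or.inl rfl)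
  have m2 : b2 ∈ MC σ o c0 := (hs.mc0 b2).2 (Or.inr rfl)
  have memC : ∀ x : D X, x ∈ MC σ o c0 ↔ x ∈ MM o ∧ rho σ (nx x) = c0 := fun x => by
    unfold MC
    rw [Finset.mem_filter]
  have memM : ∀ x : D X, x ∈ MM o ↔ (rot X).SameCycle o x ∧ loop x ∧ ¬ loop (pv x) := fun x => by
    simp [MM]
  have q1 := (memC b1).1 m1
  have q2 := (memC b2).1 m2
  have l1 := (memM b1).1 q1.1
  have l2 := (memM b2).1 q2.1
  have hP := (h_PHI X σ H o).1
  obtain ⟨_, _, p12, p13, p14⟩ := hP b1 q1.1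
  obtain ⟨_, _, p22, p23, p24⟩ := hP b2 q2.1
  set n1 := fr (SL X) b1 with hn1
  set n2 := fr (SL X) b2 with hn2
  have f1 : Phi (SL X) b1 = b2 := by
    unfold Phi
    rw [hs.zz3]
  have f2 : Phi (SL X) b2 = b1 := by
    unfold Phi
    rw [hs.zz4]
  rw [f1] at p13
  rw [f2] at p23
  -- the orbit
  have r1 : Rp (rot X b1) (((rot X) ^ (n2 - 1)) b2) := by
    refine ⟨1, le_rfl, ?_⟩
    rw [Function.iterate_one, stp_loop l1.2.1, p23]
  have r2 : ∀ j : ℕ, 1 ≤ j → j < n2 → Rp (rot X b1) (((rot X) ^ j) b2) := by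
    intro j h1 h2
    have h3 := r1.it (n2 - 1 - j)
    have h4 := down (fun k a b => (p24 k a b).1) j h1 (n2 - 1 - j) (by omega)
    have h5 : j + (n2 - 1 - j) = n2 - 1 := by omega
    rw [h5] at h4
    rwa [h4] at h3
  have r3 : Rp (rot X b1) (((rot X) ^ (n1 - 1)) b1) := by
    have h1 := (r2 1 le_rfl (by omega)).it 1
    rw [Function.iterate_one, pow_one, stp_loop l2.2.1, ← p13] at h1
    exact h1
  have r4 : ∀ j : ℕ, 1 ≤ j → j < n1 → Rp (rot X b1) (((rot X) ^ j) b1) := by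
    intro j h1 h2
    have h3 := r3.it (n1 - 1 - j)
    have h4 := down (fun k a b => (p14 k a b).1) j h1 (n1 - 1 - j) (by omega)
    have h5 : j + (n1 - 1 - j) = n1 - 1 := by omega
    rw [h5] at h4
    rwa [h4] at h3
  refine ⟨fun y hy hyl hyr => ?_, ?_⟩
  · -- the last loop before `y`
    have hcyc : (rot X).SameCycle b1 y := l1.1.symm.trans hy
    obtain ⟨i, hi0, _, hi⟩ := hcyc.exists_pow_eq''
    have hex : ∃ j : ℕ, 1 ≤ j ∧ ∃ b : D X, loop b ∧ ((rot X) ^ j) b = y :=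
      ⟨i, hi0, b1, l1.2.1, hi⟩
    classical
    obtain ⟨hj1, b, hbl, hby⟩ := Nat.find_spec hex
    set j := Nat.find hex with hj
    have hmin : ∀ k : ℕ, 1 ≤ k → k ≤ j → ¬ loop (((rot X) ^ k) b) := by
      intro k hk1 hk2 hl
      rcases hk2.eq_or_lt with h | h
      · rw [h, hby] at hl
        exact hyl hl
      · refine Nat.find_min hex (m := j - k) (by omega) ⟨by omega, ((rot X) ^ k) b, hl, ?_⟩
        rw [← Equiv.Perm.mul_apply, ← pow_add, Nat.sub_add_cancel h.le]
        exact hby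
    have hrb : ¬ loop (rot X b) := by
      have := hmin 1 le_rfl hj1
      rwa [pow_one] at this
    have hpb : ¬ loop (pv b) := by
      intro h
      apply hrb
      rw [rot_apply]
      exact (loop_glue _).2 h
    have hbo : (rot X).SameCycle o b := by
      have h1 : (rot X).SameCycle b y := ⟨(j : ℤ), by rw [zpow_natCast]; exact hby⟩
      exact hy.trans h1.symm
    have hbM : b ∈ MM o := (memM b).2 ⟨hbo, hbl, hpb⟩
    obtain ⟨_, _, g2, _, g4⟩ := hP b hbM
    have hlt : j < fr (SL X) b := by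
      by_contra hge
      push Not at hge
      have hne : {m : ℕ | 1 ≤ m ∧ ((rot X) ^ m) b ∈ SL X}.Nonempty := by
        refine Nat.nonempty_of_pos_sInf ?_
        have : 0 < fr (SL X) b := by omega
        exact this
      have hmem : fr (SL X) b ∈ {m : ℕ | 1 ≤ m ∧ ((rot X) ^ m) b ∈ SL X} := Nat.sInf_mem hne
      exact hmin _ hmem.1 hge hmem.2
    have hr := (g4 j hj1 hlt).2
    rw [hby, hyr] at hr
    have hbC : b ∈ MC σ o c0 := (memC b).2 ⟨hbM, hr.symm⟩
    rcases (hs.mc0 b).1 hbC with h | h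
    · rw [h] at hby hlt
      obtain ⟨k, _, hk⟩ := r4 j hj1 hlt
      exact ⟨k, by rw [hk, hby]⟩
    · rw [h] at hby hlt
      obtain ⟨k, _, hk⟩ := r2 j hj1 hlt
      exact ⟨k, by rw [hk, hby]⟩
  · have := r4 1 le_rfl (by omega)
    rw [pow_one] at this
    exact this

end Pool.Agent.GTW
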