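import Pool.Agent.GTW.Targets

set_option autoImplicit false

noncomputable section

namespace Pool.Agent.GTW

theorem P_TRI (h_TH : T_TH) : T_TRI := by
  intro X x
  have h1 := h_TH X x
  have h2 := h_TH X (nx x)
  have h3 := h_TH X (pv x)
  have v1 := v_ne x
  have v2 := v_ne (nx x)
  have v3 := v_ne (pv x)
  have n1 : -(X.v (pv x)) / X.v x ≠ 0 := div_ne_zero (neg_ne_zero.mpr v3) v1
  have n2 : -(X.v x) / X.v (nx x) ≠ 0 := div_ne_zero (neg_ne_zero.mpr v1) v2
  have n3 : -(X.v (nx x)) / X.v (pv x) ≠ 0 := div_ne_zero (neg_ne_zero.mpr v2) v3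
  have hang : ((th x + th (nx x) + th (pv x) : ℝ) : Real.Angle) = (Real.pi : Real.Angle) := by
    have hprod : -(X.v (pv x)) / X.v x * (-(X.v x) / X.v (nx x)) *
        (-(X.v (nx x)) / X.v (pv x)) = -1 := by
      field_simp
    have e1 := Complex.arg_mul_coe_angle (mul_ne_zero n1 n2) n3
    rw [Complex.arg_mul_coe_angle n1 n2, hprod, Complex.arg_neg_one] at e1
    rw [e1]
    simp only [th, pv_nx, pv_pv, Real.Angle.coe_add]
  rw [Real.Angle.angle_eq_iff_two_pi_dvd_sub] at hang
  obtain ⟨k, hk⟩ := hang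
  have hpi := Real.pi_pos
  have hk0 : k = 0 := by
    have hlt : (k : ℝ) < 1 := by
      by_contra hge
      push Not at hge
      nlinarith
    have hgt : (-1 : ℝ) < k := by
      by_contra hle
      push Not at hle
      nlinarith
    have a1 : k < 1 := by exact_mod_cast hlt
    have a2 : -1 < k := by exact_mod_cast hgt
    omega
  rw [hk0] at hk
  simp at hk
  linarith

end Pool.Agent.GTW
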