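import Pool.Agent.GTW.P_ARC
import Pool.Agent.GTW.P_ARI
import Pool.Agent.GTW.P_CLS
import Pool.Agent.GTW.P_CNT
import Pool.Agent.GTW.P_COUNT
import Pool.Agent.GTW.P_DIR
import Pool.Agent.GTW.P_FAN
import Pool.Agent.GTW.P_FIN
import Pool.Agent.GTW.P_FIX
import Pool.Agent.GTW.P_H2
import Pool.Agent.GTW.P_H2A
import Pool.Agent.GTW.P_H2B
import Pool.Agent.GTW.P_H2C
import Pool.Agent.GTW.P_H2D
import Pool.Agent.GTW.P_K1
import Pool.Agent.GTW.P_K2
import Pool.Agent.GTW.P_K3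
import Pool.Agent.GTW.P_K4
import Pool.Agent.GTW.P_KAC
import Pool.Agent.GTW.P_LIN
import Pool.Agent.GTW.P_LOOP
import Pool.Agent.GTW.P_LP
import Pool.Agent.GTW.P_LRI
import Pool.Agent.GTW.P_MID
import Pool.Agent.GTW.P_NE
import Pool.Agent.GTW.P_NL
import Pool.Agent.GTW.P_NUM
import Pool.Agent.GTW.P_ONE
import Pool.Agent.GTW.P_PHI
import Pool.Agent.GTW.P_POS
import Pool.Agent.GTW.P_PSC
import Pool.Agent.GTW.P_PTH
import Pool.Agent.GTW.P_RES1
import Pool.Agent.GTW.P_RES2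
import Pool.Agent.GTW.P_S0
import Pool.Agent.GTW.P_S1
import Pool.Agent.GTW.P_SCL
import Pool.Agent.GTW.P_STEP
import Pool.Agent.GTW.P_STRIP
import Pool.Agent.GTW.P_SUMA
import Pool.Agent.GTW.P_TH
import Pool.Agent.GTW.P_TOT
import Pool.Agent.GTW.P_TRANS
import Pool.Agent.GTW.P_TRI
import Pool.Agent.GTW.Main

/-!
# GTW: all parts together
-/

set_option autoImplicit false

namespace Pool.Agent.GTW

theorem tTH : T_TH := P_TH
theorem tARC : T_ARC := P_ARC tTH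
theorem tARI : T_ARI := P_ARI
theorem tNL : T_NL := P_NL
theorem tCLS : T_CLS := P_CLS tNL
theorem tTRI : T_TRI := P_TRI tTH
theorem tCNT : T_CNT := P_CNT tTRI
theorem tKAC : T_KAC := P_KAC
theorem tPOS : T_POS := P_POS
theorem tLRI : T_LRI := P_LRI tPOS tTRI
theorem tDIR : T_DIR := P_DIR
theorem tLOOP : T_LOOP := P_LOOP tTH tDIR
theorem tLP : T_LP := P_LP tLOOP
theorem tPHI : T_PHI := P_PHI tNL tLP tARC
theorem tSUMA : T_SUMA := P_SUMA tPOS tARC tPHI tLOOP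
theorem tCOUNT : T_COUNT := P_COUNT tKAC tLRI tLP tNL tTRI tSUMA tPHI
theorem tRES2 : T_RES2 := P_RES2 tNL tLP
theorem tFAN : T_FAN := P_FAN tPHI tNL tLP tRES2 tCLS
theorem tSTEP : T_STEP := P_STEP tNL tLP
theorem tTRANS : T_TRANS := P_TRANS tPHI
theorem tS0 : T_S0 := P_S0 tSTEP tTRANS tFAN tPHI tLP tCLS tNL
theorem tS1 : T_S1 := P_S1 tFAN tLP
theorem tSTRIP : T_STRIP := P_STRIP
theorem tPSC : T_PSC := P_PSC
theorem tPTH : T_PTH := P_PTH
theorem tFIN : T_FIN := P_FIN tS0 tS1 tARI tSTRIP tPSC tPTH tFAN tCLS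
theorem tFIX : T_FIX := P_FIX tPHI tARC
theorem tH2A : T_H2A := P_H2A tLOOP tLRI
theorem tH2B : T_H2B := P_H2B tKAC tH2A tTRI
theorem tH2C : T_H2C := P_H2C tH2A tH2B tARC
theorem tH2D : T_H2D := P_H2D
theorem tH2 : T_H2 := P_H2 tH2A tH2C tH2D tLOOP
theorem tK1 : T_K1 := P_K1 tLP
theorem tRES1 : T_RES1 := P_RES1 tLP tNL
theorem tLIN : T_LIN := P_LIN tRES1 tRES2 tCLS
theorem tNE : T_NE := P_NE tNL tLP
theorem tTOT : T_TOT := P_TOT tNL
theorem tNUM : T_NUM := P_NUM tNE tCOUNT tTOT tCLS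
theorem tK2 : T_K2 := P_K2 tLIN tNE tNUM tSUMA tPHI tARC tLP tDIR tCLS
theorem tK3 : T_K3 := P_K3 tLIN tNE tNUM tFIX tPHI tARC tLP tDIR tCLS tNL
theorem tK4 : T_K4 := P_K4 tNUM tNE tFIX
theorem tMID : T_MID := P_MID tCLS
theorem tONE : T_ONE := P_ONE tDIR tLOOP tTH tPTH
theorem tSCL : T_SCL := P_SCL

/-- every triangulated affine surface of genus 2 which is not a translation surface has a
hyperbolic closed geodesic -/
theorem genusTwo (X : Glued) (hX : IsAffine X) (hg : HasGenus X 2) (hn : ¬ IsTranslation X) :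
    HasHyperbolic X :=
  main tSCL tCNT tONE tH2 tK1 tK2 tK4 tK3 tMID tFIN tCLS X hX hg hn

end Pool.Agent.GTW
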