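import Pool.Agent.GTW.Defs

/-!
# GTW: auxiliary notions of the proof
-/

set_option autoImplicit false

open Finset

noncomputable section

namespace Pool.Agent.GTW

variable {X : Glued}

theorem nx_nx (x : D X) : nx (nx x) = pv x := by
  rcases x with ⟨f, i⟩
  simp only [nx, pv, Prod.mk.injEq, true_and]
  fin_cases i <;> rfl

theorem pv_pv (x : D X) : pv (pv x) = nx x := by
  rcases x with ⟨f, i⟩
  simp only [nx, pv, Prod.mk.injEq, true_and]
  fin_cases i <;> rfl

theorem nx_ne (x : D X) : nx x ≠ x := by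
  rcases x with ⟨f, i⟩
  simp only [nx, ne_eq, Prod.mk.injEq, true_and]
  fin_cases i <;> decide

theorem pv_ne (x : D X) : pv x ≠ x := by
  rcases x with ⟨f, i⟩
  simp only [pv, ne_eq, Prod.mk.injEq, true_and]
  fin_cases i <;> decide

theorem nx_ne_pv (x : D X) : nx x ≠ pv x := by
  rcases x with ⟨f, i⟩
  simp only [nx, pv, ne_eq, Prod.mk.injEq, true_and]
  fin_cases i <;> decide

theorem eq_or (x y : D X) (h : y.1 = x.1) : y = x ∨ y = nx x ∨ y = pv x := by
  rcases x with ⟨f, i⟩
  rcases y with ⟨g, j⟩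
  simp only at h
  subst h
  simp only [nx, pv, Prod.mk.injEq, true_and]
  fin_cases i <;> fin_cases j <;> decide

theorem rot_apply (x : D X) : rot X x = X.glue (pv x) := rfl

theorem rot_nx (x : D X) : rot X (nx x) = X.glue x := by rw [rot_apply, pv_nx]

theorem v_sum (x : D X) : X.v x + X.v (nx x) + X.v (pv x) = 0 := by
  rcases x with ⟨f, i⟩
  have h := X.sum_zero f
  simp only [nx, pv]
  fin_cases i
  · simpa using h
  · simp only [Fin.mk_one, Fin.isValue]
    have e1 : ((1 : Fin 3) + 1) = 2 := rfl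
    have e2 : ((1 : Fin 3) + 2) = 0 := rfl
    rw [e1, e2]
    linear_combination h
  · simp only [Fin.reduceFinMk, Fin.isValue]
    have e1 : ((2 : Fin 3) + 1) = 0 := rfl
    have e2 : ((2 : Fin 3) + 2) = 1 := rfl
    rw [e1, e2]
    linear_combination h

/-- the cross product of two vectors -/
def crs (a b : ℂ) : ℝ := ((starRingEnd ℂ) a * b).im

theorem crs_eq (a b : ℂ) : crs a b = a.re * b.im - a.im * b.re := by
  simp [crs, Complex.mul_im]; ring

theorem crs_pos (x : D X) : 0 < crs (X.v x) (X.v (nx x)) := by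
  rcases x with ⟨f, i⟩
  have h := X.pos f
  have hs := X.sum_zero f
  have h2 : X.v (f, 2) = -(X.v (f, 0) + X.v (f, 1)) := by linear_combination hs
  have hc : 0 < crs (X.v (f, 0)) (X.v (f, 1)) := h
  have hc0 := hc
  rw [crs_eq] at hc
  simp only [nx]
  fin_cases i
  · exact hc0
  · simp only [Fin.mk_one, Fin.isValue]
    have e1 : ((1 : Fin 3) + 1) = 2 := rfl
    rw [e1, h2, crs_eq]
    simp only [Complex.neg_im, Complex.neg_re, Complex.add_re, Complex.add_im]
    nlinarith
  · simp only [Fin.reduceFinMk, Fin.isValue]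
    have e1 : ((2 : Fin 3) + 1) = 0 := rfl
    rw [e1, h2, crs_eq]
    simp only [Complex.neg_im, Complex.neg_re, Complex.add_re, Complex.add_im]
    nlinarith

theorem v_ne (x : D X) : X.v x ≠ 0 := by
  intro h
  have := crs_pos x
  rw [crs_eq, h] at this
  simp at this

theorem mu_glue (x : D X) : X.mu (X.glue x) * X.mu x = 1 := by
  have h1 := X.v_glue x
  have h2 := X.v_glue (X.glue x)
  rw [X.glue_glue, h1] at h2
  have h3 : ((X.mu (X.glue x) * X.mu x : ℝ) : ℂ) * X.v x = (1 : ℝ) * X.v x := by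
    push_cast
    linear_combination -h2
  have h4 := mul_right_cancel₀ (v_ne x) h3
  exact_mod_cast h4

theorem cor_nx (x : D X) : cor (nx x) = cor x + X.v x := by
  rcases x with ⟨f, i⟩
  have h := X.sum_zero f
  have e0 : ((0 : Fin 3) + 1) = 1 := rfl
  have e1 : ((1 : Fin 3) + 1) = 2 := rfl
  have e2 : ((2 : Fin 3) + 1) = 0 := rfl
  have n10 : ¬ (1 : Fin 3) = 0 := by decide
  have n20 : ¬ (2 : Fin 3) = 0 := by decide
  have n21 : ¬ (2 : Fin 3) = 1 := by decide
  fin_cases i
  · simp only [cor, nx, Fin.zero_eta, Fin.isValue, e0, if_true, if_neg n10, zero_add]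
  · simp only [cor, nx, Fin.mk_one, Fin.isValue, e1, if_true, if_neg n10, if_neg n20, if_neg n21]
  · simp only [cor, nx, Fin.reduceFinMk, Fin.isValue, e2, if_true, if_neg n20, if_neg n21]
    linear_combination -h

/-- A scale at the vertices: `σ x` converts the plane of the triangle of `x` to the plane of the
germ of the surface at the starting point of `x`. -/
def Scale (σ : D X → ℝ) : Prop :=
  (∀ x, 0 < σ x) ∧ ∀ x, σ (rot X x) * X.mu (pv x) = σ x

/-- the vector of the dart `x` in the germ of the starting point -/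
def w (σ : D X → ℝ) (x : D X) : ℂ := (σ x : ℂ) * X.v x

/-- (scale at the end) / (scale at the start) -/
def rho (σ : D X → ℝ) (x : D X) : ℝ := σ (nx x) / σ x

/-- the angle swept by the first `m` corners counterclockwise from `x` -/
def A (x : D X) (m : ℕ) : ℝ := ∑ k ∈ range m, th (((rot X) ^ k) x)

/-- `x` starts and ends at the same vertex -/
def loop (x : D X) : Prop := (rot X).SameCycle x (X.glue x)

/-- the number of corners from `x` to `glue x` -/
def mL (x : D X) : ℕ := sInf {m : ℕ | 1 ≤ m ∧ ((rot X) ^ m) x = X.glue x}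

/-- the angle on the left side of the loop `x` (counterclockwise from `x` to `glue x`) -/
def L (x : D X) : ℝ := A x (mL x)

/-- the first return time to `S` -/
def fr (S : Set (D X)) (x : D X) : ℕ := sInf {m : ℕ | 1 ≤ m ∧ ((rot X) ^ m) x ∈ S}

/-- the first dart of `S` after `x` (counterclockwise) -/
def zz (S : Set (D X)) (x : D X) : D X := ((rot X) ^ (fr S x)) x

/-- `glue` of the first dart of `S` after `x` -/
def Phi (S : Set (D X)) (x : D X) : D X := X.glue (zz S x)

/-- the angle from `x` to the next dart of `S` -/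
def arc (S : Set (D X)) (x : D X) : ℝ := A x (fr S x)

/-- no loop with an angle `π` on the left and a scale change: otherwise there is a hyperbolic
closed geodesic by `T_ONE` -/
def Flat (X : Glued) (σ : D X → ℝ) : Prop := ∀ x : D X, loop x → L x = Real.pi → rho σ x = 1

/-- paths made of steps, with the product of the dilation factors -/
inductive Pth (d : ℂ) : D X × ℝ → D X × ℝ → ℝ → Prop
  | one {p q : D X × ℝ} : 0 < p.2 → p.2 < 1 → 0 < q.2 → q.2 < 1 → Step d p q →
      Pth d p q (X.mu (X.glue q.1))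
  | trans {p q r : D X × ℝ} {a b : ℝ} : Pth d p q a → Pth d q r b → Pth d p r (a * b)


/-! ### the basic relations (WG) -/

section WG

variable {σ : D X → ℝ}

theorem sc_pos (h : Scale σ) (x : D X) : 0 < σ x := h.1 x

theorem rho_pos (h : Scale σ) (x : D X) : 0 < rho σ x := div_pos (h.1 _) (h.1 _)

theorem w_ne (h : Scale σ) (x : D X) : w σ x ≠ 0 :=
  mul_ne_zero (by exact_mod_cast (h.1 x).ne') (v_ne x)

theorem sc_rot (h : Scale σ) (x : D X) : σ (rot X x) * X.mu (pv x) = σ x := h.2 x

theorem sc_glue (h : Scale σ) (x : D X) : σ (X.glue x) * X.mu x = σ (nx x) := by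
  have := h.2 (nx x)
  rw [rot_nx, pv_nx] at this
  exact this

theorem mu_eq (h : Scale σ) (x : D X) : X.mu x = σ (nx x) / σ (X.glue x) := by
  rw [eq_div_iff (h.1 _).ne', mul_comm]
  exact sc_glue h x

theorem mu_eq' (h : Scale σ) (x : D X) : X.mu x = σ x / σ (nx (X.glue x)) := by
  have h1 := mu_eq h (X.glue x)
  rw [X.glue_glue] at h1
  have h2 := mu_glue x
  rw [h1] at h2
  have h3 := (h.1 (nx (X.glue x))).ne'
  have h4 := (h.1 x).ne'
  rw [eq_div_iff h3]
  field_simp at h2
  linarith

theorem w_rot (h : Scale σ) (x : D X) : w σ (rot X x) = -((σ x : ℂ) * X.v (pv x)) := by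
  have h1 := h.2 x
  rw [w, rot_apply, X.v_glue, ← h1]
  rw [rot_apply]
  push_cast
  ring

theorem w_glue (h : Scale σ) (x : D X) : w σ (X.glue x) = -((rho σ x : ℂ) * w σ x) := by
  have h1 := sc_glue h x
  have h2 : (rho σ x : ℂ) * (σ x : ℂ) = (σ (nx x) : ℂ) := by
    rw [rho, ← Complex.ofReal_mul, div_mul_cancel₀ _ (h.1 x).ne']
  rw [w, w, X.v_glue, ← mul_assoc, h2, ← h1]
  push_cast
  ring

theorem rho_glue (h : Scale σ) (x : D X) : rho σ (X.glue x) = (rho σ x)⁻¹ := by
  have h1 := mu_eq h x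
  have h2 := mu_eq' h x
  have h3 := (h.1 (nx (X.glue x))).ne'
  have h4 := (h.1 x).ne'
  have h5 := (h.1 (nx x)).ne'
  have h6 := (h.1 (X.glue x)).ne'
  rw [h1] at h2
  rw [rho, rho, inv_div]
  field_simp at h2 ⊢
  linarith

theorem rho_prod (h : Scale σ) (x : D X) : rho σ x * rho σ (nx x) * rho σ (pv x) = 1 := by
  have h4 := (h.1 x).ne'
  have h5 := (h.1 (nx x)).ne'
  have h6 := (h.1 (pv x)).ne'
  simp only [rho, nx_nx, nx_pv]
  field_simp

/-- the scale at the end of a side -/
theorem sc_nx (h : Scale σ) (x : D X) : σ (nx x) = rho σ x * σ x := by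
  rw [rho, div_mul_cancel₀ _ (h.1 x).ne']

/-- the triangle relation in the scale at the start of `x` -/
theorem tri_w (h : Scale σ) (x : D X) :
    w σ x + ((rho σ x)⁻¹ : ℂ) * w σ (nx x) + (rho σ (pv x) : ℂ) * w σ (pv x) = 0 := by
  have h0 := v_sum x
  have h4 := (h.1 x).ne'
  have h5 := (h.1 (nx x)).ne'
  have h6 := (h.1 (pv x)).ne'
  have e1 : ((rho σ x)⁻¹ : ℂ) * (σ (nx x) : ℂ) = (σ x : ℂ) := by
    rw [rho]
    push_cast
    have h4' : (σ x : ℂ) ≠ 0 := by exact_mod_cast h4
    have h5' : (σ (nx x) : ℂ) ≠ 0 := by exact_mod_cast h5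
    field_simp
  have e2 : (rho σ (pv x) : ℂ) * (σ (pv x) : ℂ) = (σ x : ℂ) := by
    rw [rho, nx_pv]
    push_cast
    have h6' : (σ (pv x) : ℂ) ≠ 0 := by exact_mod_cast h6
    field_simp
  rw [w, w, w, ← mul_assoc, e1, ← mul_assoc, e2]
  linear_combination (σ x : ℂ) * h0

/-- the triangle relation as used for loops: `w (rot x) = w x + rho⁻¹ w (nx x)` -/
theorem w_rot' (h : Scale σ) (x : D X) :
    w σ (rot X x) = w σ x + ((rho σ x)⁻¹ : ℂ) * w σ (nx x) := by
  have h1 := tri_w h x
  have h2 : w σ (rot X x) = -((rho σ (pv x) : ℂ) * w σ (pv x)) := by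
    rw [rot_apply, w_glue h]
  rw [h2]
  linear_combination -h1

end WG

/-! ### loops -/

theorem loop_iff (x : D X) : loop x ↔ (rot X).SameCycle x (nx x) := by
  unfold loop
  rw [← rot_nx]
  exact Equiv.Perm.sameCycle_apply_right

theorem loop_glue (x : D X) : loop (X.glue x) ↔ loop x := by
  unfold loop
  rw [X.glue_glue]
  exact ⟨fun h => h.symm, fun h => h.symm⟩

theorem sc_rot_self (x : D X) : (rot X).SameCycle x (rot X x) :=
  Equiv.Perm.sameCycle_apply_right.2 (Equiv.Perm.SameCycle.refl _ _)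

theorem glue_cyc (x : D X) : (rot X).SameCycle (nx x) (X.glue x) := by
  rw [← rot_nx]
  exact sc_rot_self _

theorem glue_inj {x y : D X} (h : X.glue x = X.glue y) : x = y := by
  rw [← X.glue_glue x, h, X.glue_glue]

end Pool.Agent.GTW
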