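import Mathlib

/-!
# GTW: hyperbolic closed geodesics on affine surfaces of genus 2 (MP_3243b0_gt)
-/

set_option autoImplicit false

open Finset

noncomputable section

namespace Pool.Agent.GTW

/-- A finite family of Euclidean triangles whose sides are glued in pairs by maps
`z ↦ m z + b`, `m > 0`. The sides (darts) of the triangle `f` are `(f, 0), (f, 1), (f, 2)` in
counterclockwise order, `v (f, i)` is the vector of the side `(f, i)` in the plane of `f`;
`glue x` is the side glued to `x` (with reversed orientation) and `mu x` the dilation factor of the
gluing map from the plane of the triangle of `x` to the plane of the triangle of `glue x`. -/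
structure Glued where
  /-- the triangles -/
  F : Type
  /-- there are finitely many triangles -/
  fin : Fintype F
  /-- equality of triangles is decidable -/
  dec : DecidableEq F
  /-- the side vectors -/
  v : F × Fin 3 → ℂ
  /-- the pairing of the sides -/
  glue : F × Fin 3 → F × Fin 3
  /-- the dilation factors of the gluing maps -/
  mu : F × Fin 3 → ℝ
  sum_zero : ∀ f, v (f, 0) + v (f, 1) + v (f, 2) = 0
  pos : ∀ f, 0 < ((starRingEnd ℂ) (v (f, 0)) * v (f, 1)).im
  glue_glue : ∀ x, glue (glue x) = x
  glue_ne : ∀ x, glue x ≠ x
  mu_pos : ∀ x, 0 < mu x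
  v_glue : ∀ x, v (glue x) = -((mu x : ℂ) * v x)

attribute [instance] Glued.fin Glued.dec

/-- the darts: oriented sides, the triangle lies on the left -/
abbrev D (X : Glued) : Type := X.F × Fin 3

variable {X : Glued}

/-- the next side of the same triangle (counterclockwise) -/
def nx (x : D X) : D X := (x.1, x.2 + 1)

/-- the previous side of the same triangle -/
def pv (x : D X) : D X := (x.1, x.2 + 2)

theorem nx_pv (x : D X) : nx (pv x) = x := by
  rcases x with ⟨f, i⟩
  simp only [nx, pv, Prod.mk.injEq, true_and]
  fin_cases i <;> rfl

theorem pv_nx (x : D X) : pv (nx x) = x := by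
  rcases x with ⟨f, i⟩
  simp only [nx, pv, Prod.mk.injEq, true_and]
  fin_cases i <;> rfl

/-- the rotation about the starting point of `x`: the next dart (counterclockwise) that starts
at the starting point of `x`; its cycles are the vertices -/
def rot (X : Glued) : Equiv.Perm (D X) where
  toFun x := X.glue (pv x)
  invFun x := nx (X.glue x)
  left_inv x := by simp only [X.glue_glue, nx_pv]
  right_inv x := by simp only [pv_nx, X.glue_glue]

/-- the interior angle at the starting point of `x` of the triangle of `x` -/
def th (x : D X) : ℝ := Complex.arg (-(X.v (pv x)) / X.v x)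

/-- the total angle at the starting point of `x` -/
def tot (x : D X) : ℝ :=
  open Classical in ∑ y ∈ univ.filter fun y => (rot X).SameCycle x y, th y

/-- the number of vertices -/
def numV (X : Glued) : ℕ := Nat.card (Quotient (Equiv.Perm.SameCycle.setoid (rot X)))

/-- A closed affine surface with a geodesic triangulation whose vertices are exactly the
singular points: the surface is connected, the gluing maps around a vertex compose to a map with
linear part `1`, and the total angle at every vertex is `2 k π` with an integer `k ≥ 2`. -/
structure IsAffine (X : Glued) : Prop where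
  conn : ∀ f g : X.F, Relation.ReflTransGen (fun a b => ∃ i j, X.glue (a, i) = (b, j)) f g
  nonempty : Nonempty X.F
  hol : ∀ (x : D X) (n : ℕ), ((rot X) ^ n) x = x →
    ∏ k ∈ range n, X.mu (pv (((rot X) ^ k) x)) = 1
  cone : ∀ x : D X, ∃ k : ℕ, 2 ≤ k ∧ tot x = 2 * Real.pi * k

/-- The surface has genus `g`: the Euler characteristic (vertices - edges + triangles) is
`2 - 2 g`. -/
def HasGenus (X : Glued) (g : ℕ) : Prop :=
  (numV X : ℤ) - (Fintype.card (D X) / 2 : ℕ) + Fintype.card X.F = 2 - 2 * g

/-- The surface is a translation surface: after rescaling the triangles by factors `c f > 0` all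
gluing maps are translations. -/
def IsTranslation (X : Glued) : Prop :=
  ∃ c : X.F → ℝ, (∀ f, 0 < c f) ∧ ∀ x : D X, c (X.glue x).1 * X.mu x = c x.1

/-- the position of the starting point of the side `x` in the plane of its triangle -/
def cor (x : D X) : ℂ :=
  if x.2 = 0 then 0 else if x.2 = 1 then X.v (x.1, 0) else X.v (x.1, 0) + X.v (x.1, 1)

/-- the point of the side `x` with the parameter `s`, in the plane of the triangle of `x` -/
def pt (x : D X) (s : ℝ) : ℂ := cor x + s * X.v x

/-- A straight segment in the direction `d` inside one triangle: it enters through the point of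
the side `p.1` with the parameter `p.2` and leaves through another side `y`; `q.1 = glue y` is the
side through which it enters the next triangle, at the parameter `q.2` of that side (the
parameter `1 - q.2` of `y`). -/
def Step (d : ℂ) (p q : D X × ℝ) : Prop :=
  ∃ y : D X, y.1 = p.1.1 ∧ y ≠ p.1 ∧ q.1 = X.glue y ∧
    ∃ r : ℝ, 0 < r ∧ pt y (1 - q.2) - pt p.1 p.2 = r * d

/-- A closed regular geodesic that is hyperbolic: a simple closed curve which crosses `n` triangles
along straight segments of the direction `d`, entering through interior points of the sides, with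
multiplier (the product of the dilation factors of the sides that it crosses) `≠ 1`. -/
def HasHyperbolic (X : Glued) : Prop :=
  ∃ (n : ℕ) (d : ℂ) (p : ℕ → D X × ℝ), 0 < n ∧ d ≠ 0 ∧
    (∀ k, 0 < (p k).2 ∧ (p k).2 < 1) ∧ (∀ k < n, Step d (p k) (p (k + 1))) ∧ p n = p 0 ∧
    (∀ i < n, ∀ j < n, p i = p j → i = j) ∧
    ∏ k ∈ range n, X.mu (X.glue (p (k + 1)).1) ≠ 1

end Pool.Agent.GTW
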