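import Pool.Agent.GTW.Targets

/-!
# GTW: the arc to the next dart of a set
-/

set_option autoImplicit false

open Finset

noncomputable section

namespace Pool.Agent.GTW

variable {X : Glued}

theorem ARC_strictMono (h_TH : T_TH) (x : D X) : StrictMono (A x) := by
  refine strictMono_nat_of_lt_succ fun m => ?_
  rw [A, A, Finset.sum_range_succ]
  have := (h_TH X (((rot X) ^ m) x)).1
  linarith

theorem ARC_ne (x : D X) (h : loop x) : {m : ℕ | 1 ≤ m ∧ ((rot X) ^ m) x = X.glue x}.Nonempty := by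
  have h' : (rot X).SameCycle x (X.glue x) := h
  obtain ⟨i, hi, -, h2⟩ := h'.exists_pow_eq''
  exact ⟨i, hi, h2⟩

theorem P_ARC (h_TH : T_TH) : T_ARC := by
  intro X S x hl hS
  have h1 := Nat.sInf_mem (ARC_ne x hl)
  have hmL : 1 ≤ mL x ∧ ((rot X) ^ (mL x)) x = X.glue x := h1
  have hin : mL x ∈ {m : ℕ | 1 ≤ m ∧ ((rot X) ^ m) x ∈ S} := by
    refine ⟨hmL.1, ?_⟩
    rw [hmL.2]
    exact hS
  have h2 : fr S x ∈ {m : ℕ | 1 ≤ m ∧ ((rot X) ^ m) x ∈ S} := Nat.sInf_mem ⟨_, hin⟩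
  have hle : fr S x ≤ mL x := Nat.sInf_le hin
  have hmono := ARC_strictMono h_TH x
  have h0 : A x 0 = 0 := by rw [A, Finset.sum_range_zero]
  refine ⟨h2.1, hle, h2.2, ?_, ?_, ?_, ?_, ?_⟩
  · have := hmono (show 0 < fr S x from h2.1)
    rw [h0] at this
    exact this
  · exact hmono.monotone hle
  · intro he
    have he' : A x (fr S x) = A x (mL x) := he
    have h3 := hmono.injective he'
    rw [zz, h3]
    exact hmL.2
  · intro he
    have h3 : mL x ≤ fr S x := Nat.sInf_le ⟨h2.1, he⟩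
    have h4 : fr S x = mL x := le_antisymm hle h3
    exact ⟨by rw [arc, L, h4], h4⟩
  · intro m hm hlt hmem
    exact Nat.notMem_of_lt_sInf hlt ⟨hm, hmem⟩

end Pool.Agent.GTW
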