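import Pool.Agent.GTW.Targets

/-!
# GTW: three classes, the structure at a vertex (T_K3)
-/

set_option autoImplicit false

open Finset

noncomputable section

namespace Pool.Agent.GTW

namespace K3_

variable {X : Glued}

theorem mem_MM {o x : D X} : x ∈ MM o ↔ (rot X).SameCycle o x ∧ loop x ∧ ¬ loop (pv x) := by
  simp [MM]

theorem mem_PU {o x : D X} : x ∈ PU o ↔ (rot X).SameCycle o x ∧ loop x ∧ loop (pv x) := by
  simp [PU]

theorem mem_MC {σ : D X → ℝ} {o x : D X} {c : ℝ} :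
    x ∈ MC σ o c ↔ x ∈ MM o ∧ rho σ (nx x) = c := by
  simp [MC]

theorem sum_MC {M : Type} [AddCommMonoid M] {σ : D X → ℝ} {o : D X}
    (hm : ∀ x ∈ MM o, rho σ (nx x) ∈ KK σ o) (f : D X → M) :
    ∑ c ∈ KK σ o, ∑ x ∈ MC σ o c, f x = ∑ x ∈ MM o, f x := by
  classical
  rw [← Finset.sum_fiberwise_of_maps_to (g := fun x => rho σ (nx x)) (t := KK σ o) hm f]
  refine Finset.sum_congr rfl fun c _ => Finset.sum_congr ?_ fun _ _ => rfl
  ext x
  rw [mem_MC, Finset.mem_filter]

theorem card_MC {σ : D X → ℝ} {o : D X}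
    (hm : ∀ x ∈ MM o, rho σ (nx x) ∈ KK σ o) :
    ∑ c ∈ KK σ o, (MC σ o c).card = (MM o).card := by
  have h := sum_MC hm (fun _ => (1 : ℕ))
  simpa using h

theorem sum_cMC {σ : D X → ℝ} {o : D X}
    (hm : ∀ x ∈ MM o, rho σ (nx x) ∈ KK σ o) :
    ∑ c ∈ KK σ o, (c : ℂ) * ∑ x ∈ MC σ o c, w σ x =
      ∑ x ∈ MM o, (rho σ (nx x) : ℂ) * w σ x := by
  rw [← sum_MC hm]
  refine Finset.sum_congr rfl fun c _ => ?_
  rw [Finset.mul_sum]
  refine Finset.sum_congr rfl fun x hx => ?_
  rw [(mem_MC.1 hx).2]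

theorem other {σ : D X → ℝ} (h : H11 X σ) (o : D X) : ∃ o' : D X, ¬ (rot X).SameCycle o o' := by
  obtain ⟨x, y, hxy⟩ := h.two
  by_cases hx : (rot X).SameCycle o x
  · exact ⟨y, fun hy => hxy (hx.symm.trans hy)⟩
  · exact ⟨x, hx⟩

theorem glue_at {o x : D X} (hx : (rot X).SameCycle o x) (hl : loop x) :
    (rot X).SameCycle o (X.glue x) ∧ loop (X.glue x) :=
  ⟨hx.trans hl, (loop_glue x).2 hl⟩

theorem w_gl {σ : D X → ℝ} (h : Scale σ) {x : D X} (hr : rho σ x = 1) :
    w σ (X.glue x) = -w σ x := by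
  rw [w_glue h, hr]
  push_cast
  ring

/-- real linear independence of two consecutive sides -/
theorem indep {σ : D X → ℝ} (h : Scale σ) (x : D X) (a b : ℝ)
    (hab : (a : ℂ) * w σ x + (b : ℂ) * w σ (nx x) = 0) : a = 0 ∧ b = 0 := by
  have hc := crs_pos x
  rw [crs_eq] at hc
  have h1 := h.1 x
  have h2 := h.1 (nx x)
  have hre := congrArg Complex.re hab
  have him := congrArg Complex.im hab
  simp only [w, Complex.add_re, Complex.mul_re, Complex.ofReal_re, Complex.ofReal_im,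
    Complex.add_im, Complex.mul_im, zero_mul, sub_zero, add_zero, Complex.zero_re,
    Complex.zero_im] at hre him
  have e1 : a * (σ x * ((X.v x).re * (X.v (nx x)).im - (X.v x).im * (X.v (nx x)).re)) = 0 := by
    linear_combination (X.v (nx x)).im * hre - (X.v (nx x)).re * him
  have e2 : b * (σ (nx x) * ((X.v x).re * (X.v (nx x)).im -
      (X.v x).im * (X.v (nx x)).re)) = 0 := by
    linear_combination (X.v x).re * him - (X.v x).im * hre
  constructor
  · rcases mul_eq_zero.1 e1 with e | e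
    · exact e
    · exact absurd e (mul_pos h1 hc).ne'
  · rcases mul_eq_zero.1 e2 with e | e
    · exact e
    · exact absurd e (mul_pos h2 hc).ne'

theorem three_le {a b c : ℕ} (ha : 1 ≤ a) (hb : 1 ≤ b) (hc : 1 ≤ c) (h : a + b + c = 4) :
    (a = 2 ∧ b = 1 ∧ c = 1) ∨ (a = 1 ∧ b = 2 ∧ c = 1) ∨ (a = 1 ∧ b = 1 ∧ c = 2) := by
  omega

/-- the sum of the angles -/
theorem sum_L {o : D X} (hL : ∀ x ∈ MM o, L x = Real.pi ∨ L x = 3 * Real.pi)
    (h4 : (MM o).card = 4) (q : ℕ)
    (h2 : q = 2)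
    (hq : ∃ s : Finset (D X), (∀ x, x ∈ s ↔ x ∈ MM o ∧ L x = 3 * Real.pi) ∧ s.card = q) :
    ∑ x ∈ MM o, L x = 8 * Real.pi := by
  classical
  obtain ⟨s, hs, hsc⟩ := hq
  have e1 : ∑ x ∈ MM o, L x = ∑ x ∈ MM o, (Real.pi + if x ∈ s then 2 * Real.pi else 0) := by
    refine Finset.sum_congr rfl fun x hx => ?_
    by_cases hxs : x ∈ s
    · rw [if_pos hxs, ((hs x).1 hxs).2]
      ring
    · rw [if_neg hxs]
      rcases hL x hx with e | e
      · rw [e]
        ring
      · exact absurd ((hs x).2 ⟨hx, e⟩) hxs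
  have e2 : ((MM o).filter fun x => x ∈ s) = s := by
    ext x
    rw [Finset.mem_filter]
    exact ⟨fun hx => hx.2, fun hx => ⟨((hs x).1 hx).1, hx⟩⟩
  rw [e1, Finset.sum_add_distrib, Finset.sum_const, h4, ← Finset.sum_filter, e2,
    Finset.sum_const, hsc, h2]
  simp only [nsmul_eq_mul]
  push_cast
  ring

theorem main (hLIN : T_LIN) (hFIX : T_FIX) (hPHI : T_PHI) (hARC : T_ARC) (hLP : T_LP)
    (hDIR : T_DIR) (hCLS : T_CLS) (X : Glued) (σ : D X → ℝ) (h : H11 X σ) (o : D X)
    (c0 c1 c2 : ℝ) (ne01 : c0 ≠ c1) (ne02 : c0 ≠ c2) (ne12 : c1 ≠ c2)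
    (kk : ∀ c : ℝ, c ∈ KK σ o ↔ c = c0 ∨ c = c1 ∨ c = c2) (hPU : (PU o).card = 0)
    (hsum : ∑ x ∈ MM o, (L x - arc (SL X) x) = 4 * Real.pi)
    (hSL : ∑ x ∈ MM o, L x = 8 * Real.pi)
    (k0 : (MC σ o c0).card = 2) (k1 : (MC σ o c1).card = 1) (k2 : (MC σ o c2).card = 1) :
    ∃ x1 x2 : D X, Side X σ o c0 c1 c2 x1 x2 := by
  classical
  have pi_pos := Real.pi_pos
  have hm := (hCLS X σ h o).1
  have hKK : KK σ o = {c0, c1, c2} := by
    ext c
    rw [kk]
    simp
  -- sums over the three classes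
  have key : ∀ {M : Type} [AddCommMonoid M] (f : D X → M), ∑ x ∈ MM o, f x =
      ∑ x ∈ MC σ o c0, f x + (∑ x ∈ MC σ o c1, f x + ∑ x ∈ MC σ o c2, f x) := by
    intro M _ f
    rw [← sum_MC hm f, hKK, Finset.sum_insert, Finset.sum_insert, Finset.sum_singleton]
    · simp [ne12]
    · simp [ne01, ne02]
  obtain ⟨x1, hx1⟩ := Finset.card_eq_one.1 k1
  obtain ⟨x2, hx2⟩ := Finset.card_eq_one.1 k2
  obtain ⟨u, v, huv, huvM⟩ := Finset.card_eq_two.1 k0
  have m1 : x1 ∈ MC σ o c1 := by rw [hx1]; simp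
  have m2 : x2 ∈ MC σ o c2 := by rw [hx2]; simp
  have mu' : u ∈ MC σ o c0 := by rw [huvM]; simp
  have mv' : v ∈ MC σ o c0 := by rw [huvM]; simp
  have mm1 := (mem_MC.1 m1).1
  have mm2 := (mem_MC.1 m2).1
  have loopOf : ∀ x ∈ MM o, loop x := fun x hx => (mem_MM.1 hx).2.1
  have gl : ∀ x ∈ MM o, X.glue x ∈ SL X := fun x hx => (loop_glue x).2 (loopOf x hx)
  have arcpos : ∀ x ∈ MM o, 0 < arc (SL X) x := fun x hx =>
    (hARC X (SL X) x (loopOf x hx) (gl x hx)).2.2.2.1
  have pur : ∀ x : D X, (rot X).SameCycle o x → loop x → x ∈ MM o := by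
    intro x hx hl
    rw [mem_MM]
    refine ⟨hx, hl, fun hp => ?_⟩
    have : x ∈ PU o := mem_PU.2 ⟨hx, hl, hp⟩
    rw [Finset.card_eq_zero.1 hPU] at this
    simp at this
  have glMM : ∀ x ∈ MM o, X.glue x ∈ MM o := by
    intro x hx
    obtain ⟨e1, e2⟩ := glue_at (mem_MM.1 hx).1 (mem_MM.1 hx).2.1
    exact pur _ e1 e2
  have hSA : ∑ x ∈ MM o, arc (SL X) x = 4 * Real.pi := by
    rw [Finset.sum_sub_distrib, hSL] at hsum
    linarith
  obtain ⟨P1, Z1, A1⟩ := hFIX X σ h o c1 k1 x1 m1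
  obtain ⟨P2, Z2, A2⟩ := hFIX X σ h o c2 k2 x2 m2
  have rec0 : (arc (SL X) u + arc (SL X) v) + (arc (SL X) x1 + arc (SL X) x2) =
      4 * Real.pi := by
    have := key (fun x => arc (SL X) x)
    rw [huvM, hx1, hx2, Finset.sum_pair huv, Finset.sum_singleton, Finset.sum_singleton,
      hSA] at this
    exact this.symm
  have pu := arcpos u (mem_MC.1 mu').1
  have pv' := arcpos v (mem_MC.1 mv').1
  have l1 := hLP X σ h x1 (loopOf x1 mm1)
  have l2 := hLP X σ h x2 (loopOf x2 mm2)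
  have x12 : x2 ≠ X.glue x1 := by
    intro e
    have e1 := l1.2.2
    rw [← e] at e1
    linarith
  have L1 : L x1 = Real.pi := by
    rcases l1.2.1 with e | e
    · exact e
    · rcases l2.2.1 with e' | e' <;> linarith
  have L2 : L x2 = Real.pi := by
    rcases l2.2.1 with e | e
    · exact e
    · rcases l1.2.1 with e' | e' <;> linarith
  -- the class of glue x1 and glue x2
  have cls : ∀ y ∈ MM o, y ≠ x1 → y ≠ x2 → y ∈ MC σ o c0 := by
    intro y hy n1 n2
    rcases (kk _).1 (hm y hy) with e | e | e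
    · exact mem_MC.2 ⟨hy, e⟩
    · have : y ∈ MC σ o c1 := mem_MC.2 ⟨hy, e⟩
      rw [hx1] at this
      exact absurd (Finset.mem_singleton.1 this) n1
    · have : y ∈ MC σ o c2 := mem_MC.2 ⟨hy, e⟩
      rw [hx2] at this
      exact absurd (Finset.mem_singleton.1 this) n2
  have g1 : X.glue x1 ∈ MC σ o c0 := cls _ (glMM _ mm1) (X.glue_ne _) (fun e => x12 e.symm)
  have g2 : X.glue x2 ∈ MC σ o c0 := by
    refine cls _ (glMM _ mm2) (fun e => x12 ?_) (X.glue_ne _)
    rw [← e, X.glue_glue]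
  have hx12 : x1 ≠ x2 := by
    intro e
    have e1 := (mem_MC.1 m1).2
    have e2 := (mem_MC.1 m2).2
    rw [e] at e1
    exact ne12 (e1.symm.trans e2)
  have gne : X.glue x1 ≠ X.glue x2 := fun e => hx12 (glue_inj e)
  have hM0 : MC σ o c0 = {X.glue x1, X.glue x2} := by
    symm
    refine Finset.eq_of_subset_of_card_le ?_ ?_
    · intro y hy
      rcases Finset.mem_insert.1 hy with e | e
      · rw [e]
        exact g1
      · rw [Finset.mem_singleton.1 e]
        exact g2
    · rw [k0, Finset.card_pair gne]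
  have mg1 := glMM _ mm1
  have mg2 := glMM _ mm2
  have recA : (arc (SL X) (X.glue x1) + arc (SL X) (X.glue x2)) +
      (arc (SL X) x1 + arc (SL X) x2) = 4 * Real.pi := by
    have := key (fun x => arc (SL X) x)
    rw [hM0, hx1, hx2, Finset.sum_pair gne, Finset.sum_singleton, Finset.sum_singleton,
      hSA] at this
    exact this.symm
  have recD : ((L (X.glue x1) - arc (SL X) (X.glue x1)) +
      (L (X.glue x2) - arc (SL X) (X.glue x2))) +
      ((L x1 - arc (SL X) x1) + (L x2 - arc (SL X) x2)) = 4 * Real.pi := by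
    have := key (fun x => L x - arc (SL X) x)
    rw [hM0, hx1, hx2, Finset.sum_pair gne, Finset.sum_singleton, Finset.sum_singleton,
      hsum] at this
    exact this.symm
  -- Phi on the class c0
  have phiC : ∀ x ∈ MC σ o c0, Phi (SL X) x ∈ MC σ o c0 := by
    intro x hx
    obtain ⟨q1, q2⟩ := mem_MC.1 hx
    obtain ⟨r1, r2, _⟩ := (hPHI X σ h o).1 x q1
    exact mem_MC.2 ⟨r1, r2.trans q2⟩
  have phiinj := (hPHI X σ h o).2
  have fixed_arc : ∀ x ∈ MM o, Phi (SL X) x = x → arc (SL X) x = L x := by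
    intro x hx e
    refine ((hARC X (SL X) x (loopOf x hx) (gl x hx)).2.2.2.2.2.2.1 ?_).1
    have : X.glue (X.glue (zz (SL X) x)) = X.glue x := congrArg X.glue e
    rwa [X.glue_glue] at this
  have Pg1 : Phi (SL X) (X.glue x1) = X.glue x2 := by
    have q1 := phiC _ g1
    rw [hM0] at q1
    rcases Finset.mem_insert.1 q1 with e | e
    · exfalso
      have q2 := phiC _ g2
      rw [hM0] at q2
      rcases Finset.mem_insert.1 q2 with e' | e'
      · exact gne (phiinj _ mg1 _ mg2 (e.trans e'.symm))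
      · have f1 := fixed_arc _ mg1 e
        have f2 := fixed_arc _ mg2 (Finset.mem_singleton.1 e')
        linarith
    · exact Finset.mem_singleton.1 e
  have Pg2 : Phi (SL X) (X.glue x2) = X.glue x1 := by
    have q2 := phiC _ g2
    rw [hM0] at q2
    rcases Finset.mem_insert.1 q2 with e' | e'
    · exact e'
    · exact absurd (phiinj _ mg1 _ mg2 (Pg1.trans (Finset.mem_singleton.1 e').symm)) gne
  have zg1 : zz (SL X) (X.glue x1) = x2 := glue_inj Pg1
  have zg2 : zz (SL X) (X.glue x2) = x1 := glue_inj Pg2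
  -- the ratio
  have lin : ((c1 - c0 : ℝ) : ℂ) * w σ x1 + ((c2 - c0 : ℝ) : ℂ) * w σ x2 = 0 := by
    have e := (hLIN X σ h o).2
    rw [hKK, Finset.sum_insert, Finset.sum_insert, Finset.sum_singleton, hM0, hx1, hx2,
      Finset.sum_pair gne, Finset.sum_singleton, Finset.sum_singleton, w_gl h.sc l1.1,
      w_gl h.sc l2.1] at e
    · push_cast
      linear_combination e
    · simp [ne12]
    · simp [ne01, ne02]
  obtain ⟨r, hr, hd⟩ := hDIR X σ h.sc (X.glue x1) (fr (SL X) (X.glue x1))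
  have hd' : w σ x2 = -((r : ℂ) * Complex.exp ((arc (SL X) (X.glue x1) : ℝ) * Complex.I) *
      w σ x1) := by
    have e0 : ((rot X) ^ (fr (SL X) (X.glue x1))) (X.glue x1) = x2 := zg1
    rw [e0, w_gl h.sc l1.1] at hd
    rw [hd]
    simp only [arc]
    ring
  have th0 := arcpos _ mg1
  have th1 : arc (SL X) (X.glue x1) < 2 * Real.pi := by
    have := arcpos _ mg2
    linarith
  set θ := arc (SL X) (X.glue x1) with hθ
  have w1 := w_ne h.sc x1
  have e3 : ((c1 - c0 : ℝ) : ℂ) =
      ((c2 - c0 : ℝ) : ℂ) * ((r : ℂ) * Complex.exp ((θ : ℝ) * Complex.I)) := by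
    rw [hd'] at lin
    apply mul_right_cancel₀ w1
    linear_combination lin
  have him : (c2 - c0) * (r * Real.sin θ) = 0 := by
    have e := congrArg Complex.im e3
    rw [Complex.ofReal_im, Complex.im_ofReal_mul, Complex.im_ofReal_mul,
      Complex.exp_ofReal_mul_I_im] at e
    exact e.symm
  have hre : c1 - c0 = (c2 - c0) * (r * Real.cos θ) := by
    have e := congrArg Complex.re e3
    rw [Complex.ofReal_re, Complex.re_ofReal_mul, Complex.re_ofReal_mul,
      Complex.exp_ofReal_mul_I_re] at e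
    exact e
  have hc20 : c2 - c0 ≠ 0 := sub_ne_zero.2 (Ne.symm ne02)
  have hs : Real.sin θ = 0 := by
    rcases mul_eq_zero.1 him with e | e
    · exact absurd e hc20
    · rcases mul_eq_zero.1 e with e' | e'
      · exact absurd e' hr.ne'
      · exact e'
  have hpi : θ = Real.pi := by
    have e : Real.sin (θ - Real.pi) = 0 := by
      rw [Real.sin_sub_pi, hs, neg_zero]
    have := (Real.sin_eq_zero_iff_of_lt_of_lt (by linarith) (by linarith)).1 e
    linarith
  have hcos : Real.cos θ = -1 := by rw [hpi, Real.cos_pi]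
  have hexp : Complex.exp ((θ : ℝ) * Complex.I) = -1 := by
    rw [hpi, Complex.exp_pi_mul_I]
  refine ⟨x1, x2, ⟨ne01, ne02, ne12, kk, ?_, ?_, ?_, ?_, gne, pur, Z1, Z2, zg1, zg2, r, hr, ?_, ?_⟩⟩
  · intro x
    constructor
    · intro hx
      by_cases e1 : x = x1
      · exact Or.inl e1
      · by_cases e2 : x = x2
        · exact Or.inr (Or.inl e2)
        · have e := cls x hx e1 e2
          rw [hM0] at e
          rcases Finset.mem_insert.1 e with e' | e'
          · exact Or.inr (Or.inr (Or.inl e'))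
          · exact Or.inr (Or.inr (Or.inr (Finset.mem_singleton.1 e')))
    · rintro (e | e | e | e)
      · rw [e]; exact mm1
      · rw [e]; exact mm2
      · rw [e]; exact mg1
      · rw [e]; exact mg2
  · intro x
    rw [hM0]
    simp
  · intro x
    rw [hx1]
    simp
  · intro x
    rw [hx2]
    simp
  · rw [hd', hexp]
    ring
  · rw [hcos] at hre
    linarith

end K3_

open K3_ in
theorem P_K3 (hLIN : T_LIN) (hNE : T_NE) (hNUM : T_NUM) (hFIX : T_FIX) (hPHI : T_PHI)
    (hARC : T_ARC) (hLP : T_LP) (hDIR : T_DIR) (hCLS : T_CLS) (hNL : T_NL) :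
    T_K3 := by
  classical
  intro X σ h o h3
  have pi_pos := Real.pi_pos
  obtain ⟨o', ho'⟩ := other h o
  obtain ⟨n, t, b, n', t', b', hc, hc', hs, hk, hk'⟩ := hNUM X σ h o o' ho' (by omega)
  obtain ⟨a1, a2, a3, a4, a5, a6⟩ := hc
  obtain ⟨a1', a2', a3', a4', a5', a6'⟩ := hc'
  rw [h3] at hk hk'
  have hm := (hCLS X σ h o).1
  have hne := hNE X σ h o (by omega)
  have hcard := card_MC hm
  obtain ⟨c0, c1, c2, ne01, ne02, ne12, hKK⟩ := Finset.card_eq_three.1 h3
  have kk : ∀ c : ℝ, c ∈ KK σ o ↔ c = c0 ∨ c = c1 ∨ c = c2 := by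
    intro c
    rw [hKK]
    simp
  have p0 : 1 ≤ (MC σ o c0).card := Finset.card_pos.2 (hne c0 ((kk c0).2 (Or.inl rfl)))
  have p1 : 1 ≤ (MC σ o c1).card :=
    Finset.card_pos.2 (hne c1 ((kk c1).2 (Or.inr (Or.inl rfl))))
  have p2 : 1 ≤ (MC σ o c2).card :=
    Finset.card_pos.2 (hne c2 ((kk c2).2 (Or.inr (Or.inr rfl))))
  have hsc : (MC σ o c0).card + ((MC σ o c1).card + (MC σ o c2).card) = (MM o).card := by
    rw [← hcard, hKK, Finset.sum_insert, Finset.sum_insert, Finset.sum_singleton]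
    · simp [ne12]
    · simp [ne01, ne02]
  have hnb : n + b = 1 := by omega
  have loopOf : ∀ x ∈ MM o, loop x := fun x hx => (mem_MM.1 hx).2.1
  rcases Nat.eq_zero_or_pos n with hn | hn
  · -- b = 1, n = 0
    exfalso
    have hb : b = 1 := by omega
    have ht : t = 1 := by omega
    subst hn hb ht
    have q0 : (MC σ o c0).card = 1 := by omega
    have q1 : (MC σ o c1).card = 1 := by omega
    have q2 : (MC σ o c2).card = 1 := by omega
    -- the class map is injective on MM o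
    have inj : ∀ x ∈ MM o, ∀ y ∈ MM o, rho σ (nx x) = rho σ (nx y) → x = y := by
      intro x hx y hy e
      have one : (MC σ o (rho σ (nx y))).card = 1 := by
        rcases (kk _).1 (hm y hy) with e' | e' | e' <;> rw [e'] <;> assumption
      obtain ⟨z, hz⟩ := Finset.card_eq_one.1 one
      have u1 : x ∈ MC σ o (rho σ (nx y)) := mem_MC.2 ⟨hx, e⟩
      have u2 : y ∈ MC σ o (rho σ (nx y)) := mem_MC.2 ⟨hy, rfl⟩
      rw [hz] at u1 u2
      rw [Finset.mem_singleton.1 u1, Finset.mem_singleton.1 u2]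
    -- all pure sides have the angle 3π
    have allP : ∀ x ∈ PU o, L x = 3 * Real.pi := by
      have e : (PU o).filter (fun x => L x = 3 * Real.pi) = PU o := by
        refine Finset.eq_of_subset_of_card_le (Finset.filter_subset _ _) ?_
        omega
      intro x hx
      rw [← e] at hx
      exact (Finset.mem_filter.1 hx).2
    have toMM : ∀ x ∈ PU o, X.glue x ∈ MM o := by
      intro x hx
      obtain ⟨r1, r2, r3⟩ := mem_PU.1 hx
      obtain ⟨s1, s2⟩ := glue_at r1 r2
      refine mem_MM.2 ⟨s1, s2, fun s3 => ?_⟩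
      have e1 := allP x hx
      have e2 := allP _ (mem_PU.2 ⟨s1, s2, s3⟩)
      have e3 := (hLP X σ h x r2).2.2
      linarith
    have nxP : ∀ x ∈ PU o, nx x ∈ PU o := by
      intro x hx
      obtain ⟨r1, r2, r3⟩ := mem_PU.1 hx
      refine mem_PU.2 ⟨r1.trans ((loop_iff x).1 r2), (hNL X σ h x).2.2.2.2.1 r2 r3, ?_⟩
      rw [pv_nx]
      exact r2
    have hP : 0 < (PU o).card := by omega
    obtain ⟨p, hp⟩ := Finset.card_pos.1 hP
    have hp1 := nxP p hp
    have hp2 := nxP _ hp1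
    rw [nx_nx] at hp2
    have lp := (hLP X σ h p (mem_PU.1 hp).2.1).1
    have lp1 := (hLP X σ h _ (mem_PU.1 hp1).2.1).1
    have lp2 := (hLP X σ h _ (mem_PU.1 hp2).2.1).1
    have d1 : X.glue p ≠ X.glue (nx p) := fun e => nx_ne p (glue_inj e).symm
    have d2 : X.glue p ≠ X.glue (pv p) := fun e => pv_ne p (glue_inj e).symm
    have d3 : X.glue (nx p) ≠ X.glue (pv p) := fun e => nx_ne_pv p (glue_inj e)
    have hMM : MM o = {X.glue p, X.glue (nx p), X.glue (pv p)} := by
      symm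
      refine Finset.eq_of_subset_of_card_le ?_ ?_
      · intro y hy
        simp only [Finset.mem_insert, Finset.mem_singleton] at hy
        rcases hy with e | e | e <;> rw [e]
        · exact toMM _ hp
        · exact toMM _ hp1
        · exact toMM _ hp2
      · rw [Finset.card_eq_three.2 ⟨_, _, _, d1, d2, d3, rfl⟩]
        omega
    have lin := (hLIN X σ h o).2
    rw [sum_cMC hm, hMM, Finset.sum_insert, Finset.sum_insert, Finset.sum_singleton,
      w_gl h.sc lp, w_gl h.sc lp1, w_gl h.sc lp2] at lin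
    · have tri := tri_w h.sc p
      rw [lp, lp2] at tri
      have e := indep h.sc p
        (rho σ (nx (X.glue p)) - rho σ (nx (X.glue (pv p))))
        (rho σ (nx (X.glue (nx p))) - rho σ (nx (X.glue (pv p)))) (by
          push_cast at tri ⊢
          linear_combination -lin - (rho σ (nx (X.glue (pv p))) : ℂ) * tri)
      have := inj _ (toMM _ hp) _ (toMM _ hp2) (sub_eq_zero.1 e.1)
      exact d2 this
    · simp [d3]
    · simp [d1, d2]
  · -- n = 1, b = 0
    have hn1 : n = 1 := by omega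
    have hb : b = 0 := by omega
    subst hn1 hb
    have arcOf : ∀ x ∈ MM o, (MC σ o (rho σ (nx x))).card = 1 → arc (SL X) x = L x := by
      intro x hx e
      exact (hFIX X σ h o _ e x (mem_MC.2 ⟨hx, rfl⟩)).2.2
    have ht : t = 0 := by
      by_contra ht
      have ht1 : t = 1 := by omega
      subst ht1
      have q0 : (MC σ o c0).card = 1 := by omega
      have q1 : (MC σ o c1).card = 1 := by omega
      have q2 : (MC σ o c2).card = 1 := by omega
      have : ∑ x ∈ MM o, (L x - arc (SL X) x) = 0 := by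
        refine Finset.sum_eq_zero fun x hx => ?_
        rw [arcOf x hx, sub_self]
        rcases (kk _).1 (hm x hx) with e' | e' | e' <;> rw [e'] <;> assumption
      rw [this] at a4
      push_cast at a4
      linarith
    subst ht
    have hPU : (PU o).card = 0 := by omega
    have hMM : (MM o).card = 4 := by omega
    have hsum : ∑ x ∈ MM o, (L x - arc (SL X) x) = 4 * Real.pi := by
      rw [a4]
      push_cast
      ring
    have hSL : ∑ x ∈ MM o, L x = 8 * Real.pi := by
      refine sum_L (fun x hx => (hLP X σ h x (loopOf x hx)).2.1) hMM 2 rfl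
        ⟨(MM o).filter fun x => L x = 3 * Real.pi, fun x => by rw [Finset.mem_filter], ?_⟩
      omega
    have run := main hLIN hFIX hPHI hARC hLP hDIR hCLS X σ h o
    rcases three_le p0 p1 p2 (by omega) with ⟨q0, q1, q2⟩ | ⟨q0, q1, q2⟩ | ⟨q0, q1, q2⟩
    · obtain ⟨x1, x2, hS⟩ := run c0 c1 c2 ne01 ne02 ne12 kk hPU hsum hSL q0 q1 q2
      exact ⟨_, _, _, _, _, hS⟩
    · obtain ⟨x1, x2, hS⟩ := run c1 c0 c2 ne01.symm ne12 ne02
        (fun c => by rw [kk]; tauto) hPU hsum hSL q1 q0 q2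
      exact ⟨_, _, _, _, _, hS⟩
    · obtain ⟨x1, x2, hS⟩ := run c2 c0 c1 ne02.symm ne12.symm ne01
        (fun c => by rw [kk]; tauto) hPU hsum hSL q2 q0 q1
      exact ⟨_, _, _, _, _, hS⟩

end Pool.Agent.GTW
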