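import Pool.Agent.GTW.Targets

/-!
# GTW: the residue of a class (RES2)
-/

set_option autoImplicit false

open Finset

noncomputable section

namespace Pool.Agent.GTW

variable {X : Glued}

namespace RES2_

theorem mem_MC {σ : D X → ℝ} {o : D X} {c : ℝ} {x : D X} :
    x ∈ MC σ o c ↔ ((rot X).SameCycle o x ∧ loop x ∧ ¬ loop (pv x)) ∧ rho σ (nx x) = c := by
  classical
  simp only [MC, MM, Finset.mem_filter, Finset.mem_univ, true_and]

open Classical in
/-- the non-loops at `o` of the class `c` -/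
def NN (σ : D X → ℝ) (o : D X) (c : ℝ) : Finset (D X) :=
  univ.filter fun y => (rot X).SameCycle o y ∧ ¬ loop y ∧ rho σ y = c

theorem mem_NN {σ : D X → ℝ} {o : D X} {c : ℝ} {y : D X} :
    y ∈ NN σ o c ↔ (rot X).SameCycle o y ∧ ¬ loop y ∧ rho σ y = c := by
  unfold NN
  simp

/-- a dart which starts at the end of a non-loop at `o` starts at the other vertex -/
theorem other {σ : D X → ℝ} (h : H11 X σ) {o o' z : D X} (hoo : ¬ (rot X).SameCycle o o')
    (hz : ¬ (rot X).SameCycle o z) : (rot X).SameCycle o' z := by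
  rcases h.three o o' z with h1 | h1 | h1
  · exact absurd h1 hoo
  · exact absurd h1 hz
  · exact h1

theorem rho_pv {σ : D X → ℝ} (h : Scale σ) {x : D X} (h1 : rho σ x = 1) :
    rho σ (pv x) = (rho σ (nx x))⁻¹ := by
  have h2 := rho_prod h x
  rw [h1, one_mul] at h2
  exact (inv_eq_of_mul_eq_one_right h2).symm

theorem sum_NN (hNL : T_NL) (hLP : T_LP) {σ : D X → ℝ} (h : H11 X σ) {o o' : D X}
    (hoo : ¬ (rot X).SameCycle o o') (c : ℝ) (f : D X → ℂ) :
    ∑ y ∈ NN σ o c, f y = ∑ x ∈ MC σ o c, f (nx x) + ∑ x ∈ MC σ o' c⁻¹, f (pv x) := by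
  classical
  rw [← Finset.sum_filter_add_sum_filter_not (NN σ o c) fun y => loop (pv y)]
  congr 1
  · refine Finset.sum_nbij' (fun y => pv y) (fun x => nx x) ?_ ?_ ?_ ?_ ?_
    · intro y hy
      rw [Finset.mem_filter, mem_NN] at hy
      obtain ⟨⟨h1, h2, h3⟩, h4⟩ := hy
      obtain ⟨-, -, -, -, -, -, n7⟩ := hNL X σ h y
      rw [mem_MC, nx_pv, pv_pv]
      have h5 := (loop_iff (pv y)).1 h4
      rw [nx_pv] at h5
      exact ⟨⟨h1.trans h5.symm, h4, n7 h2 h4⟩, h3⟩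
    · intro x hx
      rw [mem_MC] at hx
      obtain ⟨⟨h1, h2, h3⟩, h4⟩ := hx
      obtain ⟨-, -, -, n4, -, -, -⟩ := hNL X σ h x
      rw [Finset.mem_filter, mem_NN, pv_nx]
      exact ⟨⟨h1.trans ((loop_iff x).1 h2), n4 h2 h3, h4⟩, h2⟩
    · intro y _
      exact nx_pv y
    · intro x _
      exact pv_nx x
    · intro y _
      rw [nx_pv]
  · refine Finset.sum_nbij' (fun y => nx y) (fun x => pv x) ?_ ?_ ?_ ?_ ?_
    · intro y hy
      rw [Finset.mem_filter, mem_NN] at hy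
      obtain ⟨⟨h1, h2, h3⟩, h4⟩ := hy
      obtain ⟨-, -, n3, -, -, -, -⟩ := hNL X σ h y
      have h5 : loop (nx y) := n3 h2 h4
      rw [mem_MC, pv_nx, nx_nx]
      refine ⟨⟨other h hoo fun h6 => h2 ((loop_iff y).2 (h1.symm.trans h6)), h5, h2⟩, ?_⟩
      have h6 := (hLP X σ h (nx y) h5).1
      have h7 := rho_pv h.sc h6
      rw [pv_nx, nx_nx, h3] at h7
      rw [h7, inv_inv]
    · intro x hx
      rw [mem_MC] at hx
      obtain ⟨⟨h1, h2, h3⟩, h4⟩ := hx
      obtain ⟨-, -, -, n4, -, -, -⟩ := hNL X σ h x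
      rw [Finset.mem_filter, mem_NN, pv_pv]
      refine ⟨⟨?_, h3, ?_⟩, n4 h2 h3⟩
      · refine other h (o := o') (o' := o) (fun h5 => hoo h5.symm) fun h5 => h3 ?_
        rw [loop_iff, nx_pv]
        exact h5.symm.trans h1
      · rw [rho_pv h.sc (hLP X σ h x h2).1, h4, inv_inv]
    · intro y _
      exact pv_nx y
    · intro x _
      exact nx_pv x
    · intro y _
      rw [pv_nx]

theorem sum_glue {σ : D X → ℝ} (h : H11 X σ) {o o' : D X}
    (hoo : ¬ (rot X).SameCycle o o') (c : ℝ) (f : D X → ℂ) :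
    ∑ z ∈ NN σ o' c⁻¹, f (X.glue z) = ∑ y ∈ NN σ o c, f y := by
  have key : ∀ (o o' : D X) (c : ℝ), ¬ (rot X).SameCycle o o' → ∀ y ∈ NN σ o c,
      X.glue y ∈ NN σ o' c⁻¹ := by
    intro o o' c hoo y hy
    rw [mem_NN] at hy ⊢
    obtain ⟨h1, h2, h3⟩ := hy
    refine ⟨other h hoo fun h5 => h2 (h1.symm.trans h5), fun h5 => h2 ((loop_glue y).1 h5), ?_⟩
    rw [rho_glue h.sc, h3]
  refine Finset.sum_nbij' (fun z => X.glue z) (fun y => X.glue y) ?_ ?_ ?_ ?_ ?_
  · intro z hz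
    have := key o' o c⁻¹ (fun h5 => hoo h5.symm) z hz
    rwa [inv_inv] at this
  · intro y hy
    exact key o o' c hoo y hy
  · intro z _
    exact X.glue_glue z
  · intro z _
    exact X.glue_glue z
  · intro z _
    rfl

end RES2_

open RES2_ in
/-- the residue of a class -/
theorem P_RES2 (hNL : T_NL) (hLP : T_LP) : T_RES2 := by
  intro X σ h o o' hoo c hc
  have hc0 : (c : ℂ) ≠ 0 := by exact_mod_cast hc.ne'
  have hoo' : ¬ (rot X).SameCycle o' o := fun h5 => hoo h5.symm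
  have e1 := sum_NN hNL hLP h hoo c (w σ)
  have e2 := sum_NN hNL hLP h hoo' c⁻¹ fun z => w σ (X.glue z)
  rw [inv_inv] at e2
  have e3 := sum_glue h hoo c (w σ)
  have e4 : ∑ x ∈ MC σ o c, w σ x =
      ∑ x ∈ MC σ o c, w σ (X.glue (pv x)) - ∑ x ∈ MC σ o c, w σ (nx x) := by
    rw [← Finset.sum_sub_distrib]
    refine Finset.sum_congr rfl fun x hx => ?_
    rw [mem_MC] at hx
    have h1 := (hLP X σ h x hx.1.2.1).1
    have h2 := w_rot' h.sc x
    rw [rot_apply, h1] at h2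
    rw [h2]
    push_cast
    ring
  have e5 : ((c⁻¹ : ℝ) : ℂ) * ∑ x ∈ MC σ o' c⁻¹, w σ x =
      ∑ x ∈ MC σ o' c⁻¹, w σ (X.glue (nx x)) - ∑ x ∈ MC σ o' c⁻¹, w σ (pv x) := by
    rw [← Finset.sum_sub_distrib, Finset.mul_sum]
    refine Finset.sum_congr rfl fun x hx => ?_
    rw [mem_MC] at hx
    have h1 := (hLP X σ h x hx.1.2.1).1
    have h2 := w_rot' h.sc x
    have h3 : rho σ (pv x) = c := by
      rw [rho_pv h.sc h1, hx.2, inv_inv]
    have h4 := w_glue h.sc (pv x)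
    have h5 := w_glue h.sc (nx x)
    rw [hx.2] at h5
    rw [h3] at h4
    rw [rot_apply, h1, h4] at h2
    rw [h5]
    push_cast at h2 ⊢
    have h6 : w σ x = -(c * w σ (pv x)) - w σ (nx x) := by
      rw [h2]
      ring
    rw [h6]
    field_simp
    ring
  rw [e4, e5]
  linear_combination -e2 + e1 + e3
end Pool.Agent.GTW
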