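import Pool.Agent.GTW.Base

/-!
# GTW: the targets (MP_3243b0_gt, genus 2)

THEOREM. Every closed affine surface of genus 2 (triangulated with vertices = singular points)
that is not a translation surface has a hyperbolic closed regular geodesic.

Each `T_*` below is one job. The docstring is the complete proof. Every other `T_*` may be taken
as a hypothesis of the theorem `P_*` (do NOT import the proofs of other targets, only this file).
Base.lean has the elementary facts (`w_rot`, `w_glue`, `rho_glue`, `rho_prod`, `tri_w`, `w_rot'`,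
`mu_eq`, `mu_eq'`, `sc_nx`, `loop_iff`, `loop_glue`, `crs_pos`, `cor_nx`, `rot_nx`, `eq_or`, ...).

PICTURE. A dart `x` is an oriented side, its triangle is on the left; `nx x`, `pv x` are the next and
the previous side of the triangle; `glue x` is the same edge with the other orientation (in the
neighbouring triangle); `rot x = glue (pv x)` is the next dart counterclockwise with the same start;
`rot (nx x) = glue x`, `rot⁻¹ x = nx (glue x)`. The vertices are the cycles of `rot`. `th x` is the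
corner at the start of `x`. `σ x` is a scale (constant near each vertex), `w σ x = σ x * v x` is the
vector of `x` seen at its start, `rho σ x` = (scale at the end) / (scale at the start).
-/

set_option autoImplicit false

open Finset

noncomputable section

namespace Pool.Agent.GTW

variable {X : Glued}

/-! ## General part -/

/-- `0 < th x < π`. PROOF. `th x = arg (-(v (pv x)) / v x)`. With `a = v x`, `b = -v (pv x)`:
`b / a = conj a * b / |a|²` has imaginary part `crs a b / |a|² > 0`, because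
`crs (v x) (-v (pv x)) = crs (v x) (v x + v (nx x)) = crs (v x) (v (nx x)) > 0` (`v_sum`,
`crs_pos`). A complex number with positive imaginary part has an argument in `(0, π)`. -/
def T_TH : Prop := ∀ (X : Glued) (x : D X), 0 < th x ∧ th x < Real.pi

/-- The angles of a triangle sum to `π`. PROOF. The product of the three complex numbers
`z_x = -v (pv x) / v x`, `z_{nx x} = -v x / v (nx x)`, `z_{pv x} = -v (nx x) / v (pv x)` is `-1`
(note `pv (nx x) = x`, `pv (pv x) = nx x`). Each has an argument in `(0, π)` (T_TH), so the sum of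
the arguments is in `(0, 3π)` and is congruent to `π` modulo `2π`: it is `π`. -/
def T_TRI : Prop := ∀ (X : Glued) (x : D X), th x + th (nx x) + th (pv x) = Real.pi

/-- A scale exists. PROOF. Choose a representative `r` of every cycle of `rot` (choice of a
representative: `Quotient.out` of `Equiv.Perm.SameCycle.setoid`). For `x` in the cycle of `r` let
`m` be any (the least) natural number with `rot ^ m r = x` and put
`σ x = ∏ k in range m, (mu (pv (rot ^ k r)))⁻¹`. If `rot ^ m r = rot ^ m' r` with `m ≤ m'`, then the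
product over `k in [m, m')` is `1` by `hol` applied to `x` and `m' - m`; hence `σ` does not depend
on the choice of `m`, and `σ (rot x) = σ x * (mu (pv x))⁻¹`. -/
def T_SCL : Prop := ∀ X : Glued, IsAffine X → ∃ σ : D X → ℝ, Scale σ

/-- PROOF. Induction on `m`. `w (rot x) = -σ x * v (pv x)` (`w_rot`) `= (-(v (pv x)) / v x) * w x` and
`z = -(v (pv x)) / v x = |z| * exp (i arg z)`, `arg z = th x`, `z ≠ 0`. And
`A x (m+1) = A x m + th (rot ^ m x)` (`Finset.sum_range_succ`). -/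
def T_DIR : Prop := ∀ (X : Glued) (σ : D X → ℝ), Scale σ → ∀ (x : D X) (m : ℕ),
  ∃ r : ℝ, 0 < r ∧ w σ (((rot X) ^ m) x) =
    (r : ℂ) * Complex.exp ((A x m : ℝ) * Complex.I) * w σ x

/-- Angular positions. PROOF. Choose a representative `r` of every cycle and for `y` in the cycle
of `r` the least `m_y` with `rot ^ m_y r = y`; `P y = A r m_y`. If `N` is the length of the cycle
(the least `N ≥ 1` with `rot ^ N r = r`), then `A r (k + N) = A r k + tot r` (the sum of `th` over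
`N` consecutive elements of the cycle is the sum over the cycle). For `y = rot ^ m x` we have
`rot ^ (m_x + m) r = y = rot ^ m_y r`, so `m_x + m ≡ m_y mod N`, and
`A r (m_x + m) = A r m_x + A x m` (`Finset.sum_range_add` style), so
`P y = A r m_y = A r (m_x + m) - j * tot r = P x + A x m - j * tot x`. -/
def T_POS : Prop := ∀ X : Glued, ∃ P : D X → ℝ, ∀ (x : D X) (m : ℕ), ∃ j : ℤ,
  P (((rot X) ^ m) x) = P x + A x m - j * tot x

open Classical in
/-- Tower lemma (Kac). PROOF. The map `(x, k) ↦ π ^ k x` is a bijection from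
`{(x, k) : x ∈ S ∩ U, k < n x}` onto `U`, where `n x` is the first return time
`sInf {m | 1 ≤ m ∧ π ^ m x ∈ S}`. (The set is not empty: `π ^ orderOf π = 1`.) Values are in `U` as
`U` is invariant. Injective: if `π ^ k x = π ^ k' x'` with `k ≤ k'`, then `x = π ^ (k' - k) x'`, and
`0 < k' - k < n x'` would contradict the minimality of `n x'`. Onto: for `u ∈ U` take the least
`k ≥ 0` with `π⁻¹ ^ k u ∈ S` (it exists because some forward image of `u` is in `S` and `π` has
finite order); `x = π⁻¹ ^ k u`; then `n x > k` by minimality. -/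
def T_KAC : Prop := ∀ (α : Type) [Fintype α] [DecidableEq α] (π : Equiv.Perm α) (S : Set α)
  (U : Finset α) (f : α → ℝ), (∀ x, x ∈ U ↔ π x ∈ U) → (∀ x ∈ U, ∃ m : ℕ, (π ^ m) x ∈ S) →
  ∑ x ∈ U.filter (fun x => x ∈ S), ∑ k ∈ range (sInf {m : ℕ | 1 ≤ m ∧ (π ^ m) x ∈ S}),
    f ((π ^ k) x) = ∑ x ∈ U, f x

/-- The angle of a loop. PROOF. `SameCycle x (glue x)` and `glue x ≠ x` give `m ≥ 1` with
`rot ^ m x = glue x`; `mL x` is the least one (`Nat.sInf_mem`). As `rot (nx x) = glue x` and `rot` is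
injective, `rot ^ (mL x - 1) x = nx x`. Let `N` be the least `N ≥ 1` with `rot ^ N x = x`. Then
`mL x < N` and `mL (glue x) = N - mL x`, so `L x + L (glue x) = A x N = tot x`. Finally (if a scale
exists) `w (glue x) = -rho x * w x` and `w (rot ^ (mL x) x) = r exp (i L x) w x` (T_DIR), so
`exp (i L x) = -rho x / r` is a negative real number of modulus one, i.e. `-1`, and `L x > 0`
(T_TH), so `L x` is an odd multiple of `π`. -/
def T_LOOP : Prop := ∀ (X : Glued) (σ : D X → ℝ), Scale σ → ∀ x : D X, loop x →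
  1 ≤ mL x ∧ ((rot X) ^ (mL x)) x = X.glue x ∧ ((rot X) ^ (mL x - 1)) x = nx x ∧
  (∀ m : ℕ, 1 ≤ m → m < mL x → ((rot X) ^ m) x ≠ X.glue x) ∧
  0 < L x ∧ L x + L (X.glue x) = tot x ∧ ∃ j : ℕ, L x = (2 * j + 1) * Real.pi

/-- A triangle whose three sides are loops. PROOF. Let `P` be as in T_POS. All of `x`, `nx x`,
`pv x`, `glue x`, ... are in one cycle, so `tot` is the same number `t` for all of them. Modulo
`t`: `L x = A x (mL x) ≡ P (glue x) - P x`, and `glue x = rot (nx x)` gives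
`P (glue x) ≡ P (nx x) + th (nx x)`; so `L x ≡ P (nx x) - P x + th (nx x)`. Add the same relations for
`nx x` and `pv x`: the `P` cancel and `Σ L ≡ Σ th = π` (T_TRI). (`rot ^ (mL x) x = glue x` holds
because `mL x` is the infimum of a nonempty set; no scale is needed.) -/
def T_LRI : Prop := ∀ (X : Glued) (x : D X), loop x → loop (nx x) → loop (pv x) →
  ∃ j : ℤ, L x + L (nx x) + L (pv x) = Real.pi + j * tot x

/-- The arc to the next dart of `S`. PROOF. `mL x ≥ 1` and `rot ^ (mL x) x = glue x ∈ S`, so the set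
defining `fr S x` is not empty and `fr S x ≤ mL x`. `arc S x = A x (fr S x)`, `L x = A x (mL x)` are
sums of the positive numbers `th`, so `arc ≤ L` with equality iff `fr = mL`; and `fr = mL` gives
`zz S x = glue x`; conversely `zz S x = glue x` gives `mL ≤ fr`. -/
def T_ARC : Prop := ∀ (X : Glued) (S : Set (D X)) (x : D X), loop x → X.glue x ∈ S →
  1 ≤ fr S x ∧ fr S x ≤ mL x ∧ zz S x ∈ S ∧ 0 < arc S x ∧ arc S x ≤ L x ∧
  (arc S x = L x → zz S x = X.glue x) ∧ (zz S x = X.glue x → arc S x = L x ∧ fr S x = mL x) ∧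
  (∀ m : ℕ, 1 ≤ m → m < fr S x → ((rot X) ^ m) x ∉ S)

/-- The two strata of genus 2. PROOF. Let `F` be the number of triangles, `3 F` the number of darts
(even, since `glue` is an involution without fixed points), `V = numV`. `HasGenus X 2` says
`V - 3F/2 + F = -2`, i.e. `F = 2 V + 4`. The sum of `th` over all darts is `π F` (T_TRI: sum over
the triangles) and is the sum of `tot` over the cycles. Each `tot` is at least `4π`. So
`4 V ≤ F = 2 V + 4`, `V ≤ 2`, and `V ≥ 1` (nonempty). `V = 1`: `F = 6`, one cycle, `tot = 6π`.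
`V = 2`: `F = 8`, two cycles with the sum `8π`, each at least `4π`, so both are `4π`. -/
def T_CNT : Prop := ∀ X : Glued, IsAffine X → HasGenus X 2 →
  (Fintype.card X.F = 6 ∧ (∀ x : D X, tot x = 6 * Real.pi) ∧
    ∀ x y : D X, (rot X).SameCycle x y) ∨
  (Fintype.card X.F = 8 ∧ (∀ x : D X, tot x = 4 * Real.pi) ∧
    (∀ x y z : D X, (rot X).SameCycle x y ∨ (rot X).SameCycle x z ∨ (rot X).SameCycle y z) ∧
    ∃ x y : D X, ¬ (rot X).SameCycle x y)

/-- A closed path with multiplier `≠ 1` gives a simple one. PROOF. Unfold `Pth` into a sequence: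
`Pth d p q a` iff there are `n ≥ 1` and `P : ℕ → D X × ℝ` with `P 0 = p`, `P n = q`, all parameters
`P k` (`k ≤ n`) in `(0, 1)`, steps `Step d (P k) (P (k+1))` for `k < n` and
`a = ∏ k in range n, mu (glue (P (k+1)).1)`. Take the least `n ≥ 1` for which there is a closed
sequence (`P n = P 0`) with product `≠ 1`. If `P i = P j` with `i < j < n`, then
`P i, ..., P j` and `P 0, ..., P i = P j, P (j+1), ..., P n` are two shorter closed sequences
(lengths `j - i` and `n - (j - i)`, both `≥ 1` and `< n`) whose products multiply to the given one: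
one of them is `≠ 1`, contradiction. So the sequence is injective on `k < n`. (Outside `[0, n]` let
`P` be periodic or constant `= P 0`, so that all parameters are in `(0,1)`.) -/
def T_PTH : Prop := ∀ (X : Glued) (d : ℂ), d ≠ 0 → ∀ (p : D X × ℝ) (a : ℝ), a ≠ 1 →
  Pth d p p a → HasHyperbolic X

/-- Paths of parallel directions. PROOF. Induction on `Pth`; `Step` has `r * d = (r / t) * (t d)`. -/
def T_PSC : Prop := ∀ (X : Glued) (d : ℂ) (t : ℝ), 0 < t → ∀ (p q : D X × ℝ) (a : ℝ),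
  Pth d p q a → Pth ((t : ℂ) * d) p q a

/-- LEMMA 1: a loop with the angle `π` on the left and with `rho ≠ 1` gives a hyperbolic closed
geodesic. PROOF. `m = mL x`, `y k = rot ^ k x` (`y 0 = x`, `y m = glue x`, `y (m-1) = nx x`),
`a k = w σ (y k)`, `a 0 = w x`, `ρ = rho x = σ (nx x) / σ x ≠ 1`. By T_DIR and `0 < A x k < π` for
`1 ≤ k ≤ m-1` (T_TH, `A x m = L x = π`), `a k = (α k + i β k) a 0` with `β k > 0` for
`1 ≤ k ≤ m - 1`; and `m ≥ 2` (`m = 1` would give `nx x = x`). The cross products satisfy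
`crs (a k) (a (k+1)) > 0` (the angle between is `th (y k) ∈ (0, π)`). Let `κ = ρ / (ρ - 1)`,
`s = sign (ρ - 1) = ±1`, so `s κ = |κ|`. The point `κ a 0` is the fixed point of
`g z = z / ρ + a 0` (`g` = the gluing of the fan at the other end: `g (0) = a 0`,
`g (-ρ a 0) = 0`). For small `ε > 0` let `ℓ` be the line of the points `(t + i ε s (κ - t)) a 0`
(it passes through the fixed point), `d = (-1 + i ε s) a 0` its direction, and
`s k = ε |κ| / (β k + ε s α k)` for `1 ≤ k ≤ m - 1`: `P k = s k * a k` is the point of the dart `y k`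
on `ℓ`; `s k ∈ (0, 1)` for `ε` small (finitely many conditions).
STEPS. (1) for `1 ≤ k ≤ m - 2`: `Step d (y k, s k) (y (k+1), s (k+1))`, leaving through `pv (y k)`
(`y (k+1) = glue (pv (y k))`) at its parameter `1 - s (k+1)`:
`σ (y k) * (pt (pv (y k)) (1 - s (k+1)) - pt (y k) (s k)) = P (k+1) - P k` (use
`cor (y k) = cor (pv (y k)) + v (pv (y k))` and `a (k+1) = -σ (y k) v (pv (y k))`), and
`P (k+1) - P k = r d` as both are on `ℓ`, with `r > 0` because
`crs (P k) d = ε |κ| |a 0|² > 0` for every point of `ℓ` and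
`crs (P k) (P (k+1)) = s k s (k+1) crs (a k) (a (k+1)) > 0`.
(2) the last step `Step d (y (m-1), s (m-1)) (y 1, s 1)`: `y (m-1) = nx x` lies in the triangle of `x`,
leave through `pv x` (`y 1 = glue (pv x)`) at its parameter `1 - s 1`:
`σ (nx x) * (pt (pv x) (1 - s 1) - pt (nx x) (s (m-1))) = -ρ a 0 + ρ s 1 a 1 - s (m-1) a (m-1)`
`= g⁻¹ (P 1) - P (m-1)`, again a difference of two points of `ℓ` (`g` maps `ℓ` to itself), and
`crs (P (m-1)) (g⁻¹ (P 1)) = s (m-1) ρ (s 1 crs (a (m-1)) (a 1) - crs (a (m-1)) (a 0))`, which is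
positive for `ε` small as `- crs (a (m-1)) (a 0) = β (m-1) |a 0|² > 0` and `s 1 → 0`.
MULTIPLIER. `mu (pv (y k)) = σ (y k) / σ (y (k+1))` (`sc_rot`), the product for `k = 1 .. m-2` is
`σ (y 1) / σ (nx x)`; the last one is `mu (pv x) = σ x / σ (y 1)`. Total: `σ x / σ (nx x) = 1/ρ ≠ 1`.
So `Pth d (y 1, s 1) (y 1, s 1) (1/ρ)` and T_PTH ends the proof. (For `m = 2` there is only the last
step; no special treatment is needed, or exclude it: `L x = th x + th (nx x) < π` by T_TRI.) -/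
def T_ONE : Prop := ∀ (X : Glued) (σ : D X → ℝ), Scale σ → ∀ x : D X, loop x → L x = Real.pi →
  rho σ x ≠ 1 → HasHyperbolic X

/-! ## One vertex: H(2) -/

/-- the situation of H(2), without hyperbolic closed geodesics -/
structure H2 (X : Glued) (σ : D X → ℝ) : Prop where
  sc : Scale σ
  card : Fintype.card X.F = 6
  tot_eq : ∀ x : D X, tot x = 6 * Real.pi
  one : ∀ x y : D X, (rot X).SameCycle x y
  flat : Flat X σ

/-- the darts with `rho = 1` -/
def S1 (σ : D X → ℝ) : Set (D X) := {x | rho σ x = 1}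

open Classical in
/-- the sides with `rho = 1` of the mixed triangles -/
def M2 (σ : D X → ℝ) : Finset (D X) :=
  univ.filter fun x => rho σ x = 1 ∧ rho σ (pv x) ≠ 1

/-- PROOF. Every dart is a loop. If `rho x ≠ 1`, then `rho (glue x) = 1 / rho x ≠ 1`, so by `Flat`
`L x ≠ π` and `L (glue x) ≠ π`; both are odd multiples of `π`, at least `3π`, with the sum `6π`
(T_LOOP): `L x = 3π`. For a triangle `x, nx x, pv x`: `rho x * rho (nx x) * rho (pv x) = 1`, so not
exactly one of them is `≠ 1`; and `ΣL ≡ π mod 6π` (T_LRI), so not all three are `≠ 1`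
(`9π - π` is not a multiple of `6π`). If `rho x = 1` and `rho (pv x) ≠ 1`, then `rho (nx x) ≠ 1` and
`L x + 6π ≡ π mod 6π`, `0 < L x < 6π`: `L x = π`. -/
def T_H2A : Prop := ∀ (X : Glued) (σ : D X → ℝ), H2 X σ →
  (∀ x : D X, rho σ x ≠ 1 → L x = 3 * Real.pi) ∧
  (∀ x : D X, rho σ x = 1 → rho σ (pv x) ≠ 1 → rho σ (nx x) ≠ 1 ∧ L x = Real.pi) ∧
  (∀ x : D X, rho σ x ≠ 1 → rho σ (nx x) ≠ 1 → rho σ (pv x) = 1)

/-- PROOF. If `S1 = ∅`, both sums are empty. Otherwise T_KAC with `U = univ`, `S = S1 σ`: the sum of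
`arc S1` over `S1` is the sum of all `th`, i.e. `6π` (`= tot x`, one cycle), and the sum of `fr S1`
over `S1` is `18`. For `x ∈ S1` not in `M2` (i.e. `rho (pv x) = 1`) we have `rot x = glue (pv x) ∈ S1`, so
`fr = 1` and `arc = th x`. These `x` are exactly the sides of the triangles with all `rho = 1`
(use `rho_prod`); if `t` is their number then these `x` contribute `π t` (T_TRI) and `3 t`. By
T_H2A every other triangle contains exactly one element of `M2`: `|M2| = 6 - t`. So the sums over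
`M2` are `6π - π t = π |M2|` and `18 - 3 t = 3 |M2|`. -/
def T_H2B : Prop := ∀ (X : Glued) (σ : D X → ℝ), H2 X σ →
  ∑ x ∈ M2 σ, arc (S1 σ) x = Real.pi * (M2 σ).card ∧
  ∑ x ∈ M2 σ, fr (S1 σ) x = 3 * (M2 σ).card

/-- PROOF. For `x ∈ M2`: `L x = π` (T_H2A), `glue x ∈ S1`, so `arc x ≤ L x = π` (T_ARC); by T_H2B all
are equalities: `zz x = glue x`. Also `fr x ≥ 3`: `rot x = glue (pv x) ∉ S1`; if
`rot (rot x) ∈ S1`, then `fr x = 2` and `rot (rot x) = zz x = glue x = rot (nx x)`, so `rot x = nx x`; but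
`w (rot x) = -σ x v (pv x)`, `w (nx x) = σ (nx x) v (nx x)` are not parallel (`crs_pos`). By T_H2B
`Σ fr = 3 |M2|`, hence `fr x = 3` for all `x ∈ M2`: `rot³ x = glue x = rot (nx x)`, so
`rot (rot x) = nx x`. Put `y = rot x` and `x' = nx y`. `rot y = glue (pv y) = nx x`, so
`pv y = glue (nx x)`, `rho (pv y) = 1 / rho (nx x) ≠ 1` and `rho y = 1 / rho (pv x) ≠ 1`; by T_H2A
`rho x' = 1`, and `pv x' = y`, so `x' ∈ M2`. By `w_rot'` for `y`: `w (rot y) = w y + (rho y)⁻¹ w (nx y)`,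
so `(rho y)⁻¹ w x' = w (nx x) - w (rot x)`, and by `w_rot'` for `x` (`rho x = 1`)
`w (rot x) = w x + w (nx x)`; so `w x' = - rho y * w x`. And `rot x' = glue (pv x') = glue y = pv x`
(`y = glue (pv x)`), `nx (rot x') = nx (pv x) = x`. -/
def T_H2C : Prop := ∀ (X : Glued) (σ : D X → ℝ), H2 X σ → ∀ x ∈ M2 σ,
  L x = Real.pi ∧ zz (S1 σ) x = X.glue x ∧ rot X (rot X x) = nx x ∧
  nx (rot X x) ∈ M2 σ ∧ rho σ (rot X x) ≠ 1 ∧
  w σ (nx (rot X x)) = -((rho σ (rot X x) : ℂ) * w σ x) ∧ nx (rot X (nx (rot X x))) = x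

/-- PROOF. `Σ_{x ∈ S1} w x = 0` because `glue` is an involution of `S1` with
`w (glue x) = -rho x * w x = -w x`. The `x ∈ S1` not in `M2` (`rho (pv x) = 1`) are the sides of the
triangles with all `rho = 1` (invariant under `nx`), and `w x + w (nx x) + w (pv x) = 0` there
(`tri_w`), so their sum is `0` too (`Σ w x = Σ w (nx x) = Σ w (pv x)` by reindexing, so
`3 Σ w x = 0`). Subtract. -/
def T_H2D : Prop := ∀ (X : Glued) (σ : D X → ℝ), H2 X σ → ∑ x ∈ M2 σ, w σ x = 0

/-- PROOF. Let `M = M2 σ`. If `M = ∅`: a dart `x` with `rho x ≠ 1` would by T_H2A / `rho_prod` lie in a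
triangle with exactly one side with `rho = 1`, whose `pv` has `rho ≠ 1`: an element of `M`. So
`rho ≡ 1`. Assume `M ≠ ∅`. `x ↦ x' = nx (rot x)` is an involution of `M` (T_H2C) without fixed
points (`w x' = -c w x`, `c > 0`), so `|M|` is even. `glue x ∉ M` for `x ∈ M` (`L (glue x) = 6π - π`,
but elements of `M` have `L = π`), `rho (glue x) = 1`, so `glue x ∈ P := S1 \ M`, the set of the sides
of the triangles with all `rho = 1`; `|P| = 3 (6 - |M|)` (every triangle that is not pure contains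
exactly one element of `M`), and `glue` is injective from `M` to `P`: `|M| ≤ 18 - 3 |M|`,
`|M| ≤ 4`. So `|M|` is `2` or `4`. `|M| = 2`: `M = {x, x'}`, `0 = w x + w x' = (1 - c) w x` with
`c = rho (rot x) ≠ 1`: contradiction. `|M| = 4`: `M = {x1, x1', x2, x2'}`,
`0 = (1 - c1) w x1 + (1 - c2) w x2` so all four `w` are real multiples of `w x1`, and so are the
`w (glue x) = -w x`. There are `2` pure triangles and the four darts `glue x`, `x ∈ M`, lie in them:
two different ones, say `a`, `b`, lie in the same triangle, where `σ` is constant; `b = nx a` or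
`b = pv a` (`eq_or`), so `v a` and `v b` are parallel, contradicting `crs_pos`. -/
def T_H2 : Prop := ∀ (X : Glued) (σ : D X → ℝ), H2 X σ → ∀ x : D X, rho σ x = 1

/-! ## Two vertices: H(1,1) -/

/-- the situation of H(1,1), without hyperbolic closed geodesics -/
structure H11 (X : Glued) (σ : D X → ℝ) : Prop where
  sc : Scale σ
  card : Fintype.card X.F = 8
  tot_eq : ∀ x : D X, tot x = 4 * Real.pi
  three : ∀ x y z : D X,
    (rot X).SameCycle x y ∨ (rot X).SameCycle x z ∨ (rot X).SameCycle y z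
  two : ∃ x y : D X, ¬ (rot X).SameCycle x y
  flat : Flat X σ

/-- the set of loops -/
def SL (X : Glued) : Set (D X) := {x | loop x}

open Classical in
/-- the loops at the vertex of `o` in mixed triangles (triangles with exactly one loop) -/
def MM (o : D X) : Finset (D X) :=
  univ.filter fun x => (rot X).SameCycle o x ∧ loop x ∧ ¬ loop (pv x)

open Classical in
/-- the sides of the pure triangles (all sides are loops) at the vertex of `o` -/
def PU (o : D X) : Finset (D X) :=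
  univ.filter fun x => (rot X).SameCycle o x ∧ loop x ∧ loop (pv x)

open Classical in
/-- the elements of `MM o` of the class `c` -/
def MC (σ : D X → ℝ) (o : D X) (c : ℝ) : Finset (D X) :=
  (MM o).filter fun x => rho σ (nx x) = c

open Classical in
/-- the classes at the vertex of `o` -/
def KK (σ : D X → ℝ) (o : D X) : Finset ℝ :=
  (univ.filter fun y : D X => (rot X).SameCycle o y ∧ ¬ loop y).image (rho σ)

/-- Loops and triangles. PROOF. `loop x ↔ SameCycle x (nx x)` (`loop_iff`). First: `x ~ nx x ~ pv x`.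
Second: `x`, `nx x`, `pv x` start at the three corners; by `three` two of them are in the same
cycle; not `x ~ nx x` and not `nx x ~ pv x`, so `pv x ~ x = nx (pv x)`. Third: if `x` and `pv x` are
not loops: `pv x`, `nx (pv x) = x` are not loops, so `pv (pv x) = nx x` is a loop. Others are similar
rotations. -/
def T_NL : Prop := ∀ (X : Glued) (σ : D X → ℝ), H11 X σ → ∀ x : D X,
  (loop x → loop (nx x) → loop (pv x)) ∧ (¬ loop x → ¬ loop (nx x) → loop (pv x)) ∧
  (¬ loop x → ¬ loop (pv x) → loop (nx x)) ∧ (loop x → ¬ loop (pv x) → ¬ loop (nx x)) ∧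
  (loop x → loop (pv x) → loop (nx x)) ∧ (¬ loop x → loop (nx x) → ¬ loop (pv x)) ∧
  (¬ loop x → loop (pv x) → ¬ loop (nx x))

/-- PROOF. T_LOOP: `L x` and `L (glue x)` are odd multiples of `π` with the sum `4π`, so one of them
is `π`, the other `3π`. By `Flat` the one with `π` has `rho = 1`, and `rho (glue x) = 1 / rho x`. -/
def T_LP : Prop := ∀ (X : Glued) (σ : D X → ℝ), H11 X σ → ∀ x : D X, loop x →
  rho σ x = 1 ∧ (L x = Real.pi ∨ L x = 3 * Real.pi) ∧ L x + L (X.glue x) = 4 * Real.pi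

/-- Classes. PROOF. (1) `x ∈ MM o`: `nx x` is not a loop (T_NL) and starts at the vertex of `x`
(`loop_iff`). (2) If `y` is a non-loop at `o`, then `glue y` is a non-loop at the other vertex: the
start of `glue y` is not in the cycle of `y`, so by `three` it is in the cycle of `o'`;
`rho (glue y) = 1 / rho y`. (3) so `c ↦ c⁻¹` is a bijection between the two sets of classes. -/
def T_CLS : Prop := ∀ (X : Glued) (σ : D X → ℝ), H11 X σ → ∀ o : D X,
  (∀ x ∈ MM o, rho σ (nx x) ∈ KK σ o) ∧ (∀ c ∈ KK σ o, 0 < c) ∧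
  ∀ o' : D X, ¬ (rot X).SameCycle o o' → (∀ c : ℝ, c ∈ KK σ o ↔ c⁻¹ ∈ KK σ o') ∧
    (KK σ o').card = (KK σ o).card

/-- The fan between two loops. `S = SL X`. PROOF. `x ∈ MM o`; `zz x` exists (`glue x ∈ S`, T_ARC).
Let `n = fr S x` and `y k = rot ^ k x`. `y 1 = glue (pv x)` is not a loop (so `n ≥ 2`) and
`rho (y 1) = 1 / rho (pv x) = rho x * rho (nx x) = rho (nx x)` (T_LP, `rho_prod`). For `1 ≤ k`,
`k + 1 < n`: `y (k+1) = glue (pv (y k))` is not a loop, so `pv (y k)` is not a loop, `y k` is not a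
loop, hence `nx (y k)` is a loop (T_NL) with `rho = 1`, and
`rho (y (k+1)) = 1 / rho (pv (y k)) = rho (y k)`. At the end `y n = glue (pv (y (n-1)))` is a loop, so
`Phi S x = glue (y n) = pv (y (n-1))` is a loop, `nx (Phi S x) = y (n-1)` is not a loop, so
`pv (Phi S x)` is not a loop (T_NL), it is at `o` (`Phi S x ~ nx (Phi S x) = y (n-1) ~ x`), and
`rho (nx (Phi S x)) = rho (y (n-1)) = rho (nx x)`. Injective: `Phi x = Phi x'` gives
`rot ^ n x = rot ^ n' x'` with `n ≤ n'` say, so `x = rot ^ (n' - n) x'`; `x ∈ S`, so by minimality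
`n' - n = 0` (`n' - n < n'` as `n ≥ 1`). -/
def T_PHI : Prop := ∀ (X : Glued) (σ : D X → ℝ), H11 X σ → ∀ (o : D X),
  (∀ x ∈ MM o, Phi (SL X) x ∈ MM o ∧ rho σ (nx (Phi (SL X) x)) = rho σ (nx x) ∧
    2 ≤ fr (SL X) x ∧ ((rot X) ^ (fr (SL X) x - 1)) x = nx (Phi (SL X) x) ∧
    ∀ k : ℕ, 1 ≤ k → k < fr (SL X) x →
      ¬ loop (((rot X) ^ k) x) ∧ rho σ (((rot X) ^ k) x) = rho σ (nx x)) ∧
  (∀ x ∈ MM o, ∀ y ∈ MM o, Phi (SL X) x = Phi (SL X) y → x = y)

/-- PROOF. `S = SL X`, `P` from T_POS. For a loop `x`: `L x = A x (mL x) = P (glue x) - P x + 4π j` and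
`arc x = A x (fr x) = P (zz x) - P x + 4π j'`, so `L x - arc x = P (glue x) - P (zz x) + 4π j''`.
`Phi` maps `A` to `A` and is injective on `A` (T_PHI), hence a bijection of `A`, and
`zz x = glue (Phi x)`, so `Σ_A P (zz x) = Σ_A P (glue (Phi x)) = Σ_A P (glue x)`. So the sum is `4π`
times an integer; every term is `≥ 0` (T_ARC), so the integer is a natural number `n`, and `n = 0`
forces all terms to be `0`, i.e. `arc x = L x`, `zz x = glue x` (T_ARC). -/
def T_SUMA : Prop := ∀ (X : Glued) (σ : D X → ℝ), H11 X σ → ∀ (o : D X) (A : Finset (D X)),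
  A ⊆ MM o → (∀ x ∈ A, Phi (SL X) x ∈ A) →
  ∃ n : ℕ, ∑ x ∈ A, (L x - arc (SL X) x) = 4 * Real.pi * n ∧
    (n = 0 → ∀ x ∈ A, arc (SL X) x = L x ∧ zz (SL X) x = X.glue x)

open Classical in
/-- the counting data at the vertex of `o`: `t` pure triangles, `b` of them with three angles `3π` -/
def Cnt (o : D X) (n t b : ℕ) : Prop :=
  b ≤ t ∧ (PU o).card = 3 * t ∧ (MM o).card + t = 2 * n + 2 + 2 * b ∧
  ∑ x ∈ MM o, (L x - arc (SL X) x) = 4 * Real.pi * n ∧
  ((MM o).filter fun x => L x = 3 * Real.pi).card + b = n + 1 ∧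
  ((PU o).filter fun x => L x = 3 * Real.pi).card = t + 2 * b

/-- Counting at one vertex. PROOF. `S = SL X`; the loops at `o` are `MM o ⊔ PU o`. The group
`{id, nx, pv}` acts on `PU o` (T_NL: pure triangles), so `|PU o| = 3 t`. In a pure triangle
`ΣL ≡ π mod 4π` (T_LRI) and each `L` is `π` or `3π` (T_LP), so the number of sides with `L = 3π` is
`1` or `3`; let `b` be the number of the pure triangles where it is `3`. Then the number of
`x ∈ PU o` with `L x = 3π` is `(t - b) + 3 b = t + 2 b`. Let `D` be the number of `x ∈ MM o` with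
`L x = 3π`. `glue` is an involution of the set of the loops at `o` which exchanges `L = π` and
`L = 3π` (T_LP), so `2 (D + t + 2 b) = |MM o| + 3 t`. T_KAC with `U` = the cycle of `o` (it contains
a loop since `MM o` is not empty; so every element of the cycle reaches `S`): the sum of `arc` over the loops at `o`
is `tot o = 4π`. For `x ∈ PU o`: `rot x = glue (pv x)` is a loop, so `fr x = 1`, `arc x = th x`, and
`Σ_{PU o} th = π t` (T_TRI). So `Σ_{MM o} arc = 4π - π t`. And `Σ_{MM o} L = π |MM o| + 2π D`.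
By T_SUMA with `A = MM o` (T_PHI), `Σ_{MM o} (L - arc) = 4π n`. So
`|MM o| + 2 D - 4 + t = 4 n`; with `2 D = |MM o| + 3 t - 2 t - 4 b = |MM o| + t - 4 b` we get
`2 |MM o| + 2 t = 4 n + 4 + 4 b`, and `2 D = 2 n + 2 + 2 b - 4 b`, `D + b = n + 1`. -/
def T_COUNT : Prop := ∀ (X : Glued) (σ : D X → ℝ), H11 X σ → ∀ o : D X, (MM o).Nonempty →
  ∃ n t b : ℕ, Cnt o n t b

/-- Counting the triangles. PROOF. There are `24` darts. Every dart is in a pure triangle
(all three sides are loops, all three corners at one vertex), i.e. in `PU o ⊔ PU o'`, or it is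
`x`, `nx x` or `pv x` for exactly one `x ∈ MM o ⊔ MM o'` (the unique loop of its triangle; T_NL).
The four sets `PU o`, `PU o'`, `MM o`, `MM o'` are disjoint, and the maps `x`, `nx x`, `pv x` from
`MM o ⊔ MM o'` are injective with disjoint images. -/
def T_TOT : Prop := ∀ (X : Glued) (σ : D X → ℝ), H11 X σ → ∀ o o' : D X,
  ¬ (rot X).SameCycle o o' →
  3 * (MM o).card + 3 * (MM o').card + (PU o).card + (PU o').card = 24

/-- PROOF. The sum of `w` over the loops at `o` is `0` (`glue` is an involution of this set and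
`w (glue x) = -w x` since `rho x = 1`), the sum over `PU o` is `0` (`nx` permutes `PU o`,
`w x + w (nx x) + w (pv x) = 0` by `tri_w` with `rho = 1`). The loops at `o` are `MM o ⊔ PU o`. -/
def T_RES1 : Prop := ∀ (X : Glued) (σ : D X → ℝ), H11 X σ → ∀ o : D X,
  ∑ x ∈ MM o, w σ x = 0

/-- The residue of a class. PROOF. `N` = the non-loops at `o` with `rho = c`; `N' = glue N` = the
non-loops at `o'` with `rho = c⁻¹`. A non-loop `y` has exactly one loop in its triangle: `pv y` or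
`nx y` (T_NL). So `N = nx (MC o c) ⊔ pv (MC o' c⁻¹)`: if `pv y` is a loop it is at the vertex of `y`
and in `MC o c` with `nx (pv y) = y`; if `nx y` is a loop it is at the end of `y`, i.e. at `o'`, and its
class is `rho (nx (nx y)) = rho (pv y) = 1 / (rho y * rho (nx y)) = c⁻¹`. In the same way
`N' = nx (MC o' c⁻¹) ⊔ pv (MC o c)`. For `x ∈ MC o c`: `w x = w (rot x) - w (nx x)` (`w_rot'`, `rho x = 1`)
and `rot x = glue (pv x)`; same for `x ∈ MC o' c⁻¹`. So
`Σ_{MC o c} w = Σ_{z ∈ pv (MC o c)} w (glue z) - Σ_{y ∈ nx (MC o c)} w y` and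
`c⁻¹ Σ_{MC o' c⁻¹} w = c⁻¹ (Σ_{y ∈ pv (MC o' c⁻¹)} w (glue y) - Σ_{z ∈ nx (MC o' c⁻¹)} w z)`
`= - Σ_{y ∈ pv (MC o' c⁻¹)} w y + Σ_{z ∈ nx (MC o' c⁻¹)} w (glue z)`, because `w (glue y) = -c w y`
for `y ∈ N` and `w z = -c w (glue z)` for `z ∈ N'`. The sum is
`Σ_{z ∈ N'} w (glue z) - Σ_{y ∈ N} w y = 0`. -/
def T_RES2 : Prop := ∀ (X : Glued) (σ : D X → ℝ), H11 X σ → ∀ o o' : D X,
  ¬ (rot X).SameCycle o o' → ∀ c : ℝ, 0 < c →
  ∑ x ∈ MC σ o c, w σ x + ((c⁻¹ : ℝ) : ℂ) * ∑ x ∈ MC σ o' c⁻¹, w σ x = 0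

/-- PROOF. Choose `o'` with `¬ SameCycle o o'` (from `two`). All loops have `rho = 1` (T_LP). If there
is no non-loop at `o`, there is none at all (`glue` of a non-loop at `o'` is a non-loop at `o`) and
`σ' = σ` works. Otherwise `KK σ o = {c}`, `c > 0`; `σ' x = σ x` if `SameCycle o x`, `σ' x = σ x / c`
otherwise. `Scale σ'` (the factor is constant on cycles). For a non-loop `y` at `o`, `nx y` is not in
the cycle of `o` (`loop_iff`), `rho σ' y = rho σ y / c = 1`; for a non-loop `y` not at `o`, `nx y` is at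
`o` (`three`), `rho σ y = 1 / rho σ (glue y) = c⁻¹`, `rho σ' y = 1`; for a loop `rho σ' y = rho σ y = 1`. -/
def T_K1 : Prop := ∀ (X : Glued) (σ : D X → ℝ), H11 X σ → ∀ o : D X, (KK σ o).card ≤ 1 →
  ∃ σ' : D X → ℝ, Scale σ' ∧ ∀ x : D X, rho σ' x = 1

/-- With two classes every class has loops at both vertices. PROOF. Let `c ∈ KK σ o` and suppose
`MC o c = ∅`. Let `N` be the set of the non-loops at `o` with `rho = c`; it is not empty. For `y ∈ N`,
`pv y` is not a loop (otherwise `pv y ∈ MC o c`, see T_RES2: it is at the vertex of `nx (pv y) = y`,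
`pv (pv y) = nx y` is not a loop by T_NL, class `rho (nx (pv y)) = rho y = c`). So `nx y` is a loop (T_NL), `rho (nx y) = 1`,
and `rot y = glue (pv y)` is a non-loop at `o` with
`rho (rot y) = 1 / rho (pv y) = rho y * rho (nx y) = c`: `rot y ∈ N`. So `N` is invariant under
`rot` and it is the whole cycle of `o`: `KK σ o = {c}`, contradiction to `2 ≤ card`. -/
def T_NE : Prop := ∀ (X : Glued) (σ : D X → ℝ), H11 X σ → ∀ o : D X, 2 ≤ (KK σ o).card →
  ∀ c ∈ KK σ o, (MC σ o c).Nonempty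

/-- The linear relations between the classes. PROOF. `V c = Σ_{MC o c} w`. `MM o` is the disjoint
union of the `MC o c`, `c ∈ KK σ o` (T_CLS), so `Σ_{c ∈ KK o} V c = 0` (T_RES1). At `o'`:
`0 = Σ_{MM o'} w = Σ_{c' ∈ KK o'} Σ_{MC o' c'} w = Σ_{c ∈ KK o} Σ_{MC o' c⁻¹} w = Σ_{c ∈ KK o} (-c V c)`
(T_CLS: `c ↦ c⁻¹` is a bijection, T_RES2). -/
def T_LIN : Prop := ∀ (X : Glued) (σ : D X → ℝ), H11 X σ → ∀ o : D X,
  ∑ c ∈ KK σ o, ∑ x ∈ MC σ o c, w σ x = 0 ∧
  ∑ c ∈ KK σ o, (c : ℂ) * ∑ x ∈ MC σ o c, w σ x = 0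

/-- The numbers. PROOF. T_NE: all `MC o c`, `c ∈ KK o`, and all `MC o' c'`, `c' ∈ KK o'`, are nonempty
(`(KK o').card = (KK o).card ≥ 2`, T_CLS), so `MM o`, `MM o'` are nonempty and T_COUNT applies at both
vertices. `MM o` is the disjoint union of the `MC o c`, so `|MM o| ≥ |KK o|`. T_TOT:
`|MM o| + |MM o'| + t + t' = 8`, with `|MM o| = 2n + 2 + 2b - t` etc.: `n + n' + b + b' = 2`. -/
def T_NUM : Prop := ∀ (X : Glued) (σ : D X → ℝ), H11 X σ → ∀ o o' : D X,
  ¬ (rot X).SameCycle o o' → 2 ≤ (KK σ o).card →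
  ∃ n t b n' t' b' : ℕ, Cnt o n t b ∧ Cnt o' n' t' b' ∧ n + b + n' + b' = 2 ∧
    (KK σ o).card ≤ (MM o).card ∧ (KK σ o).card ≤ (MM o').card

/-- A class with one element is fixed. PROOF. If `MC o c = {x}`, then `Phi x ∈ MC o c` (T_PHI), so
`Phi x = x`, i.e. `glue (zz x) = x`, `zz x = glue x`, `arc x = L x` (T_ARC). -/
def T_FIX : Prop := ∀ (X : Glued) (σ : D X → ℝ), H11 X σ → ∀ (o : D X) (c : ℝ),
  (MC σ o c).card = 1 → ∀ x ∈ MC σ o c,
    Phi (SL X) x = x ∧ zz (SL X) x = X.glue x ∧ arc (SL X) x = L x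

/-- Two classes are impossible. PROOF. Let `KK o = {c, c'}`. T_LIN: `V c + V c' = 0`,
`c V c + c' V c' = 0`, `c ≠ c'`, so `V c = V c' = 0`. Each class is nonempty at `o` (T_NE), and
`w ≠ 0`, so `|MC o c| ≥ 2`, `|MC o c'| ≥ 2`, `|MM o| ≥ 4`. The same holds at `o'`. T_NUM:
`2n + 2 + 2b - t ≥ 4` with `b ≤ t`, so `2n + b ≥ 2`, `2n' + b' ≥ 2`, and `n + n' + b + b' = 2` gives
`2 (n + n') + (b + b') ≥ 4 = 2(n+n') + 2(b+b')`, so `b = b' = 0`, `n = n' = 1`, and then `t = 0`
(`4 - t ≥ 4`). So at `o`: no pure triangles, `|MM o| = 4`, `|MC o c| = |MC o c'| = 2`, exactly two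
`x ∈ MM o` have `L x = 3π`, `Σ_{MM o} L = 8π`, `Σ_{MM o} arc = 4π`. T_SUMA for `A = MC o c` and
`A = MC o c'` (invariant by T_PHI): `n_c + n_c' = 1`, so one of the classes, say `c`, has
`n_c = 0`: its elements `x1 ≠ x2` satisfy `zz x_i = glue x_i`, `arc x_i = L x_i`. If
`x2 = glue x1`, then `arc x1 + arc x2 = L x1 + L (glue x1) = 4π` and the other two arcs would have
the sum `0`, impossible (T_ARC). So `L x1 + L x2 < 4π`, `L x1 = L x2 = π`, and `glue x1`, `glue x2`
are loops at `o`, i.e. in `MM o`, not in `MC o c`: `MC o c' = {glue x1, glue x2}`, and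
`arc (glue x1) + arc (glue x2) = 2π`. `w x1 + w x2 = V c = 0`. `Phi` permutes `{glue x1, glue x2}`; if it fixes them then all
four are fixed and `Σ (L - arc) = 0 ≠ 4π`; so `zz (glue x1) = glue (Phi (glue x1)) = glue (glue x2) = x2`.
By T_DIR `w x2 = r exp (i arc (glue x1)) w (glue x1) = -r exp (i arc (glue x1)) w x1`, and
`w x2 = -w x1`, so `r exp (i arc (glue x1)) = 1` with `0 < arc (glue x1) < 2π`: contradiction. -/
def T_K2 : Prop := ∀ (X : Glued) (σ : D X → ℝ), H11 X σ → ∀ o : D X, (KK σ o).card ≠ 2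

/-- Four classes are impossible. PROOF. T_NUM: `|MM o| ≥ 4`, `|MM o'| ≥ 4`, as in T_K2:
`b = b' = 0`, `n = n' = 1`, `t = t' = 0`, `|MM o| = 4`, so `|KK o| = 4` and every class has exactly
one element (T_NE), hence is fixed (T_FIX): `arc x = L x` for all `x ∈ MM o`, and
`Σ_{MM o} (L - arc) = 0 ≠ 4π`. -/
def T_K4 : Prop := ∀ (X : Glued) (σ : D X → ℝ), H11 X σ → ∀ o : D X, ¬ 4 ≤ (KK σ o).card

/-- the structure at one vertex when there are three classes -/
structure Side (X : Glued) (σ : D X → ℝ) (o : D X) (c0 c1 c2 : ℝ) (x1 x2 : D X) : Prop where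
  ne01 : c0 ≠ c1
  ne02 : c0 ≠ c2
  ne12 : c1 ≠ c2
  kk : ∀ c : ℝ, c ∈ KK σ o ↔ c = c0 ∨ c = c1 ∨ c = c2
  mm : ∀ x : D X, x ∈ MM o ↔ x = x1 ∨ x = x2 ∨ x = X.glue x1 ∨ x = X.glue x2
  mc0 : ∀ x : D X, x ∈ MC σ o c0 ↔ x = X.glue x1 ∨ x = X.glue x2
  mc1 : ∀ x : D X, x ∈ MC σ o c1 ↔ x = x1
  mc2 : ∀ x : D X, x ∈ MC σ o c2 ↔ x = x2
  ne : X.glue x1 ≠ X.glue x2
  pure : ∀ x : D X, (rot X).SameCycle o x → loop x → x ∈ MM o
  zz1 : zz (SL X) x1 = X.glue x1
  zz2 : zz (SL X) x2 = X.glue x2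
  zz3 : zz (SL X) (X.glue x1) = x2
  zz4 : zz (SL X) (X.glue x2) = x1
  ratio : ∃ k : ℝ, 0 < k ∧ w σ x2 = (k : ℂ) * w σ x1 ∧ (c1 - c0) + k * (c2 - c0) = 0

/-- Three classes. PROOF. Choose `o'`. T_NUM: `|MM o| ≥ 3`, so `2n + 2 + 2b - t ≥ 3`, with `b ≤ t`:
`2n + b ≥ 1 + (t - b)`; in particular `n + b ≥ 1`; same at `o'`; the sum is `2`, so `n + b = 1`.
CASE `b = 1, n = 0`: `1 ≥ 1 + (t - 1)` gives `t = 1`; `|MM o| = 3`, `|PU o| = 3`, all three
`x ∈ PU o` have `L = 3π`, no `x ∈ MM o` has. Each of the three classes has exactly one element. Let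
`PU o = {p, nx p, pv p}`. `glue` of each of them has `L = π`, so is in `MM o`: the three elements of
`MM o` are `glue p, glue (nx p), glue (pv p)`, with different classes `a, b', c'`. T_LIN:
`a w (glue p) + b' w (glue (nx p)) + c' w (glue (pv p)) = 0`, `w (glue p) = -w p`, ...;
`w p + w (nx p) + w (pv p) = 0` and `w p`, `w (nx p)` are linearly independent over the reals
(`crs_pos`, same scale): `a = b' = c'`, contradiction. CASE `n = 1, b = 0`: `2 ≥ 1 + t`, `t ≤ 1`.
If `t = 1`, `|MM o| = 3`, each class has one element and is fixed (T_FIX), `Σ_{MM o}(L - arc) = 0`,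
but it is `4π`: contradiction. So `t = 0`: `PU o = ∅`, `|MM o| = 4`, two elements have `L = 3π`,
`Σ_{MM o} L = 8π`, `Σ_{MM o} arc = 4π`. The class sizes are `2, 1, 1`: `|MC o c0| = 2`,
`MC o c1 = {x1}`, `MC o c2 = {x2}`; `x1`, `x2` are fixed (T_FIX). If `x2 = glue x1`, then
`arc x1 + arc x2 = L x1 + L (glue x1) = 4π` and the other two arcs would have the sum `0`. So
`x2 ≠ glue x1`, `L x1 + L x2 = arc x1 + arc x2 < 4π`, `L x1 = L x2 = π`. `glue x1`, `glue x2` are
loops at `o`, so in `MM o`, different from `x1`, `x2` and from each other: `MC o c0 = {glue x1, glue x2}`.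
`Phi` permutes `MC o c0` (T_PHI); if it is the identity there, all four are fixed and the sum is
`0 ≠ 4π`; so `Phi (glue x1) = glue x2`, i.e. `zz (glue x1) = x2`, and `zz (glue x2) = x1`.
T_LIN with `V c0 = -w x1 - w x2`: `(c1 - c0) w x1 + (c2 - c0) w x2 = 0`, so `w x2 = k w x1`,
`k = -(c1 - c0)/(c2 - c0)`, real. T_DIR: `w x2 = r exp (i arc (glue x1)) w (glue x1)`
`= -r exp (i arc (glue x1)) w x1`, so `exp (i arc (glue x1)) = -k / r` is real, and
`0 < arc (glue x1) < arc (glue x1) + arc (glue x2) = 2π`: `arc (glue x1) = π`, `k = r > 0`. -/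
def T_K3 : Prop := ∀ (X : Glued) (σ : D X → ℝ), H11 X σ → ∀ o : D X, (KK σ o).card = 3 →
  ∃ (c0 c1 c2 : ℝ) (x1 x2 : D X), Side X σ o c0 c1 c2 x1 x2

/-- The double class is the same at both vertices. PROOF. `{d0, d1, d2} = {c0⁻¹, c1⁻¹, c2⁻¹}` (T_CLS).
By `ratio`, `c0` lies strictly between `c1` and `c2`, and `d0` strictly between `d1` and `d2`. The
map `c ↦ c⁻¹` reverses the order, so the middle element `d0` is `c0⁻¹`; then
`{d1, d2} = {c1⁻¹, c2⁻¹}`; if `d1 = c2⁻¹` exchange `y1` and `y2`: `Side` is symmetric under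
`(c1, x1) ↔ (c2, x2)` (with `k ↦ 1/k`). -/
def T_MID : Prop := ∀ (X : Glued) (σ : D X → ℝ), H11 X σ → ∀ o o' : D X,
  ¬ (rot X).SameCycle o o' → ∀ (c0 c1 c2 d0 d1 d2 : ℝ) (x1 x2 y1 y2 : D X),
  Side X σ o c0 c1 c2 x1 x2 → Side X σ o' d0 d1 d2 y1 y2 →
  ∃ z1 z2 : D X, Side X σ o' c0⁻¹ c1⁻¹ c2⁻¹ z1 z2

/-- The outer cylinders. PROOF. `S = SL X`, `n = fr S x1`. `x1 ∈ MM o`, so `rot x1 = glue (pv x1)` is not a
loop. `zz x1 = glue x1 = rot (nx x1)` so `rot ^ (n-1) x1 = nx x1`. `n ≥ 3`: otherwise `n = 2`,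
`rot x1 = nx x1`, but `w (rot x1) = -σ x1 v (pv x1)` and `w (nx x1) = σ (nx x1) v (nx x1)` are not
parallel (`crs_pos`). For `1 ≤ k ≤ n - 2` let `y = rot ^ k x1`: `y` and `rot y = glue (pv y)` are
non-loops of the class `c1` at `o` (T_PHI), so `nx y` is a loop at the end of `y`, i.e. at `o'`, with
the class `rho (nx (nx y)) = rho (pv y) = 1 / rho y = c1⁻¹`, so `nx y = y1` by `mc1` of the second
`Side`, `y = pv y1`. If `n ≥ 4` then `k = 1` and `k = 2` give `rot x1 = rot (rot x1)`, `x1 = rot x1`,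
contradiction (`x1` is a loop). So `n = 3`, `rot x1 = pv y1`, i.e. `glue (pv x1) = pv y1`, and
`rot (rot x1) = nx x1`, i.e. `glue (pv (pv y1)) = glue (nx y1) = nx x1`. The last two claims:
T_RES2 with `c = c1` (`MC o c1 = {x1}`, `MC o' c1⁻¹ = {y1}`, `c1 > 0` by T_CLS): `w x1 + c1⁻¹ w y1 = 0`; same for
`c2`. -/
def T_FAN : Prop := ∀ (X : Glued) (σ : D X → ℝ), H11 X σ → ∀ o o' : D X,
  ¬ (rot X).SameCycle o o' → ∀ (c0 c1 c2 : ℝ) (x1 x2 y1 y2 : D X),
  Side X σ o c0 c1 c2 x1 x2 → Side X σ o' c0⁻¹ c1⁻¹ c2⁻¹ y1 y2 →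
  X.glue (pv x1) = pv y1 ∧ X.glue (nx y1) = nx x1 ∧ w σ y1 = -((c1 : ℂ) * w σ x1) ∧
  w σ y2 = -((c2 : ℂ) * w σ x2)

/-! ## Strips (horizontal flat cylinders) -/

/-- A strip with the bottom direction `e`, the height `h` (in the scale of the bottom), made of
transversals `y k` from the bottom point `B k` to the top point `U k`, moving to the right;
`c` = (scale at the top) / (scale at the bottom). -/
structure Strip (X : Glued) (σ : D X → ℝ) (e : ℂ) (h c : ℝ) (y : ℕ → D X) (B U : ℕ → ℝ) :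
    Prop where
  hpos : 0 < h
  cpos : 0 < c
  w_eq : ∀ k, w σ (y k) = (((U k - B k : ℝ) : ℂ) + (h : ℂ) * Complex.I) * e
  rho_eq : ∀ k, rho σ (y k) = c
  step : ∀ k, (y (k + 1) = pv (X.glue (y k)) ∧ U (k + 1) = U k ∧ B k < B (k + 1)) ∨
    (y (k + 1) = nx (X.glue (y k)) ∧ B (k + 1) = B k ∧ U k < U (k + 1))

/-- Crossing a strip from the base side `g = nx (glue (y 0))` (from `B 0` to `B 1`) to the top side
`g' = pv (glue (y l))` (from `U (l+1)` back to `U l`), along the segment from the bottom point `X0` to the top point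
`X1`. PROOF. Let `s_T` be the scale at the bottom in a triangle. For `1 ≤ k ≤ l` let
`p k = (B k - X0) / ((B k - X0) + (X1 - U k))`, in `(0, 1)` because `B k ≥ B 1 > X0` and
`U k ≤ U l < X1` (`B`, `U` are monotone): the segment meets `y k` at the fraction `p k` from the
bottom: `B k + p k (U k - B k) = X0 + p k (X1 - X0)`; `p` is strictly increasing. Steps (all with
`d = ((X1 - X0) + h i) e`): from `(g, s)`, `s = (X0 - B 0)/(B 1 - B 0)`, to `(glue (y 1), 1 - p 1)`
through `y 1 = nx g` [`g, y 1` are sides of the triangle of `glue (y 0)`, `w g = (B 1 - B 0) e` by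
`tri_w`]: the difference of the points times `σ g` is `(1-s) w g + p 1 w (y 1) = p 1 * d`.
From `(glue (y k), 1 - p k)` to `(glue (y (k+1)), 1 - p (k+1))` through `y (k+1)` for `1 ≤ k < l`: if
`y (k+1) = pv (glue (y k))`, `cor (glue (y k)) = cor (y (k+1)) + v (y (k+1))`; if
`y (k+1) = nx (glue (y k))`, `cor (y (k+1)) = cor (glue (y k)) + v (glue (y k))`; with the bottom
scale `s_T` of the triangle of `glue (y k)`: `s_T v (glue (y k)) = -w (y k)`,
`s_T v (y (k+1)) = w (y (k+1))`; in both cases the difference times `s_T` is `(p (k+1) - p k) d`.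
Last step from `(glue (y l), 1 - p l)` to `(glue g', s')`, `s' = (X1 - U l)/(U (l+1) - U l)`, through
`g'` (`nx g' = glue (y l)`, `s_T v g' = w (y l) - w (y (l+1)) = -(U (l+1) - U l) e`): the difference
times `s_T` is `s' (U (l+1) - U l) e + (1 - p l) w (y l) = (1 - p l) d`.
MULTIPLIER: `mu (y (k+1)) = σ (y (k+1)) / σ (nx (glue (y (k+1))))` (`mu_eq'`) and
`σ (y (k+1)) = σ (nx (glue (y k)))` (trivial if `y (k+1) = nx (glue (y k))`; otherwise
`rho (nx (glue (y k))) = 1` by `rho_prod` as `rho (glue (y k)) = c⁻¹`, `rho (y (k+1)) = c`). So the product of the first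
`l` multipliers is `σ g / σ (nx (glue (y l)))`; the last one is
`mu g' = σ (glue (y l)) / σ (glue g')` (`mu_eq`) with `σ (glue (y l)) = c σ (nx (glue (y l)))`. -/
def T_STRIP : Prop := ∀ (X : Glued) (σ : D X → ℝ), Scale σ → ∀ (e : ℂ) (h c : ℝ)
  (y : ℕ → D X) (B U : ℕ → ℝ), e ≠ 0 → Strip X σ e h c y B U →
  y 1 = pv (X.glue (y 0)) → ∀ l : ℕ, 1 ≤ l → y (l + 1) = nx (X.glue (y l)) →
  ∀ X0 X1 : ℝ, B 0 < X0 → X0 < B 1 → U l < X1 → X1 < U (l + 1) →
  Pth ((((X1 - X0 : ℝ) : ℂ) + (h : ℂ) * Complex.I) * e)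
    (nx (X.glue (y 0)), (X0 - B 0) / (B 1 - B 0))
    (X.glue (pv (X.glue (y l))), (X1 - U l) / (U (l + 1) - U l))
    (c * σ (nx (X.glue (y 0))) / σ (X.glue (pv (X.glue (y l)))))

open Classical in
/-- moving to the right along the transversals of a strip -/
def stp (y : D X) : D X := if loop (nx (X.glue y)) then pv (X.glue y) else nx (X.glue y)

/-- One step to the right. `c0` is any class. PROOF. `y` is a non-loop at `o` with `rho y = c0`, so
`glue y` is a non-loop at `o'` (`three`) with `rho = c0⁻¹`, and `nx (glue y)` is at `o`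
(`rot (nx (glue y)) = y`). If `g = nx (glue y)` is a loop: `pv g = glue y` is not, so `g ∈ MM o`,
`pv (glue y) = nx g` is a non-loop at `o` (T_NL) with `rho = 1 / (c0⁻¹ * 1) = c0` (`rho_prod`, T_LP), so `g ∈ MC o c0`;
`w y = w (rot g) = w g + w (nx g)` (`w_rot'`). If `g' ` is not a loop, where `y' = nx (glue y)`:
`pv (glue y)` is a loop (T_NL) at `o'` (its end is the start of `glue y`), `pv (pv (glue y)) = y'` is
not a loop, its class is `rho (nx (pv (glue y))) = rho (glue y) = c0⁻¹`; `rho y' = 1/(c0⁻¹ * 1) = c0`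
and `y'` is at `o`. `tri_w` for `y'` (`nx y' = pv (glue y)`, `pv y' = glue y`):
`w y' + c0⁻¹ w (pv (glue y)) + c0⁻¹ w (glue y) = 0`, and `w (glue y) = -c0 w y`. Injectivity of
`stp`: in the first case `pv (stp y) = nx (glue y)` is a loop, in the second `pv (stp y) = glue y` is
not; so `stp y = stp z` are in the same case, and then `glue y = glue z`. -/
def T_STEP : Prop := ∀ (X : Glued) (σ : D X → ℝ), H11 X σ → ∀ o o' : D X,
  ¬ (rot X).SameCycle o o' → ∀ c0 : ℝ,
  (∀ y : D X, (rot X).SameCycle o y → ¬ loop y → rho σ y = c0 →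
    ((rot X).SameCycle o (stp y) ∧ ¬ loop (stp y) ∧ rho σ (stp y) = c0) ∧
    (loop (nx (X.glue y)) → stp y = pv (X.glue y) ∧ nx (X.glue y) ∈ MC σ o c0 ∧
      w σ (nx (X.glue y)) = w σ y - w σ (stp y)) ∧
    (¬ loop (nx (X.glue y)) → stp y = nx (X.glue y) ∧ pv (X.glue y) ∈ MC σ o' c0⁻¹ ∧
      (c0 : ℂ)⁻¹ * w σ (pv (X.glue y)) = w σ y - w σ (stp y))) ∧
  (∀ y z : D X, ¬ loop y → ¬ loop z → stp y = stp z → y = z)

/-- The middle cylinder is connected. PROOF. `S = SL X`, `b1 = glue x1`, `b2 = glue x2`,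
`n1 = fr S b1`, `n2 = fr S b2`, both `≥ 2` (T_PHI). `rot ^ n1 b1 = zz b1 = x2 = glue b2 = rot (nx b2)`, so
`rot ^ (n1-1) b1 = nx b2`; in the same way `rot ^ (n2-1) b2 = nx b1`. For `2 ≤ j < n1`:
`stp (rot ^ j b1) = rot ^ (j-1) b1`, since `z = rot ^ (j-1) b1` is not a loop,
`rot z = glue (pv z)`, `nx (glue (rot z)) = nx (pv z) = z` is not a loop. `stp (rot b1) = nx b1`, since
`glue (rot b1) = pv b1`, `nx (pv b1) = b1` is a loop and `pv (pv b1) = nx b1`. The same for `b2`. So the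
`stp`-orbit of `rot b1` is `rot b1, nx b1 = rot ^ (n2-1) b2, ..., rot b2, nx b2 = rot ^ (n1-1) b1, ...,
rot b1`: it contains all `rot ^ j b_i`, `1 ≤ j < n_i`, and returns to `rot b1`. Every non-loop `y` at
`o` with `rho y = c0` is one of these: let `j ≥ 1` be minimal such that `b = rot ^ (-j) y` is a loop
(there is a loop in the cycle); then `y = rot ^ j b`, `1 ≤ j < fr S b`, `rot b` is not a loop, so
`pv b` is not, `b ∈ MM o`, and `rho (nx b) = rho (rot ^ j b) = rho y = c0` (T_PHI), so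
`b ∈ MC o c0 = {b1, b2}`. The second claim (period) is the return. -/
def T_TRANS : Prop := ∀ (X : Glued) (σ : D X → ℝ), H11 X σ → ∀ (o : D X) (c0 c1 c2 : ℝ)
  (x1 x2 : D X), Side X σ o c0 c1 c2 x1 x2 →
  (∀ y : D X, (rot X).SameCycle o y → ¬ loop y → rho σ y = c0 →
    ∃ k : ℕ, stp^[k] (rot X (X.glue x1)) = y) ∧
  ∃ N : ℕ, 1 ≤ N ∧ stp^[N] (rot X (X.glue x1)) = rot X (X.glue x1)

/-- The middle strip. `e = w (glue x1)`. PROOF. `y k = stp^[k] (rot (glue x1))`; all `y k` are
non-loops at `o` with `rho = c0` (T_STEP; for `k = 0` use T_PHI with `x = glue x1 ∈ MC o c0`, `k = 1`).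
The loops in `MC o c0 = {glue x1, glue x2}` have `w = e`, resp. `w = k e` with `k > 0` (`ratio`,
`w (glue x_i) = -w x_i`), those in `MC o' c0⁻¹ = {glue y1, glue y2}` have
`w (glue y1) = -w y1 = c1 w x1 = -c1 e`, `w (glue y2) = -w y2 = c2 w x2 = -c2 k e` (T_FAN). Let
`z k = w (y k) / e`, a complex number; by T_STEP `z k - z (k+1)` is a positive real number `δ k` if
`nx (glue (y k))` is a loop (bottom step), and a negative real number `-c0⁻¹ c1` or `-c0⁻¹ c2 k` otherwise (top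
step). So `h = Im (z k)` is constant; `h > 0`: `w (rot b) / w b = -v (pv b) / v b` has positive
imaginary part (`b = glue x1`, T_DIR or `crs_pos`). Define `B 0 = 0`, `U 0 = Re (z 0)`, and
recursively `B (k+1) = B k + δ k`, `U (k+1) = U k` (bottom step), `B (k+1) = B k`,
`U (k+1) = U k + (Re z (k+1) - Re z k)` (top step). Then `U k - B k = Re (z k)`. This is a `Strip`.
`glue (y 0) = pv (glue x1)`, so `nx (glue (y 0)) = glue x1`, a loop: bottom step with `δ 0 = 1`. Let
`N ≥ 1` be a period (T_TRANS: `y (k + N) = y k`); the increments of `B` and `U` are `N`-periodic and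
`U - B` is periodic, so `B (k+N) - B k = U (k+N) - U k = ℓ` with `ℓ ≥ 1 > 0` (the increments sum over one period does
not depend on `k`; the step `0` contributes `1`). By T_TRANS there is `l0` with
`y l0 = glue (nx (glue y1))`: this is a non-loop at `o` with `rho = c0` [`glue y1 ∈ MC o' c0⁻¹`, so
`nx (glue y1)` is a non-loop at `o'` with `rho = c0⁻¹`]; we may take `l0 ≥ 1` (add `N`). There
`glue (y l0) = nx (glue y1)`, `nx (glue (y l0)) = pv (glue y1)` is not a loop, so it is a top step with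
`pv (glue (y l0)) = glue y1`, and `U (l0+1) - U l0 = c0⁻¹ c1`. -/
def T_S0 : Prop := ∀ (X : Glued) (σ : D X → ℝ), H11 X σ → ∀ o o' : D X,
  ¬ (rot X).SameCycle o o' → ∀ (c0 c1 c2 : ℝ) (x1 x2 y1 y2 : D X),
  Side X σ o c0 c1 c2 x1 x2 → Side X σ o' c0⁻¹ c1⁻¹ c2⁻¹ y1 y2 →
  ∃ (h : ℝ) (y : ℕ → D X) (B U : ℕ → ℝ) (l0 N : ℕ) (ell : ℝ),
    Strip X σ (w σ (X.glue x1)) h c0 y B U ∧ B 0 = 0 ∧ B 1 = 1 ∧
    y 1 = pv (X.glue (y 0)) ∧ nx (X.glue (y 0)) = X.glue x1 ∧ 1 ≤ l0 ∧ 0 < ell ∧
    ∀ M : ℕ, y (l0 + N * M + 1) = nx (X.glue (y (l0 + N * M))) ∧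
      pv (X.glue (y (l0 + N * M))) = X.glue y1 ∧
      U (l0 + N * M) = U l0 + M * ell ∧
      U (l0 + N * M + 1) = U (l0 + N * M) + c1 / c0

/-- The outer strip, explicit. `e = w (glue x1) = -w x1`. PROOF. T_FAN: `glue (pv x1) = pv y1`,
`glue (nx y1) = nx x1`. `y (2j) = pv x1`, `y (2j+1) = nx y1`; `w (pv x1) / e = u + h i` with `h > 0`
(`crs (-v x1) (v (pv x1)) = crs (v x1) (v (nx x1)) > 0`). `B (2j) = j c1`, `B (2j+1) = (j+1) c1`,
`U (2j) = U (2j+1) = u + j c1`. Step `2j`: `glue (pv x1) = pv y1`, `pv (pv y1) = nx y1` (bottom step, base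
`nx (pv y1) = y1`, `w y1 = -c1 w x1 = c1 e`); `w (nx y1) = w (rot y1) - w y1 = w (pv x1) - c1 e`
(`w_rot'` with `rho y1 = 1`; `rot y1 = glue (pv y1) = pv x1`). Step `2j+1`: `glue (nx y1) = nx x1`,
`nx (nx x1) = pv x1` (top step). `rho (pv x1) = 1 / rho (nx x1) = c1⁻¹` (`rho x1 = 1`),
`rho (nx y1) = c1⁻¹` (`mc1`). -/
def T_S1 : Prop := ∀ (X : Glued) (σ : D X → ℝ), H11 X σ → ∀ o o' : D X,
  ¬ (rot X).SameCycle o o' → ∀ (c0 c1 c2 : ℝ) (x1 x2 y1 y2 : D X),
  Side X σ o c0 c1 c2 x1 x2 → Side X σ o' c0⁻¹ c1⁻¹ c2⁻¹ y1 y2 →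
  ∃ (h u : ℝ), Strip X σ (w σ (X.glue x1)) h c1⁻¹
    (fun k => if k % 2 = 0 then pv x1 else nx y1)
    (fun k => ((k + 1) / 2 : ℕ) * c1) (fun k => u + (k / 2 : ℕ) * c1)

/-- PROOF. Put `β = h' + h0 c1`, `α = h' c1 / c0 + h0 c1` (both positive) and
`R = h' (u1 + M ell) - h0 u' - h0 j c1`. The equation is `R = s β - t α`. Choose `M` so large that
`h' (u1 + M ell) - h0 u' ≥ 0` and `j = ⌊(h' (u1 + M ell) - h0 u') / (h0 c1)⌋`, so
`0 ≤ R < h0 c1`. Choose `t ∈ (0, 1)` with `t α < h'`; `s = (R + t α) / β`: `0 < s` and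
`R + t α < h0 c1 + h' = β`. -/
def T_ARI : Prop := ∀ h0 h' c0 c1 ell u1 u' : ℝ, 0 < h0 → 0 < h' → 0 < c0 → 0 < c1 →
  0 < ell → ∃ (M j : ℕ) (s t : ℝ), 0 < s ∧ s < 1 ∧ 0 < t ∧ t < 1 ∧
    h' * (u1 + M * ell + t * (c1 / c0) - s) = h0 * (u' + j * c1 + s * c1 - t * c1)

/-- The hyperbolic geodesic through the middle and one outer cylinder. PROOF. Take the strips of
T_S0 (`h0 = h`, `e = w (glue x1)`) and T_S1 (`h'`, `u'`), and `M, j, s, t` from T_ARI with
`u1 = U l0`. T_STRIP for the first strip with `X0 = s`, `l = l0 + N M`, `X1 = U l + t c1/c0`: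
a path from `(glue x1, s)` to `(glue (glue y1), t) = (y1, t)` of the direction
`d0 = ((X1 - X0) + h0 i) e` with the multiplier `c0 σ (glue x1) / σ y1`. T_STRIP for the second
strip (`y 0 = pv x1`, `glue (pv x1) = pv y1` by T_FAN, base `nx (pv y1) = y1`, `B 0 = 0`, `B 1 = c1`)
with `X0' = t c1`, `l' = 2 j + 1`
(`glue (nx y1) = nx x1`, `pv (nx x1) = x1`), `X1' = u' + j c1 + s c1`: a path from `(y1, t)` to
`(glue x1, s)` of the direction `d1 = ((X1' - X0') + h' i) e` with the multiplier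
`c1⁻¹ σ y1 / σ (glue x1)`. The equation of T_ARI says `h' (X1 - X0) = h0 (X1' - X0')`, so
`d0 = (h0 / h') d1`; T_PSC. The composition (`Pth.trans`) is closed with the multiplier
`c0 / c1 ≠ 1`, `d0 ≠ 0`; T_PTH. -/
def T_FIN : Prop := ∀ (X : Glued) (σ : D X → ℝ), H11 X σ → ∀ o o' : D X,
  ¬ (rot X).SameCycle o o' → ∀ (c0 c1 c2 : ℝ) (x1 x2 y1 y2 : D X),
  Side X σ o c0 c1 c2 x1 x2 → Side X σ o' c0⁻¹ c1⁻¹ c2⁻¹ y1 y2 → HasHyperbolic X

end Pool.Agent.GTW
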